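import Pool.Agent.MGF.Defs2
/-!
MGF: asymmetric cells. The triangle with the largest central defect is vertex 0; in each of the three squares
it lies behind the side `X = +c`. Two side functionals: `Fb` for the big triangle, `Fs` for the three others.
-/
set_option autoImplicit false

open MeasureTheory Set Metric Pool.Agent.MEIS Pool.Agent.MSQ Pool.Agent.MGE

namespace Pool.Agent.MGF

noncomputable section

/-- individual loads of the four sides: `b1` behind `X = c`, `b2` behind `X = -c`, `b3` behind `Y = c`,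
`b4` behind `Y = -c` -/
structure SqL (J : Jet) (b1 b2 b3 b4 : ℝ) : Prop where
  ldXp : ∀ Y : ℝ, |Y| ≤ cc → cc - J.f (cc, Y) ≤ b1 * (cc + |Y|)
  ldXm : ∀ Y : ℝ, |Y| ≤ cc → cc - J.f (-cc, Y) ≤ b2 * (cc + |Y|)
  ldYp : ∀ X : ℝ, |X| ≤ cc → cc - (lf (X, cc) - J.f (X, cc)) ≤ b3 * (cc + |X|)
  ldYm : ∀ X : ℝ, |X| ≤ cc → cc - (lf (X, -cc) - J.f (X, -cc)) ≤ b4 * (cc + |X|)

/-- An asymmetric cell certificate: the largest central defect is in `[be, bb]`, the three others are at most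
`bs`, and the sum of all four is at most `143/1000`. No condition on `J.f (0,0)`. -/
structure Cell2 (Fb Fs : ℝ → ℝ → ℝ → ℝ → ℝ) (KN Kp KS be bb bs : ℝ) : Prop where
  symb : Fsym Fb
  syms : Fsym Fs
  contb : Continuous fun z : ℝ × ℝ × ℝ × ℝ => Fb z.1 z.2.1 z.2.2.1 z.2.2.2
  conts : Continuous fun z : ℝ × ℝ × ℝ × ℝ => Fs z.1 z.2.1 z.2.2.1 z.2.2.2
  tri0 : ∀ (T : E → ℝ) (b : ℝ), TrHyp T b → b ≤ bs → sF0 Fs T + sF1 Fs T + sF2 Fs T - KN ≤ CN T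
  tri1 : ∀ (T : E → ℝ) (b : ℝ), TrHyp T b → be ≤ b → b ≤ bb →
    sF0 Fb T + sF1 Fb T + sF2 Fb T + Kp ≤ CN T
  sq : ∀ (J : Jet) (b1 b2 b3 b4 : ℝ), SqHyp J b1 → SqL J b1 b2 b3 b4 → be ≤ b1 → b1 ≤ bb →
    0 ≤ b2 → 0 ≤ b3 → 0 ≤ b4 → b2 ≤ bs → b3 ≤ bs → b4 ≤ bs → b1 + b2 + b3 + b4 ≤ 143 / 1000 →
    -(sXp Fb J + sXm Fs J + sYp Fs J + sYm Fs J) - KS ≤ JM J
  tot : 3 * KN + 3 * KS ≤ Kp

end

end Pool.Agent.MGF
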