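import Pool.Agent.MGF.Defs
/-!
MGF: the side functionals of the cell certificates.
-/
set_option autoImplicit false

open MeasureTheory Set Metric Pool.Agent.MEIS Pool.Agent.MSQ Pool.Agent.MGE

namespace Pool.Agent.MGF

noncomputable section

/-- the norm on a side, `t = Y/c` -/
def lt (t : ℝ) : ℝ := √((3 + t ^ 2) / 2)

/-- the side functional with coefficient lists `f0 .. f6` over the denominator `D` -/
def FF (D : Int) (f0 f1 f2 f3 f4 f5 f6 : List Int) (t e1 e2 e3 : ℝ) : ℝ :=
  1 / √2 / D * (evL t f0 * ((1 + t) * e1 + (1 - t) * e2) +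
    √2 / lt t ^ 3 * (evL t f1 * (e1 - e2) ^ 2 + evL t f2 * ((e1 - e2) * e3) +
      evL t f3 * (((1 + t) * e1 + (1 - t) * e2) * e3) + evL t f4 * ((1 + t) * e1 + (1 - t) * e2) ^ 2 +
      evL t f5 * e3 ^ 2 + evL t f6 * (((1 + t) * e1 + (1 - t) * e2) * (e1 - e2))))

/-- all coefficients of odd degree vanish -/
def evenL : List Int → Bool
  | [] => true
  | [_] => true
  | _ :: b :: r => b == 0 && evenL r
/-- all coefficients of even degree vanish -/
def oddL : List Int → Bool
  | [] => true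
  | a :: r => a == 0 && evenL r

theorem evL_even (t : ℝ) : ∀ f : List Int, evenL f = true → evL (-t) f = evL t f
  | [], _ => rfl
  | [a], _ => by simp [evL]
  | a :: b :: r, h => by
    simp only [evenL, Bool.and_eq_true, beq_iff_eq] at h
    have := evL_even t r h.2
    simp only [evL, this, h.1]
    push_cast
    ring

theorem evL_odd (t : ℝ) (f : List Int) (h : oddL f = true) : evL (-t) f = -evL t f := by
  cases f with
  | nil => simp [evL]
  | cons a r =>
    simp only [oddL, Bool.and_eq_true, beq_iff_eq] at h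
    have := evL_even t r h.2
    simp only [evL, this, h.1]
    push_cast
    ring

theorem lt_pos (t : ℝ) : 0 < lt t := by
  unfold lt
  positivity

theorem lt_neg (t : ℝ) : lt (-t) = lt t := by
  unfold lt
  rw [neg_sq]

theorem FF_sym (D : Int) (f0 f1 f2 f3 f4 f5 f6 : List Int)
    (h : (evenL f0 && evenL f1 && oddL f2 && evenL f3 && evenL f4 && evenL f5 && oddL f6) = true) :
    Fsym (FF D f0 f1 f2 f3 f4 f5 f6) := by
  simp only [Bool.and_eq_true] at h
  obtain ⟨⟨⟨⟨⟨⟨h0, h1⟩, h2⟩, h3⟩, h4⟩, h5⟩, h6⟩ := h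
  intro t e1 e2 e3
  unfold FF
  rw [evL_even t f0 h0, evL_even t f1 h1, evL_odd t f2 h2, evL_even t f3 h3, evL_even t f4 h4,
    evL_even t f5 h5, evL_odd t f6 h6, lt_neg]
  ring

theorem evL_cont : ∀ f : List Int, Continuous fun t : ℝ => evL t f
  | [] => by
    simp only [evL]
    exact continuous_const
  | a :: f => by
    have h := evL_cont f
    simp only [evL]
    fun_prop

theorem FF_cont (D : Int) (f0 f1 f2 f3 f4 f5 f6 : List Int) :
    Continuous fun z : ℝ × ℝ × ℝ × ℝ => FF D f0 f1 f2 f3 f4 f5 f6 z.1 z.2.1 z.2.2.1 z.2.2.2 := by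
  have h0 : Continuous fun z : ℝ × ℝ × ℝ × ℝ => evL z.1 f0 := (evL_cont f0).comp continuous_fst
  have h1 : Continuous fun z : ℝ × ℝ × ℝ × ℝ => evL z.1 f1 := (evL_cont f1).comp continuous_fst
  have h2 : Continuous fun z : ℝ × ℝ × ℝ × ℝ => evL z.1 f2 := (evL_cont f2).comp continuous_fst
  have h3 : Continuous fun z : ℝ × ℝ × ℝ × ℝ => evL z.1 f3 := (evL_cont f3).comp continuous_fst
  have h4 : Continuous fun z : ℝ × ℝ × ℝ × ℝ => evL z.1 f4 := (evL_cont f4).comp continuous_fst
  have h5 : Continuous fun z : ℝ × ℝ × ℝ × ℝ => evL z.1 f5 := (evL_cont f5).comp continuous_fst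
  have h6 : Continuous fun z : ℝ × ℝ × ℝ × ℝ => evL z.1 f6 := (evL_cont f6).comp continuous_fst
  have hl : Continuous fun z : ℝ × ℝ × ℝ × ℝ => lt z.1 := by
    unfold lt
    fun_prop
  have hd : Continuous fun z : ℝ × ℝ × ℝ × ℝ => √2 / lt z.1 ^ 3 :=
    continuous_const.div (hl.pow 3) fun z => (pow_pos (lt_pos _) 3).ne'
  unfold FF
  fun_prop

end

end Pool.Agent.MGF
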