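import Pool.Agent.MGF.Defs2
import Pool.Agent.MEIS.SUP
import Pool.Agent.MEIS.GRD
import Pool.Agent.MGE.VV
/-!
BCW (90 lines). The body of a smooth support function.
PROOF. The gradient vector g = toLp 2 (fun k => pd k G x) at x ≠ 0 lies in Body G (SB_support, τ ≥ 0) and <x, g> = G x (SB_self). So the set of values <x, c>, c ∈ Body G, has maximum G x: supp (Body G) x = G x for x ≠ 0; for
x = 0 both are 0 (G 0 = 0 by h.hom 0). Body G is closed (intersection of half spaces), bounded (‖y‖² = <y,y> ≤ G y ≤ R ‖y‖), convex, nonempty. CW.wid: sSup = G u, sInf = -G (-u)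
(sup_neg of MEIS.SUP), h.wid.
-/
set_option autoImplicit false

open MeasureTheory Set Metric Pool.Agent.MEIS Pool.Agent.MSQ Pool.Agent.MGE

namespace Pool.Agent.MGF

private theorem BCW_grad {G : E → ℝ} {R τ : ℝ} (h : SB G R τ) (hτ : 0 ≤ τ) {x : E} (hx : x ≠ 0) :
    ∃ g : E, g ∈ Body G ∧ inner ℝ x g = G x := by
  refine ⟨WithLp.toLp 2 (fun i => pd i G x), ?_, ?_⟩
  · intro v
    rw [grd_inner]
    have h1 := SB_support h hx v
    have h2 : inner ℝ x v / ‖x‖ ≤ ‖v‖ := by
      rw [div_le_iff₀ (norm_pos_iff.mpr hx), mul_comm]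
      exact real_inner_le_norm x v
    have h3 : 0 ≤ τ * (‖v‖ - inner ℝ x v / ‖x‖) := mul_nonneg hτ (by linarith)
    have h4 : (∑ i, (WithLp.toLp 2 (fun i => pd i G x) : E) i * v i) = ∑ i, v i * pd i G x :=
      Finset.sum_congr rfl fun i _ => mul_comm _ _
    rw [h4]
    linarith
  · rw [grd_inner, ← SB_self h hx]
    exact Finset.sum_congr rfl fun i _ => mul_comm _ _

private theorem BCW_ne {G : E → ℝ} {R τ : ℝ} (h : SB G R τ) (hτ : 0 ≤ τ) : (Body G).Nonempty := by
  have hx : (EuclideanSpace.single 0 (1 : ℝ) : E) ≠ 0 := by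
    intro h0
    have h1 : ‖(EuclideanSpace.single 0 (1 : ℝ) : E)‖ = 0 := by rw [h0, norm_zero]
    rw [PiLp.norm_single] at h1
    norm_num at h1
  obtain ⟨g, hg, -⟩ := BCW_grad h hτ hx
  exact ⟨g, hg⟩

theorem supp_Body {G : E → ℝ} {R τ : ℝ} (h : SB G R τ) (hτ : 0 ≤ τ) (x : E) : supp (Body G) x = G x := by
  have hne := BCW_ne h hτ
  by_cases hx : x = 0
  · subst hx
    have h0 : G 0 = 0 := by
      have := h.hom 0 le_rfl 0
      rwa [zero_smul, zero_mul] at this
    rw [h0]
    simp only [supp, inner_zero_right]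
    rw [hne.image_const]
    exact csSup_singleton 0
  · obtain ⟨g, hg, hgx⟩ := BCW_grad h hτ hx
    have hub : ∀ c ∈ Body G, inner ℝ c x ≤ G x := by
      intro c hc
      rw [real_inner_comm]
      exact hc x
    apply le_antisymm
    · apply csSup_le (hne.image _)
      rintro _ ⟨c, hc, rfl⟩
      exact hub c hc
    · refine le_csSup ⟨G x, ?_⟩ ⟨g, hg, ?_⟩
      · rintro _ ⟨c, hc, rfl⟩
        exact hub c hc
      · change inner ℝ g x = G x
        rw [real_inner_comm]
        exact hgx
theorem CW_Body {G : E → ℝ} {R τ : ℝ} (h : SB G R τ) (hτ : 0 ≤ τ) : CW (Body G) := by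
  have hne := BCW_ne h hτ
  refine ⟨hne, ?_, ?_, ?_⟩
  · have hcl : IsClosed (Body G) := by
      have h1 : Body G = ⋂ x : E, {y : E | inner ℝ x y ≤ G x} := by
        ext y
        simp only [Body, mem_ofPred_eq, mem_iInter]
      rw [h1]
      refine isClosed_iInter fun x => ?_
      exact isClosed_le (by fun_prop) continuous_const
    have hbd : Body G ⊆ closedBall (0 : E) |R| := by
      intro y hy
      rw [mem_closedBall_zero_iff]
      have h1 : inner ℝ y y ≤ G y := hy y
      have h2 := h.bd y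
      rw [real_inner_self_eq_norm_sq] at h1
      have h3 : R * ‖y‖ ≤ |R| * ‖y‖ := mul_le_mul_of_nonneg_right (le_abs_self R) (norm_nonneg y)
      rcases (norm_nonneg y).eq_or_lt with h0 | h0
      · rw [← h0]
        exact abs_nonneg R
      · nlinarith
    exact (isCompact_closedBall (0 : E) |R|).of_isClosed_subset hcl hbd
  · intro y hy z hz a b ha hb hab x
    rw [inner_add_right, real_inner_smul_right, real_inner_smul_right]
    have h1 : a * inner ℝ x y ≤ a * G x := mul_le_mul_of_nonneg_left (hy x) ha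
    have h2 : b * inner ℝ x z ≤ b * G x := mul_le_mul_of_nonneg_left (hz x) hb
    have h3 : a * G x + b * G x = G x := by rw [← add_mul, hab, one_mul]
    linarith
  · intro u hu
    rw [sup_neg]
    have h1 : sSup ((fun x : E => inner ℝ x u) '' Body G) = supp (Body G) u := rfl
    rw [h1, supp_Body h hτ, supp_Body h hτ]
    have h2 := h.wid u
    rw [hu] at h2
    linarith

end Pool.Agent.MGF
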