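import Pool.Agent.MGF.FRS
/-!
FRS2. Moving a smooth body to frame position, with the bound on the sum of the central defects.
-/
set_option autoImplicit false

open MeasureTheory Set Metric Pool.Agent.MEIS Pool.Agent.MSQ Pool.Agent.MGE

namespace Pool.Agent.MGF

private theorem FRS_sum0 (e : E) : ∑ j : Fin 4, inner ℝ e (vv j) = 0 := by
  rw [Fin.sum_univ_four, inner_vv0, inner_vv1, inner_vv2, inner_vv3]
  ring

private theorem FRS_norm (e : E) : ‖e‖ ^ 2 = 2 * ∑ j : Fin 4, (inner ℝ e (vv j)) ^ 2 := by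
  rw [Fin.sum_univ_four, inner_vv0, inner_vv1, inner_vv2, inner_vv3, EuclideanSpace.real_norm_sq_eq,
    Fin.sum_univ_three]
  have h := cc_sq
  linear_combination (-(e 2) ^ 2) * 2 * h

private theorem FRS_e (e : E) (i : Fin 4) (h : ∀ j, i ≠ j → 0 ≤ inner ℝ (vv i - vv j) e)
    (hs : ∑ j, inner ℝ (vv i - vv j) e ≤ 143 / 1000) : ‖e‖ ≤ 1752 / 10000 := by
  have h1 : ∀ j : Fin 4, 0 ≤ inner ℝ (vv i - vv j) e := fun j => by
    by_cases hij : i = j
    · subst hij
      rw [sub_self, inner_zero_left]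
    · exact h j hij
  have h2 : ∀ j : Fin 4, inner ℝ e (vv j) = inner ℝ e (vv i) - inner ℝ (vv i - vv j) e := fun j => by
    rw [real_inner_comm e (vv i - vv j), inner_sub_right]
    ring
  have h3 : inner ℝ e (vv i) * 4 = ∑ j, inner ℝ (vv i - vv j) e := by
    have h4 := FRS_sum0 e
    rw [Finset.sum_congr rfl (fun j _ => h2 j), Finset.sum_sub_distrib] at h4
    simp only [Finset.sum_const, Finset.card_univ, Fintype.card_fin, nsmul_eq_mul] at h4
    push_cast at h4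
    linarith
  have h5 := FRS_norm e
  rw [Finset.sum_congr rfl (fun j _ => by rw [h2 j])] at h5
  rw [Fin.sum_univ_four] at h3 h5 hs
  have a0 := h1 0
  have a1 := h1 1
  have a2 := h1 2
  have a3 := h1 3
  generalize inner ℝ (vv i - vv 0) e = t0 at *
  generalize inner ℝ (vv i - vv 1) e = t1 at *
  generalize inner ℝ (vv i - vv 2) e = t2 at *
  generalize inner ℝ (vv i - vv 3) e = t3 at *
  have h6 : inner ℝ e (vv i) = (t0 + t1 + t2 + t3) / 4 := by linarith
  rw [h6] at h5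
  have h7 : ‖e‖ ^ 2 ≤ 3 / 2 * (t0 + t1 + t2 + t3) ^ 2 := by
    rw [h5]
    have b1 := mul_nonneg a0 a1
    have b2 := mul_nonneg a0 a2
    have b3 := mul_nonneg a0 a3
    have b4 := mul_nonneg a1 a2
    have b5 := mul_nonneg a1 a3
    have b6 := mul_nonneg a2 a3
    nlinarith
  have h8 : (t0 + t1 + t2 + t3) ^ 2 ≤ (143 / 1000) ^ 2 := by
    apply pow_le_pow_left₀ (by positivity) hs
  have h9 : ‖e‖ ^ 2 ≤ (1752 / 10000) ^ 2 := by
    calc ‖e‖ ^ 2 ≤ 3 / 2 * (t0 + t1 + t2 + t3) ^ 2 := h7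
      _ ≤ 3 / 2 * (143 / 1000) ^ 2 := by linarith
      _ ≤ (1752 / 10000) ^ 2 := by norm_num
  exact (pow_le_pow_iff_left₀ (norm_nonneg e) (by norm_num) (by norm_num)).mp h9

private theorem FRS_max (x : E) : ∃ i : Fin 4, 204 / 1000 * ‖x‖ ≤ inner ℝ x (vv i) := by
  by_contra hc
  push Not at hc
  have hs := FRS_sum0 x
  have hn := FRS_norm x
  rw [Fin.sum_univ_four] at hs hn
  have a0 := hc 0
  have a1 := hc 1
  have a2 := hc 2
  have a3 := hc 3
  have hp := norm_nonneg x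
  generalize inner ℝ x (vv 0) = y0 at *
  generalize inner ℝ x (vv 1) = y1 at *
  generalize inner ℝ x (vv 2) = y2 at *
  generalize inner ℝ x (vv 3) = y3 at *
  generalize ‖x‖ = r at *
  have hr : 0 < r := by
    linarith
  have c0 : 0 ≤ (y0 + 3 * (204 / 1000 * r)) * (204 / 1000 * r - y0) := mul_nonneg (by linarith) (by linarith)
  have c1 : 0 ≤ (y1 + 3 * (204 / 1000 * r)) * (204 / 1000 * r - y1) := mul_nonneg (by linarith) (by linarith)
  have c2 : 0 ≤ (y2 + 3 * (204 / 1000 * r)) * (204 / 1000 * r - y2) := mul_nonneg (by linarith) (by linarith)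
  have c3 : 0 ≤ (y3 + 3 * (204 / 1000 * r)) * (204 / 1000 * r - y3) := mul_nonneg (by linarith) (by linarith)
  have h1 : y0 ^ 2 + y1 ^ 2 + y2 ^ 2 + y3 ^ 2 ≤ 12 * (204 / 1000 * r) ^ 2 := by
    have h2 : (y0 + y1 + y2 + y3) * (204 / 1000 * r) = 0 := by rw [hs, zero_mul]
    nlinarith
  have h3 : 0 < r ^ 2 := by positivity
  nlinarith

private theorem FRS_tot {f : Fin 4 → ℝ} (h : ∀ i, 0 ≤ f i) (hs : ∑ i, f i ≤ 143 / 1000) (i : Fin 4) :
    f i ≤ 143 / 1000 :=
  (Finset.single_le_sum (fun k _ => h k) (Finset.mem_univ i)).trans hs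

private theorem FRS_body {G : E → ℝ} (φ : E ≃ₗᵢ[ℝ] E) (o : E) :
    Body (fun x => G (φ x) - inner ℝ x o) = (fun x : E => x - o) '' (φ.symm '' Body G) := by
  ext y
  constructor
  · intro hy
    refine ⟨y + o, ⟨φ (y + o), fun x => ?_, φ.symm_apply_apply _⟩, by simp⟩
    have h1 := hy (φ.symm x)
    have h2 : (inner ℝ x (φ (y + o)) : ℝ) = inner ℝ (φ.symm x) (y + o) := by
      rw [← φ.inner_map_map (φ.symm x) (y + o), φ.apply_symm_apply]
    have h3 : (inner ℝ (φ.symm x) y : ℝ) ≤ G (φ (φ.symm x)) - inner ℝ (φ.symm x) o := h1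
    rw [φ.apply_symm_apply] at h3
    rw [h2, inner_add_right]
    linarith
  · rintro ⟨z, ⟨w, hw, rfl⟩, rfl⟩
    intro x
    show (inner ℝ x (φ.symm w - o) : ℝ) ≤ G (φ x) - inner ℝ x o
    have h1 := hw (φ x)
    have h2 : (inner ℝ (φ x) w : ℝ) = inner ℝ x (φ.symm w) := by
      rw [← φ.inner_map_map x (φ.symm w), φ.apply_symm_apply]
    rw [h2] at h1
    rw [inner_sub_right]
    linarith

theorem to_frame2 {G : E → ℝ} {R τ : ℝ} (h : SB G R τ) (hτ : 0 < τ) {p : Fin 4 → E}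
    (hp : ∀ i, p i ∈ Body G) (hD : FRX.Dd p ≤ 2078 / 10000) :
    ∃ G' : E → ℝ, FG G' (98 / 100) τ ∧ (∑ i, bv G' i ≤ 143 / 1000) ∧
      volume (Body G') = volume (Body G) := by
  have hSH : SH G R := ⟨h.hom, fun x y => by
    have h1 := h.sub x y
    have h2 : 0 ≤ τ * (‖x‖ + ‖y‖ - ‖x + y‖) := mul_nonneg hτ.le (by linarith [norm_add_le x y])
    linarith, h.wid, h.bd⟩
  obtain ⟨φ, o, p', hfr, hp', hpos, htot⟩ := FRX.frame hSH (fun i x => hp i x) hD
  have hc := SB_comp h φ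
  have hpos' : ∀ i j : Fin 4, 0 ≤ inner ℝ (vv i - vv j) (vv i - p' i) := fun i j => by
    by_cases hij : i = j
    · subst hij
      rw [sub_self, inner_zero_left]
    · exact hpos i j hij
  have hSi : ∀ i, ∑ j, inner ℝ (vv i - vv j) (vv i - p' i) ≤ 143 / 1000 :=
    FRS_tot (f := fun i => ∑ j, inner ℝ (vv i - vv j) (vv i - p' i))
      (fun i => Finset.sum_nonneg fun j _ => hpos' i j) htot
  have hwid : ∀ x : E, (G (φ x) - inner ℝ x o) + (G (φ (-x)) - inner ℝ (-x) o) = ‖x‖ := fun x => by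
    have h1 := hc.wid x
    rw [inner_neg_left]
    linarith
  refine ⟨fun x => G (φ x) - inner ℝ x o, ⟨⟨?_, ?_, ?_, ?_, ?_⟩, hτ, by norm_num, fun i j hij => hfr i j hij⟩,
    ?_, ?_⟩
  · have h1 : Sm 3 (fun x : E => inner ℝ x o) := by
      have h2 : ContDiff ℝ (3 : ℕ) (fun x : E => (inner ℝ x o : ℝ)) := contDiff_id.inner ℝ contDiff_const
      exact h2.contDiffOn
    exact sm_sub hc.sm h1
  · intro t ht x
    show G (φ (t • x)) - inner ℝ (t • x) o = t * (G (φ x) - inner ℝ x o)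
    have h1 := hc.hom t ht x
    rw [real_inner_smul_left, h1]
    ring
  · intro x y
    show G (φ (x + y)) - inner ℝ (x + y) o + τ * (‖x‖ + ‖y‖ - ‖x + y‖) ≤
      (G (φ x) - inner ℝ x o) + (G (φ y) - inner ℝ y o)
    have h1 := hc.sub x y
    rw [inner_add_left]
    linarith
  · exact hwid
  · intro x
    show G (φ x) - inner ℝ x o ≤ 98 / 100 * ‖x‖
    obtain ⟨i, hi⟩ := FRS_max (-x)
    rw [norm_neg] at hi
    have h1 := hp' i (-x)
    have h2 := FRS_e (vv i - p' i) i (fun j hij => hpos i j hij) (hSi i)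
    have h3 : (inner ℝ (-x) (vv i - p' i) : ℝ) ≤ ‖x‖ * (1752 / 10000) := by
      calc (inner ℝ (-x) (vv i - p' i) : ℝ) ≤ ‖-x‖ * ‖vv i - p' i‖ := real_inner_le_norm _ _
        _ ≤ ‖x‖ * (1752 / 10000) := by
          rw [norm_neg]
          exact mul_le_mul_of_nonneg_left h2 (norm_nonneg x)
    rw [inner_sub_right] at h3
    have h4 := hwid x
    have h5 := norm_nonneg x
    linarith
  · refine le_trans (Finset.sum_le_sum fun i _ => ?_) htot
    show 3 / 2 - 4 * (G (φ (vv i)) - inner ℝ (vv i) o) ≤ ∑ j, inner ℝ (vv i - vv j) (vv i - p' i)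
    have h1 := hp' i (vv i)
    have h3 : ∑ j, inner ℝ (vv i - vv j) (vv i - p' i) = 4 * inner ℝ (vv i) (vv i - p' i) := by
      have h4 : ∀ j : Fin 4, inner ℝ (vv i - vv j) (vv i - p' i) =
          inner ℝ (vv i) (vv i - p' i) - inner ℝ (vv i - p' i) (vv j) := fun j => by
        rw [inner_sub_left, real_inner_comm (vv j) (vv i - p' i)]
      rw [Finset.sum_congr rfl (fun j _ => h4 j), Finset.sum_sub_distrib, FRS_sum0]
      simp only [Finset.sum_const, Finset.card_univ, Fintype.card_fin, nsmul_eq_mul]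
      push_cast
      ring
    rw [h3, inner_sub_right, real_inner_self_eq_norm_sq, vv_norm_sq]
    linarith
  · rw [FRS_body, volume_translate, volume_iso _ (CW_Body h hτ.le).cpt.measurableSet]

end Pool.Agent.MGF
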