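import Pool.Agent.MGF.Defs2
import Pool.Agent.MEIS.SMA
import Pool.Agent.MEIS.HOM
import Pool.Agent.MEIS.PDR
import Pool.Agent.MGE.VV
/-!
WPF (150 lines). Barycentric parametrisation of the cones.
PROOF. Wp is linear in a; for distinct i,j,k,l the three vectors vv i - vv j, vv i - vv k, vv i - vv l are unit with mutual inner products 1/2
(vv_sub_norm, vv_sub_inner, vv_sub_inner'), hence norm_Wp; nW a = 0 only for a = 0 (the quadratic form is (1/2)((a0+a1)^2+(a0+a2)^2+(a1+a2)^2)).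
inner_Wp: vv_sub_inner. nW_sm: nW = √(positive quadratic form) off 0 (ContDiffOn.sqrt), nW_hom. pd_Wp: chain rule for the linear map a ↦ Wp i j k l a
(as a continuous linear map), sm_differentiableAt at Wp a ≠ 0, Wp (single m 1) = the m-th vector. Sm_Wp: composition, Wp maps {0}ᶜ into {0}ᶜ.
-/
set_option autoImplicit false

open MeasureTheory Set Metric Pool.Agent.MEIS Pool.Agent.MSQ Pool.Agent.MGE

namespace Pool.Agent.MGF

/-- all four indices are different -/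
def Dis (i j k l : Fin 4) : Prop := i ≠ j ∧ i ≠ k ∧ i ≠ l ∧ j ≠ k ∧ j ≠ l ∧ k ≠ l

instance (i j k l : Fin 4) : Decidable (Dis i j k l) := by unfold Dis; infer_instance

/-- the m-th edge vector -/
noncomputable def we (i j k l : Fin 4) (m : Fin 3) : E := ![vv i - vv j, vv i - vv k, vv i - vv l] m

private theorem wpf_unit {i j : Fin 4} (h : i ≠ j) : inner ℝ (vv i - vv j) (vv i - vv j) = (1 : ℝ) := by
  rw [real_inner_self_eq_norm_sq, vv_sub_norm h, one_pow]

private theorem wpf_half {i j k : Fin 4} (h : i ≠ j) (h' : i ≠ k) (h'' : j ≠ k) :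
    inner ℝ (vv i - vv j) (vv i - vv k) = (1 / 2 : ℝ) := by
  rw [inner_sub_right, vv_sub_inner h, vv_sub_inner' h'.symm h''.symm, sub_zero]

private theorem wpf_norm {u v w : E} (n1 : inner ℝ u u = (1 : ℝ)) (n2 : inner ℝ v v = (1 : ℝ))
    (n3 : inner ℝ w w = (1 : ℝ)) (i1 : inner ℝ u v = (1 / 2 : ℝ)) (i2 : inner ℝ u w = (1 / 2 : ℝ))
    (i3 : inner ℝ v w = (1 / 2 : ℝ)) (x y z : ℝ) :
    ‖x • u + y • v + z • w‖ ^ 2 = x ^ 2 + y ^ 2 + z ^ 2 + x * y + x * z + y * z := by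
  have j1 : inner ℝ v u = (1 / 2 : ℝ) := by rw [real_inner_comm]; exact i1
  have j2 : inner ℝ w u = (1 / 2 : ℝ) := by rw [real_inner_comm]; exact i2
  have j3 : inner ℝ w v = (1 / 2 : ℝ) := by rw [real_inner_comm]; exact i3
  rw [← real_inner_self_eq_norm_sq]
  simp only [inner_add_left, inner_add_right, real_inner_smul_left, real_inner_smul_right, n1, n2, n3, i1, i2, i3,
    j1, j2, j3]
  ring

private theorem wpf_pos {a : E} (ha : a ≠ 0) :
    0 < a 0 ^ 2 + a 1 ^ 2 + a 2 ^ 2 + a 0 * a 1 + a 0 * a 2 + a 1 * a 2 := by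
  by_contra hn
  have h0 := sq_nonneg (a 0 + a 1)
  have h1 := sq_nonneg (a 0 + a 2)
  have h2 := sq_nonneg (a 1 + a 2)
  have e : a 0 ^ 2 + a 1 ^ 2 + a 2 ^ 2 + a 0 * a 1 + a 0 * a 2 + a 1 * a 2 =
      1 / 2 * ((a 0 + a 1) ^ 2 + (a 0 + a 2) ^ 2 + (a 1 + a 2) ^ 2) := by ring
  have e0 : (a 0 + a 1) ^ 2 = 0 := by nlinarith
  have e1 : (a 0 + a 2) ^ 2 = 0 := by nlinarith
  have e2 : (a 1 + a 2) ^ 2 = 0 := by nlinarith
  have f0 : a 0 + a 1 = 0 := by simpa using e0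
  have f1 : a 0 + a 2 = 0 := by simpa using e1
  have f2 : a 1 + a 2 = 0 := by simpa using e2
  apply ha
  ext m
  fin_cases m
  · change a 0 = 0
    linarith
  · change a 1 = 0
    linarith
  · change a 2 = 0
    linarith

theorem Wp_add (i j k l : Fin 4) (a b : E) : Wp i j k l (a + b) = Wp i j k l a + Wp i j k l b := by
  have h : ∀ m : Fin 3, (a + b) m = a m + b m := fun m => rfl
  unfold Wp
  rw [h, h, h]
  module
theorem Wp_smul (i j k l : Fin 4) (t : ℝ) (a : E) : Wp i j k l (t • a) = t • Wp i j k l a := by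
  have h : ∀ m : Fin 3, (t • a) m = t * a m := fun m => rfl
  unfold Wp
  rw [h, h, h]
  module
theorem norm_Wp {i j k l : Fin 4} (h : Dis i j k l) (a : E) : ‖Wp i j k l a‖ = nW a := by
  obtain ⟨h1, h2, h3, h4, h5, h6⟩ := h
  have n1 := wpf_unit h1
  have n2 := wpf_unit h2
  have n3 := wpf_unit h3
  have i1 := wpf_half h1 h2 h4
  have i2 := wpf_half h1 h3 h5
  have i3 := wpf_half h2 h3 h6
  have key : ‖Wp i j k l a‖ ^ 2 = a 0 ^ 2 + a 1 ^ 2 + a 2 ^ 2 + a 0 * a 1 + a 0 * a 2 + a 1 * a 2 := by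
    unfold Wp
    exact wpf_norm n1 n2 n3 i1 i2 i3 _ _ _
  unfold nW
  rw [← key, Real.sqrt_sq (norm_nonneg _)]
theorem nW_pos {a : E} (ha : a ≠ 0) : 0 < nW a := by
  unfold nW
  exact Real.sqrt_pos.2 (wpf_pos ha)
theorem nW_sq (a : E) :
    nW a ^ 2 = a 0 ^ 2 + a 1 ^ 2 + a 2 ^ 2 + a 0 * a 1 + a 0 * a 2 + a 1 * a 2 := by
  unfold nW
  refine Real.sq_sqrt ?_
  nlinarith [sq_nonneg (a 0 + a 1), sq_nonneg (a 0 + a 2), sq_nonneg (a 1 + a 2)]
theorem Wp_ne {i j k l : Fin 4} (h : Dis i j k l) {a : E} (ha : a ≠ 0) : Wp i j k l a ≠ 0 := by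
  rw [← norm_pos_iff, norm_Wp h]
  exact nW_pos ha
theorem inner_Wp {i j k l : Fin 4} (h : Dis i j k l) (a : E) :
    inner ℝ (Wp i j k l a) (vv i) = (a 0 + a 1 + a 2) / 2 := by
  obtain ⟨h1, h2, h3, h4, h5, h6⟩ := h
  unfold Wp
  rw [inner_add_left, inner_add_left, real_inner_smul_left, real_inner_smul_left, real_inner_smul_left,
    vv_sub_inner h1, vv_sub_inner h2, vv_sub_inner h3]
  ring
theorem nW_sm : Sm 3 nW := by
  have hq : Sm 3 (fun a : E => a 0 ^ 2 + a 1 ^ 2 + a 2 ^ 2 + a 0 * a 1 + a 0 * a 2 + a 1 * a 2) :=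
    sm_add (sm_add (sm_add (sm_add (sm_add (sm_pow (sm_coord 3 0) 2) (sm_pow (sm_coord 3 1) 2))
      (sm_pow (sm_coord 3 2) 2)) (sm_mul (sm_coord 3 0) (sm_coord 3 1)))
      (sm_mul (sm_coord 3 0) (sm_coord 3 2))) (sm_mul (sm_coord 3 1) (sm_coord 3 2))
  exact ContDiffOn.sqrt hq fun a ha => (wpf_pos ha).ne'
theorem nW_hom : Hom 1 nW := by
  intro t ht x _
  have h : ∀ m : Fin 3, (t • x) m = t * x m := fun m => rfl
  unfold nW
  rw [h, h, h]
  have e : (t * x 0) ^ 2 + (t * x 1) ^ 2 + (t * x 2) ^ 2 + t * x 0 * (t * x 1) + t * x 0 * (t * x 2) +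
      t * x 1 * (t * x 2) = t ^ 2 * (x 0 ^ 2 + x 1 ^ 2 + x 2 ^ 2 + x 0 * x 1 + x 0 * x 2 + x 1 * x 2) := by ring
  rw [e, Real.sqrt_mul (by positivity), Real.sqrt_sq ht.le, zpow_one]
private noncomputable def wpf_L (i j k l : Fin 4) : E →L[ℝ] E :=
  LinearMap.toContinuousLinearMap
    { toFun := fun a => Wp i j k l a
      map_add' := Wp_add i j k l
      map_smul' := Wp_smul i j k l }

private theorem wpf_single (i j k l : Fin 4) (m : Fin 3) :
    wpf_L i j k l (EuclideanSpace.single m (1 : ℝ)) = we i j k l m := by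
  change Wp i j k l (EuclideanSpace.single m (1 : ℝ)) = we i j k l m
  unfold Wp we
  fin_cases m <;> simp

theorem Sm_Wp {i j k l : Fin 4} (h : Dis i j k l) {n : ℕ} {f : E → ℝ} (hf : Sm n f) :
    Sm n (fun a => f (Wp i j k l a)) := by
  have h1 : ContDiff ℝ n (fun a => Wp i j k l a) := by
    have := (wpf_L i j k l).contDiff (n := n)
    exact this
  exact ContDiffOn.comp hf h1.contDiffOn fun a ha => Wp_ne h ha
theorem pd_Wp {i j k l : Fin 4} (h : Dis i j k l) {f : E → ℝ} (hf : Sm 1 f) {a : E} (ha : a ≠ 0)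
    (m : Fin 3) :
    pd m (fun a => f (Wp i j k l a)) a = ∑ n, we i j k l m n * pd n f (Wp i j k l a) := by
  have hd : DifferentiableAt ℝ f (wpf_L i j k l a) := sm_differentiableAt hf (Wp_ne h ha)
  have h1 : fderiv ℝ (fun a => f (wpf_L i j k l a)) a =
      (fderiv ℝ f (wpf_L i j k l a)).comp (wpf_L i j k l) := by
    have := fderiv_comp a hd (wpf_L i j k l).differentiableAt
    rw [ContinuousLinearMap.fderiv] at this
    exact this
  change fderiv ℝ (fun a => f (wpf_L i j k l a)) a (EuclideanSpace.single m (1 : ℝ)) = _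
  rw [h1]
  change fderiv ℝ f (wpf_L i j k l a) (wpf_L i j k l (EuclideanSpace.single m (1 : ℝ))) = _
  rw [fderiv_pd, wpf_single]
  rfl
theorem pd2_Wp {i j k l : Fin 4} (h : Dis i j k l) {f : E → ℝ} (hf : Sm 2 f) {a : E} (ha : a ≠ 0)
    (m m' : Fin 3) :
    pd m (pd m' (fun a => f (Wp i j k l a))) a =
      ∑ n, ∑ n', we i j k l m n * we i j k l m' n' * pd n (pd n' f) (Wp i j k l a) := by
  have hf1 : Sm 1 f := sm_mono hf (by norm_num)
  have h1 : pd m (pd m' (fun a => f (Wp i j k l a))) a =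
      pd m (fun a => ∑ n ∈ (Finset.univ : Finset (Fin 3)), we i j k l m' n * pd n f (Wp i j k l a)) a :=
    pd_congr (fun y hy => pd_Wp h hf1 hy m') ha m
  have hS : ∀ n : Fin 3, Sm 1 (fun a => pd n f (Wp i j k l a)) := fun n => Sm_Wp h (sm_pd hf n)
  rw [h1, pd_sum Finset.univ (fun n _ => sm_cmul _ (hS n)) ha m, Finset.sum_comm]
  refine Finset.sum_congr rfl fun n _ => ?_
  rw [pd_cmul _ (hS n) ha m, pd_Wp h (sm_pd hf n) ha m, Finset.mul_sum]
  refine Finset.sum_congr rfl fun n' _ => ?_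
  ring
theorem Tf_eq {i j k l : Fin 4} (h : Dis i j k l) (G : E → ℝ) (a : E) :
    Tf G i j k l a = (a 0 + a 1 + a 2) / 2 - G (Wp i j k l a) := by
  unfold Tf
  rw [inner_Wp h]

end Pool.Agent.MGF
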