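import Pool.Agent.MGF.Defs2
import Pool.Agent.MGE.VV
import Pool.Agent.MGE.INV
import Pool.Agent.MGF.WPF
/-!
ISM (50 lines). Behaviour under symmetries of the tetrahedron.
PROOF. SB_comp of MGE.INV; the frame values: ψ (vv i - vv j) = vv (σ i) - vv (σ j), and σ is injective because ψ and vv are. Wp and inner products are
transported: ψ (Wp i j k l a) = Wp (σ i) (σ j) (σ k) (σ l) a, <x, vv i> = <ψ x, vv (σ i)>.
-/
set_option autoImplicit false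

open MeasureTheory Set Metric Pool.Agent.MEIS Pool.Agent.MSQ Pool.Agent.MGE

namespace Pool.Agent.MGF

theorem FG_comp {G : E → ℝ} {R τ : ℝ} (h : FG G R τ) (ψ : E ≃ₗᵢ[ℝ] E) (σ : Fin 4 → Fin 4)
    (hσ : ∀ i, ψ (vv i) = vv (σ i)) : FG (fun x => G (ψ x)) R τ := by
  have hv : ∀ i j : Fin 4, vv i = vv j → i = j := by
    intro i j hij
    by_contra hne
    have h1 := vv_sub_norm hne
    rw [hij, sub_self, norm_zero] at h1
    exact zero_ne_one h1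
  refine ⟨SB_comp h.sb ψ, h.tau, h.R1, fun i j hij => ?_⟩
  show G (ψ (vv i - vv j)) = 1 / 2
  rw [map_sub, hσ, hσ]
  refine h.fr _ _ fun he => hij (hv _ _ (ψ.injective ?_))
  rw [hσ, hσ, he]
theorem bv_comp (G : E → ℝ) (ψ : E ≃ₗᵢ[ℝ] E) (σ : Fin 4 → Fin 4)
    (hσ : ∀ i, ψ (vv i) = vv (σ i)) (i : Fin 4) : bv (fun x => G (ψ x)) i = bv G (σ i) := by
  show 3 / 2 - 4 * G (ψ (vv i)) = 3 / 2 - 4 * G (vv (σ i))
  rw [hσ]
theorem Tf_comp (G : E → ℝ) (ψ : E ≃ₗᵢ[ℝ] E) (σ : Fin 4 → Fin 4)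
    (hσ : ∀ i, ψ (vv i) = vv (σ i)) (i j k l : Fin 4) :
    Tf (fun x => G (ψ x)) i j k l = Tf G (σ i) (σ j) (σ k) (σ l) := by
  funext a
  have h1 : ψ (Wp i j k l a) = Wp (σ i) (σ j) (σ k) (σ l) a := by
    unfold Wp
    simp only [map_add, map_smul, map_sub, hσ]
  show inner ℝ (Wp i j k l a) (vv i) - G (ψ (Wp i j k l a)) =
    inner ℝ (Wp (σ i) (σ j) (σ k) (σ l) a) (vv (σ i)) - G (Wp (σ i) (σ j) (σ k) (σ l) a)
  rw [← ψ.inner_map_map (Wp i j k l a) (vv i), h1, hσ]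

end Pool.Agent.MGF
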