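import Pool.Agent.MGF.Defs2
/-!
DIVV (90 lines). Divergence of the flux field.
PROOF. vx and vy are the derivatives given by the product rule from D1 facts of Jet.Good (HasFDerivAt of a function of z gives HasDerivAt along X and Y:
compose with t ↦ (t, Y), whose derivative is (1,0)). Third derivatives cancel in the sum: a.fX f.fXYY - a.fY f.fXXY + a.fY f.fXXY - a.fX f.fXYY = 0, the mixed first order
terms cancel as well (ring). Continuity: all entries of a good jet are continuous.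
-/
set_option autoImplicit false

open MeasureTheory Set Metric Pool.Agent.MEIS Pool.Agent.MSQ Pool.Agent.MGE

namespace Pool.Agent.MGF

private theorem divv_x {F FX FY : ℝ × ℝ → ℝ} (h : D1 F FX FY) (X Y : ℝ) :
    HasDerivAt (fun t => F (t, Y)) (FX (X, Y)) X := by
  have h1 : HasDerivAt (fun t : ℝ => (t, Y)) ((1 : ℝ), (0 : ℝ)) X :=
    (hasDerivAt_id X).prodMk (hasDerivAt_const X Y)
  refine ((h (X, Y)).comp_hasDerivAt X h1).congr_deriv ?_
  simp

private theorem divv_y {F FX FY : ℝ × ℝ → ℝ} (h : D1 F FX FY) (X Y : ℝ) :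
    HasDerivAt (fun t => F (X, t)) (FY (X, Y)) Y := by
  have h1 : HasDerivAt (fun t : ℝ => (X, t)) ((0 : ℝ), (1 : ℝ)) Y :=
    (hasDerivAt_const Y X).prodMk (hasDerivAt_id Y)
  refine ((h (X, Y)).comp_hasDerivAt Y h1).congr_deriv ?_
  simp

private theorem divv_c {F FX FY : ℝ × ℝ → ℝ} (h : D1 F FX FY) : Continuous F :=
  continuous_iff_continuousAt.2 fun z => (h z).continuousAt

theorem div_V {l a f : Jet} (hl : l.Good) (ha : a.Good) (hf : f.Good) :
    ∃ vx vy : ℝ × ℝ → ℝ, Continuous vx ∧ Continuous vy ∧ Continuous (VX l a f) ∧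
      Continuous (VY l a f) ∧
      (∀ X Y, HasDerivAt (fun t => VX l a f (t, Y)) (vx (X, Y)) X) ∧
      (∀ X Y, HasDerivAt (fun t => VY l a f (X, t)) (vy (X, Y)) Y) ∧
      ∀ z, vx z + vy z = 2 * (l.f z * mxd a f z - a.f z * mxd l f z) := by
  have cl := divv_c hl.d
  have clX := divv_c hl.dX
  have clY := divv_c hl.dY
  have clXX := divv_c hl.dXX
  have clXY := divv_c hl.dXY
  have clYY := divv_c hl.dYY
  have ca := divv_c ha.d
  have caX := divv_c ha.dX
  have caY := divv_c ha.dY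
  have caXX := divv_c ha.dXX
  have caXY := divv_c ha.dXY
  have caYY := divv_c ha.dYY
  have cfXX := divv_c hf.dXX
  have cfXY := divv_c hf.dXY
  have cfYY := divv_c hf.dYY
  have cfXXY := hf.cXXY
  have cfXYY := hf.cXYY
  refine ⟨fun z => l.fX z * (a.fX z * f.fYY z - a.fY z * f.fXY z) +
      l.f z * (a.fXX z * f.fYY z + a.fX z * f.fXYY z - (a.fXY z * f.fXY z + a.fY z * f.fXXY z)) -
      (a.fX z * (l.fX z * f.fYY z - l.fY z * f.fXY z) +
      a.f z * (l.fXX z * f.fYY z + l.fX z * f.fXYY z - (l.fXY z * f.fXY z + l.fY z * f.fXXY z))),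
    fun z => l.fY z * (a.fY z * f.fXX z - a.fX z * f.fXY z) +
      l.f z * (a.fYY z * f.fXX z + a.fY z * f.fXXY z - (a.fXY z * f.fXY z + a.fX z * f.fXYY z)) -
      (a.fY z * (l.fY z * f.fXX z - l.fX z * f.fXY z) +
      a.f z * (l.fYY z * f.fXX z + l.fY z * f.fXXY z - (l.fXY z * f.fXY z + l.fX z * f.fXYY z))),
    ?_, ?_, ?_, ?_, ?_, ?_, ?_⟩
  · fun_prop
  · fun_prop
  · unfold VX
    fun_prop
  · unfold VY
    fun_prop
  · intro X Y
    have h1 := ((divv_x hl.d X Y).mul (((divv_x ha.dX X Y).mul (divv_x hf.dYY X Y)).sub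
      ((divv_x ha.dY X Y).mul (divv_x hf.dXY X Y)))).sub
      ((divv_x ha.d X Y).mul (((divv_x hl.dX X Y).mul (divv_x hf.dYY X Y)).sub
      ((divv_x hl.dY X Y).mul (divv_x hf.dXY X Y))))
    refine h1.congr_deriv ?_
    simp only [Pi.sub_apply, Pi.mul_apply]
  · intro X Y
    have h1 := ((divv_y hl.d X Y).mul (((divv_y ha.dY X Y).mul (divv_y hf.dXX X Y)).sub
      ((divv_y ha.dX X Y).mul (divv_y hf.dXY X Y)))).sub
      ((divv_y ha.d X Y).mul (((divv_y hl.dY X Y).mul (divv_y hf.dXX X Y)).sub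
      ((divv_y hl.dX X Y).mul (divv_y hf.dXY X Y))))
    refine h1.congr_deriv ?_
    simp only [Pi.sub_apply, Pi.mul_apply]
  · intro z
    simp only [mxd]
    ring

end Pool.Agent.MGF
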