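import Pool.Agent.MGF.Defs2
import Pool.Agent.MEIS.SMA
import Pool.Agent.MEIS.PDR
import Pool.Agent.MEIS.HOM
import Pool.Agent.MSQ.JGood
import Pool.Agent.MGE.VV
import Pool.Agent.MGF.WPF
/-!
JTG (150 lines). Good jets.
PROOF. Jsub: HasFDerivAt.sub componentwise. cJ: derivatives of √(1+X²) (HasDerivAt.sqrt), 1+X² > 0. sJ: lJ is good (good_lJ of MSQ.JGood), linear corrections. jT: the
map z ↦ bp z.1 z.2 = pt z.1 z.2 (1 - z.1 - z.2) is affine, never 0, with derivative (a,b) ↦ a (e_0 - e_2) + b (e_1 - e_2); for F with Sm 1 F the derivative of F (bp z) is dd 0 F • fst + dd 1 F • snd.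
Apply to T, dd i T, dd i (dd j T); dd 0 (dd 1 T) = dd 1 (dd 0 T) off 0 by pd_comm and pd_congr. dd i T is Sm n for T Sm (n+1). Continuity from Sm 0 and bp ≠ 0.
-/
set_option autoImplicit false

open MeasureTheory Set Metric Pool.Agent.MEIS Pool.Agent.MSQ Pool.Agent.MGE

namespace Pool.Agent.MGF

private theorem jtg_sub {F FX FY G GX GY : ℝ × ℝ → ℝ} (h : D1 F FX FY) (k : D1 G GX GY) :
    D1 (fun z => F z - G z) (fun z => FX z - GX z) (fun z => FY z - GY z) := by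
  intro z
  refine ((h z).sub (k z)).congr_fderiv ?_
  refine ContinuousLinearMap.ext fun v => ?_
  change (FX z * v.1 + FY z * v.2) - (GX z * v.1 + GY z * v.2) =
    (FX z - GX z) * v.1 + (FY z - GY z) * v.2
  ring

theorem good_sub {J K : Jet} (hJ : J.Good) (hK : K.Good) : (Jsub J K).Good :=
  { d := jtg_sub hJ.d hK.d
    dX := jtg_sub hJ.dX hK.dX
    dY := jtg_sub hJ.dY hK.dY
    dXX := jtg_sub hJ.dXX hK.dXX
    dXY := jtg_sub hJ.dXY hK.dXY
    dYY := jtg_sub hJ.dYY hK.dYY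
    cXXX := hJ.cXXX.sub hK.cXXX
    cXXY := hJ.cXXY.sub hK.cXXY
    cXYY := hJ.cXYY.sub hK.cXYY
    cYYY := hJ.cYYY.sub hK.cYYY }

private theorem jtg_one {f f' : ℝ → ℝ} (h : ∀ x, HasDerivAt f (f' x) x) :
    D1 (fun z => f z.1) (fun z => f' z.1) (fun _ => 0) := by
  intro z
  refine ((h z.1).comp_hasFDerivAt z hasFDerivAt_fst).congr_fderiv ?_
  refine ContinuousLinearMap.ext fun v => ?_
  change f' z.1 * v.1 = f' z.1 * v.1 + 0 * v.2
  ring

private theorem jtg_zero : D1 (fun _ => 0) (fun _ => 0) (fun _ => 0) := by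
  intro z
  refine (hasFDerivAt_const (0 : ℝ) z).congr_fderiv ?_
  refine ContinuousLinearMap.ext fun v => ?_
  change (0 : ℝ) = 0 * v.1 + 0 * v.2
  ring

private theorem jtg_wpos (x : ℝ) : 0 < √(1 + x ^ 2) := Real.sqrt_pos.2 (by positivity)

private theorem jtg_wsq (x : ℝ) : √(1 + x ^ 2) ^ 2 = 1 + x ^ 2 := Real.sq_sqrt (by positivity)

private theorem jtg_w (x : ℝ) : HasDerivAt (fun x => √(1 + x ^ 2)) (x / √(1 + x ^ 2)) x := by
  have h1 : HasDerivAt (fun x : ℝ => 1 + x ^ 2) (2 * x) x := by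
    have := (hasDerivAt_pow 2 x).const_add (1 : ℝ)
    simpa using this
  refine (h1.sqrt (by positivity)).congr_deriv ?_
  have := (jtg_wpos x).ne'
  field_simp

theorem good_cJ : cJ.Good := by
  have hc : Continuous fun z : ℝ × ℝ => √(1 + z.1 ^ 2) := by fun_prop
  exact
    { d := by
        refine jtg_one (f := fun x => √3 / 2 * √(1 + x ^ 2) - cc / 2)
          (f' := fun x => √3 / 2 * x / √(1 + x ^ 2)) fun x => ?_
        refine (((jtg_w x).const_mul (√3 / 2)).sub_const (cc / 2)).congr_deriv ?_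
        ring
      dX := by
        refine jtg_one (f := fun x => √3 / 2 * x / √(1 + x ^ 2))
          (f' := fun x => √3 / 2 / √(1 + x ^ 2) ^ 3) fun x => ?_
        refine (((hasDerivAt_id x).const_mul (√3 / 2)).div (jtg_w x) (jtg_wpos x).ne').congr_deriv ?_
        have h0 := (jtg_wpos x).ne'
        have h1 := jtg_wsq x
        simp only [id]
        field_simp
        linear_combination h1
      dY := jtg_zero
      dXX := by
        refine jtg_one (f := fun x => √3 / 2 / √(1 + x ^ 2) ^ 3)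
          (f' := fun x => -(3 * (√3 / 2)) * x / √(1 + x ^ 2) ^ 5) fun x => ?_
        have h2 := ((jtg_w x).pow 3).inv (pow_ne_zero 3 (jtg_wpos x).ne')
        refine (h2.const_mul (√3 / 2)).congr_deriv ?_
        have h0 := (jtg_wpos x).ne'
        simp only [Pi.pow_apply]
        field_simp
        norm_num
        ring
      dXY := jtg_zero
      dYY := jtg_zero
      cXXX := Continuous.div (by fun_prop) (hc.pow 5) fun z => pow_ne_zero 5 (jtg_wpos z.1).ne'
      cXXY := continuous_const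
      cXYY := continuous_const
      cYYY := continuous_const }

private theorem jtg_lin (s : ℝ) : D1 (fun z => s * z.2 / 2) (fun _ => 0) (fun _ => s / 2) := by
  intro z
  have h1 : HasFDerivAt (fun z : ℝ × ℝ => z.2) (ContinuousLinearMap.snd ℝ ℝ ℝ) z := hasFDerivAt_snd
  have h2 := h1.const_mul (s / 2)
  have e : (fun z : ℝ × ℝ => s * z.2 / 2) = fun z => s / 2 * z.2 := funext fun z => by ring
  rw [e]
  refine h2.congr_fderiv ?_
  refine ContinuousLinearMap.ext fun v => ?_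
  change s / 2 * v.2 = 0 * v.1 + s / 2 * v.2
  ring

private theorem jtg_const (c : ℝ) : D1 (fun _ => c) (fun _ => 0) (fun _ => 0) := by
  intro z
  refine (hasFDerivAt_const c z).congr_fderiv ?_
  refine ContinuousLinearMap.ext fun v => ?_
  change (0 : ℝ) = 0 * v.1 + 0 * v.2
  ring

private theorem jtg_congr {F FX FY FX' FY' : ℝ × ℝ → ℝ} (h : D1 F FX FY)
    (h1 : ∀ z, FX' z = FX z) (h2 : ∀ z, FY' z = FY z) : D1 F FX' FY' := by
  have e1 : FX' = FX := funext h1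
  have e2 : FY' = FY := funext h2
  rw [e1, e2]
  exact h

theorem good_sJ (s : ℝ) : (sJ s).Good :=
  { d := by
      refine jtg_congr (jtg_sub (jtg_sub good_lJ.d (jtg_lin s)) (jtg_const (cc / 2)))
        (fun z => ?_) (fun z => ?_)
      · simp only [sJ]
        ring
      · simp only [sJ]
        ring
    dX := good_lJ.dX
    dY := by
      refine jtg_congr (jtg_sub good_lJ.dY (jtg_const (s / 2))) (fun z => ?_) (fun z => ?_)
      · simp only [sJ]
        ring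
      · simp only [sJ]
        ring
    dXX := good_lJ.dXX
    dXY := good_lJ.dXY
    dYY := good_lJ.dYY
    cXXX := good_lJ.cXXX
    cXXY := good_lJ.cXXY
    cXYY := good_lJ.cXYY
    cYYY := good_lJ.cYYY }

theorem bp_ne (x y : ℝ) : bp x y ≠ 0 := by
  intro h
  have h0 : bp x y 0 = (0 : E) 0 := by rw [h]
  have h1 : bp x y 1 = (0 : E) 1 := by rw [h]
  have h2 : bp x y 2 = (0 : E) 2 := by rw [h]
  rw [bp, pt0, PiLp.zero_apply] at h0
  rw [bp, pt1, PiLp.zero_apply] at h1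
  rw [bp, pt2, PiLp.zero_apply] at h2
  linarith

private noncomputable def jtg_L : ℝ × ℝ →L[ℝ] E :=
  (ContinuousLinearMap.fst ℝ ℝ ℝ).smulRight
      (EuclideanSpace.single (0 : Fin 3) (1 : ℝ) - EuclideanSpace.single (2 : Fin 3) (1 : ℝ)) +
    (ContinuousLinearMap.snd ℝ ℝ ℝ).smulRight
      (EuclideanSpace.single (1 : Fin 3) (1 : ℝ) - EuclideanSpace.single (2 : Fin 3) (1 : ℝ))

private theorem jtg_bp (z : ℝ × ℝ) : bp z.1 z.2 = pt 0 0 1 + jtg_L z := by
  ext i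
  fin_cases i
  · simp [bp, pt, jtg_L]
  · simp [bp, pt, jtg_L]
  · simp [bp, pt, jtg_L]
    ring

private theorem jtg_hbp (z : ℝ × ℝ) : HasFDerivAt (fun z : ℝ × ℝ => bp z.1 z.2) jtg_L z := by
  have e : (fun z : ℝ × ℝ => bp z.1 z.2) = fun z => pt 0 0 1 + jtg_L z := funext jtg_bp
  rw [e]
  exact (jtg_L.hasFDerivAt).const_add _

private theorem jtg_D1 {F : E → ℝ} (h : Sm 1 F) :
    D1 (fun z => F (bp z.1 z.2)) (fun z => dd 0 F (bp z.1 z.2)) (fun z => dd 1 F (bp z.1 z.2)) := by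
  intro z
  have h1 := (sm_differentiableAt h (bp_ne z.1 z.2)).hasFDerivAt.comp z (jtg_hbp z)
  refine h1.congr_fderiv ?_
  refine ContinuousLinearMap.ext fun v => ?_
  have e1 : jtg_L v = v.1 • (EuclideanSpace.single (0 : Fin 3) (1 : ℝ) -
      EuclideanSpace.single (2 : Fin 3) (1 : ℝ)) + v.2 • (EuclideanSpace.single (1 : Fin 3) (1 : ℝ) -
      EuclideanSpace.single (2 : Fin 3) (1 : ℝ)) := rfl
  have e2 : ((fderiv ℝ F (bp z.1 z.2)).comp jtg_L) v = fderiv ℝ F (bp z.1 z.2) (jtg_L v) := rfl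
  rw [e2, e1, map_add, map_smul, map_smul, map_sub, map_sub]
  change v.1 * (pd 0 F (bp z.1 z.2) - pd 2 F (bp z.1 z.2)) +
      v.2 * (pd 1 F (bp z.1 z.2) - pd 2 F (bp z.1 z.2)) =
    (pd 0 F (bp z.1 z.2) - pd 2 F (bp z.1 z.2)) * v.1 +
      (pd 1 F (bp z.1 z.2) - pd 2 F (bp z.1 z.2)) * v.2
  ring

private theorem jtg_cbp : Continuous fun z : ℝ × ℝ => bp z.1 z.2 :=
  continuous_iff_continuousAt.2 fun z => (jtg_hbp z).continuousAt

private theorem jtg_cont {F : E → ℝ} (h : Sm 0 F) : Continuous (fun z : ℝ × ℝ => F (bp z.1 z.2)) :=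
  ContinuousOn.comp_continuous (ContDiffOn.continuousOn h) jtg_cbp (fun z => bp_ne z.1 z.2)

private theorem jtg_sm {n : ℕ} {F : E → ℝ} (h : Sm (n + 1) F) (i : Fin 3) : Sm n (dd i F) :=
  sm_sub (sm_pd h i) (sm_pd h 2)

private theorem jtg_ddc {F G : E → ℝ} (h : ∀ y : E, y ≠ 0 → F y = G y) {x : E} (hx : x ≠ 0)
    (i : Fin 3) : dd i F x = dd i G x := by
  rw [dd, dd, pd_congr h hx, pd_congr h hx]

private theorem jtg_dd2 {F : E → ℝ} (h : Sm 2 F) {x : E} (hx : x ≠ 0) (i j : Fin 3) :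
    dd i (dd j F) x = pd i (pd j F) x - pd i (pd 2 F) x - (pd 2 (pd j F) x - pd 2 (pd 2 F) x) := by
  have e : dd j F = fun a => pd j F a - pd 2 F a := rfl
  have h1 : ∀ k, Sm 1 (pd k F) := fun k => sm_pd (n := 1) h k
  rw [dd, e, pd_sub (h1 j) (h1 2) hx, pd_sub (h1 j) (h1 2) hx]

private theorem jtg_comm {F : E → ℝ} (h : Sm 2 F) {x : E} (hx : x ≠ 0) (i j : Fin 3) :
    dd i (dd j F) x = dd j (dd i F) x := by
  rw [jtg_dd2 h hx, jtg_dd2 h hx, pd_comm h hx i j, pd_comm h hx i 2, pd_comm h hx j 2]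
  ring

private theorem jtg_D1' {F : E → ℝ} (h : Sm 1 F) {A B : ℝ × ℝ → ℝ}
    (hA : ∀ z, A z = dd 0 F (bp z.1 z.2)) (hB : ∀ z, B z = dd 1 F (bp z.1 z.2)) :
    D1 (fun z => F (bp z.1 z.2)) A B :=
  jtg_congr (jtg_D1 h) hA hB

theorem good_jT {T : E → ℝ} (hT : Sm 3 T) : (jT T).Good := by
  have h1 : ∀ i, Sm 2 (dd i T) := fun i => jtg_sm (n := 2) hT i
  have h2 : ∀ i j, Sm 1 (dd i (dd j T)) := fun i j => jtg_sm (n := 1) (h1 j) i
  have h3 : ∀ i j k, Sm 0 (dd i (dd j (dd k T))) := fun i j k => jtg_sm (n := 0) (h2 j k) i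
  have hT2 : Sm 2 T := sm_mono hT (by norm_num)
  have hT1 : Sm 1 T := sm_mono hT (by norm_num)
  have h11 : ∀ i, Sm 1 (dd i T) := fun i => sm_mono (h1 i) (by norm_num)
  refine ⟨?_, ?_, ?_, ?_, ?_, ?_, ?_, ?_, ?_, ?_⟩
  · exact jtg_D1 hT1
  · exact jtg_D1' (h11 0) (fun z => rfl) fun z => jtg_comm hT2 (bp_ne z.1 z.2) 0 1
  · exact jtg_D1 (h11 1)
  · refine jtg_D1' (h2 0 0) (fun z => rfl) (fun z => ?_)
    have e1 := jtg_comm (h1 0) (bp_ne z.1 z.2) 1 0
    have e2 := jtg_ddc (fun y hy => jtg_comm hT2 hy 1 0) (bp_ne z.1 z.2) 0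
    change dd 0 (dd 0 (dd 1 T)) (bp z.1 z.2) = _
    rw [e1, e2]
  · exact jtg_D1' (h2 0 1) (fun z => rfl) fun z => jtg_comm (h1 1) (bp_ne z.1 z.2) 0 1
  · exact jtg_D1 (h2 1 1)
  · exact jtg_cont (h3 0 0 0)
  · exact jtg_cont (h3 0 0 1)
  · exact jtg_cont (h3 0 1 1)
  · exact jtg_cont (h3 1 1 1)

end Pool.Agent.MGF
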