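import Pool.Agent.MGF.Defs2
import Pool.Agent.MEIS.SMA
import Pool.Agent.MEIS.HOM
import Pool.Agent.MEIS.NRM
import Pool.Agent.MEIS.PDR
import Pool.Agent.MEIS.GRD
import Pool.Agent.MGE.VV
import Pool.Agent.MGE.EDN
import Pool.Agent.MGF.WPF
import Pool.Agent.MGF.JTG
/-!
PWN (200 lines). Pointwise identities of the triangle.
PROOF. a = bp x y, so a 0 + a 1 + a 2 = 1. For a function f of degree 1 the array A = (pd i (pd j f) a) is symmetric and A a = 0 (euler_two), hence with s = a 0 + a 1 + a 2 = 1 the chart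
entries p = A00 - 2A02 + A22, q = A01 - A02 - A12 + A22, r = A11 - 2A12 + A22 (dd 0 (dd 0 f), dd 0 (dd 1 f), dd 1 (dd 1 f)) determine A: A00 = p(1-a0)²- ... precisely A(u,v) depends
only on u - (sum u) a, v - (sum v) a: e_0 - a = (1-a0)(e_0-e_2) - a1 (e_1-e_2), e_1 - a = -a0 (e_0-e_2) + (1-a1)(e_1-e_2), e_2 - a = -a0 (e_0-e_2) - a1 (e_1-e_2).
(1) second derivatives of l = nW: l_ij = (G_ij - (Ga)_i (Ga)_j/l²)/l with Gram matrix G (1 on the diagonal, 1/2 off). Claims: mxd (jT nW) (jT T) = Lp T a/(4 l³) and mxd (jT nW) (jT nW) = 1/(2 l⁴)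
(Lp nW = 2/l), so 4 T mxd l (l + T) = 4T (1/(2l⁴) + Lp T/(4l³)). Everything is a polynomial identity after clearing l with l² = the quadratic form (nW_sq).
(2) dN: with x = Wp a, ed G x = 1/4 - ‖x‖² sg (od G) x; on the other hand mxd (jT T) (jT (l+T)) for T = linear - G∘W is -(mixed discriminant of G∘W and l - G∘W ... ): second derivatives of
T are minus those of G∘W. det of the chart Hessian of f∘W (f of degree 1 on E) = (1/2) sg f (x)/l² (det W² = 1/2 and adj(D²f) = sg f x xᵀ/‖x‖², or polynomial identity via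
pd2_Wp). Use f = G and f = ‖.‖ - G: mxd (u) (v) = (det (u+v) - det u - det v)/2 with u+v = l: -l mxd T (l+T) = l mxd (G∘W) (l - G∘W) =
(l/2)(1/2)(1/l²)(1/l² ... ) where sg ‖.‖ (x) = 1/l², so = (1/(4l))(1/l² - sg G x - sg (‖.‖ - G) x) and sg G + sg(‖.‖ - G) = 2 (1/(4l²) + sg (od G)) (PTW/CHA: G = ‖.‖/2 + od G). Hence
√2 l mxd (G∘W)(l - G∘W) = (√2/(4 l))(1/(2l²) - 2 sg (od G)) = (√2/(2 l³)) (1/4 - l² sg (od G)) = ed G x/(√2 l³) = dN. (See MGE.PTI for the analogous computation.)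
-/
set_option autoImplicit false

open MeasureTheory Set Metric Pool.Agent.MEIS Pool.Agent.MSQ Pool.Agent.MGE

namespace Pool.Agent.MGF

private theorem pwn_dd2 {f : E → ℝ} (hf : Sm 2 f) {a : E} (ha : a ≠ 0) (i j : Fin 3) :
    dd i (dd j f) a = pd i (pd j f) a - pd i (pd 2 f) a - (pd 2 (pd j f) a - pd 2 (pd 2 f) a) := by
  have h := fun m : Fin 3 => pd_sub (sm_pd (n := 1) hf j) (sm_pd (n := 1) hf 2) ha m
  change pd i (fun y => pd j f y - pd 2 f y) a - pd 2 (fun y => pd j f y - pd 2 f y) a = _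
  rw [h, h]

private theorem pwn_we : (we 0 1 2 3 0 0 = 1 ∧ we 0 1 2 3 0 1 = 0 ∧ we 0 1 2 3 0 2 = 0) ∧
    (we 0 1 2 3 1 0 = 1 / 2 ∧ we 0 1 2 3 1 1 = -1 / 2 ∧ we 0 1 2 3 1 2 = cc) ∧
    (we 0 1 2 3 2 0 = 1 / 2 ∧ we 0 1 2 3 2 1 = 1 / 2 ∧ we 0 1 2 3 2 2 = cc) := by
  refine ⟨⟨?_, ?_, ?_⟩, ⟨?_, ?_, ?_⟩, ⟨?_, ?_, ?_⟩⟩
  · change (1 / 2 : ℝ) - (-1 / 2) = 1
    norm_num
  · change (0 : ℝ) - 0 = 0
    norm_num
  · change cc / 2 - cc / 2 = 0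
    ring
  · change (1 / 2 : ℝ) - 0 = 1 / 2
    norm_num
  · change (0 : ℝ) - 1 / 2 = -1 / 2
    norm_num
  · change cc / 2 - (-cc / 2) = cc
    ring
  · change (1 / 2 : ℝ) - 0 = 1 / 2
    norm_num
  · change (0 : ℝ) - (-1 / 2) = 1 / 2
    norm_num
  · change cc / 2 - (-cc / 2) = cc
    ring

private theorem pwn_x (a : E) : Wp 0 1 2 3 a 0 = a 0 + (a 1 + a 2) / 2 ∧
    Wp 0 1 2 3 a 1 = (a 2 - a 1) / 2 ∧ Wp 0 1 2 3 a 2 = cc * (a 1 + a 2) := by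
  obtain ⟨⟨u0, u1, u2⟩, ⟨v0, v1, v2⟩, ⟨w0, w1, w2⟩⟩ := pwn_we
  have h : ∀ n : Fin 3, Wp 0 1 2 3 a n = a 0 * we 0 1 2 3 0 n + a 1 * we 0 1 2 3 1 n + a 2 * we 0 1 2 3 2 n :=
    fun n => rfl
  rw [h, h, h, u0, u1, u2, v0, v1, v2, w0, w1, w2]
  refine ⟨?_, ?_, ?_⟩ <;> ring

/-- second derivatives in the chart of a function on the cone -/
private theorem pwn_ch {f : E → ℝ} (hf : Sm 2 f) {a : E} (ha : a ≠ 0) :
    dd 0 (dd 0 (fun a => f (Wp 0 1 2 3 a))) a =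
        1 / 4 * pd 0 (pd 0 f) (Wp 0 1 2 3 a) + 1 / 4 * pd 1 (pd 1 f) (Wp 0 1 2 3 a) +
          1 / 2 * pd 2 (pd 2 f) (Wp 0 1 2 3 a) - 1 / 2 * pd 0 (pd 1 f) (Wp 0 1 2 3 a) -
          cc * pd 0 (pd 2 f) (Wp 0 1 2 3 a) + cc * pd 1 (pd 2 f) (Wp 0 1 2 3 a) ∧
      dd 0 (dd 1 (fun a => f (Wp 0 1 2 3 a))) a =
        -(1 / 2) * pd 0 (pd 1 f) (Wp 0 1 2 3 a) + 1 / 2 * pd 1 (pd 1 f) (Wp 0 1 2 3 a) +
          cc * pd 1 (pd 2 f) (Wp 0 1 2 3 a) ∧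
      dd 1 (dd 1 (fun a => f (Wp 0 1 2 3 a))) a = pd 1 (pd 1 f) (Wp 0 1 2 3 a) := by
  have hD : Dis 0 1 2 3 := by decide
  have hc := cc_sq
  obtain ⟨⟨u0, u1, u2⟩, ⟨v0, v1, v2⟩, ⟨w0, w1, w2⟩⟩ := pwn_we
  have hx := Wp_ne hD ha
  have s01 := pd_comm hf hx 1 0
  have s02 := pd_comm hf hx 2 0
  have s12 := pd_comm hf hx 2 1
  have hS : Sm 2 (fun a => f (Wp 0 1 2 3 a)) := Sm_Wp hD hf
  rw [pwn_dd2 hS ha, pwn_dd2 hS ha, pwn_dd2 hS ha]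
  simp only [pd2_Wp hD hf ha, Fin.sum_univ_three, u0, u1, u2, v0, v1, v2, w0, w1, w2, s01, s02, s12]
  generalize pd 0 (pd 0 f) (Wp 0 1 2 3 a) = f00
  generalize pd 0 (pd 1 f) (Wp 0 1 2 3 a) = f01
  generalize pd 0 (pd 2 f) (Wp 0 1 2 3 a) = f02
  generalize pd 1 (pd 1 f) (Wp 0 1 2 3 a) = f11
  generalize pd 1 (pd 2 f) (Wp 0 1 2 3 a) = f12
  generalize pd 2 (pd 2 f) (Wp 0 1 2 3 a) = f22
  refine ⟨?_, ?_, ?_⟩
  · linear_combination f22 * hc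
  · ring
  · ring

private theorem pwn_nW : nW = fun a => ‖Wp 0 1 2 3 a‖ := by
  funext a
  exact (norm_Wp (by decide) a).symm

/-- chart Hessian of `nW` -/
private theorem pwn_l {a : E} (ha : a ≠ 0) :
    dd 0 (dd 0 nW) a = (1 - ((a 0 - a 2) / 2) ^ 2 / nW a ^ 2) / nW a ∧
      dd 0 (dd 1 nW) a = (1 / 2 - (a 0 - a 2) / 2 * ((a 1 - a 2) / 2) / nW a ^ 2) / nW a ∧
      dd 1 (dd 1 nW) a = (1 - ((a 1 - a 2) / 2) ^ 2 / nW a ^ 2) / nW a := by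
  have hD : Dis 0 1 2 3 := by decide
  have hx := Wp_ne hD ha
  have hl := nW_pos ha
  have hn : ‖Wp 0 1 2 3 a‖ = nW a := norm_Wp hD a
  have hc := cc_sq
  obtain ⟨c0, c1, c2⟩ := pwn_ch (f := fun y : E => ‖y‖) (sm_norm 2) ha
  obtain ⟨x0, x1, x2⟩ := pwn_x a
  rw [pwn_nW]
  rw [c0, c1, c2]
  simp only [pd2_norm hx, x0, x1, x2, hn]
  simp only [if_true, show ((0 : Fin 3) = 1) = False from by simp, show ((0 : Fin 3) = 2) = False from by simp,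
    show ((1 : Fin 3) = 2) = False from by simp, if_false]
  refine ⟨?_, ?_, ?_⟩
  · field_simp
    ring_nf
    linear_combination (32 * a 0 * a 1 + 32 * a 0 * a 2 + 16 * a 1 ^ 2 - 16 * a 2 ^ 2) * hc
  · field_simp
    ring_nf
    linear_combination (4 * a 1 ^ 2 - 4 * a 2 ^ 2) * hc
  · field_simp
    ring

private theorem pwn_add {f g : E → ℝ} (hf : Sm 2 f) (hg : Sm 2 g) {a : E} (ha : a ≠ 0) (i j : Fin 3) :
    pd i (pd j (fun a => f a + g a)) a = pd i (pd j f) a + pd i (pd j g) a := by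
  have h1 : pd i (pd j (fun a => f a + g a)) a = pd i (fun y => pd j f y + pd j g y) a :=
    pd_congr (fun y hy => pd_add (sm_mono hf (by norm_num)) (sm_mono hg (by norm_num)) hy j) ha i
  rw [h1, pd_add (sm_pd (n := 1) hf j) (sm_pd (n := 1) hg j) ha i]

private theorem pwn_half {g : E → ℝ} (hg : Sm 2 g) {a : E} (ha : a ≠ 0) (i j : Fin 3) :
    pd i (pd j (fun a => 1 / 2 * g a)) a = 1 / 2 * pd i (pd j g) a := by
  have h1 : pd i (pd j (fun a => 1 / 2 * g a)) a = pd i (fun y => 1 / 2 * pd j g y) a :=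
    pd_congr (fun y hy => pd_cmul _ (sm_mono hg (by norm_num)) hy j) ha i
  rw [h1, pd_cmul _ (sm_pd (n := 1) hg j) ha i]

private theorem pwn_lin (a : E) (i : Fin 3) : pd i (fun a : E => (a 0 + a 1 + a 2) / 2) a = 1 / 2 := by
  set L : E →L[ℝ] ℝ := (1 / 2 : ℝ) • (EuclideanSpace.proj (0 : Fin 3) + EuclideanSpace.proj (1 : Fin 3) +
    EuclideanSpace.proj (2 : Fin 3)) with hL
  have h0 : ∀ b : E, L b = 1 / 2 * (b 0 + b 1 + b 2) := fun b => rfl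
  have h1 : (fun a : E => (a 0 + a 1 + a 2) / 2) = fun a => L a := by
    funext b
    rw [h0]
    ring
  rw [h1]
  unfold pd
  rw [ContinuousLinearMap.fderiv, h0]
  fin_cases i <;> simp

private theorem pwn_sub {g : E → ℝ} (hg : Sm 2 g) {a : E} (ha : a ≠ 0) (i j : Fin 3) :
    pd i (pd j (fun a => (a 0 + a 1 + a 2) / 2 - g a)) a = -pd i (pd j g) a := by
  have hL : Sm 1 (fun a : E => (a 0 + a 1 + a 2) / 2) := by
    have h := sm_cmul (1 / 2) (sm_add (sm_add (sm_coord 1 0) (sm_coord 1 1)) (sm_coord 1 2))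
    have e : (fun a : E => (a 0 + a 1 + a 2) / 2) = fun x : E => 1 / 2 * (x 0 + x 1 + x 2) := by
      funext b
      ring
    rw [e]
    exact h
  have h1 : pd i (pd j (fun a => (a 0 + a 1 + a 2) / 2 - g a)) a = pd i (fun y => 1 / 2 - pd j g y) a := by
    refine pd_congr (fun y hy => ?_) ha i
    rw [pd_sub hL (sm_mono hg (by norm_num)) hy j, pwn_lin]
  rw [h1, pd_sub (sm_const 1 (1 / 2)) (sm_pd (n := 1) hg j) ha i]
  have h2 : pd i (fun _ : E => (1 / 2 : ℝ)) a = 0 := by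
    unfold pd
    simp
  rw [h2, zero_sub]

private theorem pwn_q {x y l : ℝ}
    (hl2 : l ^ 2 = x ^ 2 + y ^ 2 + (1 - x - y) ^ 2 + x * y + x * (1 - x - y) + y * (1 - x - y)) :
    3 / 4 * l ^ 2 - (((x - (1 - x - y)) / 2) ^ 2 + ((y - (1 - x - y)) / 2) ^ 2 -
      (x - (1 - x - y)) / 2 * ((y - (1 - x - y)) / 2)) = 1 / 2 := by
  rw [hl2]
  ring

private theorem pwn_det {P Q l : ℝ} (hl : 0 < l) (h : 3 / 4 * l ^ 2 - (P ^ 2 + Q ^ 2 - P * Q) = 1 / 2) :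
    (1 - P ^ 2 / l ^ 2) / l * ((1 - Q ^ 2 / l ^ 2) / l) - ((1 / 2 - P * Q / l ^ 2) / l) ^ 2 =
      1 / (2 * l ^ 4) := by
  have e : (1 - P ^ 2 / l ^ 2) / l * ((1 - Q ^ 2 / l ^ 2) / l) - ((1 / 2 - P * Q / l ^ 2) / l) ^ 2 =
      (3 / 4 * l ^ 2 - (P ^ 2 + Q ^ 2 - P * Q)) / l ^ 4 := by
    field_simp
    ring
  rw [e, h]
  field_simp

theorem CN_density {T : E → ℝ} (hs : Sm 3 T) (hh : Hom 1 T) (x y : ℝ) :
    2 * T (bp x y) / nW (bp x y) ^ 4 + T (bp x y) * Lp T (bp x y) / nW (bp x y) ^ 3 =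
      4 * (T (bp x y) * mxd (jT nW) (jT (lT T)) (x, y)) := by
  have ha : bp x y ≠ 0 := bp_ne x y
  have hl := nW_pos ha
  have a0 : bp x y 0 = x := rfl
  have a1 : bp x y 1 = y := rfl
  have a2 : bp x y 2 = 1 - x - y := rfl
  have hl2 := nW_sq (bp x y)
  rw [a0, a1, a2] at hl2
  have hs2 : Sm 2 T := sm_mono hs (by norm_num)
  have hn2 : Sm 2 nW := sm_mono nW_sm (by norm_num)
  have hs2' : Sm 2 (lT T) := sm_add hn2 hs2
  obtain ⟨l0, l1, l2⟩ := pwn_l ha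
  rw [a0, a2] at l0
  rw [a0, a1, a2] at l1
  rw [a1, a2] at l2
  have e := fun i => euler_two hs2 hh ha i
  simp only [Fin.sum_univ_three, a0, a1, a2] at e
  have e0 := e 0
  have e1 := e 1
  have e2 := e 2
  have s01 := pd_comm hs2 ha 1 0
  have s02 := pd_comm hs2 ha 2 0
  have s12 := pd_comm hs2 ha 2 1
  rw [s01] at e1
  rw [s02, s12] at e2
  have hm : ∀ i j : Fin 3, dd i (dd j (lT T)) (bp x y) = dd i (dd j nW) (bp x y) + dd i (dd j T) (bp x y) := by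
    intro i j
    rw [pwn_dd2 hs2' ha, pwn_dd2 hn2 ha, pwn_dd2 hs2 ha]
    unfold lT
    rw [pwn_add hn2 hs2 ha, pwn_add hn2 hs2 ha, pwn_add hn2 hs2 ha, pwn_add hn2 hs2 ha]
    ring
  have hq := pwn_q hl2
  have hd := pwn_det hl hq
  change _ = 4 * (T (bp x y) * ((dd 0 (dd 0 nW) (bp x y) * dd 1 (dd 1 (lT T)) (bp x y) +
    dd 1 (dd 1 nW) (bp x y) * dd 0 (dd 0 (lT T)) (bp x y) -
    2 * dd 0 (dd 1 nW) (bp x y) * dd 0 (dd 1 (lT T)) (bp x y)) / 2))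
  rw [hm, hm, hm, l0, l1, l2, pwn_dd2 hs2 ha, pwn_dd2 hs2 ha, pwn_dd2 hs2 ha, s02, s12]
  unfold Lp
  generalize pd 0 (pd 0 T) (bp x y) = f00 at *
  generalize pd 0 (pd 1 T) (bp x y) = f01 at *
  generalize pd 0 (pd 2 T) (bp x y) = f02 at *
  generalize pd 1 (pd 1 T) (bp x y) = f11 at *
  generalize pd 1 (pd 2 T) (bp x y) = f12 at *
  generalize pd 2 (pd 2 T) (bp x y) = f22 at *
  generalize T (bp x y) = t
  generalize nW (bp x y) = l at *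
  have hmix : (1 - ((x - (1 - x - y)) / 2) ^ 2 / l ^ 2) / l * (f11 - f12 - (f12 - f22)) +
      (1 - ((y - (1 - x - y)) / 2) ^ 2 / l ^ 2) / l * (f00 - f02 - (f02 - f22)) -
      2 * ((1 / 2 - (x - (1 - x - y)) / 2 * ((y - (1 - x - y)) / 2) / l ^ 2) / l) *
        (f01 - f02 - (f12 - f22)) =
      (3 / 2 * (f00 + f11 + f22) - (f01 + f02 + f12)) / (2 * l ^ 3) := by
    have h1 : (l ^ 2 - ((x - (1 - x - y)) / 2) ^ 2) * (f11 - f12 - (f12 - f22)) +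
        (l ^ 2 - ((y - (1 - x - y)) / 2) ^ 2) * (f00 - f02 - (f02 - f22)) -
        2 * (l ^ 2 / 2 - (x - (1 - x - y)) / 2 * ((y - (1 - x - y)) / 2)) * (f01 - f02 - (f12 - f22)) =
        (3 / 2 * (f00 + f11 + f22) - (f01 + f02 + f12)) / 2 := by
      rw [hl2]
      linear_combination (-(1 / 2) * (e0 + e1 + e2) + 3 / 4 * (x * e0 + y * e1 + (1 - x - y) * e2))
    have h2 : (1 - ((x - (1 - x - y)) / 2) ^ 2 / l ^ 2) / l * (f11 - f12 - (f12 - f22)) +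
      (1 - ((y - (1 - x - y)) / 2) ^ 2 / l ^ 2) / l * (f00 - f02 - (f02 - f22)) -
      2 * ((1 / 2 - (x - (1 - x - y)) / 2 * ((y - (1 - x - y)) / 2) / l ^ 2) / l) *
        (f01 - f02 - (f12 - f22)) = ((l ^ 2 - ((x - (1 - x - y)) / 2) ^ 2) * (f11 - f12 - (f12 - f22)) +
        (l ^ 2 - ((y - (1 - x - y)) / 2) ^ 2) * (f00 - f02 - (f02 - f22)) -
        2 * (l ^ 2 / 2 - (x - (1 - x - y)) / 2 * ((y - (1 - x - y)) / 2)) * (f01 - f02 - (f12 - f22))) / l ^ 3 := by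
      field_simp
    rw [h2, h1]
    field_simp
  generalize (1 - ((x - (1 - x - y)) / 2) ^ 2 / l ^ 2) / l = L1 at *
  generalize (1 - ((y - (1 - x - y)) / 2) ^ 2 / l ^ 2) / l = L3 at *
  generalize (1 / 2 - (x - (1 - x - y)) / 2 * ((y - (1 - x - y)) / 2) / l ^ 2) / l = L2 at *
  generalize f11 - f12 - (f12 - f22) = r at *
  generalize f00 - f02 - (f02 - f22) = p at *
  generalize f01 - f02 - (f12 - f22) = q at *
  generalize 3 / 2 * (f00 + f11 + f22) - (f01 + f02 + f12) = w at *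
  have h3 : 4 * (t * ((L1 * (L3 + r) + L3 * (L1 + p) - 2 * L2 * (L2 + q)) / 2)) =
      2 * t * (2 * (L1 * L3 - L2 ^ 2) + (L1 * r + L3 * p - 2 * L2 * q)) := by ring
  rw [h3, hd, hmix]
  field_simp

private theorem pwn_adj {F00 F01 F02 F11 F12 F22 x0 x1 x2 c : ℝ} (hc : c ^ 2 = 1 / 2)
    (E0 : x0 * F00 + x1 * F01 + x2 * F02 = 0) (E1 : x0 * F01 + x1 * F11 + x2 * F12 = 0)
    (E2 : x0 * F02 + x1 * F12 + x2 * F22 = 0) (h : x0 + c * x2 = 1) :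
    (x0 ^ 2 + x1 ^ 2 + x2 ^ 2) * ((1 / 4 * F00 + 1 / 4 * F11 + 1 / 2 * F22 - 1 / 2 * F01 - c * F02 + c * F12) * F11 -
      (-(1 / 2) * F01 + 1 / 2 * F11 + c * F12) ^ 2) =
      1 / 2 * (F00 * F11 + F00 * F22 + F11 * F22 - F01 ^ 2 - F02 ^ 2 - F12 ^ 2) := by
  obtain ⟨C00, d00⟩ : ∃ C, C = F11 * F22 - F12 ^ 2 := ⟨_, rfl⟩
  obtain ⟨C11, d11⟩ : ∃ C, C = F00 * F22 - F02 ^ 2 := ⟨_, rfl⟩
  obtain ⟨C22, d22⟩ : ∃ C, C = F00 * F11 - F01 ^ 2 := ⟨_, rfl⟩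
  obtain ⟨C01, d01⟩ : ∃ C, C = F02 * F12 - F01 * F22 := ⟨_, rfl⟩
  obtain ⟨C02, d02⟩ : ∃ C, C = F01 * F12 - F02 * F11 := ⟨_, rfl⟩
  obtain ⟨C12, d12⟩ : ∃ C, C = F01 * F02 - F00 * F12 := ⟨_, rfl⟩
  have k1 : C00 * x2 - C02 * x0 = 0 := by rw [d00, d02]; linear_combination F11 * E2 - F12 * E1
  have k2 : C01 * x0 - C00 * x1 = 0 := by rw [d00, d01]; linear_combination F12 * E2 - F22 * E1
  have k3 : C11 * x0 - C01 * x1 = 0 := by rw [d11, d01]; linear_combination F22 * E0 - F02 * E2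
  have k4 : C22 * x0 - C02 * x2 = 0 := by rw [d22, d02]; linear_combination F11 * E0 - F01 * E1
  have k5 : C01 * x2 - C02 * x1 = 0 := by rw [d01, d02]; linear_combination F02 * E1 - F01 * E2
  have k6 : C22 * x1 - C12 * x2 = 0 := by rw [d22, d12]; linear_combination F00 * E1 - F01 * E0
  have k7 : C12 * x1 - C11 * x2 = 0 := by rw [d12, d11]; linear_combination F02 * E0 - F00 * E2
  have hA : C00 * (x0 ^ 2 + x1 ^ 2 + x2 ^ 2) - (C00 + C11 + C22) * x0 ^ 2 = 0 := by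
    linear_combination -x0 * k3 - x1 * k2 - x0 * k4 + x2 * k1
  have hB : C02 * (x0 ^ 2 + x1 ^ 2 + x2 ^ 2) - (C00 + C11 + C22) * (x0 * x2) = 0 := by
    linear_combination -x0 * k1 - x2 * k3 - x1 * k5 - x2 * k4
  have hD : C22 * (x0 ^ 2 + x1 ^ 2 + x2 ^ 2) - (C00 + C11 + C22) * x2 ^ 2 = 0 := by
    linear_combination x0 * k4 - x2 * k1 + x1 * k6 + x2 * k7
  have h1 : (1 / 4 * F00 + 1 / 4 * F11 + 1 / 2 * F22 - 1 / 2 * F01 - c * F02 + c * F12) * F11 -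
      (-(1 / 2) * F01 + 1 / 2 * F11 + c * F12) ^ 2 = 1 / 2 * C00 + c * C02 + 1 / 4 * C22 := by
    rw [d00, d02, d22]
    linear_combination -F12 ^ 2 * hc
  have h2 : F00 * F11 + F00 * F22 + F11 * F22 - F01 ^ 2 - F02 ^ 2 - F12 ^ 2 = C00 + C11 + C22 := by
    rw [d00, d11, d22]
    ring
  rw [h1, h2]
  linear_combination 1 / 2 * hA + c * hB + 1 / 4 * hD +
    (C00 + C11 + C22) * (1 / 2 * (x0 + c * x2 + 1) * h - 1 / 2 * x2 ^ 2 * hc)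

theorem dN_density {G : E → ℝ} {R τ : ℝ} (h : SB G R τ) (x y : ℝ) :
    dN G x y = -(√2 * (nW (bp x y) *
      mxd (jT (Tf G 0 1 2 3)) (jT (lT (Tf G 0 1 2 3))) (x, y))) := by
  have hD : Dis 0 1 2 3 := by decide
  have ha : bp x y ≠ 0 := bp_ne x y
  have hl := nW_pos ha
  have a0 : bp x y 0 = x := rfl
  have a1 : bp x y 1 = y := rfl
  have a2 : bp x y 2 = 1 - x - y := rfl
  have hl2 := nW_sq (bp x y)
  rw [a0, a1, a2] at hl2
  have hx := Wp_ne hD ha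
  have hO2 : Sm 2 (od G) := sm_mono (od_sm h) (by norm_num)
  have hn2 : Sm 2 nW := sm_mono nW_sm (by norm_num)
  have ho2 : Sm 2 (fun a => od G (Wp 0 1 2 3 a)) := Sm_Wp hD hO2
  have hg2 : Sm 2 (fun a => od G (Wp 0 1 2 3 a) + 1 / 2 * nW a) := sm_add ho2 (sm_cmul _ hn2)
  have hT : Tf G 0 1 2 3 = fun a => (a 0 + a 1 + a 2) / 2 - (od G (Wp 0 1 2 3 a) + 1 / 2 * nW a) := by
    funext a
    rw [Tf_eq hD, od, norm_Wp hD]
    ring
  have hTs : Sm 2 (Tf G 0 1 2 3) := by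
    rw [hT]
    have hL := sm_cmul (1 / 2) (sm_add (sm_add (sm_coord 2 0) (sm_coord 2 1)) (sm_coord 2 2))
    have e : (fun a : E => (a 0 + a 1 + a 2) / 2) = fun x : E => 1 / 2 * (x 0 + x 1 + x 2) := by
      funext b
      ring
    rw [← e] at hL
    exact sm_sub hL hg2
  have p1 : ∀ i j : Fin 3, pd i (pd j (Tf G 0 1 2 3)) (bp x y) =
      -(pd i (pd j (fun a => od G (Wp 0 1 2 3 a))) (bp x y) + 1 / 2 * pd i (pd j nW) (bp x y)) := by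
    intro i j
    rw [hT, pwn_sub hg2 ha, pwn_add ho2 (sm_cmul _ hn2) ha, pwn_half hn2 ha]
  have p2 : ∀ i j : Fin 3, dd i (dd j (Tf G 0 1 2 3)) (bp x y) =
      -(dd i (dd j (fun a => od G (Wp 0 1 2 3 a))) (bp x y) + 1 / 2 * dd i (dd j nW) (bp x y)) := by
    intro i j
    rw [pwn_dd2 hTs ha, pwn_dd2 ho2 ha, pwn_dd2 hn2 ha, p1, p1, p1, p1]
    ring
  have p3 : ∀ i j : Fin 3, dd i (dd j (lT (Tf G 0 1 2 3))) (bp x y) =
      1 / 2 * dd i (dd j nW) (bp x y) - dd i (dd j (fun a => od G (Wp 0 1 2 3 a))) (bp x y) := by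
    intro i j
    have hs2' : Sm 2 (lT (Tf G 0 1 2 3)) := sm_add hn2 hTs
    have hm : dd i (dd j (lT (Tf G 0 1 2 3))) (bp x y) =
        dd i (dd j nW) (bp x y) + dd i (dd j (Tf G 0 1 2 3)) (bp x y) := by
      rw [pwn_dd2 hs2' ha, pwn_dd2 hn2 ha, pwn_dd2 hTs ha]
      unfold lT
      rw [pwn_add hn2 hTs ha, pwn_add hn2 hTs ha, pwn_add hn2 hTs ha, pwn_add hn2 hTs ha]
      ring
    rw [hm, p2]
    ring
  obtain ⟨l0, l1, l2⟩ := pwn_l ha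
  rw [a0, a2] at l0
  rw [a0, a1, a2] at l1
  rw [a1, a2] at l2
  have hd := pwn_det hl (pwn_q hl2)
  rw [← l0, ← l1, ← l2] at hd
  obtain ⟨c0, c1, c2⟩ := pwn_ch hO2 ha
  obtain ⟨x0, x1, x2⟩ := pwn_x (bp x y)
  rw [a0, a1, a2] at x0
  rw [a1, a2] at x1 x2
  have e := fun i => euler_two hO2 (od_hom h) hx i
  simp only [Fin.sum_univ_three] at e
  have e0 := e 0
  have e1 := e 1
  have e2 := e 2
  have s01 := pd_comm hO2 hx 1 0
  have s02 := pd_comm hO2 hx 2 0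
  have s12 := pd_comm hO2 hx 2 1
  rw [s01] at e1
  rw [s02, s12] at e2
  have hc := cc_sq
  have hone : Wp 0 1 2 3 (bp x y) 0 + cc * Wp 0 1 2 3 (bp x y) 2 = 1 := by
    rw [x0, x2]
    linear_combination (y + (1 - x - y)) * hc
  have hadj := pwn_adj hc e0 e1 e2 hone
  rw [← c0, ← c1, ← c2] at hadj
  have hn : Wp 0 1 2 3 (bp x y) 0 ^ 2 + Wp 0 1 2 3 (bp x y) 1 ^ 2 + Wp 0 1 2 3 (bp x y) 2 ^ 2 = nW (bp x y) ^ 2 := by
    rw [← norm_Wp hD, EuclideanSpace.real_norm_sq_eq, Fin.sum_univ_three]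
  rw [hn] at hadj
  have hsg : sg (od G) (Wp 0 1 2 3 (bp x y)) = pd 0 (pd 0 (od G)) (Wp 0 1 2 3 (bp x y)) *
      pd 1 (pd 1 (od G)) (Wp 0 1 2 3 (bp x y)) + pd 0 (pd 0 (od G)) (Wp 0 1 2 3 (bp x y)) *
      pd 2 (pd 2 (od G)) (Wp 0 1 2 3 (bp x y)) + pd 1 (pd 1 (od G)) (Wp 0 1 2 3 (bp x y)) *
      pd 2 (pd 2 (od G)) (Wp 0 1 2 3 (bp x y)) - pd 0 (pd 1 (od G)) (Wp 0 1 2 3 (bp x y)) ^ 2 -
      pd 0 (pd 2 (od G)) (Wp 0 1 2 3 (bp x y)) ^ 2 - pd 1 (pd 2 (od G)) (Wp 0 1 2 3 (bp x y)) ^ 2 := by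
    simp only [sg, lap, hs, Fin.sum_univ_three]
    rw [s01, s02, s12]
    ring
  rw [← c2] at hsg
  rw [← hsg] at hadj
  unfold dN ed
  rw [norm_Wp hD]
  change _ = -(√2 * (nW (bp x y) * ((dd 0 (dd 0 (Tf G 0 1 2 3)) (bp x y) *
    dd 1 (dd 1 (lT (Tf G 0 1 2 3))) (bp x y) +
    dd 1 (dd 1 (Tf G 0 1 2 3)) (bp x y) * dd 0 (dd 0 (lT (Tf G 0 1 2 3))) (bp x y) -
    2 * dd 0 (dd 1 (Tf G 0 1 2 3)) (bp x y) * dd 0 (dd 1 (lT (Tf G 0 1 2 3))) (bp x y)) / 2)))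
  rw [p2, p2, p2, p3, p3, p3]
  generalize dd 0 (dd 0 nW) (bp x y) = L1 at *
  generalize dd 0 (dd 1 nW) (bp x y) = L2 at *
  generalize dd 1 (dd 1 nW) (bp x y) = L3 at *
  generalize dd 0 (dd 0 (fun a => od G (Wp 0 1 2 3 a))) (bp x y) = o1 at *
  generalize dd 0 (dd 1 (fun a => od G (Wp 0 1 2 3 a))) (bp x y) = o2 at *
  generalize dd 1 (dd 1 (fun a => od G (Wp 0 1 2 3 a))) (bp x y) = o3 at *
  generalize sg (od G) (Wp 0 1 2 3 (bp x y)) = σ at *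
  generalize nW (bp x y) = l at *
  have hr2 : √2 * √2 = 2 := Real.mul_self_sqrt (by norm_num)
  have hr0 : (0 : ℝ) < √2 := by positivity
  have h4 : o1 * o3 - o2 ^ 2 = σ / (2 * l ^ 2) := by
    rw [eq_div_iff (by positivity)]
    linear_combination 2 * hadj
  have h5 : ((-(o1 + 1 / 2 * L1)) * (1 / 2 * L3 - o3) + (-(o3 + 1 / 2 * L3)) * (1 / 2 * L1 - o1) -
      2 * (-(o2 + 1 / 2 * L2)) * (1 / 2 * L2 - o2)) / 2 =
      (o1 * o3 - o2 ^ 2) - 1 / 4 * (L1 * L3 - L2 ^ 2) := by ring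
  rw [h5, h4, hd]
  have h6 : (1 / 4 - l ^ 2 * σ) / (√2 * l ^ 3) = √2 * (1 / 4 - l ^ 2 * σ) / (2 * l ^ 3) := by
    rw [div_eq_div_iff (by positivity) (by positivity)]
    linear_combination (-(1 / 4 - l ^ 2 * σ) * l ^ 3) * hr2
  rw [h6]
  field_simp
  ring

end Pool.Agent.MGF
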