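import Pool.Agent.MGF.Defs2
import Pool.Agent.MEIS.SMA
import Pool.Agent.MEIS.HOM
import Pool.Agent.MEIS.PDR
import Pool.Agent.MGF.WPF
import Pool.Agent.MGF.JTG
/-!
SDN (150 lines). Fluxes through the sides of the triangle.
PROOF. At a point a of a side, ∂_x = ∂_0 - ∂_2, ∂_y = ∂_1 - ∂_2 (jT). For functions g of degree 1 (T, nW, l+T) Euler: ∑ a_m ∂_m g = g and ∑_m a_m ∂_m∂_n f = 0 (euler_two, pd_comm).
Side a0 = 0, a = (0, y, 1-y), t = 2y - 1: ∂_y = 2∂_t with ∂_t = (∂_1 - ∂_2)/2; ∂_x = ∂_0 - (radial) + t ∂_t + ∂_t: indeed ∂_2 = (∂_1+∂_2)/2 - ∂_t and (∂_1+∂_2)/2 = radial - t ∂_t on this side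
(a = (e_1+e_2)/2 + t (e_1-e_2)/2). In VX the terms along ∂_t cancel, and the radial ones cancel because radial T = T, radial l = l, radial of ∂_t f = 0:
VX = l (T_x f_yy - T_y f_xy) - T (l_x f_yy - l_y f_xy) = 4 [l (T_0 f_tt - T_t f_0t) - T (l_0 f_tt - l_t f_0t)] = 4 fx. Side a1 = 0: exchange the roles. Side a2 = 0: VX + VY with 2∂_t = ∂_x - ∂_y =
∂_0 - ∂_1: f_yy - f_xy = -∂_y 2∂_t f etc. gives 4 [l (T_x f_tt - T_t f_xt) - T(..)], ∂_x = -(∂_2 - radial + ...) so the result is -4 fx. (Or: express all quantities through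
the second derivatives, substitute the Euler relations and ring.)
-/
set_option autoImplicit false

open MeasureTheory Set Metric Pool.Agent.MEIS Pool.Agent.MSQ Pool.Agent.MGE

namespace Pool.Agent.MGF

private theorem SDN_dd2 {F : E → ℝ} (hs : Sm 3 F) {a : E} (ha : a ≠ 0) (i j : Fin 3) :
    dd i (dd j F) a = pd i (pd j F) a - pd i (pd 2 F) a - (pd 2 (pd j F) a - pd 2 (pd 2 F) a) := by
  have h : ∀ m : Fin 3, Sm 1 (pd m F) := fun m => sm_mono (sm_pd hs m) (by norm_num)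
  have h1 : ∀ m : Fin 3, pd m (dd j F) a = pd m (pd j F) a - pd m (pd 2 F) a := fun m =>
    pd_sub (h j) (h 2) ha m
  rw [dd, h1 i, h1 2]

private theorem SDN_sm {T : E → ℝ} (hs : Sm 3 T) : Sm 3 (lT T) := sm_add nW_sm hs

private theorem SDN_hom {T : E → ℝ} (hh : Hom 1 T) : Hom 1 (lT T) := hom_add nW_hom hh

private theorem SDN_e1 {F : E → ℝ} (hs : Sm 3 F) (hh : Hom 1 F) {a : E} (ha : a ≠ 0) :
    a 0 * pd 0 F a + a 1 * pd 1 F a + a 2 * pd 2 F a = F a := by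
  have h := hom_euler (sm_mono hs (by norm_num)) hh ha
  rw [Fin.sum_univ_three] at h
  rw [h]
  simp

private theorem SDN_c {F : E → ℝ} (hs : Sm 3 F) {a : E} (ha : a ≠ 0) (i j : Fin 3) :
    pd i (pd j F) a = pd j (pd i F) a := pd_comm (sm_mono hs (by norm_num)) ha i j

private theorem SDN_e2 {F : E → ℝ} (hs : Sm 3 F) (hh : Hom 1 F) {a : E} (ha : a ≠ 0) (i : Fin 3) :
    a 0 * pd 0 (pd i F) a + a 1 * pd 1 (pd i F) a + a 2 * pd 2 (pd i F) a = 0 := by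
  have h := euler_two (sm_mono hs (by norm_num)) hh ha i
  rw [Fin.sum_univ_three, SDN_c hs ha i 0, SDN_c hs ha i 1, SDN_c hs ha i 2] at h
  exact h

theorem flux0 {T : E → ℝ} (hs : Sm 3 T) (hh : Hom 1 T) (y : ℝ) :
    VX (jT nW) (jT T) (jT (lT T)) (0, y) = 4 * fx T 0 1 2 (pt 0 y (1 - y)) := by
  have hF := SDN_sm hs
  have hFh := SDN_hom hh
  have hb : bp 0 y = pt 0 y (1 - y) := by rw [bp, sub_zero]
  have ha : pt 0 y (1 - y) ≠ 0 := by rw [← hb]; exact bp_ne 0 y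
  have eT := SDN_e1 hs hh ha
  have el := SDN_e1 nW_sm nW_hom ha
  have e1 := SDN_e2 hF hFh ha 1
  have e2 := SDN_e2 hF hFh ha 2
  have c3 := SDN_c hF ha 1 2
  have d1 := SDN_dd2 hF ha 1 1
  have d2 := SDN_dd2 hF ha 0 1
  simp only [pt0, pt1, pt2] at eT el e1 e2
  simp only [VX, jT, fx, hb]
  rw [d1, d2]
  simp only [dd]
  rw [← eT, ← el]
  rw [← c3] at e1 ⊢
  linear_combination (pd 1 T (pt 0 y (1 - y)) * pd 2 nW (pt 0 y (1 - y)) -
    pd 1 nW (pt 0 y (1 - y)) * pd 2 T (pt 0 y (1 - y))) * (e1 - e2)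

theorem flux1 {T : E → ℝ} (hs : Sm 3 T) (hh : Hom 1 T) (x : ℝ) :
    VY (jT nW) (jT T) (jT (lT T)) (x, 0) = 4 * fx T 1 0 2 (pt x 0 (1 - x)) := by
  have hF := SDN_sm hs
  have hFh := SDN_hom hh
  have hb : bp x 0 = pt x 0 (1 - x) := by rw [bp, sub_zero]
  have ha : pt x 0 (1 - x) ≠ 0 := by rw [← hb]; exact bp_ne x 0
  have eT := SDN_e1 hs hh ha
  have el := SDN_e1 nW_sm nW_hom ha
  have e1 := SDN_e2 hF hFh ha 0
  have e2 := SDN_e2 hF hFh ha 2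
  have c3 := SDN_c hF ha 0 2
  have c4 := SDN_c hF ha 0 1
  have c5 := SDN_c hF ha 1 2
  have d1 := SDN_dd2 hF ha 0 0
  have d2 := SDN_dd2 hF ha 0 1
  simp only [pt0, pt1, pt2] at eT el e1 e2
  simp only [VY, jT, fx, hb]
  rw [d1, d2]
  simp only [dd]
  rw [← eT, ← el]
  rw [← c3] at e1 ⊢
  rw [← c4, ← c5]
  linear_combination (pd 0 T (pt x 0 (1 - x)) * pd 2 nW (pt x 0 (1 - x)) -
    pd 0 nW (pt x 0 (1 - x)) * pd 2 T (pt x 0 (1 - x))) * (e1 - e2)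

theorem flux2 {T : E → ℝ} (hs : Sm 3 T) (hh : Hom 1 T) (x : ℝ) :
    VX (jT nW) (jT T) (jT (lT T)) (x, 1 - x) + VY (jT nW) (jT T) (jT (lT T)) (x, 1 - x) =
      -(4 * fx T 2 0 1 (pt x (1 - x) 0)) := by
  have hF := SDN_sm hs
  have hFh := SDN_hom hh
  have hb : bp x (1 - x) = pt x (1 - x) 0 := by
    rw [bp, show 1 - x - (1 - x) = (0 : ℝ) by ring]
  have ha : pt x (1 - x) 0 ≠ 0 := by rw [← hb]; exact bp_ne x (1 - x)
  have eT := SDN_e1 hs hh ha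
  have el := SDN_e1 nW_sm nW_hom ha
  have e1 := SDN_e2 hF hFh ha 0
  have e2 := SDN_e2 hF hFh ha 1
  have c3 := SDN_c hF ha 0 2
  have c4 := SDN_c hF ha 0 1
  have c5 := SDN_c hF ha 1 2
  have d1 := SDN_dd2 hF ha 0 0
  have d2 := SDN_dd2 hF ha 0 1
  have d3 := SDN_dd2 hF ha 1 1
  simp only [pt0, pt1, pt2] at eT el e1 e2
  simp only [VX, VY, jT, fx, hb]
  rw [d1, d2, d3]
  simp only [dd]
  rw [← eT, ← el]
  rw [← c4] at e1
  rw [← c3, ← c5]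
  linear_combination (pd 0 T (pt x (1 - x) 0) * pd 1 nW (pt x (1 - x) 0) -
    pd 0 nW (pt x (1 - x) 0) * pd 1 T (pt x (1 - x) 0)) * (e2 - e1)

end Pool.Agent.MGF
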