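import Pool.Agent.MGF.Defs2
/-!
SIM (110 lines). Divergence theorem on the standard triangle.
PROOF. ∫ y in 0..1-x of vy (x,y) = V (x,1-x) - V (x,0) (FTC). For the other term exchange the order: ∫_0^1 ∫_0^{1-x} u (x,y) dy dx = ∫_0^1 ∫_0^{1-y} u (x,y) dx dy for continuous u
(indicator of the triangle and intervalIntegral / setIntegral Fubini: MeasureTheory.integral_integral_swap; or prove that both sides are equal by
substituting y = (1-x) s; or use LEI-free argument: differentiate in the size of the triangle). Then FTC in x, and the substitution y = 1 - x in ∫_0^1 U (1-y, y) dy.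
-/
set_option autoImplicit false

open MeasureTheory Set Metric Pool.Agent.MEIS Pool.Agent.MSQ Pool.Agent.MGE

namespace Pool.Agent.MGF

private theorem sim_ind (v : ℝ → ℝ) {x : ℝ} (hx : x ∈ Ioc (0 : ℝ) 1) :
    ∫ y in (0 : ℝ)..(1 - x), v y = ∫ y in Ioc (0 : ℝ) 1, ({y : ℝ | x + y ≤ 1}.indicator v) y := by
  have hm : MeasurableSet {y : ℝ | x + y ≤ 1} :=
    measurableSet_le (measurable_const.add measurable_id) measurable_const
  have hs : Ioc (0 : ℝ) (1 - x) = Ioc (0 : ℝ) 1 ∩ {y : ℝ | x + y ≤ 1} := by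
    ext y
    simp only [mem_Ioc, mem_inter_iff, mem_setOf_eq]
    constructor
    · rintro ⟨h1, h2⟩
      exact ⟨⟨h1, by linarith [hx.1]⟩, by linarith⟩
    · rintro ⟨⟨h1, h2⟩, h3⟩
      exact ⟨h1, by linarith⟩
  rw [intervalIntegral.integral_of_le (by linarith [hx.2]), MeasureTheory.setIntegral_indicator hm,
    hs]

theorem tri_swap {u : ℝ × ℝ → ℝ} (hu : Continuous u) :
    ∫ x in (0 : ℝ)..1, ∫ y in (0 : ℝ)..(1 - x), u (x, y) =
      ∫ y in (0 : ℝ)..1, ∫ x in (0 : ℝ)..(1 - y), u (x, y) := by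
  have hm : MeasurableSet {p : ℝ × ℝ | p.1 + p.2 ≤ 1} :=
    measurableSet_le (measurable_fst.add measurable_snd) measurable_const
  have e1 : ∫ x in (0 : ℝ)..1, ∫ y in (0 : ℝ)..(1 - x), u (x, y) =
      ∫ x in Ioc (0 : ℝ) 1, ∫ y in Ioc (0 : ℝ) 1, ({p : ℝ × ℝ | p.1 + p.2 ≤ 1}.indicator u) (x, y) := by
    rw [intervalIntegral.integral_of_le zero_le_one]
    refine MeasureTheory.setIntegral_congr_fun measurableSet_Ioc fun x hx => ?_
    exact sim_ind (fun y => u (x, y)) hx
  have e2 : ∫ y in (0 : ℝ)..1, ∫ x in (0 : ℝ)..(1 - y), u (x, y) =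
      ∫ y in Ioc (0 : ℝ) 1, ∫ x in Ioc (0 : ℝ) 1, ({p : ℝ × ℝ | p.1 + p.2 ≤ 1}.indicator u) (x, y) := by
    rw [intervalIntegral.integral_of_le zero_le_one]
    refine MeasureTheory.setIntegral_congr_fun measurableSet_Ioc fun y hy => ?_
    have h := sim_ind (fun x => u (x, y)) hy
    refine h.trans ?_
    refine MeasureTheory.setIntegral_congr_fun measurableSet_Ioc fun x hx => ?_
    simp only [indicator, mem_setOf_eq, add_comm]
  rw [e1, e2]
  refine MeasureTheory.integral_integral_swap ?_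
  rw [MeasureTheory.Measure.prod_restrict]
  refine MeasureTheory.Integrable.indicator ?_ hm
  exact (hu.continuousOn.integrableOn_compact (isCompact_Icc.prod isCompact_Icc)).mono_set
    (prod_mono Ioc_subset_Icc_self Ioc_subset_Icc_self)
theorem tri_div {U V ux vy : ℝ × ℝ → ℝ} (hU : Continuous U) (hV : Continuous V) (hux : Continuous ux)
    (hvy : Continuous vy) (h1 : ∀ X Y, HasDerivAt (fun t => U (t, Y)) (ux (X, Y)) X)
    (h2 : ∀ X Y, HasDerivAt (fun t => V (X, t)) (vy (X, Y)) Y) :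
    ∫ x in (0 : ℝ)..1, ∫ y in (0 : ℝ)..(1 - x), (ux (x, y) + vy (x, y)) =
      (∫ x in (0 : ℝ)..1, (U (x, 1 - x) + V (x, 1 - x))) - (∫ y in (0 : ℝ)..1, U (0, y)) -
        ∫ x in (0 : ℝ)..1, V (x, 0) := by
  have cu : Continuous fun x : ℝ => ∫ y in (0 : ℝ)..(1 - x), ux (x, y) :=
    intervalIntegral.continuous_parametric_intervalIntegral_of_continuous
      (f := fun x y => ux (x, y)) (by fun_prop) (by fun_prop)
  have cv : Continuous fun x : ℝ => ∫ y in (0 : ℝ)..(1 - x), vy (x, y) :=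
    intervalIntegral.continuous_parametric_intervalIntegral_of_continuous
      (f := fun x y => vy (x, y)) (by fun_prop) (by fun_prop)
  have e0 : ∫ x in (0 : ℝ)..1, ∫ y in (0 : ℝ)..(1 - x), (ux (x, y) + vy (x, y)) =
      (∫ x in (0 : ℝ)..1, ∫ y in (0 : ℝ)..(1 - x), ux (x, y)) +
        ∫ x in (0 : ℝ)..1, ∫ y in (0 : ℝ)..(1 - x), vy (x, y) := by
    rw [← intervalIntegral.integral_add (cu.intervalIntegrable _ _) (cv.intervalIntegrable _ _)]
    refine intervalIntegral.integral_congr fun x _ => ?_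
    exact intervalIntegral.integral_add (Continuous.intervalIntegrable (by fun_prop) _ _)
      (Continuous.intervalIntegrable (by fun_prop) _ _)
  have e1 : ∫ x in (0 : ℝ)..1, ∫ y in (0 : ℝ)..(1 - x), ux (x, y) =
      (∫ x in (0 : ℝ)..1, U (x, 1 - x)) - ∫ y in (0 : ℝ)..1, U (0, y) := by
    rw [tri_swap hux]
    have h3 : ∀ y : ℝ, ∫ x in (0 : ℝ)..(1 - y), ux (x, y) = U (1 - y, y) - U (0, y) := fun y =>
      intervalIntegral.integral_eq_sub_of_hasDerivAt (f := fun x => U (x, y))
        (fun x _ => h1 x y) (Continuous.intervalIntegrable (by fun_prop) _ _)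
    simp only [h3]
    rw [intervalIntegral.integral_sub (Continuous.intervalIntegrable (by fun_prop) _ _)
      (Continuous.intervalIntegrable (by fun_prop) _ _)]
    congr 1
    have h4 := intervalIntegral.integral_comp_sub_left (a := 0) (b := 1)
      (fun x : ℝ => U (x, 1 - x)) 1
    simp only [sub_sub_cancel, sub_self, sub_zero] at h4
    exact h4
  have e2 : ∫ x in (0 : ℝ)..1, ∫ y in (0 : ℝ)..(1 - x), vy (x, y) =
      (∫ x in (0 : ℝ)..1, V (x, 1 - x)) - ∫ x in (0 : ℝ)..1, V (x, 0) := by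
    have h3 : ∀ x : ℝ, ∫ y in (0 : ℝ)..(1 - x), vy (x, y) = V (x, 1 - x) - V (x, 0) := fun x =>
      intervalIntegral.integral_eq_sub_of_hasDerivAt (f := fun y => V (x, y))
        (fun y _ => h2 x y) (Continuous.intervalIntegrable (by fun_prop) _ _)
    simp only [h3]
    exact intervalIntegral.integral_sub (Continuous.intervalIntegrable (by fun_prop) _ _)
      (Continuous.intervalIntegrable (by fun_prop) _ _)
  rw [e0, e1, e2, intervalIntegral.integral_add (Continuous.intervalIntegrable (by fun_prop) _ _)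
    (Continuous.intervalIntegrable (by fun_prop) _ _)]
  ring

end Pool.Agent.MGF
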