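import Pool.Agent.MGF.Defs2
import Pool.Agent.MEIS.PSD
import Pool.Agent.MEIS.GRD
import Pool.Agent.MGE.VV
import Pool.Agent.MGE.JGD
import Pool.Agent.MGF.WPF
/-!
TRH (130 lines). The defect of a triangle satisfies TrHyp.
PROOF. Tf_eq. sm: linear minus Sm_Wp. hom: h.sb.hom for t > 0. conc: the linear part has zero second derivatives; pd2_Wp: ∑ v_m v_m' pd m (pd m' (G∘W)) a =
∑ x_n x_n' pd n (pd n' G) (W a) with x = ∑ v_m w_m (x = Wp v), ≥ 0 by SB_psd (MEIS.PSD). curv: nW = ‖.‖ ∘ W (norm_Wp) so pd i (pd j nW) is the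
pullback of the second derivatives of the norm, and D²‖.‖ - D²G at x is D²G(-x) (pd2_wid of MGE.JGD: pd i (pd j G) x + pd i (pd j G) (-x) =
second derivative of the norm, NRM of MEIS), ≥ 0 by SB_psd at -x. nonneg: G (Wp a) ≤ ∑ a_m G(w_m) = (∑ a_m)/2 by h.sb.sub (τ ≥ 0, norm
triangle inequality), h.sb.hom, frame. vertices: G (w_m) = 1/2. cen: Wp (1,1,1) = 4 vv i - ∑ vv = 4 vv i (vv_sum): T = 3/2 - 4 G (vv i).
-/
set_option autoImplicit false

open MeasureTheory Set Metric Pool.Agent.MEIS Pool.Agent.MSQ Pool.Agent.MGE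

namespace Pool.Agent.MGF

private theorem trh_coord (i j : Fin 3) (x : E) :
    pd i (fun y : E => y j) x = if i = j then (1 : ℝ) else 0 := by
  have h : HasFDerivAt (fun y : E => y j) (EuclideanSpace.proj (𝕜 := ℝ) j : E →L[ℝ] ℝ) x :=
    (EuclideanSpace.proj (𝕜 := ℝ) j : E →L[ℝ] ℝ).hasFDerivAt
  unfold pd
  rw [h.fderiv]
  simp [Pi.single_apply, eq_comm]

private theorem trh_const (c : ℝ) (i : Fin 3) (x : E) : pd i (fun _ : E => c) x = 0 := by
  unfold pd
  simp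

private theorem trh_lin_sm (n : ℕ) : Sm n (fun a : E => (1 / 2 : ℝ) * (a 0 + a 1 + a 2)) :=
  sm_cmul _ (sm_add (sm_add (sm_coord n 0) (sm_coord n 1)) (sm_coord n 2))

private theorem trh_lin {x : E} (hx : x ≠ 0) (i : Fin 3) :
    pd i (fun a : E => (1 / 2 : ℝ) * (a 0 + a 1 + a 2)) x = 1 / 2 := by
  rw [pd_cmul _ (sm_add (sm_add (sm_coord 1 0) (sm_coord 1 1)) (sm_coord 1 2)) hx,
    pd_add (sm_add (sm_coord 1 0) (sm_coord 1 1)) (sm_coord 1 2) hx, pd_add (sm_coord 1 0) (sm_coord 1 1) hx,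
    trh_coord, trh_coord, trh_coord]
  fin_cases i <;> simp

private theorem trh_T {i j k l : Fin 4} (hd : Dis i j k l) (G : E → ℝ) :
    Tf G i j k l = fun a => (1 / 2 : ℝ) * (a 0 + a 1 + a 2) - (fun a => G (Wp i j k l a)) a := by
  funext a
  rw [Tf_eq hd]
  ring

private theorem trh_pd2 {i j k l : Fin 4} (hd : Dis i j k l) {G : E → ℝ} (hG : Sm 3 G) {a : E} (ha : a ≠ 0)
    (m m' : Fin 3) : pd m (pd m' (Tf G i j k l)) a = - pd m (pd m' (fun a => G (Wp i j k l a))) a := by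
  have hG2 : Sm 3 (fun a => G (Wp i j k l a)) := Sm_Wp hd hG
  have h1 : Sm 1 (fun a => G (Wp i j k l a)) := sm_mono hG2 (by norm_num)
  have h2 : Sm 1 (pd m' (fun a => G (Wp i j k l a))) := sm_mono (sm_pd (n := 2) hG2 m') (by norm_num)
  have e : ∀ y : E, y ≠ 0 → pd m' (Tf G i j k l) y
      = (fun y => (fun _ : E => (1 / 2 : ℝ)) y - pd m' (fun a => G (Wp i j k l a)) y) y := by
    intro y hy
    rw [trh_T hd, pd_sub (trh_lin_sm 1) h1 hy, trh_lin hy]
  rw [pd_congr e ha m, pd_sub (sm_const 1 _) h2 ha, trh_const]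
  ring

private theorem trh_we (i j k l : Fin 4) (v : E) (n : Fin 3) :
    Wp i j k l v n = ∑ m, v m * we i j k l m n := by
  rw [Fin.sum_univ_three]
  unfold Wp we
  rfl

private theorem trh_sum {i j k l : Fin 4} (hd : Dis i j k l) {f : E → ℝ} (hf : Sm 2 f) {a : E} (ha : a ≠ 0)
    (v : E) : ∑ m, ∑ m', v m * v m' * pd m (pd m' (fun a => f (Wp i j k l a))) a
      = ∑ n, ∑ n', Wp i j k l v n * Wp i j k l v n' * pd n (pd n' f) (Wp i j k l a) := by
  simp only [pd2_Wp hd hf ha, trh_we i j k l v]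
  simp only [Fin.sum_univ_three]
  ring

private theorem trh_G_add {G : E → ℝ} {R τ : ℝ} (h : FG G R τ) (x y : E) : G (x + y) ≤ G x + G y := by
  have h1 := h.sb.sub x y
  have h2 := norm_add_le x y
  have h3 : 0 ≤ τ * (‖x‖ + ‖y‖ - ‖x + y‖) := mul_nonneg h.tau.le (by linarith)
  linarith

private theorem trh_Wp_le {G : E → ℝ} {R τ : ℝ} (h : FG G R τ) {i j k l : Fin 4} (hd : Dis i j k l) {a : E}
    (h0 : 0 ≤ a 0) (h1 : 0 ≤ a 1) (h2 : 0 ≤ a 2) : G (Wp i j k l a) ≤ (a 0 + a 1 + a 2) / 2 := by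
  obtain ⟨d1, d2, d3, d4, d5, d6⟩ := hd
  unfold Wp
  have e1 := trh_G_add h (a 0 • (vv i - vv j) + a 1 • (vv i - vv k)) (a 2 • (vv i - vv l))
  have e2 := trh_G_add h (a 0 • (vv i - vv j)) (a 1 • (vv i - vv k))
  rw [h.sb.hom _ h0, h.sb.hom _ h1, h.fr i j d1, h.fr i k d2] at e2
  rw [h.sb.hom _ h2, h.fr i l d3] at e1
  linarith

private theorem trh_sum4 {i j k l : Fin 4} (hd : Dis i j k l) : vv i + vv j + vv k + vv l = 0 := by
  obtain ⟨d1, d2, d3, d4, d5, d6⟩ := hd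
  have h1 : (Finset.univ : Finset (Fin 4)) = {i, j, k, l} := by
    revert i j k l
    decide
  have h2 : ∑ m, vv m = vv i + (vv j + (vv k + vv l)) := by
    rw [h1, Finset.sum_insert (by simp [d1, d2, d3]), Finset.sum_insert (by simp [d4, d5]),
      Finset.sum_insert (by simp [d6]), Finset.sum_singleton]
  have h3 := vv_sum
  have h4 := Fin.sum_univ_four vv
  rw [h3] at h4
  rw [← h4, h2]
  abel

private theorem trh_cen {G : E → ℝ} {R τ : ℝ} (h : FG G R τ) {i j k l : Fin 4} (hd : Dis i j k l) :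
    Tf G i j k l (pt 1 1 1) = bv G i := by
  have h1 := trh_sum4 hd
  have h2 : Wp i j k l (pt 1 1 1) = (4 : ℝ) • vv i := by
    unfold Wp
    rw [pt0, pt1, pt2]
    have h3 : vv l = -(vv i + vv j + vv k) := by
      rw [eq_neg_iff_add_eq_zero, add_comm]
      exact h1
    rw [h3]
    module
  rw [Tf_eq hd, h2, h.sb.hom _ (by norm_num), pt0, pt1, pt2]
  unfold bv
  ring

theorem trHyp {G : E → ℝ} {R τ : ℝ} (h : FG G R τ) {i j k l : Fin 4} (hd : Dis i j k l) :
    TrHyp (Tf G i j k l) (bv G i) := by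
  have hG2 : Sm 2 G := sm_mono h.sb.sm (by norm_num)
  refine ⟨?_, ?_, ?_, ?_, ?_, ?_, ?_, ?_, trh_cen h hd⟩
  · rw [trh_T hd]
    exact sm_sub (trh_lin_sm 3) (Sm_Wp hd h.sb.sm)
  · intro t ht x _
    have e : ∀ m : Fin 3, (t • x) m = t * x m := fun m => rfl
    rw [Tf_eq hd, Tf_eq hd, Wp_smul, h.sb.hom t ht.le, e, e, e, zpow_one]
    ring
  · intro a ha v
    have e : ∑ m, ∑ m', v m * v m' * pd m (pd m' (Tf G i j k l)) a
        = - ∑ m, ∑ m', v m * v m' * pd m (pd m' (fun a => G (Wp i j k l a))) a := by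
      simp only [trh_pd2 hd h.sb.sm ha, mul_neg, Finset.sum_neg_distrib]
    rw [e, trh_sum hd hG2 ha v]
    have := SB_psd h.sb h.tau.le (Wp_ne hd ha) (Wp i j k l v)
    linarith
  · intro a ha v
    have hW := Wp_ne hd ha
    have e0 : nW = fun a => (fun y : E => ‖y‖) (Wp i j k l a) := by
      funext b
      exact (norm_Wp hd b).symm
    have e : ∑ m, ∑ m', v m * v m' * (pd m (pd m' (Tf G i j k l)) a + pd m (pd m' nW) a)
        = ∑ m, ∑ m', v m * v m' * pd m (pd m' (fun a => (fun y : E => ‖y‖) (Wp i j k l a))) a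
          - ∑ m, ∑ m', v m * v m' * pd m (pd m' (fun a => G (Wp i j k l a))) a := by
      rw [e0, ← Finset.sum_sub_distrib]
      refine Finset.sum_congr rfl fun m _ => ?_
      rw [← Finset.sum_sub_distrib]
      refine Finset.sum_congr rfl fun m' _ => ?_
      rw [trh_pd2 hd h.sb.sm ha]
      ring
    rw [e, trh_sum hd hG2 ha v, trh_sum hd (sm_norm 2) ha v, ← Finset.sum_sub_distrib]
    have e2 : ∀ n n' : Fin 3, pd n (pd n' (fun y : E => ‖y‖)) (Wp i j k l a)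
        - pd n (pd n' G) (Wp i j k l a) = pd n (pd n' G) (-(Wp i j k l a)) := by
      intro n n'
      rw [pd2_norm hW, ← pd2_wid h.sb hW n n']
      ring
    have e3 : ∑ n, (∑ n', Wp i j k l v n * Wp i j k l v n' * pd n (pd n' (fun y : E => ‖y‖)) (Wp i j k l a)
        - ∑ n', Wp i j k l v n * Wp i j k l v n' * pd n (pd n' G) (Wp i j k l a))
        = ∑ n, ∑ n', Wp i j k l v n * Wp i j k l v n' * pd n (pd n' G) (-(Wp i j k l a)) := by
      refine Finset.sum_congr rfl fun n _ => ?_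
      rw [← Finset.sum_sub_distrib]
      refine Finset.sum_congr rfl fun n' _ => ?_
      rw [← e2]
      ring
    rw [e3]
    exact SB_psd h.sb h.tau.le (neg_ne_zero.2 hW) (Wp i j k l v)
  · intro a h0 h1 h2
    rw [Tf_eq hd]
    have := trh_Wp_le h hd h0 h1 h2
    linarith
  · have e : Wp i j k l (pt 1 0 0) = vv i - vv j := by
      unfold Wp
      rw [pt0, pt1, pt2]
      module
    rw [Tf_eq hd, e, pt0, pt1, pt2, h.fr i j hd.1]
    norm_num
  · have e : Wp i j k l (pt 0 1 0) = vv i - vv k := by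
      unfold Wp
      rw [pt0, pt1, pt2]
      module
    rw [Tf_eq hd, e, pt0, pt1, pt2, h.fr i k hd.2.1]
    norm_num
  · have e : Wp i j k l (pt 0 0 1) = vv i - vv l := by
      unfold Wp
      rw [pt0, pt1, pt2]
      module
    rw [Tf_eq hd, e, pt0, pt1, pt2, h.fr i l hd.2.2.1]
    norm_num
/-- upper bound by superadditivity -/
theorem Tf_le {G : E → ℝ} {R τ : ℝ} (h : FG G R τ) {i j k l : Fin 4} (hd : Dis i j k l) {a : E} {m : ℝ}
    (h0 : 0 ≤ a 0) (h1 : 0 ≤ a 1) (h2 : 0 ≤ a 2) (m0 : a 0 ≤ m) (m1 : a 1 ≤ m) (m2 : a 2 ≤ m) :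
    Tf G i j k l a ≤ m * bv G i := by
  have hm : 0 ≤ m := h0.trans m0
  set b : E := pt (m - a 0) (m - a 1) (m - a 2) with hb
  have hb0 : b 0 = m - a 0 := rfl
  have hb1 : b 1 = m - a 1 := rfl
  have hb2 : b 2 = m - a 2 := rfl
  have e : m • (pt 1 1 1 : E) = a + b := by
    ext n
    fin_cases n
    · change m * 1 = a 0 + b 0
      rw [hb0]
      ring
    · change m * 1 = a 1 + b 1
      rw [hb1]
      ring
    · change m * 1 = a 2 + b 2
      rw [hb2]
      ring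
  have h3 := trh_Wp_le h hd (a := b) (by rw [hb0]; linarith) (by rw [hb1]; linarith) (by rw [hb2]; linarith)
  have h4 := trh_G_add h (Wp i j k l a) (Wp i j k l b)
  rw [← Wp_add, ← e, Wp_smul, h.sb.hom m hm] at h4
  have h5 := trh_cen h hd
  rw [Tf_eq hd, pt0, pt1, pt2] at h5
  rw [Tf_eq hd, ← h5]
  rw [hb0, hb1, hb2] at h3
  linarith
theorem bv_nonneg {G : E → ℝ} {R τ : ℝ} (h : FG G R τ) (i : Fin 4) : 0 ≤ bv G i := by
  have h1 : ∀ i : Fin 4, ∃ j k l, Dis i j k l := by decide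
  obtain ⟨j, k, l, hd⟩ := h1 i
  rw [← trh_cen h hd]
  exact (trHyp h hd).nonneg _ (by rw [pt0]; norm_num) (by rw [pt1]; norm_num) (by rw [pt2]; norm_num)

end Pool.Agent.MGF
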