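import Pool.Agent.MGF.Defs2
import Pool.Agent.MGF.WPF
import Pool.Agent.MGF.TRH
import Pool.Agent.MGF.JTG
import Pool.Agent.MGF.DIVV
import Pool.Agent.MGF.SIM
import Pool.Agent.MGF.PWN
import Pool.Agent.MGF.SDN
/-!
IN (90 lines). The identity of the triangle.
PROOF. T = Tf G 0 1 2 3 (TrHyp gives Sm 3, Hom 1), f = l + T. dN_density: NN = -√2 ∫∫ l mxd T f; div_V for (jT nW, jT T, jT f): l mxd T f = T mxd l f + (vx+vy)/2. CN_density:
CN T = (1/√2) ∫∫ 4 T mxd l f, so -√2 ∫∫ T mxd l f = -CN T/2. tri_div: ∫∫ (vx + vy) = ∫ (VX+VY)(x,1-x) - ∫ VX(0,y) - ∫ VY(x,0) = -4 ∫_0^1 (fx on the three sides) = -2 (sP0 + sP1 + sP2)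
(substitution x = (1+t)/2). So NN = -CN T/2 - (√2/2)(-2)(sum) . Linearity of the iterated integrals: all integrands are continuous.
-/
set_option autoImplicit false

open MeasureTheory Set Metric Pool.Agent.MEIS Pool.Agent.MSQ Pool.Agent.MGE

namespace Pool.Agent.MGF

private theorem in_c {F FX FY : ℝ × ℝ → ℝ} (h : D1 F FX FY) : Continuous F :=
  continuous_iff_continuousAt.2 fun z => (h z).continuousAt

private theorem in_sub (g : ℝ → ℝ) :
    ∫ t in (-1 : ℝ)..1, g ((1 + t) / 2) = 2 * ∫ y in (0 : ℝ)..1, g y := by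
  have h := intervalIntegral.integral_comp_div_add (a := -1) (b := 1) g
    (show (2 : ℝ) ≠ 0 by norm_num) (1 / 2)
  have e1 : (-1 : ℝ) / 2 + 1 / 2 = 0 := by norm_num
  have e2 : (1 : ℝ) / 2 + 1 / 2 = 1 := by norm_num
  rw [e1, e2, smul_eq_mul] at h
  rw [← h]
  refine intervalIntegral.integral_congr fun t _ => ?_
  have e3 : (1 + t) / 2 = t / 2 + 1 / 2 := by ring
  simp only [e3]

private theorem in_cm {l a f : Jet} (hl : l.Good) (ha : a.Good) (hf : f.Good) :
    Continuous fun z : ℝ × ℝ => l.f z * mxd a f z := by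
  have c1 := in_c hl.d
  have c6 := in_c ha.dXX
  have c7 := in_c ha.dXY
  have c8 := in_c ha.dYY
  have c9 := in_c hf.dXX
  have c10 := in_c hf.dXY
  have c11 := in_c hf.dYY
  unfold mxd
  fun_prop

private theorem in_int {u v : ℝ × ℝ → ℝ} (hu : Continuous u) (hv : Continuous v) :
    ∫ x in (0 : ℝ)..1, ∫ y in (0 : ℝ)..(1 - x), (2 * (u (x, y) - v (x, y))) =
      2 * ((∫ x in (0 : ℝ)..1, ∫ y in (0 : ℝ)..(1 - x), u (x, y)) -
        ∫ x in (0 : ℝ)..1, ∫ y in (0 : ℝ)..(1 - x), v (x, y)) := by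
  have cu : Continuous fun x : ℝ => ∫ y in (0 : ℝ)..(1 - x), u (x, y) :=
    intervalIntegral.continuous_parametric_intervalIntegral_of_continuous
      (f := fun x y => u (x, y)) (by fun_prop) (by fun_prop)
  have cv : Continuous fun x : ℝ => ∫ y in (0 : ℝ)..(1 - x), v (x, y) :=
    intervalIntegral.continuous_parametric_intervalIntegral_of_continuous
      (f := fun x y => v (x, y)) (by fun_prop) (by fun_prop)
  rw [← intervalIntegral.integral_sub (cu.intervalIntegrable _ _) (cv.intervalIntegrable _ _),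
    ← intervalIntegral.integral_const_mul]
  refine intervalIntegral.integral_congr fun x _ => ?_
  rw [← intervalIntegral.integral_sub (Continuous.intervalIntegrable (by fun_prop) _ _)
    (Continuous.intervalIntegrable (by fun_prop) _ _), ← intervalIntegral.integral_const_mul]

theorem id_tri {G : E → ℝ} {R τ : ℝ} (h : FG G R τ) :
    NN G = -(CN (Tf G 0 1 2 3)) / 2 +
      √2 * (sP0 (Tf G 0 1 2 3) + sP1 (Tf G 0 1 2 3) + sP2 (Tf G 0 1 2 3)) := by
  have hd : Dis 0 1 2 3 := by unfold Dis; decide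
  have hT := trHyp h hd
  set T := Tf G 0 1 2 3 with hTd
  have sF : Sm 3 (lT T) := nW_sm.add hT.sm
  have gl := good_jT nW_sm
  have ga := good_jT hT.sm
  have gf := good_jT sF
  obtain ⟨vx, vy, cvx, cvy, cX, cY, hX, hY, hv⟩ := div_V gl ga gf
  set I1 := ∫ x in (0 : ℝ)..1, ∫ y in (0 : ℝ)..(1 - x),
    (fun z : ℝ × ℝ => (jT nW).f z * mxd (jT T) (jT (lT T)) z) (x, y) with hI1
  set I2 := ∫ x in (0 : ℝ)..1, ∫ y in (0 : ℝ)..(1 - x),
    (fun z : ℝ × ℝ => (jT T).f z * mxd (jT nW) (jT (lT T)) z) (x, y) with hI2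
  have cu := in_cm gl ga gf
  have cw := in_cm ga gl gf
  have hNN : NN G = -(√2 * I1) := by
    rw [NN, hI1, ← neg_mul, ← intervalIntegral.integral_const_mul]
    refine intervalIntegral.integral_congr fun x _ => ?_
    rw [← intervalIntegral.integral_const_mul]
    refine intervalIntegral.integral_congr fun y _ => ?_
    show dN G x y = _
    rw [dN_density h.sb x y, ← hTd, neg_mul]
    rfl
  have hCN : CN T = 1 / √2 * (4 * I2) := by
    rw [CN, hI2]
    congr 1
    rw [← intervalIntegral.integral_const_mul]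
    refine intervalIntegral.integral_congr fun x _ => ?_
    rw [← intervalIntegral.integral_const_mul]
    refine intervalIntegral.integral_congr fun y _ => ?_
    show 2 * T (bp x y) / nW (bp x y) ^ 4 + T (bp x y) * Lp T (bp x y) / nW (bp x y) ^ 3 = _
    rw [CN_density hT.sm hT.hom x y]
    rfl
  have hI3 : ∫ x in (0 : ℝ)..1, ∫ y in (0 : ℝ)..(1 - x), (vx (x, y) + vy (x, y)) = 2 * (I1 - I2) := by
    rw [hI1, hI2, ← in_int cu cw]
    refine intervalIntegral.integral_congr fun x _ => ?_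
    refine intervalIntegral.integral_congr fun y _ => ?_
    exact hv (x, y)
  have hdiv := tri_div cX cY cvx cvy hX hY
  rw [hI3] at hdiv
  have e0 : ∫ y in (0 : ℝ)..1, VX (jT nW) (jT T) (jT (lT T)) (0, y) = 2 * sP0 T := by
    have h1 := in_sub fun y => fx T 0 1 2 (pt 0 y (1 - y))
    have h2 : sP0 T = ∫ t in (-1 : ℝ)..1, (fun y => fx T 0 1 2 (pt 0 y (1 - y))) ((1 + t) / 2) := by
      rw [sP0]
      refine intervalIntegral.integral_congr fun t _ => ?_
      have : (1 - t) / 2 = 1 - (1 + t) / 2 := by ring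
      simp only [this]
    rw [h2, h1]
    have h3 : ∀ y : ℝ, VX (jT nW) (jT T) (jT (lT T)) (0, y) = 4 * fx T 0 1 2 (pt 0 y (1 - y)) :=
      fun y => flux0 hT.sm hT.hom y
    simp only [h3]
    rw [intervalIntegral.integral_const_mul]
    ring
  have e1 : ∫ x in (0 : ℝ)..1, VY (jT nW) (jT T) (jT (lT T)) (x, 0) = 2 * sP1 T := by
    have h1 := in_sub fun y => fx T 1 0 2 (pt y 0 (1 - y))
    have h2 : sP1 T = ∫ t in (-1 : ℝ)..1, (fun y => fx T 1 0 2 (pt y 0 (1 - y))) ((1 + t) / 2) := by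
      rw [sP1]
      refine intervalIntegral.integral_congr fun t _ => ?_
      have : (1 - t) / 2 = 1 - (1 + t) / 2 := by ring
      simp only [this]
    rw [h2, h1]
    have h3 : ∀ y : ℝ, VY (jT nW) (jT T) (jT (lT T)) (y, 0) = 4 * fx T 1 0 2 (pt y 0 (1 - y)) :=
      fun y => flux1 hT.sm hT.hom y
    simp only [h3]
    rw [intervalIntegral.integral_const_mul]
    ring
  have e2 : ∫ x in (0 : ℝ)..1, (VX (jT nW) (jT T) (jT (lT T)) (x, 1 - x) +
      VY (jT nW) (jT T) (jT (lT T)) (x, 1 - x)) = -(2 * sP2 T) := by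
    have h1 := in_sub fun y => fx T 2 0 1 (pt y (1 - y) 0)
    have h2 : sP2 T = ∫ t in (-1 : ℝ)..1, (fun y => fx T 2 0 1 (pt y (1 - y) 0)) ((1 + t) / 2) := by
      rw [sP2]
      refine intervalIntegral.integral_congr fun t _ => ?_
      have : (1 - t) / 2 = 1 - (1 + t) / 2 := by ring
      simp only [this]
    rw [h2, h1]
    have h3 : ∀ y : ℝ, VX (jT nW) (jT T) (jT (lT T)) (y, 1 - y) +
      VY (jT nW) (jT T) (jT (lT T)) (y, 1 - y) = -(4 * fx T 2 0 1 (pt y (1 - y) 0)) :=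
      fun y => flux2 hT.sm hT.hom y
    simp only [h3]
    rw [intervalIntegral.integral_neg, intervalIntegral.integral_const_mul]
    ring
  rw [e0, e1, e2] at hdiv
  rw [hNN, hCN]
  have hs : √2 ^ 2 = (2 : ℝ) := Real.sq_sqrt (by norm_num)
  have hs0 : (√2 : ℝ) ≠ 0 := by positivity
  have hq : 1 / √2 * (4 * I2) = 2 * (√2 * I2) := by
    rw [div_mul_eq_mul_div, div_eq_iff hs0]
    have : 2 * (√2 * I2) * √2 = 2 * (√2 ^ 2 * I2) := by ring
    rw [this, hs]
    ring
  rw [hq]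
  have hI : I1 = I2 - (sP0 T + sP1 T + sP2 T) := by linarith
  rw [hI]
  ring

end Pool.Agent.MGF
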