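import Pool.Agent.MGF.Defs2
import Pool.Agent.MEIS.PDR
import Pool.Agent.MGE.VV
import Pool.Agent.MGF.WPF
/-!
SYM (130 lines). Relabelling of sides.
PROOF. Tf G i k j l a = Tf G i j k l (π a) with π exchanging coordinates 0 and 1, etc. For a linear isometry π permuting coordinates, pd u (T ∘ π) a =
pd (π u) T (π a) for every function (fderiv of a composition with a continuous linear equivalence: ContinuousLinearEquiv.comp_right_fderiv, no
differentiability needed; π (single u 1) = single (π u) 1); so the same for second derivatives and for nW, lT. nW ∘ π = nW. In the _sw statements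
the exchange of coordinates 1, 2 together with t ↦ -t (intervalIntegral.integral_comp_neg) and Fsym, respectively the invariance of fx under
exchange of v and w, which needs pd v (pd w f) = pd w (pd v f) (pd_comm; hence the hypothesis Sm 3 G) for sP0_sw, sP1_eq, sP2_eq.
-/
set_option autoImplicit false

open MeasureTheory Set Metric Pool.Agent.MEIS Pool.Agent.MSQ Pool.Agent.MGE

namespace Pool.Agent.MGF

/-- permutation of the coordinates -/
private noncomputable def PP (σ : Equiv.Perm (Fin 3)) : E ≃ₗᵢ[ℝ] E :=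
  LinearIsometryEquiv.piLpCongrLeft 2 ℝ ℝ σ.symm

private theorem PP_apply (σ : Equiv.Perm (Fin 3)) (a : E) (i : Fin 3) : PP σ a i = a (σ i) := rfl

private theorem PP_single (σ : Equiv.Perm (Fin 3)) (i : Fin 3) :
    PP σ (EuclideanSpace.single i (1 : ℝ)) = EuclideanSpace.single (σ.symm i) (1 : ℝ) := by
  ext j
  rw [PP_apply, EuclideanSpace.single_apply, EuclideanSpace.single_apply]
  congr 1
  exact propext ⟨fun h => by rw [← h, Equiv.symm_apply_apply], fun h => by rw [h, Equiv.apply_symm_apply]⟩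

private theorem pdP (σ : Equiv.Perm (Fin 3)) (f : E → ℝ) (i : Fin 3) :
    pd i (fun y => f (PP σ y)) = fun x => pd (σ.symm i) f (PP σ x) := by
  funext x
  have h : fderiv ℝ (f ∘ ((PP σ).toContinuousLinearEquiv : E ≃L[ℝ] E)) x = _ :=
    ((PP σ).toContinuousLinearEquiv : E ≃L[ℝ] E).comp_right_fderiv
  have h2 : fderiv ℝ (fun y => f (PP σ y)) x =
      (fderiv ℝ f (PP σ x)).comp ((PP σ).toContinuousLinearEquiv : E →L[ℝ] E) := h
  unfold pd
  rw [h2]
  show fderiv ℝ f (PP σ x) (PP σ (EuclideanSpace.single i (1 : ℝ))) = _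
  rw [PP_single]

private theorem PP_pt (σ : Equiv.Perm (Fin 3)) {a b c a' b' c' : ℝ} (h0 : pt a b c (σ 0) = a')
    (h1 : pt a b c (σ 1) = b') (h2 : pt a b c (σ 2) = c') : PP σ (pt a b c) = pt a' b' c' := by
  rw [← pt_eta (PP σ (pt a b c)), PP_apply, PP_apply, PP_apply, h0, h1, h2]

/-- the three permutations -/
private def s1 : Equiv.Perm (Fin 3) := ⟨![1, 0, 2], ![1, 0, 2], by decide, by decide⟩
private def s2 : Equiv.Perm (Fin 3) := ⟨![1, 2, 0], ![2, 0, 1], by decide, by decide⟩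
private def s3 : Equiv.Perm (Fin 3) := ⟨![0, 2, 1], ![0, 2, 1], by decide, by decide⟩

private theorem Tf1 (G : E → ℝ) (i j k l : Fin 4) :
    Tf G i k j l = fun a => Tf G i j k l (PP s1 a) := by
  funext a
  have h : Wp i k j l a = Wp i j k l (PP s1 a) := by
    show _ = a 1 • (vv i - vv j) + a 0 • (vv i - vv k) + a 2 • (vv i - vv l)
    rw [add_comm (a 1 • (vv i - vv j))]
    rfl
  unfold Tf
  rw [h]

private theorem Tf2 (G : E → ℝ) (i j k l : Fin 4) :
    Tf G i l j k = fun a => Tf G i j k l (PP s2 a) := by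
  funext a
  have h : Wp i l j k a = Wp i j k l (PP s2 a) := by
    show a 0 • (vv i - vv l) + a 1 • (vv i - vv j) + a 2 • (vv i - vv k) =
      a 1 • (vv i - vv j) + a 2 • (vv i - vv k) + a 0 • (vv i - vv l)
    abel
  unfold Tf
  rw [h]

private theorem Tf3 (G : E → ℝ) (i j k l : Fin 4) :
    Tf G i j l k = fun a => Tf G i j k l (PP s3 a) := by
  funext a
  have h : Wp i j l k a = Wp i j k l (PP s3 a) := by
    show a 0 • (vv i - vv j) + a 1 • (vv i - vv l) + a 2 • (vv i - vv k) =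
      a 0 • (vv i - vv j) + a 2 • (vv i - vv k) + a 1 • (vv i - vv l)
    abel
  unfold Tf
  rw [h]

private theorem nW1 : nW = fun a => nW (PP s1 a) := by
  funext a
  show √_ = √(a 1 ^ 2 + a 0 ^ 2 + a 2 ^ 2 + a 1 * a 0 + a 1 * a 2 + a 0 * a 2)
  congr 1
  ring

private theorem nW2 : nW = fun a => nW (PP s2 a) := by
  funext a
  show √_ = √(a 1 ^ 2 + a 2 ^ 2 + a 0 ^ 2 + a 1 * a 2 + a 1 * a 0 + a 2 * a 0)
  congr 1
  ring

private theorem nW3 : nW = fun a => nW (PP s3 a) := by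
  funext a
  show √_ = √(a 0 ^ 2 + a 2 ^ 2 + a 1 ^ 2 + a 0 * a 2 + a 0 * a 1 + a 2 * a 1)
  congr 1
  ring

private theorem fxP (σ : Equiv.Perm (Fin 3)) (hn : nW = fun a => nW (PP σ a)) (T : E → ℝ)
    (u v w : Fin 3) (a : E) :
    fx (fun y => T (PP σ y)) u v w a = fx T (σ.symm u) (σ.symm v) (σ.symm w) (PP σ a) := by
  have hl : lT (fun y => T (PP σ y)) = fun y => lT T (PP σ y) := by
    funext y
    show nW y + T (PP σ y) = nW (PP σ y) + T (PP σ y)
    rw [← congrFun hn y]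
  have hnp : ∀ i, pd i nW = fun x => pd (σ.symm i) nW (PP σ x) := by
    intro i
    conv_lhs => rw [hn]
    exact pdP σ nW i
  have hna : nW a = nW (PP σ a) := congrFun hn a
  unfold fx
  rw [hl, hna]
  simp only [pdP]
  rw [hnp u, hnp v, hnp w]

private theorem symSm {G : E → ℝ} (hG : Sm 3 G) {i j k l : Fin 4} (h : Dis i j k l) :
    Sm 2 (lT (Tf G i j k l)) := by
  have h1 : Sm 2 fun a : E => (1 / 2 : ℝ) * (a 0 + a 1 + a 2) :=
    sm_cmul _ (sm_add (sm_add (sm_coord 2 0) (sm_coord 2 1)) (sm_coord 2 2))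
  have h2 : Sm 2 fun a : E => G (Wp i j k l a) := Sm_Wp h (sm_mono hG (by norm_num))
  have h3 : Sm 2 (Tf G i j k l) := by
    have e : Tf G i j k l = fun a => (1 / 2 : ℝ) * (a 0 + a 1 + a 2) - G (Wp i j k l a) := by
      funext a
      rw [Tf_eq h]
      ring
    rw [e]
    exact sm_sub h1 h2
  exact sm_add (sm_mono nW_sm (by norm_num)) h3

theorem sF1_eq (F : ℝ → ℝ → ℝ → ℝ → ℝ) (G : E → ℝ) (i j k l : Fin 4) :
    sF1 F (Tf G i j k l) = sF0 F (Tf G i k j l) := by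
  rw [Tf1 G i j k l]
  unfold sF1 sF0
  refine intervalIntegral.integral_congr fun t _ => ?_
  simp only [pdP]
  have h : PP s1 (pt 0 ((1 + t) / 2) ((1 - t) / 2)) = pt ((1 + t) / 2) 0 ((1 - t) / 2) :=
    PP_pt s1 rfl rfl rfl
  rw [h]
  rfl
theorem sF2_eq (F : ℝ → ℝ → ℝ → ℝ → ℝ) (G : E → ℝ) (i j k l : Fin 4) :
    sF2 F (Tf G i j k l) = sF0 F (Tf G i l j k) := by
  rw [Tf2 G i j k l]
  unfold sF2 sF0
  refine intervalIntegral.integral_congr fun t _ => ?_
  simp only [pdP]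
  have h : PP s2 (pt 0 ((1 + t) / 2) ((1 - t) / 2)) = pt ((1 + t) / 2) ((1 - t) / 2) 0 :=
    PP_pt s2 rfl rfl rfl
  rw [h]
  rfl
theorem sF0_sw {F : ℝ → ℝ → ℝ → ℝ → ℝ} (hF : Fsym F) (G : E → ℝ) (i j k l : Fin 4) :
    sF0 F (Tf G i j k l) = sF0 F (Tf G i j l k) := by
  rw [Tf3 G i j k l]
  unfold sF0
  have e := intervalIntegral.integral_comp_neg (a := (-1 : ℝ)) (b := 1)
    (fun t => F t (pd 1 (Tf G i j k l) (pt 0 ((1 + t) / 2) ((1 - t) / 2)))
      (pd 2 (Tf G i j k l) (pt 0 ((1 + t) / 2) ((1 - t) / 2)))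
      (pd 0 (Tf G i j k l) (pt 0 ((1 + t) / 2) ((1 - t) / 2))))
  rw [neg_neg] at e
  rw [← e]
  refine intervalIntegral.integral_congr fun t _ => ?_
  simp only [pdP]
  have h : PP s3 (pt 0 ((1 + t) / 2) ((1 - t) / 2)) = pt 0 ((1 + -t) / 2) ((1 - -t) / 2) :=
    PP_pt s3 rfl (by show (1 - t) / 2 = (1 + -t) / 2; ring) (by show (1 + t) / 2 = (1 - -t) / 2; ring)
  rw [h]
  exact hF t _ _ _
theorem sP1_eq {G : E → ℝ} (hG : Sm 3 G) {i j k l : Fin 4} (h : Dis i j k l) :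
    sP1 (Tf G i j k l) = sP0 (Tf G i k j l) := by
  rw [Tf1 G i j k l]
  unfold sP1 sP0
  refine intervalIntegral.integral_congr fun t _ => ?_
  have h : PP s1 (pt 0 ((1 + t) / 2) ((1 - t) / 2)) = pt ((1 + t) / 2) 0 ((1 - t) / 2) :=
    PP_pt s1 rfl rfl rfl
  show fx (Tf G i j k l) 1 0 2 _ = fx (fun a => Tf G i j k l (PP s1 a)) 0 1 2 _
  rw [fxP s1 nW1, h]
  rfl
theorem sP2_eq {G : E → ℝ} (hG : Sm 3 G) {i j k l : Fin 4} (h : Dis i j k l) :
    sP2 (Tf G i j k l) = sP0 (Tf G i l j k) := by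
  rw [Tf2 G i j k l]
  unfold sP2 sP0
  refine intervalIntegral.integral_congr fun t _ => ?_
  have h : PP s2 (pt 0 ((1 + t) / 2) ((1 - t) / 2)) = pt ((1 + t) / 2) ((1 - t) / 2) 0 :=
    PP_pt s2 rfl rfl rfl
  show fx (Tf G i j k l) 2 0 1 _ = fx (fun a => Tf G i j k l (PP s2 a)) 0 1 2 _
  rw [fxP s2 nW2, h]
  rfl
theorem sP0_sw {G : E → ℝ} (hG : Sm 3 G) {i j k l : Fin 4} (h : Dis i j k l) :
    sP0 (Tf G i j k l) = sP0 (Tf G i j l k) := by
  rw [Tf3 G i j k l]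
  unfold sP0
  have e := intervalIntegral.integral_comp_neg (a := (-1 : ℝ)) (b := 1)
    (fun t => fx (Tf G i j k l) 0 1 2 (pt 0 ((1 + t) / 2) ((1 - t) / 2)))
  rw [neg_neg] at e
  rw [← e]
  refine intervalIntegral.integral_congr fun t _ => ?_
  have hq : PP s3 (pt 0 ((1 + t) / 2) ((1 - t) / 2)) = pt 0 ((1 + -t) / 2) ((1 - -t) / 2) :=
    PP_pt s3 rfl (by show (1 - t) / 2 = (1 + -t) / 2; ring) (by show (1 + t) / 2 = (1 - -t) / 2; ring)
  show fx (Tf G i j k l) 0 1 2 _ = fx (fun a => Tf G i j k l (PP s3 a)) 0 1 2 _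
  rw [fxP s3 nW3, hq]
  show fx (Tf G i j k l) 0 1 2 _ = fx (Tf G i j k l) 0 2 1 _
  have hne : pt 0 ((1 + -t) / 2) ((1 - -t) / 2) ≠ 0 := by
    intro h0
    have h1 : pt 0 ((1 + -t) / 2) ((1 - -t) / 2) 1 = (0 : E) 1 := by rw [h0]
    have h2 : pt 0 ((1 + -t) / 2) ((1 - -t) / 2) 2 = (0 : E) 2 := by rw [h0]
    have h3 : (1 + -t) / 2 = 0 := h1
    have h4 : (1 - -t) / 2 = 0 := h2
    linarith
  have hc := pd_comm (symSm hG h) hne 1 2
  unfold fx
  rw [hc]
  ring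

end Pool.Agent.MGF
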