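import Pool.Agent.MGF.Defs2
import Pool.Agent.MGF.WPF
import Pool.Agent.MGF.TRH
import Pool.Agent.MGF.SYM
import Pool.Agent.MGF.IN
/-!
CLN (60 lines). The inequality of one triangle.
PROOF. id_tri, trHyp (Dis 0 1 2 3 by decide), c.tri0 / c.tri1, sF1_eq, sF2_eq, sP1_eq, sP2_eq.
-/
set_option autoImplicit false

open MeasureTheory Set Metric Pool.Agent.MEIS Pool.Agent.MSQ Pool.Agent.MGE

namespace Pool.Agent.MGF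

theorem cell_tri0 {F : ℝ → ℝ → ℝ → ℝ → ℝ} {KN Kp KS be bb : ℝ} (c : Cell F KN Kp KS be bb)
    {G : E → ℝ} {R τ : ℝ} (h : FG G R τ) (hb : bv G 0 ≤ bb) :
    NN G ≤ -(sF0 F (Tf G 0 1 2 3) + sF0 F (Tf G 0 2 1 3) + sF0 F (Tf G 0 3 1 2)) / 2 + KN / 2 +
      √2 * (sP0 (Tf G 0 1 2 3) + sP0 (Tf G 0 2 1 3) + sP0 (Tf G 0 3 1 2)) := by
  have hd : Dis 0 1 2 3 := by decide
  have h1 := c.tri0 _ _ (trHyp h hd) hb
  have h2 := id_tri h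
  rw [sP1_eq h.sb.sm hd, sP2_eq h.sb.sm hd] at h2
  rw [sF1_eq, sF2_eq] at h1
  rw [h2]
  linarith
theorem cell_tri1 {F : ℝ → ℝ → ℝ → ℝ → ℝ} {KN Kp KS be bb : ℝ} (c : Cell F KN Kp KS be bb)
    {G : E → ℝ} {R τ : ℝ} (h : FG G R τ) (hb : bv G 0 ≤ bb) (hb' : be ≤ bv G 0) :
    NN G ≤ -(sF0 F (Tf G 0 1 2 3) + sF0 F (Tf G 0 2 1 3) + sF0 F (Tf G 0 3 1 2)) / 2 - Kp / 2 +
      √2 * (sP0 (Tf G 0 1 2 3) + sP0 (Tf G 0 2 1 3) + sP0 (Tf G 0 3 1 2)) := by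
  have hd : Dis 0 1 2 3 := by decide
  have h1 := c.tri1 _ _ (trHyp h hd) hb' hb
  have h2 := id_tri h
  rw [sP1_eq h.sb.sm hd, sP2_eq h.sb.sm hd] at h2
  rw [sF1_eq, sF2_eq] at h1
  rw [h2]
  linarith

end Pool.Agent.MGF
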