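import Pool.Agent.MGF.Defs2
import Pool.Agent.MGE.VV
import Pool.Agent.MGE.FRF
/-!
FRG (60 lines). The permutations induced by the symmetries.
PROOF. rf_left, rf_right, rf_other (fin_cases on the index). swE is linear and norm preserving, an involution; on vv: vv 0 = (1/2,0,c/2) goes to (0,-1/2,-c/2) = vv 3, etc.
-/
set_option autoImplicit false

open MeasureTheory Set Metric Pool.Agent.MEIS Pool.Agent.MSQ Pool.Agent.MGE

namespace Pool.Agent.MGF

theorem fr0_vv (i : Fin 4) : fr 0 (vv i) = vv (![0, 1, 2, 3] i) := by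
  fin_cases i <;> rfl
theorem fr1_vv (i : Fin 4) : fr 1 (vv i) = vv (![0, 2, 1, 3] i) := by
  fin_cases i
  · exact rf_other (by decide) (by decide) (by decide)
  · exact rf_left (by decide)
  · exact rf_right (by decide)
  · exact rf_other (by decide) (by decide) (by decide)
theorem fr2_vv (i : Fin 4) : fr 2 (vv i) = vv (![0, 3, 2, 1] i) := by
  fin_cases i
  · exact rf_other (by decide) (by decide) (by decide)
  · exact rf_left (by decide)
  · exact rf_other (by decide) (by decide) (by decide)
  · exact rf_right (by decide)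
theorem gr0_vv (i : Fin 4) : gr 0 (vv i) = vv (![0, 1, 2, 3] i) := by
  fin_cases i <;> rfl
theorem gr1_vv (i : Fin 4) : gr 1 (vv i) = vv (![1, 0, 2, 3] i) := by
  fin_cases i
  · exact rf_left (by decide)
  · exact rf_right (by decide)
  · exact rf_other (by decide) (by decide) (by decide)
  · exact rf_other (by decide) (by decide) (by decide)
theorem gr2_vv (i : Fin 4) : gr 2 (vv i) = vv (![2, 1, 0, 3] i) := by
  fin_cases i
  · exact rf_left (by decide)
  · exact rf_other (by decide) (by decide) (by decide)
  · exact rf_right (by decide)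
  · exact rf_other (by decide) (by decide) (by decide)
theorem gr3_vv (i : Fin 4) : gr 3 (vv i) = vv (![3, 1, 2, 0] i) := by
  fin_cases i
  · exact rf_left (by decide)
  · exact rf_other (by decide) (by decide) (by decide)
  · exact rf_other (by decide) (by decide) (by decide)
  · exact rf_right (by decide)
theorem gr_gr (i : Fin 4) (x : E) : gr i (gr i x) = x := by
  fin_cases i
  · rfl
  · exact Submodule.reflection_reflection _ x
  · exact Submodule.reflection_reflection _ x
  · exact Submodule.reflection_reflection _ x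
theorem exists_swE : ∃ ψ : E ≃ₗᵢ[ℝ] E, (∀ x, ψ x = swE x) ∧ ∀ i, ψ (vv i) = vv (![3, 2, 1, 0] i) := by
  have hadd : ∀ x y : E, swE (x + y) = swE x + swE y := by
    intro x y
    ext i
    fin_cases i
    · change -(x 1 + y 1) = -(x 1) + -(y 1)
      ring
    · change -(x 0 + y 0) = -(x 0) + -(y 0)
      ring
    · change -(x 2 + y 2) = -(x 2) + -(y 2)
      ring
  have hsm : ∀ (t : ℝ) (x : E), swE (t • x) = t • swE x := by
    intro t x
    ext i
    fin_cases i
    · change -(t * x 1) = t * -(x 1)
      ring
    · change -(t * x 0) = t * -(x 0)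
      ring
    · change -(t * x 2) = t * -(x 2)
      ring
  have hinv : ∀ x : E, swE (swE x) = x := by
    intro x
    ext i
    fin_cases i
    · change - -(x 0) = x 0
      ring
    · change - -(x 1) = x 1
      ring
    · change - -(x 2) = x 2
      ring
  have hn : ∀ x : E, ‖swE x‖ = ‖x‖ := by
    intro x
    have e : ‖x‖ = √(x 0 ^ 2 + x 1 ^ 2 + x 2 ^ 2) := by
      rw [← norm_pt, pt_eta]
    rw [e, swE, norm_pt]
    congr 1
    ring
  refine ⟨{ toFun := swE, map_add' := hadd, map_smul' := hsm, invFun := swE, left_inv := hinv,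
            right_inv := hinv, norm_map' := hn }, fun x => rfl, fun i => ?_⟩
  change swE (vv i) = _
  fin_cases i
  · change pt (-0) (-(1 / 2)) (-(cc / 2)) = pt 0 (-1 / 2) (-cc / 2)
    congr 1 <;> ring
  · change pt (-0) (-(-1 / 2)) (-(cc / 2)) = pt 0 (1 / 2) (-cc / 2)
    congr 1 <;> ring
  · change pt (-(1 / 2)) (-0) (-(-cc / 2)) = pt (-1 / 2) 0 (cc / 2)
    congr 1 <;> ring
  · change pt (-(-1 / 2)) (-0) (-(-cc / 2)) = pt (1 / 2) 0 (cc / 2)
    congr 1 <;> ring

end Pool.Agent.MGF
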