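import Pool.Agent.MGF.Defs2
import Pool.Agent.MEIS.GRD
import Pool.Agent.MEIS.PDR
import Pool.Agent.MGE.VV
import Pool.Agent.MGE.JGD
import Pool.Agent.MGF.WPF
import Pool.Agent.MGF.TRH
/-!
SDF (160 lines). First order side functionals of the square in barycentric form.
PROOF. For T = Tf G 0 1 2 3 and a = pt 0 ((1-t)/2) ((1+t)/2) (that is -t in the integral defining sF0): Wp a = c • P (c, c t) (c = cc, c·c = 1/2). pd_Wp and degree 0
homogeneity of pd n G: pd m T a = <grad D, w_m> at P (c, c t), D = <., vv 0> - G. pd 0 T = D_X = 1/2 - fX, pd 2 T - pd 1 T = D_Y = -fY (vv 0 - vv 3 - (vv 0 - vv 2) = (0,1,0)),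
and Euler: (1-t) pd 1 T + (1+t) pd 2 T = √2 D (c, c t) = √2 (c - f). Solve: pd 2 T = e1 of sXp, pd 1 T = e2. So the integrand of sXp at t is F t (pd 2 T) (pd 1 T) (pd 0 T) =
F (-t) (pd 1 T) (pd 2 T) (pd 0 T) (Fsym) = integrand of sF0 at -t; integral_comp_neg. The other sides in the same way: X = -c: T = Tf G 1 0 2 3, outward derivative
-D_X; Y = ±c: x = -P, function L = lf - f = G(-P), lJ.fX - fX = -pd 0 G (-P) etc. (pd_wid), T = Tf G 3 2 0 1 resp. Tf G 2 3 0 1 (edge vectors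
vv 3 - vv 0 = (-1/2,-1/2,-c), vv 3 - vv 1 = (1/2,-1/2,-c), vv 3 - vv 2 = (0,-1,0)).
-/
set_option autoImplicit false

open MeasureTheory Set Metric Pool.Agent.MEIS Pool.Agent.MSQ Pool.Agent.MGE

namespace Pool.Agent.MGF

private theorem sdf_coord (k m : Fin 3) (x : E) :
    pd m (fun y : E => y k) x = if m = k then 1 else 0 := by
  have h : HasFDerivAt (fun y : E => y k) (EuclideanSpace.proj k : E →L[ℝ] ℝ) x :=
    (EuclideanSpace.proj k : E →L[ℝ] ℝ).hasFDerivAt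
  unfold pd
  rw [h.fderiv]
  simp [eq_comm]

private noncomputable def sdf_S (a : E) : ℝ := (a 0 + a 1 + a 2) / 2

private theorem sdf_S_eq : sdf_S = fun a => ∑ k : Fin 3, (1 / 2 : ℝ) * a k := by
  funext a
  rw [sdf_S, Fin.sum_univ_three]
  ring

private theorem sdf_S_sm (n : ℕ) : Sm n sdf_S := by
  rw [sdf_S_eq]
  exact sm_sum _ fun k _ => sm_cmul _ (sm_coord n k)

private theorem sdf_S_pd {x : E} (hx : x ≠ 0) (m : Fin 3) : pd m sdf_S x = 1 / 2 := by
  rw [sdf_S_eq, pd_sum _ (fun k _ => sm_cmul _ (sm_coord 1 k)) hx]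
  rw [Finset.sum_congr rfl (fun k _ => by rw [pd_cmul _ (sm_coord 1 k) hx, sdf_coord])]
  simp

private theorem sdf_negf (f : E → ℝ) (m : Fin 3) (x : E) : pd m (fun y => -f y) x = -pd m f x := by
  unfold pd
  rw [fderiv_fun_neg]
  rfl

private theorem sdf_pdT {i j k l : Fin 4} (h : Dis i j k l) {G : E → ℝ} (hG : Sm 1 G) {a : E} (ha : a ≠ 0)
    (m : Fin 3) : pd m (Tf G i j k l) a = 1 / 2 - ∑ n, we i j k l m n * pd n G (Wp i j k l a) := by
  have hT : ∀ b, Tf G i j k l b = sdf_S b + (fun b => (fun x => -G x) (Wp i j k l b)) b := fun b => by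
    rw [Tf_eq h, sdf_S]
    ring
  have e : Tf G i j k l = fun b => sdf_S b + (fun b => (fun x => -G x) (Wp i j k l b)) b := funext hT
  rw [e, pd_add (sdf_S_sm 1) (Sm_Wp h (sm_neg hG)) ha, sdf_S_pd ha, pd_Wp h (sm_neg hG) ha, sub_eq_add_neg,
    ← Finset.sum_neg_distrib]
  congr 1
  refine Finset.sum_congr rfl fun n _ => ?_
  rw [sdf_negf]
  ring

private theorem sdf_han (t : ℝ) : pt 0 ((1 + t) / 2) ((1 - t) / 2) ≠ 0 := by
  intro e
  have e1 : pt 0 ((1 + t) / 2) ((1 - t) / 2) 1 = 0 := by rw [e]; rfl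
  have e2 : pt 0 ((1 + t) / 2) ((1 - t) / 2) 2 = 0 := by rw [e]; rfl
  rw [pt1] at e1
  rw [pt2] at e2
  linarith

private theorem sdf_s2 : √2 * cc = 1 := by
  unfold cc
  field_simp

private theorem sdf_s2' : √2 / 2 = cc := by
  unfold cc
  have : (√2 : ℝ) * √2 = 2 := Real.mul_self_sqrt (by norm_num)
  have h2 : (√2 : ℝ) ≠ 0 := by positivity
  field_simp
  linarith [this]

/-- the X sides -/
private theorem sdf_keyX {G : E → ℝ} {R τ : ℝ} (h : FG G R τ) {i j k l : Fin 4} (hd : Dis i j k l) {s : ℝ}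
    (h0 : vv i - vv j = pt s 0 0) (h1 : vv i - vv k = pt (s / 2) (-1 / 2) cc)
    (h2 : vv i - vv l = pt (s / 2) (1 / 2) cc) (t : ℝ) :
    pd 1 (Tf G i j k l) (pt 0 ((1 + t) / 2) ((1 - t) / 2)) =
        √2 * (cc - G (P (s * cc, cc * -t))) / 2 - (1 + -t) / 2 * (-pd 1 G (P (s * cc, cc * -t))) ∧
      pd 2 (Tf G i j k l) (pt 0 ((1 + t) / 2) ((1 - t) / 2)) =
        √2 * (cc - G (P (s * cc, cc * -t))) / 2 + (1 - -t) / 2 * (-pd 1 G (P (s * cc, cc * -t))) ∧
      pd 0 (Tf G i j k l) (pt 0 ((1 + t) / 2) ((1 - t) / 2)) = 1 / 2 - s * pd 0 G (P (s * cc, cc * -t)) := by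
  have hG1 : Sm 1 G := sm_mono h.sb.sm (by norm_num)
  have hGh : Hom 1 G := SB_hom h.sb
  have hcp : 0 < cc := cc_pos
  have hc2 : cc * cc = 1 / 2 := by rw [← cc_sq]; ring
  set z : ℝ × ℝ := (s * cc, cc * -t) with hz
  set a : E := pt 0 ((1 + t) / 2) ((1 - t) / 2) with ha'
  have hy : Wp i j k l a = cc • P z := by
    have hw : ∀ q : Fin 3, Wp i j k l a q = 0 * (pt s 0 0 : E) q +
        (1 + t) / 2 * (pt (s / 2) (-1 / 2) cc : E) q + (1 - t) / 2 * (pt (s / 2) (1 / 2) cc : E) q := by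
      intro q
      rw [Wp, h0, h1, h2, ha', pt0, pt1, pt2]
      rfl
    ext q
    rw [hw q]
    fin_cases q
    · change 0 * s + (1 + t) / 2 * (s / 2) + (1 - t) / 2 * (s / 2) = cc * (s * cc)
      linear_combination -s * hc2
    · change 0 * 0 + (1 + t) / 2 * (-1 / 2) + (1 - t) / 2 * (1 / 2) = cc * (cc * -t)
      linear_combination t * hc2
    · change 0 * 0 + (1 + t) / 2 * cc + (1 - t) / 2 * cc = cc * 1
      ring
  have hPn : P z ≠ 0 := P_ne z
  have han : a ≠ 0 := sdf_han t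
  have hom0 : ∀ n : Fin 3, pd n G (cc • P z) = pd n G (P z) := by
    intro n
    have e1 := hom_pd hG1 hGh n cc hcp (P z) hPn
    rw [e1]
    norm_num
  have hpT : ∀ m : Fin 3, pd m (Tf G i j k l) a = 1 / 2 - ∑ n, we i j k l m n * pd n G (P z) := by
    intro m
    rw [sdf_pdT hd hG1 han, hy]
    simp only [hom0]
  have w0 : ∀ n, we i j k l 0 n = pt s 0 0 n := fun n => by rw [← h0]; rfl
  have w1 : ∀ n, we i j k l 1 n = pt (s / 2) (-1 / 2) cc n := fun n => by rw [← h1]; rfl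
  have w2 : ∀ n, we i j k l 2 n = pt (s / 2) (1 / 2) cc n := fun n => by rw [← h2]; rfl
  have p0 : P z 0 = s * cc := rfl
  have p1 : P z 1 = cc * -t := rfl
  have p2 : P z 2 = 1 := rfl
  have eu := SB_self h.sb hPn
  rw [Fin.sum_univ_three, p0, p1, p2] at eu
  have r1 := sdf_s2
  have r2 := sdf_s2'
  have r3 : √2 * (cc - G (P z)) / 2 = 1 / 2 - cc * G (P z) := by
    linear_combination (1 / 2 : ℝ) * r1 - G (P z) * r2
  rw [r3, hpT, hpT, hpT]
  simp only [Fin.sum_univ_three, w0, w1, w2, pt0, pt1, pt2]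
  generalize pd 0 G (P z) = GX at *
  generalize pd 1 G (P z) = GY at *
  generalize pd 2 G (P z) = GZ at *
  generalize G (P z) = g at *
  refine ⟨?_, ?_, ?_⟩
  · linear_combination -cc * eu + (s * GX - t * GY) * hc2
  · linear_combination -cc * eu + (s * GX - t * GY) * hc2
  · ring

/-- the Y sides -/
private theorem sdf_keyY {G : E → ℝ} {R τ : ℝ} (h : FG G R τ) {i j k l : Fin 4} (hd : Dis i j k l) {s : ℝ}
    (h0 : vv i - vv j = pt 0 (-s) 0) (h1 : vv i - vv k = pt (-1 / 2) (-s / 2) (-cc))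
    (h2 : vv i - vv l = pt (1 / 2) (-s / 2) (-cc)) (t : ℝ) :
    pd 1 (Tf G i j k l) (pt 0 ((1 + t) / 2) ((1 - t) / 2)) =
        √2 * (cc - (lf (cc * t, s * cc) - G (P (cc * t, s * cc)))) / 2 +
          (1 - t) / 2 * (-(cc * t / lf (cc * t, s * cc) - pd 0 G (P (cc * t, s * cc)))) ∧
      pd 2 (Tf G i j k l) (pt 0 ((1 + t) / 2) ((1 - t) / 2)) =
        √2 * (cc - (lf (cc * t, s * cc) - G (P (cc * t, s * cc)))) / 2 -
          (1 + t) / 2 * (-(cc * t / lf (cc * t, s * cc) - pd 0 G (P (cc * t, s * cc)))) ∧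
      pd 0 (Tf G i j k l) (pt 0 ((1 + t) / 2) ((1 - t) / 2)) =
        1 / 2 - s * (s * cc / lf (cc * t, s * cc) - pd 1 G (P (cc * t, s * cc))) := by
  have hG1 : Sm 1 G := sm_mono h.sb.sm (by norm_num)
  have hGh : Hom 1 G := SB_hom h.sb
  have hcp : 0 < cc := cc_pos
  have hc2 : cc * cc = 1 / 2 := by rw [← cc_sq]; ring
  set z : ℝ × ℝ := (cc * t, s * cc) with hz
  set a : E := pt 0 ((1 + t) / 2) ((1 - t) / 2) with ha'
  have hy : Wp i j k l a = cc • (-P z) := by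
    have hw : ∀ q : Fin 3, Wp i j k l a q = 0 * (pt 0 (-s) 0 : E) q +
        (1 + t) / 2 * (pt (-1 / 2) (-s / 2) (-cc) : E) q + (1 - t) / 2 * (pt (1 / 2) (-s / 2) (-cc) : E) q := by
      intro q
      rw [Wp, h0, h1, h2, ha', pt0, pt1, pt2]
      rfl
    ext q
    rw [hw q]
    fin_cases q
    · change 0 * 0 + (1 + t) / 2 * (-1 / 2) + (1 - t) / 2 * (1 / 2) = cc * (-(cc * t))
      linear_combination t * hc2
    · change 0 * (-s) + (1 + t) / 2 * (-s / 2) + (1 - t) / 2 * (-s / 2) = cc * (-(s * cc))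
      linear_combination s * hc2
    · change 0 * 0 + (1 + t) / 2 * (-cc) + (1 - t) / 2 * (-cc) = cc * (-1)
      ring
  have hPn : P z ≠ 0 := P_ne z
  have hPn' : -P z ≠ 0 := neg_ne_zero.mpr hPn
  have han : a ≠ 0 := sdf_han t
  have hl : 0 < lf z := lf_pos z
  have hnP : ‖P z‖ = lf z := norm_P z
  have hom0 : ∀ n : Fin 3, pd n G (cc • (-P z)) = pd n G (P z) - P z n / lf z := by
    intro n
    have e1 := hom_pd hG1 hGh n cc hcp (-P z) hPn'
    have e2 := pd_wid h.sb hPn n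
    rw [hnP] at e2
    rw [e1]
    norm_num
    linarith
  have hpT : ∀ m : Fin 3, pd m (Tf G i j k l) a = 1 / 2 - ∑ n, we i j k l m n * (pd n G (P z) - P z n / lf z) := by
    intro m
    rw [sdf_pdT hd hG1 han, hy]
    simp only [hom0]
  have w0 : ∀ n, we i j k l 0 n = pt 0 (-s) 0 n := fun n => by rw [← h0]; rfl
  have w1 : ∀ n, we i j k l 1 n = pt (-1 / 2) (-s / 2) (-cc) n := fun n => by rw [← h1]; rfl
  have w2 : ∀ n, we i j k l 2 n = pt (1 / 2) (-s / 2) (-cc) n := fun n => by rw [← h2]; rfl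
  have p0 : P z 0 = cc * t := rfl
  have p1 : P z 1 = s * cc := rfl
  have p2 : P z 2 = 1 := rfl
  have eu := SB_self h.sb hPn
  rw [Fin.sum_univ_three, p0, p1, p2] at eu
  have hn2 : cc * t * (cc * t / lf z) + s * cc * (s * cc / lf z) + 1 * (1 / lf z) = lf z := by
    have e1 : lf z ^ 2 = 1 + z.1 ^ 2 + z.2 ^ 2 := by
      unfold lf
      rw [Real.sq_sqrt (by positivity)]
    have e2 : z.1 = cc * t := rfl
    have e3 : z.2 = s * cc := rfl
    rw [e2, e3] at e1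
    have hl' : lf z ≠ 0 := hl.ne'
    field_simp
    linarith [e1]
  have r1 := sdf_s2
  have r2 := sdf_s2'
  have r3 : √2 * (cc - (lf z - G (P z))) / 2 = 1 / 2 - cc * (lf z - G (P z)) := by
    linear_combination (1 / 2 : ℝ) * r1 - (lf z - G (P z)) * r2
  rw [r3, hpT, hpT, hpT]
  simp only [Fin.sum_univ_three, w0, w1, w2, pt0, pt1, pt2, p0, p1, p2]
  generalize cc * t / lf z = lX at *
  generalize s * cc / lf z = lY at *
  generalize 1 / lf z = lZ at *
  generalize pd 0 G (P z) = GX at *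
  generalize pd 1 G (P z) = GY at *
  generalize pd 2 G (P z) = GZ at *
  generalize G (P z) = g at *
  generalize lf z = L at *
  refine ⟨?_, ?_, ?_⟩
  · linear_combination cc * eu - cc * hn2 + (t * (lX - GX) + s * (lY - GY)) * hc2
  · linear_combination cc * eu - cc * hn2 + (t * (lX - GX) + s * (lY - GY)) * hc2
  · ring

private theorem sdf_pteq {a b c a' b' c' : ℝ} (h0 : a = a') (h1 : b = b') (h2 : c = c') : pt a b c = pt a' b' c' := by
  rw [h0, h1, h2]

private theorem sdf_ptsub (a b c a' b' c' : ℝ) : pt a b c - pt a' b' c' = pt (a - a') (b - b') (c - c') := by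
  ext q
  fin_cases q <;> simp [pt]

private theorem sdf_neg (f : ℝ → ℝ) : ∫ t in (-1 : ℝ)..1, f t = ∫ t in (-1 : ℝ)..1, f (-t) := by
  rw [intervalIntegral.integral_comp_neg]
  norm_num

theorem side_Xp {G : E → ℝ} {R τ : ℝ} (h : FG G R τ) {F : ℝ → ℝ → ℝ → ℝ → ℝ} (hF : Fsym F) :
    sXp F (jG G) = sF0 F (Tf G 0 1 2 3) := by
  rw [sXp, sdf_neg, sF0]
  refine intervalIntegral.integral_congr fun t _ => ?_
  obtain ⟨e1, e2, e3⟩ := sdf_keyX h (i := 0) (j := 1) (k := 2) (l := 3) (by decide) (s := 1)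
    (by
      change pt (1 / 2) 0 (cc / 2) - pt (-1 / 2) 0 (cc / 2) = _
      rw [sdf_ptsub]
      exact sdf_pteq (by ring) (by ring) (by ring))
    (by
      change pt (1 / 2) 0 (cc / 2) - pt 0 (1 / 2) (-cc / 2) = _
      rw [sdf_ptsub]
      exact sdf_pteq (by ring) (by ring) (by ring))
    (by
      change pt (1 / 2) 0 (cc / 2) - pt 0 (-1 / 2) (-cc / 2) = _
      rw [sdf_ptsub]
      exact sdf_pteq (by ring) (by ring) (by ring)) t
  rw [one_mul, one_mul] at e3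
  rw [one_mul] at e1 e2
  rw [e1, e2, e3]
  exact hF t _ _ _
theorem side_Xm {G : E → ℝ} {R τ : ℝ} (h : FG G R τ) {F : ℝ → ℝ → ℝ → ℝ → ℝ} (hF : Fsym F) :
    sXm F (jG G) = sF0 F (Tf G 1 0 2 3) := by
  rw [sXm, sdf_neg, sF0]
  refine intervalIntegral.integral_congr fun t _ => ?_
  obtain ⟨e1, e2, e3⟩ := sdf_keyX h (i := 1) (j := 0) (k := 2) (l := 3) (by decide) (s := -1)
    (by
      change pt (-1 / 2) 0 (cc / 2) - pt (1 / 2) 0 (cc / 2) = _
      rw [sdf_ptsub]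
      exact sdf_pteq (by ring) (by ring) (by ring))
    (by
      change pt (-1 / 2) 0 (cc / 2) - pt 0 (1 / 2) (-cc / 2) = _
      rw [sdf_ptsub]
      exact sdf_pteq (by ring) (by ring) (by ring))
    (by
      change pt (-1 / 2) 0 (cc / 2) - pt 0 (-1 / 2) (-cc / 2) = _
      rw [sdf_ptsub]
      exact sdf_pteq (by ring) (by ring) (by ring)) t
  rw [neg_one_mul, neg_one_mul, sub_neg_eq_add] at e3
  rw [neg_one_mul] at e1 e2
  rw [e1, e2, e3]
  exact hF t _ _ _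
theorem side_Yp {G : E → ℝ} {R τ : ℝ} (h : FG G R τ) {F : ℝ → ℝ → ℝ → ℝ → ℝ} (hF : Fsym F) :
    sYp F (jG G) = sF0 F (Tf G 3 2 0 1) := by
  rw [sYp, sF0]
  refine intervalIntegral.integral_congr fun t _ => ?_
  obtain ⟨e1, e2, e3⟩ := sdf_keyY h (i := 3) (j := 2) (k := 0) (l := 1) (by decide) (s := 1)
    (by
      change pt 0 (-1 / 2) (-cc / 2) - pt 0 (1 / 2) (-cc / 2) = _
      rw [sdf_ptsub]
      exact sdf_pteq (by ring) (by ring) (by ring))
    (by
      change pt 0 (-1 / 2) (-cc / 2) - pt (1 / 2) 0 (cc / 2) = _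
      rw [sdf_ptsub]
      exact sdf_pteq (by ring) (by ring) (by ring))
    (by
      change pt 0 (-1 / 2) (-cc / 2) - pt (-1 / 2) 0 (cc / 2) = _
      rw [sdf_ptsub]
      exact sdf_pteq (by ring) (by ring) (by ring)) t
  rw [one_mul, one_mul] at e3
  rw [one_mul] at e1 e2
  rw [e1, e2, e3]
  rfl
theorem side_Ym {G : E → ℝ} {R τ : ℝ} (h : FG G R τ) {F : ℝ → ℝ → ℝ → ℝ → ℝ} (hF : Fsym F) :
    sYm F (jG G) = sF0 F (Tf G 2 3 0 1) := by
  rw [sYm, sF0]
  refine intervalIntegral.integral_congr fun t _ => ?_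
  obtain ⟨e1, e2, e3⟩ := sdf_keyY h (i := 2) (j := 3) (k := 0) (l := 1) (by decide) (s := -1)
    (by
      change pt 0 (1 / 2) (-cc / 2) - pt 0 (-1 / 2) (-cc / 2) = _
      rw [sdf_ptsub]
      exact sdf_pteq (by ring) (by ring) (by ring))
    (by
      change pt 0 (1 / 2) (-cc / 2) - pt (1 / 2) 0 (cc / 2) = _
      rw [sdf_ptsub]
      exact sdf_pteq (by ring) (by ring) (by ring))
    (by
      change pt 0 (1 / 2) (-cc / 2) - pt (-1 / 2) 0 (cc / 2) = _
      rw [sdf_ptsub]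
      exact sdf_pteq (by ring) (by ring) (by ring)) t
  rw [neg_one_mul, neg_one_mul, sub_neg_eq_add] at e3
  rw [neg_one_mul] at e1 e2
  rw [e1, e2, e3]
  rfl

end Pool.Agent.MGF
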