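import Pool.Agent.MGF.Defs2
import Pool.Agent.MEIS.GRD
import Pool.Agent.MEIS.PDR
import Pool.Agent.MEIS.HOM
import Pool.Agent.MGE.VV
import Pool.Agent.MGE.JGD
import Pool.Agent.MGF.WPF
/-!
SDX (160 lines). Fluxes of the square through the sides X = c, X = -c.
PROOF. Let T = Tf G 0 1 2 3, a = pt 0 ((1-t)/2) ((1+t)/2), Wp a = c • P (c, c t). Derivatives along edges: with D = <.,vv 0> - G and ∂_t := (∂_{w2} - ∂_{w1})/2 (w1 = vv 0 - vv 2,
w2 = vv 0 - vv 3), D_X = ∂_{w0} D, D_Y = 2 ∂_t D; first derivatives have degree 0, second derivatives degree -1 (so at P = Wp a / c they are c times those at Wp a), l (P) = nW a / c.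
On X = c: A = cJ - J has A = D, A_X = D_X, A_Y = D_Y (cJ.f (c, Y) = c, cJ.fX = 1/2, because 1 + c² = 3/2) and f = lJ - cJ - J has f_YY = l_YY + D_YY, f_XY = l_XY + D_XY (the
second derivatives YY, XY of cJ vanish, those of J are minus those of D). lJ.fX = ∂_{w0}‖.‖ etc. Therefore VX lJ A f (c, c t) = 4 fx T 0 1 2 a (each term gets the factor
(1/c)·4c or 2·2c/c): VX = (l/c)(T_0 · 4c f_tt - 2T_t · 2c f_0t) - (T/c)(l_0 4c f_tt - 2 l_t 2c f_0t). Substitute Y = c t: ∫_{-c}^{c} VX dY = 4c ∫ fx dt = 2√2 sP0 T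
(t ↦ -t changes nothing: fx is symmetric in v, w by symmetry of second derivatives). X = -c: T = Tf G 1 0 2 3, outward = -X.
-/
set_option autoImplicit false

open MeasureTheory Set Metric Pool.Agent.MEIS Pool.Agent.MSQ Pool.Agent.MGE

namespace Pool.Agent.MGF

private theorem sdx_coord (k m : Fin 3) (x : E) :
    pd m (fun y : E => y k) x = if m = k then 1 else 0 := by
  have h : HasFDerivAt (fun y : E => y k) (EuclideanSpace.proj k : E →L[ℝ] ℝ) x :=
    (EuclideanSpace.proj k : E →L[ℝ] ℝ).hasFDerivAt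
  unfold pd
  rw [h.fderiv]
  simp [eq_comm]

private noncomputable def sdx_S (a : E) : ℝ := (a 0 + a 1 + a 2) / 2

private theorem sdx_S_eq : sdx_S = fun a => ∑ k : Fin 3, (1 / 2 : ℝ) * a k := by
  funext a
  rw [sdx_S, Fin.sum_univ_three]
  ring

private theorem sdx_S_sm (n : ℕ) : Sm n sdx_S := by
  rw [sdx_S_eq]
  exact sm_sum _ fun k _ => sm_cmul _ (sm_coord n k)

private theorem sdx_S_pd {x : E} (hx : x ≠ 0) (m : Fin 3) : pd m sdx_S x = 1 / 2 := by
  rw [sdx_S_eq, pd_sum _ (fun k _ => sm_cmul _ (sm_coord 1 k)) hx]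
  rw [Finset.sum_congr rfl (fun k _ => by rw [pd_cmul _ (sm_coord 1 k) hx, sdx_coord])]
  simp

/-- first and second derivatives of `S + F ∘ W` -/
private theorem sdx_pd {i j k l : Fin 4} (h : Dis i j k l) {F T : E → ℝ} (hF : Sm 1 F)
    (hT : ∀ a, T a = sdx_S a + F (Wp i j k l a)) {a : E} (ha : a ≠ 0) (m : Fin 3) :
    pd m T a = 1 / 2 + ∑ n, we i j k l m n * pd n F (Wp i j k l a) := by
  have e : T = fun a => sdx_S a + (fun b => F (Wp i j k l b)) a := funext hT
  rw [e, pd_add (sdx_S_sm 1) (Sm_Wp h hF) ha, sdx_S_pd ha, pd_Wp h hF ha]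

private theorem sdx_pd2 {i j k l : Fin 4} (h : Dis i j k l) {F T : E → ℝ} (hF : Sm 2 F)
    (hT : ∀ a, T a = sdx_S a + F (Wp i j k l a)) {a : E} (ha : a ≠ 0) (m m' : Fin 3) :
    pd m (pd m' T) a = ∑ n, ∑ n', we i j k l m n * we i j k l m' n' * pd n (pd n' F) (Wp i j k l a) := by
  have hF1 : Sm 1 F := sm_mono hF (by norm_num)
  have e : T = fun a => sdx_S a + (fun b => F (Wp i j k l b)) a := funext hT
  have h2 : Sm 1 (pd m' (fun b => F (Wp i j k l b))) := sm_pd (n := 1) (Sm_Wp h hF) m'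
  have e1 : ∀ y : E, y ≠ 0 → pd m' T y =
      (fun y => (fun _ => (1 / 2 : ℝ)) y + pd m' (fun b => F (Wp i j k l b)) y) y := by
    intro y hy
    rw [e, pd_add (sdx_S_sm 1) (Sm_Wp h hF1) hy, sdx_S_pd hy]
  rw [pd_congr e1 ha m, pd_add (sm_const 1 _) h2 ha, pd2_Wp h hF ha]
  have e2 : pd m (fun _ : E => (1 / 2 : ℝ)) a = 0 := by
    unfold pd
    simp
  rw [e2, zero_add]

private theorem sdx_negf (f : E → ℝ) (m : Fin 3) (x : E) : pd m (fun y => -f y) x = -pd m f x := by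
  unfold pd
  rw [fderiv_fun_neg]
  rfl

private theorem sdx_sqc {s : ℝ} (hs : s * s = 1) : √(1 + (s * cc) ^ 2) = √3 * cc := by
  have hc := cc_sq
  have hp := cc_pos
  have h3 : (√3 : ℝ) ^ 2 = 3 := Real.sq_sqrt (by norm_num)
  rw [Real.sqrt_eq_iff_mul_self_eq (by positivity) (by positivity)]
  have : s ^ 2 = 1 := by rw [pow_two, hs]
  calc 1 + (s * cc) ^ 2 = 1 + s ^ 2 * cc ^ 2 := by ring
    _ = √3 ^ 2 * cc ^ 2 := by rw [h3, hc, this]; norm_num
    _ = √3 * cc * (√3 * cc) := by ring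

private theorem sdx_key {G : E → ℝ} {R τ : ℝ} (h : FG G R τ) {i j k l : Fin 4} (hd : Dis i j k l) {s : ℝ}
    (hs : s * s = 1) (h0 : vv i - vv j = pt s 0 0) (h1 : vv i - vv k = pt (s / 2) (-1 / 2) cc)
    (h2 : vv i - vv l = pt (s / 2) (1 / 2) cc) (t : ℝ) :
    s * VX lJ (jA cJ (jG G)) (jf cJ (jG G)) (s * cc, -(cc * t)) =
      4 * fx (Tf G i j k l) 0 1 2 (pt 0 ((1 + t) / 2) ((1 - t) / 2)) := by
  have hG3 : Sm 3 G := h.sb.sm
  have hG2 : Sm 2 G := sm_mono hG3 (by norm_num)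
  have hG1 : Sm 1 G := sm_mono hG3 (by norm_num)
  have hGh : Hom 1 G := SB_hom h.sb
  have hcp : 0 < cc := cc_pos
  have hc2 : cc * cc = 1 / 2 := by rw [← cc_sq]; ring
  have hc0 : cc ≠ 0 := hcp.ne'
  set z : ℝ × ℝ := (s * cc, -(cc * t)) with hz
  set a : E := pt 0 ((1 + t) / 2) ((1 - t) / 2) with ha'
  set T := Tf G i j k l with hTdef
  have hy : Wp i j k l a = cc • P z := by
    have hw : ∀ q : Fin 3, Wp i j k l a q = 0 * (pt s 0 0 : E) q +
        (1 + t) / 2 * (pt (s / 2) (-1 / 2) cc : E) q + (1 - t) / 2 * (pt (s / 2) (1 / 2) cc : E) q := by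
      intro q
      rw [Wp, h0, h1, h2, ha', pt0, pt1, pt2]
      rfl
    ext q
    rw [hw q]
    fin_cases q
    · change 0 * s + (1 + t) / 2 * (s / 2) + (1 - t) / 2 * (s / 2) = cc * (s * cc)
      linear_combination -s * hc2
    · change 0 * 0 + (1 + t) / 2 * (-1 / 2) + (1 - t) / 2 * (1 / 2) = cc * (-(cc * t))
      linear_combination t * hc2
    · change 0 * 0 + (1 + t) / 2 * cc + (1 - t) / 2 * cc = cc * 1
      ring
  have hPn : P z ≠ 0 := P_ne z
  have hyn : cc • P z ≠ 0 := smul_ne_zero hc0 hPn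
  have han : a ≠ 0 := by
    intro e
    have e1 : a 1 = 0 := by rw [e]; rfl
    have e2 : a 2 = 0 := by rw [e]; rfl
    rw [ha', pt1] at e1
    rw [ha', pt2] at e2
    linarith
  have hl : 0 < lf z := lf_pos z
  have hnP : ‖P z‖ = lf z := norm_P z
  -- the functions
  have hTe : ∀ b, T b = sdx_S b + (fun x => -G x) (Wp i j k l b) := fun b => by
    rw [hTdef, Tf_eq hd, sdx_S]
    ring
  have hLe : ∀ b, lT T b = sdx_S b + (fun x => ‖x‖ - G x) (Wp i j k l b) := fun b => by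
    rw [lT, hTe b, ← norm_Wp hd b]
    simp only
    ring
  have hNe : nW = fun b => (fun x : E => ‖x‖) (Wp i j k l b) := funext fun b => (norm_Wp hd b).symm
  -- first derivatives of G
  have hom0 : ∀ n : Fin 3, pd n G (cc • P z) = pd n G (P z) := by
    intro n
    have e1 := hom_pd hG1 hGh n cc hcp (P z) hPn
    rw [e1]
    norm_num
  have hpT : ∀ m : Fin 3, pd m T a = 1 / 2 - ∑ n, we i j k l m n * pd n G (P z) := by
    intro m
    rw [sdx_pd hd (sm_neg hG1) hTe han, hy]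
    rw [sub_eq_add_neg, ← Finset.sum_neg_distrib]
    congr 1
    refine Finset.sum_congr rfl fun n _ => ?_
    rw [sdx_negf, hom0 n]
    ring
  -- second derivatives
  have hnorm : ‖cc • P z‖ = cc * lf z := by
    rw [norm_smul, hnP, Real.norm_of_nonneg hcp.le]
  have hom2 : ∀ n n' : Fin 3, pd n (pd n' (fun x : E => ‖x‖ - G x)) (cc • P z) =
      cc⁻¹ * (((if n = n' then (1 : ℝ) else 0) - P z n * P z n' / lf z ^ 2) / lf z - pd n (pd n' G) (P z)) := by
    intro n n'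
    have hd1 : Sm 1 (fun x : E => ‖x‖) := sm_norm 1
    have e0 : ∀ y : E, y ≠ 0 → pd n' (fun x : E => ‖x‖ - G x) y =
        (fun y => pd n' (fun x : E => ‖x‖) y - pd n' G y) y := fun y hy => pd_sub hd1 hG1 hy n'
    rw [pd_congr e0 hyn n, pd_sub (sm_pd (n := 1) (sm_norm 2) n') (sm_pd (n := 1) hG2 n') hyn, pd2_norm hyn]
    have e1 := hom_pd2 hG2 hGh n n' cc hcp (P z) hPn
    rw [e1, zpow_neg_one, hnorm]
    have e2 : ∀ q : Fin 3, (cc • P z) q = cc * P z q := fun q => by simp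
    rw [e2, e2]
    field_simp
  have hpL : ∀ m m' : Fin 3, pd m (pd m' (lT T)) a =
      ∑ n, ∑ n', we i j k l m n * we i j k l m' n' * (cc⁻¹ *
        (((if n = n' then (1 : ℝ) else 0) - P z n * P z n' / lf z ^ 2) / lf z - pd n (pd n' G) (P z))) := by
    intro m m'
    rw [sdx_pd2 hd (sm_sub (sm_norm 2) hG2) hLe han, hy]
    refine Finset.sum_congr rfl fun n _ => Finset.sum_congr rfl fun n' _ => ?_
    rw [hom2]
  -- derivatives of the norm
  have hpN : ∀ m : Fin 3, pd m nW a = ∑ n, we i j k l m n * (P z n / lf z) := by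
    intro m
    rw [hNe, pd_Wp hd (sm_norm 1) han, hy]
    refine Finset.sum_congr rfl fun n _ => ?_
    rw [pd_norm hyn, hnorm]
    have : (cc • P z) n = cc * P z n := by simp
    rw [this]
    field_simp
  have hnW : nW a = cc * lf z := by rw [← norm_Wp hd a, hy, hnorm]
  have hTa : T a = cc * (cc - G (P z)) := by
    have e1 : G (cc • P z) = cc * G (P z) := h.sb.hom cc hcp.le _
    rw [hTe, hy]
    simp only [sdx_S, e1, ha', pt0, pt1, pt2]
    nlinarith [hc2]
  have w0 : ∀ n, we i j k l 0 n = pt s 0 0 n := fun n => by rw [← h0]; rfl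
  have w1 : ∀ n, we i j k l 1 n = pt (s / 2) (-1 / 2) cc n := fun n => by rw [← h1]; rfl
  have w2 : ∀ n, we i j k l 2 n = pt (s / 2) (1 / 2) cc n := fun n => by rw [← h2]; rfl
  have p0 : P z 0 = s * cc := rfl
  have p1 : P z 1 = -(cc * t) := rfl
  have hsy : pd 1 (pd 0 G) (P z) = pd 0 (pd 1 G) (P z) := pd_comm hG2 hPn 1 0
  have hs0 : pd 2 (pd 0 G) (P z) = pd 0 (pd 2 G) (P z) := pd_comm hG2 hPn 2 0
  have hs1 : pd 2 (pd 1 G) (P z) = pd 1 (pd 2 G) (P z) := pd_comm hG2 hPn 2 1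
  have n01 : ((0 : Fin 3) = 1) = False := by decide
  have n02 : ((0 : Fin 3) = 2) = False := by decide
  have n12' : ((1 : Fin 3) = 2) = False := by decide
  have n10 : ((1 : Fin 3) = 0) = False := by decide
  have n20 : ((2 : Fin 3) = 0) = False := by decide
  have n21 : ((2 : Fin 3) = 1) = False := by decide
  have q11 : (pd 1 (pd 1 (lT T)) a + pd 2 (pd 2 (lT T)) a - 2 * pd 1 (pd 2 (lT T)) a) =
      cc⁻¹ * ((1 - P z 1 * P z 1 / lf z ^ 2) / lf z - pd 1 (pd 1 G) (P z)) := by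
    simp only [hpL, Fin.sum_univ_three, w1, w2, pt0, pt1, pt2, hsy, hs0, hs1, n01, n02, n12', n10, n20, n21,
      if_true, if_false]
    ring
  have q01 : pd 0 (pd 1 (lT T)) a - pd 0 (pd 2 (lT T)) a =
      -s * (cc⁻¹ * ((0 - P z 0 * P z 1 / lf z ^ 2) / lf z - pd 0 (pd 1 G) (P z))) := by
    simp only [hpL, Fin.sum_univ_three, w0, w1, w2, pt0, pt1, pt2, hsy, hs0, hs1, n01, n02, n12', n10, n20, n21,
      if_true, if_false]
    ring
  have t0 : pd 0 T a = 1 / 2 - s * pd 0 G (P z) := by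
    rw [hpT]
    simp only [Fin.sum_univ_three, w0, pt0, pt1, pt2]
    ring
  have t12 : pd 1 T a - pd 2 T a = pd 1 G (P z) := by
    rw [hpT, hpT]
    simp only [Fin.sum_univ_three, w1, w2, pt0, pt1, pt2]
    ring
  have n0 : pd 0 nW a = s * (s * cc / lf z) := by
    rw [hpN]
    simp only [Fin.sum_univ_three, w0, pt0, pt1, pt2, p0]
    ring
  have n12 : pd 1 nW a - pd 2 nW a = cc * t / lf z := by
    rw [hpN, hpN]
    simp only [Fin.sum_univ_three, w1, w2, pt0, pt1, pt2, p1]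
    ring
  have hA : (jA cJ (jG G)).f z = cc - G (P z) := by
    simp only [jA, Jsub, cJ, jG]
    have h3 : (√3 : ℝ) ^ 2 = 3 := Real.sq_sqrt (by norm_num)
    have e : √(1 + z.1 ^ 2) = √3 * cc := sdx_sqc hs
    rw [e]
    have : √3 / 2 * (√3 * cc) = √3 ^ 2 / 2 * cc := by ring
    rw [this, h3]
    ring
  have hAX : (jA cJ (jG G)).fX z = s / 2 - pd 0 G (P z) := by
    simp only [jA, Jsub, cJ, jG]
    have e : √(1 + z.1 ^ 2) = √3 * cc := sdx_sqc hs
    rw [e]
    have e1 : z.1 = s * cc := rfl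
    rw [e1]
    have h3 : (√3 : ℝ) ≠ 0 := by positivity
    field_simp
  have hAY : (jA cJ (jG G)).fY z = - pd 1 G (P z) := by
    simp only [jA, Jsub, cJ, jG]
    ring
  have hlf2 : lf z ^ 2 = 1 + z.1 ^ 2 + z.2 ^ 2 := by
    unfold lf
    rw [Real.sq_sqrt (by positivity)]
  have e1 : z.1 = s * cc := rfl
  have e2 : z.2 = -(cc * t) := rfl
  have hs' : s ^ 2 = 1 := by rw [pow_two, hs]
  have hc2' : cc ^ 2 = 1 / 2 := cc_sq
  have hfYY : (jf cJ (jG G)).fYY z =
      (1 - P z 1 * P z 1 / lf z ^ 2) / lf z - pd 1 (pd 1 G) (P z) := by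
    have e3 : (1 - P z 1 * P z 1 / lf z ^ 2) / lf z = (1 + z.1 ^ 2) / lf z ^ 3 := by
      have : 1 + z.1 ^ 2 = lf z ^ 2 - z.2 ^ 2 := by rw [hlf2]; ring
      rw [this, p1, e2]
      field_simp
      try ring
    rw [e3]
    simp only [jf, Jsub, cJ, jG, lJ]
    ring
  have hfXY : (jf cJ (jG G)).fXY z =
      (0 - P z 0 * P z 1 / lf z ^ 2) / lf z - pd 0 (pd 1 G) (P z) := by
    have e3 : (0 - P z 0 * P z 1 / lf z ^ 2) / lf z = -(z.1 * z.2) / lf z ^ 3 := by
      rw [p0, p1, e1, e2]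
      field_simp
      try ring
    rw [e3]
    simp only [jf, Jsub, cJ, jG, lJ]
    ring
  have hlf : lJ.f z = lf z := rfl
  have hlX : lJ.fX z = s * cc / lf z := rfl
  have hlY : lJ.fY z = -(cc * t) / lf z := rfl
  rw [fx, q11, q01, t12, n12, hnW, hTa, t0, n0, VX, hA, hAX, hAY, hfYY, hfXY, hlf, hlX, hlY]
  generalize (1 - P z 1 * P z 1 / lf z ^ 2) / lf z - pd 1 (pd 1 G) (P z) = GYY
  generalize (0 - P z 0 * P z 1 / lf z ^ 2) / lf z - pd 0 (pd 1 G) (P z) = GXY
  generalize pd 0 G (P z) = GX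
  generalize pd 1 G (P z) = GY
  generalize G (P z) = g
  generalize lf z = L at *
  have hL : L ≠ 0 := hl.ne'
  field_simp
  ring_nf
  simp only [hs']
  ring

private theorem sdx_int (f : ℝ → ℝ) :
    ∫ Y in (-cc)..cc, f Y = cc * ∫ t in (-1 : ℝ)..1, f (-(cc * t)) := by
  have h := intervalIntegral.smul_integral_comp_mul_left (a := -1) (b := 1) f (-cc)
  rw [smul_eq_mul] at h
  have h2 : ∫ Y in (-cc)..cc, f Y = -∫ Y in (-cc * -1)..(-cc * 1), f Y := by
    rw [intervalIntegral.integral_symm]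
    norm_num
  rw [h2, ← h]
  have e : (fun t : ℝ => f (-cc * t)) = fun t => f (-(cc * t)) := by
    funext t
    rw [neg_mul]
  rw [e]
  ring

private theorem sdx_four : cc * 4 = 2 * √2 := by
  unfold cc
  have : (√2 : ℝ) * √2 = 2 := Real.mul_self_sqrt (by norm_num)
  have h2 : (√2 : ℝ) ≠ 0 := by positivity
  field_simp
  nlinarith [this]

private theorem sdx_pteq {a b c a' b' c' : ℝ} (h0 : a = a') (h1 : b = b') (h2 : c = c') : pt a b c = pt a' b' c' := by
  rw [h0, h1, h2]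

private theorem sdx_ptsub (a b c a' b' c' : ℝ) : pt a b c - pt a' b' c' = pt (a - a') (b - b') (c - c') := by
  ext q
  fin_cases q <;> simp [pt]

theorem flux_Xp {G : E → ℝ} {R τ : ℝ} (h : FG G R τ) :
    ∫ Y in (-cc)..cc, VX lJ (jA cJ (jG G)) (jf cJ (jG G)) (cc, Y) = 2 * √2 * sP0 (Tf G 0 1 2 3) := by
  rw [sdx_int]
  have hd : Dis 0 1 2 3 := by decide
  have e : ∀ t : ℝ, VX lJ (jA cJ (jG G)) (jf cJ (jG G)) (cc, -(cc * t)) =
      4 * fx (Tf G 0 1 2 3) 0 1 2 (pt 0 ((1 + t) / 2) ((1 - t) / 2)) := by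
    intro t
    have := sdx_key h hd (s := 1) (by norm_num)
      (by
        change pt (1 / 2) 0 (cc / 2) - pt (-1 / 2) 0 (cc / 2) = _
        rw [sdx_ptsub]
        exact sdx_pteq (by ring) (by ring) (by ring))
      (by
        change pt (1 / 2) 0 (cc / 2) - pt 0 (1 / 2) (-cc / 2) = _
        rw [sdx_ptsub]
        exact sdx_pteq (by ring) (by ring) (by ring))
      (by
        change pt (1 / 2) 0 (cc / 2) - pt 0 (-1 / 2) (-cc / 2) = _
        rw [sdx_ptsub]
        exact sdx_pteq (by ring) (by ring) (by ring)) t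
    rw [one_mul, one_mul] at this
    exact this
  simp only [e]
  rw [intervalIntegral.integral_const_mul, ← mul_assoc, sdx_four, sP0]

theorem flux_Xm {G : E → ℝ} {R τ : ℝ} (h : FG G R τ) :
    -∫ Y in (-cc)..cc, VX lJ (jA cJ (jG G)) (jf cJ (jG G)) (-cc, Y) = 2 * √2 * sP0 (Tf G 1 0 2 3) := by
  rw [sdx_int]
  have hd : Dis 1 0 2 3 := by decide
  have e : ∀ t : ℝ, VX lJ (jA cJ (jG G)) (jf cJ (jG G)) (-cc, -(cc * t)) =
      -(4 * fx (Tf G 1 0 2 3) 0 1 2 (pt 0 ((1 + t) / 2) ((1 - t) / 2))) := by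
    intro t
    have := sdx_key h hd (s := -1) (by norm_num)
      (by
        change pt (-1 / 2) 0 (cc / 2) - pt (1 / 2) 0 (cc / 2) = _
        rw [sdx_ptsub]
        exact sdx_pteq (by ring) (by ring) (by ring))
      (by
        change pt (-1 / 2) 0 (cc / 2) - pt 0 (1 / 2) (-cc / 2) = _
        rw [sdx_ptsub]
        exact sdx_pteq (by ring) (by ring) (by ring))
      (by
        change pt (-1 / 2) 0 (cc / 2) - pt 0 (-1 / 2) (-cc / 2) = _
        rw [sdx_ptsub]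
        exact sdx_pteq (by ring) (by ring) (by ring)) t
    rw [neg_one_mul, neg_one_mul] at this
    linarith
  simp only [e]
  rw [intervalIntegral.integral_neg, intervalIntegral.integral_const_mul, mul_neg, neg_neg, ← mul_assoc, sdx_four, sP0]

end Pool.Agent.MGF
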