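import Pool.Agent.MGF.Defs2
import Pool.Agent.MEIS.GRD
import Pool.Agent.MEIS.PDR
import Pool.Agent.MEIS.HOM
import Pool.Agent.MGE.VV
import Pool.Agent.MGE.JGD
import Pool.Agent.MGF.WPF
/-!
SDY (160 lines). Fluxes of the square through the sides Y = c, Y = -c.
PROOF. On Y = c let x = -P (X, c), D = <., vv 3> - G at x, as a function of (X,Y): D'(X,Y) = Y/2 + c/2 - (l - J.f). A = sJ 1 - J = (l - J.f) - Y/2 - c/2 = -D' and f = lJ - sJ 1 - J =
Y/2 + c/2 - J.f = (Y + c) - l - D': so A = -D' with first derivatives -D'_X, -D'_Y, and the second derivatives of f are -(l + D')''. VY is bilinear in (A, f):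
VY lJ A f = l (D'_Y f'_XX - D'_X f'_XY) - D' (l_Y f'_XX - l_X f'_XY), f' = l + D'. Now T = Tf G 3 2 0 1, -P (c t, c) = (1/c) Wp a with a = pt 0 ((1+t)/2) ((1-t)/2)
(edges vv 3 - vv 0 = (-1/2,-1/2,-c), vv 3 - vv 1 = (1/2,-1/2,-c), vv 3 - vv 2 = (0,-1,0)): moving P by (0,1,0) moves x by vv 3 - vv 2, moving P by (1,0,0) moves x by (vv 3 - vv 0) - (vv 3 - vv 1).
So as in module SDX VY lJ A f (c t, c) = 4 fx T 0 1 2 a, and ∫_{-c}^{c} dX = c ∫ dt. Y = -c: T = Tf G 2 3 0 1, outward = -Y. (l(-x) = l(x), derivatives of the norm are odd.)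
-/
set_option autoImplicit false

open MeasureTheory Set Metric Pool.Agent.MEIS Pool.Agent.MSQ Pool.Agent.MGE

namespace Pool.Agent.MGF

private theorem sdy_coord (k m : Fin 3) (x : E) :
    pd m (fun y : E => y k) x = if m = k then 1 else 0 := by
  have h : HasFDerivAt (fun y : E => y k) (EuclideanSpace.proj k : E →L[ℝ] ℝ) x :=
    (EuclideanSpace.proj k : E →L[ℝ] ℝ).hasFDerivAt
  unfold pd
  rw [h.fderiv]
  simp [eq_comm]

private noncomputable def sdy_S (a : E) : ℝ := (a 0 + a 1 + a 2) / 2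

private theorem sdy_S_eq : sdy_S = fun a => ∑ k : Fin 3, (1 / 2 : ℝ) * a k := by
  funext a
  rw [sdy_S, Fin.sum_univ_three]
  ring

private theorem sdy_S_sm (n : ℕ) : Sm n sdy_S := by
  rw [sdy_S_eq]
  exact sm_sum _ fun k _ => sm_cmul _ (sm_coord n k)

private theorem sdy_S_pd {x : E} (hx : x ≠ 0) (m : Fin 3) : pd m sdy_S x = 1 / 2 := by
  rw [sdy_S_eq, pd_sum _ (fun k _ => sm_cmul _ (sm_coord 1 k)) hx]
  rw [Finset.sum_congr rfl (fun k _ => by rw [pd_cmul _ (sm_coord 1 k) hx, sdy_coord])]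
  simp

/-- first and second derivatives of `S + F ∘ W` -/
private theorem sdy_pd {i j k l : Fin 4} (h : Dis i j k l) {F T : E → ℝ} (hF : Sm 1 F)
    (hT : ∀ a, T a = sdy_S a + F (Wp i j k l a)) {a : E} (ha : a ≠ 0) (m : Fin 3) :
    pd m T a = 1 / 2 + ∑ n, we i j k l m n * pd n F (Wp i j k l a) := by
  have e : T = fun a => sdy_S a + (fun b => F (Wp i j k l b)) a := funext hT
  rw [e, pd_add (sdy_S_sm 1) (Sm_Wp h hF) ha, sdy_S_pd ha, pd_Wp h hF ha]

private theorem sdy_pd2 {i j k l : Fin 4} (h : Dis i j k l) {F T : E → ℝ} (hF : Sm 2 F)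
    (hT : ∀ a, T a = sdy_S a + F (Wp i j k l a)) {a : E} (ha : a ≠ 0) (m m' : Fin 3) :
    pd m (pd m' T) a = ∑ n, ∑ n', we i j k l m n * we i j k l m' n' * pd n (pd n' F) (Wp i j k l a) := by
  have hF1 : Sm 1 F := sm_mono hF (by norm_num)
  have e : T = fun a => sdy_S a + (fun b => F (Wp i j k l b)) a := funext hT
  have h2 : Sm 1 (pd m' (fun b => F (Wp i j k l b))) := sm_pd (n := 1) (Sm_Wp h hF) m'
  have e1 : ∀ y : E, y ≠ 0 → pd m' T y =
      (fun y => (fun _ => (1 / 2 : ℝ)) y + pd m' (fun b => F (Wp i j k l b)) y) y := by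
    intro y hy
    rw [e, pd_add (sdy_S_sm 1) (Sm_Wp h hF1) hy, sdy_S_pd hy]
  rw [pd_congr e1 ha m, pd_add (sm_const 1 _) h2 ha, pd2_Wp h hF ha]
  have e2 : pd m (fun _ : E => (1 / 2 : ℝ)) a = 0 := by
    unfold pd
    simp
  rw [e2, zero_add]

private theorem sdy_key {G : E → ℝ} {R τ : ℝ} (h : FG G R τ) {i j k l : Fin 4} (hd : Dis i j k l) {s : ℝ}
    (hs : s * s = 1) (h0 : vv i - vv j = pt 0 (-s) 0) (h1 : vv i - vv k = pt (-1 / 2) (-s / 2) (-cc))
    (h2 : vv i - vv l = pt (1 / 2) (-s / 2) (-cc)) (t : ℝ) :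
    s * VY lJ (jA (sJ s) (jG G)) (jf (sJ s) (jG G)) (cc * t, s * cc) =
      4 * fx (Tf G i j k l) 0 1 2 (pt 0 ((1 + t) / 2) ((1 - t) / 2)) := by
  have hG3 : Sm 3 G := h.sb.sm
  have hG2 : Sm 2 G := sm_mono hG3 (by norm_num)
  have hG1 : Sm 1 G := sm_mono hG3 (by norm_num)
  have hGh : Hom 1 G := SB_hom h.sb
  have hcp : 0 < cc := cc_pos
  have hc2 : cc * cc = 1 / 2 := by rw [← cc_sq]; ring
  have hc0 : cc ≠ 0 := hcp.ne'
  set z : ℝ × ℝ := (cc * t, s * cc) with hz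
  set a : E := pt 0 ((1 + t) / 2) ((1 - t) / 2) with ha'
  set T := Tf G i j k l with hTdef
  have hy : Wp i j k l a = cc • (-P z) := by
    rw [Wp, h0, h1, h2, ha', pt0, pt1, pt2, MGE.P, neg_pt, smul_pt, smul_pt, smul_pt, smul_pt]
    ext q
    fin_cases q <;> simp [pt, hz] <;> first | linear_combination t * hc2 | linear_combination s * hc2 | ring
  have hPn : P z ≠ 0 := P_ne z
  have hPn' : -P z ≠ 0 := neg_ne_zero.mpr hPn
  have hyn : cc • (-P z) ≠ 0 := smul_ne_zero hc0 hPn'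
  have han : a ≠ 0 := by
    intro e
    have e1 : a 1 = 0 := by rw [e]; rfl
    have e2 : a 2 = 0 := by rw [e]; rfl
    rw [ha', pt1] at e1
    rw [ha', pt2] at e2
    linarith
  have hl : 0 < lf z := lf_pos z
  have hnP : ‖P z‖ = lf z := norm_P z
  -- the functions
  have hTe : ∀ b, T b = sdy_S b + (fun x => -G x) (Wp i j k l b) := fun b => by
    rw [hTdef, Tf_eq hd, sdy_S]
    ring
  have hLe : ∀ b, lT T b = sdy_S b + (fun x => G (-x)) (Wp i j k l b) := fun b => by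
    have := h.sb.wid (Wp i j k l b)
    rw [lT, hTe b, ← norm_Wp hd b]
    simp only
    linarith
  have hGn : Sm 2 (fun x : E => G (-x)) := sm_negarg hG2
  have hNe : nW = fun b => (fun x : E => ‖x‖) (Wp i j k l b) := funext fun b => (norm_Wp hd b).symm
  -- first derivatives of G
  have hom0 : ∀ n : Fin 3, pd n G (cc • (-P z)) = pd n G (P z) - P z n / lf z := by
    intro n
    have e1 := hom_pd hG1 hGh n cc hcp (-P z) hPn'
    have e2 := pd_wid h.sb hPn n
    rw [hnP] at e2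
    rw [e1]
    norm_num
    linarith
  have hpT : ∀ m : Fin 3, pd m T a = 1 / 2 - ∑ n, we i j k l m n * (pd n G (P z) - P z n / lf z) := by
    intro m
    rw [sdy_pd hd (sm_neg hG1) hTe han, hy]
    rw [sub_eq_add_neg, ← Finset.sum_neg_distrib]
    congr 1
    refine Finset.sum_congr rfl fun n _ => ?_
    rw [par_negf, hom0 n]
    ring
  -- second derivatives of G(-x)
  have hom2 : ∀ n n' : Fin 3, pd n (pd n' (fun x : E => G (-x))) (cc • (-P z)) = cc⁻¹ * pd n (pd n' G) (P z) := by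
    intro n n'
    have e0 : pd n' (fun x : E => G (-x)) = fun x => - (fun w => pd n' G (-w)) x := funext fun x => par_neg n' x
    rw [e0, par_negf, par_neg]
    have e1 := hom_pd2 hG2 hGh n n' cc hcp (P z) hPn
    have e2 : -(cc • (-P z)) = cc • P z := by rw [smul_neg, neg_neg]
    rw [e2, e1, zpow_neg_one, neg_neg]
  have hpL : ∀ m m' : Fin 3, pd m (pd m' (lT T)) a =
      ∑ n, ∑ n', we i j k l m n * we i j k l m' n' * (cc⁻¹ * pd n (pd n' G) (P z)) := by
    intro m m'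
    rw [sdy_pd2 hd hGn hLe han, hy]
    refine Finset.sum_congr rfl fun n _ => Finset.sum_congr rfl fun n' _ => ?_
    rw [hom2]
  -- derivatives of the norm
  have hnorm : ‖cc • (-P z)‖ = cc * lf z := by
    rw [norm_smul, norm_neg, hnP, Real.norm_of_nonneg hcp.le]
  have hpN : ∀ m : Fin 3, pd m nW a = ∑ n, we i j k l m n * (-(P z n) / lf z) := by
    intro m
    rw [hNe, pd_Wp hd (sm_norm 1) han, hy]
    refine Finset.sum_congr rfl fun n _ => ?_
    rw [pd_norm hyn, hnorm]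
    have : (cc • (-P z)) n = cc * (-(P z n)) := by simp
    rw [this]
    field_simp
  have hnW : nW a = cc * lf z := by rw [← norm_Wp hd a, hy, hnorm]
  have hTa : T a = -(cc * (lf z - cc - G (P z))) := by
    have e1 : G (cc • (-P z)) = cc * G (-P z) := h.sb.hom cc hcp.le _
    have e2 := h.sb.wid (P z)
    rw [hnP] at e2
    rw [hTe, hy]
    simp only [sdy_S, e1, ha', pt0, pt1, pt2]
    have e3 : G (-P z) = lf z - G (P z) := by linarith
    rw [e3]
    nlinarith [hc2]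
  have w0 : ∀ n, we i j k l 0 n = pt 0 (-s) 0 n := fun n => by rw [← h0]; rfl
  have w1 : ∀ n, we i j k l 1 n = pt (-1 / 2) (-s / 2) (-cc) n := fun n => by rw [← h1]; rfl
  have w2 : ∀ n, we i j k l 2 n = pt (1 / 2) (-s / 2) (-cc) n := fun n => by rw [← h2]; rfl
  have p0 : P z 0 = cc * t := rfl
  have p1 : P z 1 = s * cc := rfl
  have hsy : pd 1 (pd 0 G) (P z) = pd 0 (pd 1 G) (P z) := pd_comm hG2 hPn 1 0
  have hs0 : pd 2 (pd 0 G) (P z) = pd 0 (pd 2 G) (P z) := pd_comm hG2 hPn 2 0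
  have hs1 : pd 2 (pd 1 G) (P z) = pd 1 (pd 2 G) (P z) := pd_comm hG2 hPn 2 1
  have q11 : (pd 1 (pd 1 (lT T)) a + pd 2 (pd 2 (lT T)) a - 2 * pd 1 (pd 2 (lT T)) a) =
      cc⁻¹ * pd 0 (pd 0 G) (P z) := by
    simp only [hpL, Fin.sum_univ_three, w1, w2, pt0, pt1, pt2, hsy, hs0, hs1]
    ring
  have q01 : pd 0 (pd 1 (lT T)) a - pd 0 (pd 2 (lT T)) a = s * (cc⁻¹ * pd 0 (pd 1 G) (P z)) := by
    simp only [hpL, Fin.sum_univ_three, w0, w1, w2, pt0, pt1, pt2, hsy, hs0, hs1]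
    ring
  have t0 : pd 0 T a = 1 / 2 + s * (pd 1 G (P z) - s * cc / lf z) := by
    rw [hpT]
    simp only [Fin.sum_univ_three, w0, pt0, pt1, pt2, p1]
    ring
  have t12 : pd 1 T a - pd 2 T a = pd 0 G (P z) - cc * t / lf z := by
    rw [hpT, hpT]
    simp only [Fin.sum_univ_three, w1, w2, pt0, pt1, pt2, p0]
    ring
  have n0 : pd 0 nW a = s * (s * cc / lf z) := by
    rw [hpN]
    simp only [Fin.sum_univ_three, w0, pt0, pt1, pt2, p1]
    ring
  have n12 : pd 1 nW a - pd 2 nW a = cc * t / lf z := by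
    rw [hpN, hpN]
    simp only [Fin.sum_univ_three, w1, w2, pt0, pt1, pt2, p0]
    ring
  have hfx : fx T 0 1 2 a = nW a * (pd 0 T a * ((cc⁻¹ * pd 0 (pd 0 G) (P z)) / 4) -
      (pd 0 G (P z) - cc * t / lf z) / 2 * ((s * (cc⁻¹ * pd 0 (pd 1 G) (P z))) / 2)) -
    T a * (pd 0 nW a * ((cc⁻¹ * pd 0 (pd 0 G) (P z)) / 4) -
      (cc * t / lf z) / 2 * ((s * (cc⁻¹ * pd 0 (pd 1 G) (P z))) / 2)) := by
    rw [fx, q11, q01, t12, n12]
  rw [hfx, hnW, hTa, t0, n0]
  have hA : (jA (sJ s) (jG G)).f z = lf z - cc - G (P z) := by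
    simp only [jA, Jsub, sJ, jG]
    have : s * z.2 = cc := by
      simp only [hz]
      rw [← mul_assoc, hs, one_mul]
    rw [this]
    ring
  have hAX : (jA (sJ s) (jG G)).fX z = cc * t / lf z - pd 0 G (P z) := rfl
  have hAY : (jA (sJ s) (jG G)).fY z = s * cc / lf z - s / 2 - pd 1 G (P z) := rfl
  have hfXX : (jf (sJ s) (jG G)).fXX z = - pd 0 (pd 0 G) (P z) := by
    simp only [jf, Jsub, sJ, jG]
    ring
  have hfXY : (jf (sJ s) (jG G)).fXY z = - pd 0 (pd 1 G) (P z) := by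
    simp only [jf, Jsub, sJ, jG]
    ring
  have hlf : lJ.f z = lf z := rfl
  have hlX : lJ.fX z = cc * t / lf z := rfl
  have hlY : lJ.fY z = s * cc / lf z := rfl
  rw [VY, hA, hAX, hAY, hfXX, hfXY, hlf, hlX, hlY]
  generalize pd 0 (pd 0 G) (P z) = GXX
  generalize pd 0 (pd 1 G) (P z) = GXY
  generalize pd 0 G (P z) = GX
  generalize pd 1 G (P z) = GY
  generalize G (P z) = g
  generalize lf z = L at *
  have hL : L ≠ 0 := hl.ne'
  have hs' : s ^ 2 = 1 := by rw [pow_two, hs]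
  field_simp
  ring_nf
  simp only [hs']
  ring

private theorem sdy_int (f : ℝ → ℝ) :
    ∫ X in (-cc)..cc, f X = cc * ∫ t in (-1 : ℝ)..1, f (cc * t) := by
  have h := intervalIntegral.smul_integral_comp_mul_left (a := -1) (b := 1) f cc
  rw [smul_eq_mul] at h
  rw [h]
  norm_num

private theorem sdy_four : cc * 4 = 2 * √2 := by
  unfold cc
  have : (√2 : ℝ) * √2 = 2 := Real.mul_self_sqrt (by norm_num)
  have h2 : (√2 : ℝ) ≠ 0 := by positivity
  field_simp
  nlinarith [this]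

private theorem sdy_pteq {a b c a' b' c' : ℝ} (h0 : a = a') (h1 : b = b') (h2 : c = c') : pt a b c = pt a' b' c' := by
  rw [h0, h1, h2]

private theorem sdy_ptsub (a b c a' b' c' : ℝ) : pt a b c - pt a' b' c' = pt (a - a') (b - b') (c - c') := by
  ext q
  fin_cases q <;> simp [pt]

theorem flux_Yp {G : E → ℝ} {R τ : ℝ} (h : FG G R τ) :
    ∫ X in (-cc)..cc, VY lJ (jA (sJ 1) (jG G)) (jf (sJ 1) (jG G)) (X, cc) =
      2 * √2 * sP0 (Tf G 3 2 0 1) := by
  rw [sdy_int]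
  have hd : Dis 3 2 0 1 := by decide
  have e : ∀ t : ℝ, VY lJ (jA (sJ 1) (jG G)) (jf (sJ 1) (jG G)) (cc * t, cc) =
      4 * fx (Tf G 3 2 0 1) 0 1 2 (pt 0 ((1 + t) / 2) ((1 - t) / 2)) := by
    intro t
    have := sdy_key h hd (s := 1) (by norm_num)
      (by
        change pt 0 (-1 / 2) (-cc / 2) - pt 0 (1 / 2) (-cc / 2) = _
        rw [sdy_ptsub]
        exact sdy_pteq (by ring) (by ring) (by ring))
      (by
        change pt 0 (-1 / 2) (-cc / 2) - pt (1 / 2) 0 (cc / 2) = _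
        rw [sdy_ptsub]
        exact sdy_pteq (by ring) (by ring) (by ring))
      (by
        change pt 0 (-1 / 2) (-cc / 2) - pt (-1 / 2) 0 (cc / 2) = _
        rw [sdy_ptsub]
        exact sdy_pteq (by ring) (by ring) (by ring)) t
    rw [one_mul, one_mul] at this
    exact this
  simp only [e]
  rw [intervalIntegral.integral_const_mul, ← mul_assoc, sdy_four, sP0]

theorem flux_Ym {G : E → ℝ} {R τ : ℝ} (h : FG G R τ) :
    -∫ X in (-cc)..cc, VY lJ (jA (sJ (-1)) (jG G)) (jf (sJ (-1)) (jG G)) (X, -cc) =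
      2 * √2 * sP0 (Tf G 2 3 0 1) := by
  rw [sdy_int]
  have hd : Dis 2 3 0 1 := by decide
  have e : ∀ t : ℝ, VY lJ (jA (sJ (-1)) (jG G)) (jf (sJ (-1)) (jG G)) (cc * t, -cc) =
      -(4 * fx (Tf G 2 3 0 1) 0 1 2 (pt 0 ((1 + t) / 2) ((1 - t) / 2))) := by
    intro t
    have := sdy_key h hd (s := -1) (by norm_num)
      (by
        change pt 0 (1 / 2) (-cc / 2) - pt 0 (-1 / 2) (-cc / 2) = _
        rw [sdy_ptsub]
        exact sdy_pteq (by ring) (by ring) (by ring))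
      (by
        change pt 0 (1 / 2) (-cc / 2) - pt (1 / 2) 0 (cc / 2) = _
        rw [sdy_ptsub]
        exact sdy_pteq (by ring) (by ring) (by ring))
      (by
        change pt 0 (1 / 2) (-cc / 2) - pt (-1 / 2) 0 (cc / 2) = _
        rw [sdy_ptsub]
        exact sdy_pteq (by ring) (by ring) (by ring)) t
    rw [neg_one_mul, neg_one_mul] at this
    linarith
  simp only [e]
  rw [intervalIntegral.integral_neg, intervalIntegral.integral_const_mul, mul_neg, neg_neg, ← mul_assoc, sdy_four, sP0]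

end Pool.Agent.MGF
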