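import Pool.Agent.MGF.Defs2
import Pool.Agent.MEIS.GRD
import Pool.Agent.MGE.VV
import Pool.Agent.MGE.JGD
import Pool.Agent.MGE.JHS
import Pool.Agent.MGF.WPF
import Pool.Agent.MGF.TRH
/-!
SQH (150 lines). The hypotheses of the square.
PROOF. good: jG_good; Hessians: hess_pos, hess_neg. slX: SB_support at x = P z with v = ±(1,0,0) = ±(vv 0 - vv 1): ±pd 0 G (P z) ≤ G (±..) = 1/2 (the τ term is ≥ 0 by
Cauchy-Schwarz). slY: lJ.fY z - pd 1 G (P z) = -pd 1 G (-P z) (pd_wid), then v = ±(0,1,0) = ±(vv 2 - vv 3). armX, X ≥ c: P (X,Y) = Wp 0 1 2 3 (X - c, c - Y, c + Y)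
(vv 0 - vv 2 = (1/2,-1/2,c), vv 0 - vv 3 = (1/2,1/2,c)) and Tf ≥ 0 (TrHyp.nonneg) with <P, vv 0> = X/2 + c/2. X ≤ -c: Wp 1 0 2 3 (-X - c, c - Y, c + Y). armY, Y ≥ c:
-P (X,Y) = Wp 3 2 0 1 (Y - c, c + X, c - X), lf - f = G (-P); Y ≤ -c: Wp 2 3 0 1 (-Y - c, c + X, c - X). cor: P (±c, ±c) = 2c (edge vector), G = 2c/2 = c
(2c = √2). ldX, ldY: Tf_le with m = c + |Y| (coefficients c - Y, c + Y ≤ c + |Y|), bv ≤ b.
-/
set_option autoImplicit false

open MeasureTheory Set Metric Pool.Agent.MEIS Pool.Agent.MSQ Pool.Agent.MGE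

namespace Pool.Agent.MGF


private theorem sqh_slope {G : E → ℝ} {R τ : ℝ} (h : FG G R τ) {x : E} (hx : x ≠ 0) (v : E) :
    v 0 * pd 0 G x + v 1 * pd 1 G x + v 2 * pd 2 G x ≤ G v := by
  have h1 := SB_support h.sb hx v
  rw [Fin.sum_univ_three] at h1
  have hxp : 0 < ‖x‖ := norm_pos_iff.mpr hx
  have h3 : inner ℝ x v / ‖x‖ ≤ ‖v‖ := by
    rw [div_le_iff₀ hxp, mul_comm]
    exact real_inner_le_norm x v
  have h4 : 0 ≤ τ * (‖v‖ - inner ℝ x v / ‖x‖) := mul_nonneg h.tau.le (by linarith)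
  linarith

private theorem sqh_v0 : vv 0 = pt (1 / 2) 0 (cc / 2) := rfl
private theorem sqh_v1 : vv 1 = pt (-1 / 2) 0 (cc / 2) := rfl
private theorem sqh_v2 : vv 2 = pt 0 (1 / 2) (-cc / 2) := rfl
private theorem sqh_v3 : vv 3 = pt 0 (-1 / 2) (-cc / 2) := rfl

private theorem sqh_comb (a b c : E) (t u v : ℝ) (i : Fin 3) :
    (t • a + u • b + v • c) i = t * a i + u * b i + v * c i := rfl

private theorem sqh_sub (a b : E) (i : Fin 3) : (a - b) i = a i - b i := rfl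

private theorem sqh_ext {x y : E} (h0 : x 0 = y 0) (h1 : x 1 = y 1) (h2 : x 2 = y 2) : x = y := by
  ext i
  fin_cases i
  · exact h0
  · exact h1
  · exact h2

private theorem sqh_W1 (X Y : ℝ) : Wp 0 1 2 3 (pt (X - cc) (cc - Y) (cc + Y)) = P (X, Y) := by
  have hc := cc_sq
  unfold Wp
  apply sqh_ext
  · rw [sqh_comb, sqh_sub, sqh_sub, sqh_sub, sqh_v0, sqh_v1, sqh_v2, sqh_v3]
    simp only [pt0, pt1, pt2, MGE.P]
    ring
  · rw [sqh_comb, sqh_sub, sqh_sub, sqh_sub, sqh_v0, sqh_v1, sqh_v2, sqh_v3]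
    simp only [pt0, pt1, pt2, MGE.P]
    ring
  · rw [sqh_comb, sqh_sub, sqh_sub, sqh_sub, sqh_v0, sqh_v1, sqh_v2, sqh_v3]
    simp only [pt0, pt1, pt2, MGE.P]
    linear_combination 2 * hc

private theorem sqh_W2 (X Y : ℝ) : Wp 1 0 2 3 (pt (-X - cc) (cc - Y) (cc + Y)) = P (X, Y) := by
  have hc := cc_sq
  unfold Wp
  apply sqh_ext
  · rw [sqh_comb, sqh_sub, sqh_sub, sqh_sub, sqh_v0, sqh_v1, sqh_v2, sqh_v3]
    simp only [pt0, pt1, pt2, MGE.P]
    ring
  · rw [sqh_comb, sqh_sub, sqh_sub, sqh_sub, sqh_v0, sqh_v1, sqh_v2, sqh_v3]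
    simp only [pt0, pt1, pt2, MGE.P]
    ring
  · rw [sqh_comb, sqh_sub, sqh_sub, sqh_sub, sqh_v0, sqh_v1, sqh_v2, sqh_v3]
    simp only [pt0, pt1, pt2, MGE.P]
    linear_combination 2 * hc

private theorem sqh_W3 (X Y : ℝ) : Wp 3 2 0 1 (pt (Y - cc) (cc + X) (cc - X)) = -P (X, Y) := by
  have hc := cc_sq
  unfold Wp MGE.P
  rw [neg_pt]
  apply sqh_ext
  · rw [sqh_comb, sqh_sub, sqh_sub, sqh_sub, sqh_v0, sqh_v1, sqh_v2, sqh_v3]
    simp only [pt0, pt1, pt2]
    ring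
  · rw [sqh_comb, sqh_sub, sqh_sub, sqh_sub, sqh_v0, sqh_v1, sqh_v2, sqh_v3]
    simp only [pt0, pt1, pt2]
    ring
  · rw [sqh_comb, sqh_sub, sqh_sub, sqh_sub, sqh_v0, sqh_v1, sqh_v2, sqh_v3]
    simp only [pt0, pt1, pt2]
    linear_combination (-2) * hc

private theorem sqh_W4 (X Y : ℝ) : Wp 2 3 0 1 (pt (-Y - cc) (cc + X) (cc - X)) = -P (X, Y) := by
  have hc := cc_sq
  unfold Wp MGE.P
  rw [neg_pt]
  apply sqh_ext
  · rw [sqh_comb, sqh_sub, sqh_sub, sqh_sub, sqh_v0, sqh_v1, sqh_v2, sqh_v3]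
    simp only [pt0, pt1, pt2]
    ring
  · rw [sqh_comb, sqh_sub, sqh_sub, sqh_sub, sqh_v0, sqh_v1, sqh_v2, sqh_v3]
    simp only [pt0, pt1, pt2]
    ring
  · rw [sqh_comb, sqh_sub, sqh_sub, sqh_sub, sqh_v0, sqh_v1, sqh_v2, sqh_v3]
    simp only [pt0, pt1, pt2]
    linear_combination (-2) * hc

/-- one side: value through the defect, for a point `Q` written in barycentric coordinates -/
private theorem sqh_val {G : E → ℝ} {i j k l : Fin 4} (hd : Dis i j k l) {x y z : ℝ} {Q : E}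
    (hQ : Wp i j k l (pt x y z) = Q) : G Q = (x + y + z) / 2 - Tf G i j k l (pt x y z) := by
  rw [Tf_eq hd, hQ]
  simp only [pt0, pt1, pt2]
  ring

private theorem sqh_cor {G : E → ℝ} {R τ : ℝ} (h : FG G R τ) {i j k l : Fin 4} (hd : Dis i j k l)
    {y z : ℝ} (hyz : (y = 0 ∧ z = 2 * cc) ∨ (y = 2 * cc ∧ z = 0)) : Tf G i j k l (pt 0 y z) = 0 := by
  have hT := trHyp h hd
  have hc := cc_pos
  rcases hyz with ⟨rfl, rfl⟩ | ⟨rfl, rfl⟩
  · have e : pt 0 0 (2 * cc) = (2 * cc) • pt 0 0 1 := by rw [smul_pt]; simp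
    have hne : pt 0 0 1 ≠ 0 := by
      intro h0
      have h2 : (pt 0 0 1) 2 = (0 : E) 2 := by rw [h0]
      rw [pt2] at h2
      simp at h2
    rw [e, hT.hom (2 * cc) (by positivity) _ hne, hT.v2, mul_zero]
  · have e : pt 0 (2 * cc) 0 = (2 * cc) • pt 0 1 0 := by rw [smul_pt]; simp
    have hne : pt 0 1 0 ≠ 0 := by
      intro h0
      have h2 : (pt 0 1 0) 1 = (0 : E) 1 := by rw [h0]
      rw [pt1] at h2
      simp at h2
    rw [e, hT.hom (2 * cc) (by positivity) _ hne, hT.v1, mul_zero]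

private theorem sqh_nn {G : E → ℝ} {R τ : ℝ} (h : FG G R τ) {i j k l : Fin 4} (hd : Dis i j k l)
    {x y z : ℝ} (hx : 0 ≤ x) (hy : 0 ≤ y) (hz : 0 ≤ z) : 0 ≤ Tf G i j k l (pt x y z) :=
  (trHyp h hd).nonneg _ (by rw [pt0]; exact hx) (by rw [pt1]; exact hy) (by rw [pt2]; exact hz)

private theorem sqh_le {G : E → ℝ} {R τ : ℝ} (h : FG G R τ) {b : ℝ} (hb : ∀ i, bv G i ≤ b)
    {i j k l : Fin 4} (hd : Dis i j k l) {y z m : ℝ} (hy : 0 ≤ y) (hz : 0 ≤ z) (hym : y ≤ m)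
    (hzm : z ≤ m) : Tf G i j k l (pt 0 y z) ≤ b * m := by
  have hm : 0 ≤ m := hy.trans hym
  have h1 := Tf_le h hd (a := pt 0 y z) (m := m) (by rw [pt0]) (by rw [pt1]; exact hy)
    (by rw [pt2]; exact hz) (by rw [pt0]; exact hm) (by rw [pt1]; exact hym) (by rw [pt2]; exact hzm)
  have h2 := mul_le_mul_of_nonneg_left (hb i) hm
  linarith [mul_comm b m]

private theorem sqh_d1 : Dis 0 1 2 3 := by decide
private theorem sqh_d2 : Dis 1 0 2 3 := by decide
private theorem sqh_d3 : Dis 3 2 0 1 := by decide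
private theorem sqh_d4 : Dis 2 3 0 1 := by decide

private theorem sqh_wid {G : E → ℝ} {R τ : ℝ} (h : FG G R τ) (X Y : ℝ) :
    lf (X, Y) - G (P (X, Y)) = G (-P (X, Y)) := by
  have := h.sb.wid (P (X, Y))
  rw [norm_P] at this
  linarith

theorem sqHyp {G : E → ℝ} {R τ : ℝ} (h : FG G R τ) {b : ℝ} (hb0 : 0 ≤ b) (hb : ∀ i, bv G i ≤ b) :
    SqHyp (jG G) b := by
  have hτ := h.tau.le
  have hc := cc_pos
  have f01 : G (vv 0 - vv 1) = 1 / 2 := h.fr 0 1 (by decide)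
  have f10 : G (vv 1 - vv 0) = 1 / 2 := h.fr 1 0 (by decide)
  have f23 : G (vv 2 - vv 3) = 1 / 2 := h.fr 2 3 (by decide)
  have f32 : G (vv 3 - vv 2) = 1 / 2 := h.fr 3 2 (by decide)
  refine
    { good := jG_good h.sb.sm
      b0 := hb0
      hXX := fun z => (hess_pos h.sb hτ z).1
      hYY := fun z => (hess_pos h.sb hτ z).2.1
      hdet := fun z => (hess_pos h.sb hτ z).2.2
      lXX := fun z => (hess_neg h.sb hτ z).1
      lYY := fun z => (hess_neg h.sb hτ z).2.1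
      ldet := fun z => (hess_neg h.sb hτ z).2.2
      slX := ?_
      slY := ?_
      armX := ?_
      armY := ?_
      cor := ?_
      ldX := ?_
      ldY := ?_ }
  · intro z
    have h1 := sqh_slope h (P_ne z) (vv 0 - vv 1)
    have h2 := sqh_slope h (P_ne z) (vv 1 - vv 0)
    rw [sqh_sub, sqh_sub, sqh_sub, f01, sqh_v0, sqh_v1] at h1
    rw [sqh_sub, sqh_sub, sqh_sub, f10, sqh_v0, sqh_v1] at h2
    simp only [pt0, pt1, pt2] at h1 h2
    show |pd 0 G (P z)| ≤ 1 / 2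
    rw [abs_le]
    constructor <;> linarith
  · intro z
    have hn : -P z ≠ 0 := neg_ne_zero.2 (P_ne z)
    have h1 := sqh_slope h hn (vv 2 - vv 3)
    have h2 := sqh_slope h hn (vv 3 - vv 2)
    rw [sqh_sub, sqh_sub, sqh_sub, f23, sqh_v2, sqh_v3] at h1
    rw [sqh_sub, sqh_sub, sqh_sub, f32, sqh_v2, sqh_v3] at h2
    simp only [pt0, pt1, pt2] at h1 h2
    have h3 := pd_wid h.sb (P_ne z) 1
    rw [norm_P] at h3
    have h4 : (P z) 1 = z.2 := pt1 _ _ _
    rw [h4] at h3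
    show |z.2 / lf z - pd 1 G (P z)| ≤ 1 / 2
    rw [abs_le]
    constructor <;> linarith
  · intro X Y hX hY
    obtain ⟨y1, y2⟩ := abs_le.1 hY
    show G (P (X, Y)) ≤ _
    rcases le_total 0 X with hX0 | hX0
    · rw [abs_of_nonneg hX0] at hX ⊢
      rw [sqh_val (G := G) sqh_d1 (sqh_W1 X Y)]
      have := sqh_nn h sqh_d1 (x := X - cc) (y := cc - Y) (z := cc + Y) (by linarith) (by linarith) (by linarith)
      linarith
    · rw [abs_of_nonpos hX0] at hX ⊢
      rw [sqh_val (G := G) sqh_d2 (sqh_W2 X Y)]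
      have := sqh_nn h sqh_d2 (x := -X - cc) (y := cc - Y) (z := cc + Y) (by linarith) (by linarith) (by linarith)
      linarith
  · intro X Y hX hY
    obtain ⟨x1, x2⟩ := abs_le.1 hX
    show lf (X, Y) - G (P (X, Y)) ≤ _
    rw [sqh_wid h]
    rcases le_total 0 Y with hY0 | hY0
    · rw [abs_of_nonneg hY0] at hY ⊢
      rw [sqh_val (G := G) sqh_d3 (sqh_W3 X Y)]
      have := sqh_nn h sqh_d3 (x := Y - cc) (y := cc + X) (z := cc - X) (by linarith) (by linarith) (by linarith)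
      linarith
    · rw [abs_of_nonpos hY0] at hY ⊢
      rw [sqh_val (G := G) sqh_d4 (sqh_W4 X Y)]
      have := sqh_nn h sqh_d4 (x := -Y - cc) (y := cc + X) (z := cc - X) (by linarith) (by linarith) (by linarith)
      linarith
  · intro X Y hX hY
    show G (P (X, Y)) = cc
    have hY' : Y = cc ∨ Y = -cc := by
      rcases le_total 0 Y with hY0 | hY0
      · left; rwa [abs_of_nonneg hY0] at hY
      · right; rw [abs_of_nonpos hY0] at hY; linarith
    have hyz : (cc - Y = 0 ∧ cc + Y = 2 * cc) ∨ (cc - Y = 2 * cc ∧ cc + Y = 0) := by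
      rcases hY' with rfl | rfl
      · left; constructor <;> ring
      · right; constructor <;> ring
    rcases le_total 0 X with hX0 | hX0
    · rw [abs_of_nonneg hX0] at hX
      rw [sqh_val (G := G) sqh_d1 (sqh_W1 X Y), hX, sub_self, sqh_cor h sqh_d1 hyz]
      ring
    · rw [abs_of_nonpos hX0] at hX
      rw [sqh_val (G := G) sqh_d2 (sqh_W2 X Y), hX, sub_self, sqh_cor h sqh_d2 hyz]
      ring
  · intro X Y hX hY
    obtain ⟨y1, y2⟩ := abs_le.1 hY
    have ya := le_abs_self Y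
    have yb := neg_le_abs Y
    show cc - G (P (X, Y)) ≤ _
    rcases le_total 0 X with hX0 | hX0
    · rw [abs_of_nonneg hX0] at hX
      rw [sqh_val (G := G) sqh_d1 (sqh_W1 X Y), hX, sub_self]
      have := sqh_le h hb sqh_d1 (y := cc - Y) (z := cc + Y) (m := cc + |Y|) (by linarith) (by linarith) (by linarith)
        (by linarith)
      linarith
    · rw [abs_of_nonpos hX0] at hX
      rw [sqh_val (G := G) sqh_d2 (sqh_W2 X Y), hX, sub_self]
      have := sqh_le h hb sqh_d2 (y := cc - Y) (z := cc + Y) (m := cc + |Y|) (by linarith) (by linarith) (by linarith)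
        (by linarith)
      linarith
  · intro X Y hX hY
    obtain ⟨x1, x2⟩ := abs_le.1 hX
    have xa := le_abs_self X
    have xb := neg_le_abs X
    show cc - (lf (X, Y) - G (P (X, Y))) ≤ _
    rw [sqh_wid h]
    rcases le_total 0 Y with hY0 | hY0
    · rw [abs_of_nonneg hY0] at hY
      rw [sqh_val (G := G) sqh_d3 (sqh_W3 X Y), hY, sub_self]
      have := sqh_le h hb sqh_d3 (y := cc + X) (z := cc - X) (m := cc + |X|) (by linarith) (by linarith) (by linarith)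
        (by linarith)
      linarith
    · rw [abs_of_nonpos hY0] at hY
      rw [sqh_val (G := G) sqh_d4 (sqh_W4 X Y), hY, sub_self]
      have := sqh_le h hb sqh_d4 (y := cc + X) (z := cc - X) (m := cc + |X|) (by linarith) (by linarith) (by linarith)
        (by linarith)
      linarith

end Pool.Agent.MGF
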