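import Pool.Agent.MGF.Defs2
import Pool.Agent.MSQ.JGood
import Pool.Agent.MGE.VV
import Pool.Agent.MGE.JGD
import Pool.Agent.MGE.INV
import Pool.Agent.MGE.EDN
import Pool.Agent.MGE.PTI
import Pool.Agent.MGF.WPF
import Pool.Agent.MGF.TRH
import Pool.Agent.MGF.SYM
import Pool.Agent.MGF.ISM
import Pool.Agent.MGF.FRG
import Pool.Agent.MGF.SQH
import Pool.Agent.MGF.SDF
import Pool.Agent.MGF.SDX
import Pool.Agent.MGF.SDY
import Pool.Agent.MGF.IQ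
/-!
CLQ (130 lines). The inequality of one square.
PROOF. Case 1/2 ≤ G (P (0,0)): Cell.sq for jG G (sqHyp), side_Xp .. side_Ym (c.sym), id_sq (jG_good), flux_Xp .. flux_Ym: EE = Es - JM/2 - (2√2/2)(sum of sP0) ≤ Es + (sum of sF0)/2 + KS/2 - √2 (sum of sP0).
Otherwise let ψ = swE (exists_swE), G' = G ∘ ψ (FG_comp with σ = ![3,2,1,0]): G' (P 0) = G (-P 0) = 1 - G (P 0) ≥ 1/2 (‖P 0‖ = 1), and EE (jG G') = EE (jG G): both are ∫∫ over the square of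
ed/lf³ (dn_eq, integrand of EE is dn), ed G' (P (X,Y)) = ed G (ψ (P (X,Y))) = ed G (-P (Y,X)) = ed G (P (Y,X)) (ed_comp, ed_even) and lf symmetric; swap the order of integration. The sides of G':
Tf_comp gives Tf G 3 2 1 0, Tf G 2 3 1 0, Tf G 0 1 3 2, Tf G 1 0 3 2, which by sF0_sw, sP0_sw are the same four sides.
-/
set_option autoImplicit false

open MeasureTheory Set Metric Pool.Agent.MEIS Pool.Agent.MSQ Pool.Agent.MGE

namespace Pool.Agent.MGF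

private theorem clq_main {F : ℝ → ℝ → ℝ → ℝ → ℝ} {KN Kp KS be bb : ℝ} (c : Cell F KN Kp KS be bb)
    {G : E → ℝ} {R τ : ℝ} (h : FG G R τ) (hb : ∀ i, bv G i ≤ bb) (hP : 1 / 2 ≤ G (P (0, 0))) :
    EE (jG G) ≤ Es + (sF0 F (Tf G 0 1 2 3) + sF0 F (Tf G 1 0 2 3) + sF0 F (Tf G 3 2 0 1) +
        sF0 F (Tf G 2 3 0 1)) / 2 + KS / 2 -
      √2 * (sP0 (Tf G 0 1 2 3) + sP0 (Tf G 1 0 2 3) + sP0 (Tf G 3 2 0 1) + sP0 (Tf G 2 3 0 1)) := by
  have hb0 : 0 ≤ bb := (bv_nonneg h 0).trans (hb 0)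
  have h1 := c.sq (jG G) (sqHyp h hb0 hb) hP
  rw [side_Xp h c.sym, side_Xm h c.sym, side_Yp h c.sym, side_Ym h c.sym] at h1
  have h2 := id_sq (jG_good h.sb.sm)
  have f1 := flux_Xp h
  have f2 := flux_Xm h
  have f3 := flux_Yp h
  have f4 := flux_Ym h
  linarith

private theorem clq_cont {G : E → ℝ} {R τ : ℝ} (h : SB G R τ) :
    Continuous (fun z : ℝ × ℝ => ed G (P z) / lf z ^ 3) := by
  have h0 : ContinuousOn (ed G) ({0}ᶜ : Set E) := ContDiffOn.continuousOn (ed_sm h)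
  have h1 : Continuous (fun z : ℝ × ℝ => ed G (P z)) :=
    ContinuousOn.comp_continuous (g := ed G) (f := P) h0 continuous_P (fun z => P_ne z)
  have h2 : Continuous (fun z : ℝ × ℝ => lf z ^ 3) := by
    unfold lf
    fun_prop
  exact h1.div h2 fun z => (pow_pos (lf_pos z) 3).ne'

private theorem clq_EE {G : E → ℝ} {R τ : ℝ} (h : SB G R τ) :
    EE (jG G) = ∫ X in (-cc)..cc, ∫ Y in (-cc)..cc, ed G (P (X, Y)) / lf (X, Y) ^ 3 := by
  have e : EE (jG G) = ∫ X in (-cc)..cc, ∫ Y in (-cc)..cc, dn (jG G) (X, Y) := rfl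
  rw [e]
  simp only [dn_eq h]

private theorem clq_swap {G : E → ℝ} {R τ : ℝ} (h : SB G R τ) {ψ : E ≃ₗᵢ[ℝ] E}
    (hψ : ∀ x, ψ x = swE x) : EE (jG fun x => G (ψ x)) = EE (jG G) := by
  rw [clq_EE (SB_comp h ψ), clq_EE h]
  have e : ∀ X Y : ℝ, ed (fun x => G (ψ x)) (P (X, Y)) / lf (X, Y) ^ 3 =
      ed G (P (Y, X)) / lf (Y, X) ^ 3 := by
    intro X Y
    have e1 : ψ (P (X, Y)) = -P (Y, X) := by
      rw [hψ, swE, MGE.P, MGE.P, neg_pt]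
      rfl
    have e2 : lf (X, Y) = lf (Y, X) := by
      unfold lf
      congr 1
      ring
    rw [ed_comp h ψ (P_ne _), e1, ed_even h, e2]
  simp only [e]
  refine (intervalIntegral_intervalIntegral_swap ?_).symm
  have hc : Continuous (Function.uncurry fun X Y : ℝ => ed G (P (X, Y)) / lf (X, Y) ^ 3) := clq_cont h
  exact (hc.continuousOn.integrableOn_compact (isCompact_uIcc.prod isCompact_uIcc)).mono_set
    (Set.prod_mono Set.uIoc_subset_uIcc Set.uIoc_subset_uIcc)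

theorem cell_sq {F : ℝ → ℝ → ℝ → ℝ → ℝ} {KN Kp KS be bb : ℝ} (c : Cell F KN Kp KS be bb)
    {G : E → ℝ} {R τ : ℝ} (h : FG G R τ) (hb : ∀ i, bv G i ≤ bb) :
    EE (jG G) ≤ Es + (sF0 F (Tf G 0 1 2 3) + sF0 F (Tf G 1 0 2 3) + sF0 F (Tf G 3 2 0 1) +
        sF0 F (Tf G 2 3 0 1)) / 2 + KS / 2 -
      √2 * (sP0 (Tf G 0 1 2 3) + sP0 (Tf G 1 0 2 3) + sP0 (Tf G 3 2 0 1) + sP0 (Tf G 2 3 0 1)) := by
  rcases le_or_gt (1 / 2) (G (P (0, 0))) with hP | hP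
  · exact clq_main c h hb hP
  · obtain ⟨ψ, hψ, hv⟩ := exists_swE
    have h' : FG (fun x => G (ψ x)) R τ := FG_comp h ψ _ hv
    have hb' : ∀ i, bv (fun x => G (ψ x)) i ≤ bb := by
      intro i
      rw [bv_comp G ψ _ hv]
      exact hb _
    have hP' : 1 / 2 ≤ (fun x => G (ψ x)) (P (0, 0)) := by
      have e1 : ψ (P (0, 0)) = -P (0, 0) := by
        rw [hψ, swE, MGE.P, neg_pt]
        rfl
      have e2 := h.sb.wid (P (0, 0))
      have e3 : ‖P ((0 : ℝ), (0 : ℝ))‖ = 1 := by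
        rw [norm_P, lf]
        norm_num
      show 1 / 2 ≤ G (ψ (P (0, 0)))
      rw [e1]
      linarith
    have h1 := clq_main c h' hb' hP'
    rw [clq_swap h.sb hψ, Tf_comp G ψ _ hv, Tf_comp G ψ _ hv, Tf_comp G ψ _ hv, Tf_comp G ψ _ hv] at h1
    have t1 : Tf G (![3, 2, 1, 0] 0) (![3, 2, 1, 0] 1) (![3, 2, 1, 0] 2) (![3, 2, 1, 0] 3) =
      Tf G 3 2 1 0 := rfl
    have t2 : Tf G (![3, 2, 1, 0] 1) (![3, 2, 1, 0] 0) (![3, 2, 1, 0] 2) (![3, 2, 1, 0] 3) =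
      Tf G 2 3 1 0 := rfl
    have t3 : Tf G (![3, 2, 1, 0] 3) (![3, 2, 1, 0] 2) (![3, 2, 1, 0] 0) (![3, 2, 1, 0] 1) =
      Tf G 0 1 3 2 := rfl
    have t4 : Tf G (![3, 2, 1, 0] 2) (![3, 2, 1, 0] 3) (![3, 2, 1, 0] 0) (![3, 2, 1, 0] 1) =
      Tf G 1 0 3 2 := rfl
    rw [t1, t2, t3, t4, sF0_sw c.sym G 3 2 1 0, sF0_sw c.sym G 2 3 1 0, sF0_sw c.sym G 0 1 3 2,
      sF0_sw c.sym G 1 0 3 2, sP0_sw h.sb.sm (by decide : Dis 3 2 1 0),
      sP0_sw h.sb.sm (by decide : Dis 2 3 1 0), sP0_sw h.sb.sm (by decide : Dis 0 1 3 2),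
      sP0_sw h.sb.sm (by decide : Dis 1 0 3 2)] at h1
    linarith

end Pool.Agent.MGF
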