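import Pool.Agent.MGF.Defs2
import Pool.Agent.MGE.TRI
import Pool.Agent.MGE.VV
import Pool.Agent.MGF.WPF
/-!
CHN (160 lines). Chart integral over the triangle cone.
PROOF. Change variables x = Wp 0 1 2 3 a, linear with |det| = 1/√2 (matrix of the vectors (1,0,0), (1/2,-1/2,c), (1/2,1/2,c)): lintegral over NC ∩ ball of F = ofReal (1/√2) ∫⁻ over {a ≥ 0, nW a < 1} of
F (Wp a) (MeasureTheory.Measure.lintegral / addHaar change of variables: lintegral_image_eq_lintegral_abs_det_fderiv_mul for the injective linear map). lint_triple for a, coordinates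
(a0, a1, a2). For fixed a0, a1 translate a2 = s - a0 - a1 (measure preserving), order of integration s outer (Tonelli), then a0 = s x, a1 = s y with factor s² for s > 0 (as in
MGE.CHI): a = s • bp x y, x, y ≥ 0, x + y ≤ 1, nW a = s nW (bp x y), F (Wp a) = F (Wp (bp x y)). ∫⁻ s in (0, 1/nW), s² = ofReal (1/(3 nW³)).
-/
set_option autoImplicit false

open MeasureTheory Set Metric Pool.Agent.MEIS Pool.Agent.MSQ Pool.Agent.MGE

namespace Pool.Agent.MGF

private theorem CHN_scale {g : ℝ → ENNReal} (hg : Measurable g) {c : ℝ} (hc : 0 < c) :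
    ∫⁻ a : ℝ, g a = ENNReal.ofReal c * ∫⁻ x : ℝ, g (c * x) := by
  have h1 : ∫⁻ x : ℝ, g (c * x) = ENNReal.ofReal |c⁻¹| * ∫⁻ a : ℝ, g a := by
    rw [← lintegral_map hg (measurable_const_mul c), Real.map_volume_mul_left hc.ne',
      lintegral_smul_measure, smul_eq_mul]
  rw [h1, ← mul_assoc, ← ENNReal.ofReal_mul hc.le, abs_of_pos (inv_pos.2 hc),
    mul_inv_cancel₀ hc.ne', ENNReal.ofReal_one, one_mul]

private theorem CHN_pt : Measurable fun p : ℝ × ℝ × ℝ => pt p.1 p.2.1 p.2.2 := by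
  unfold pt
  refine ((PiLp.continuous_toLp 2 _).comp (continuous_pi fun i => ?_)).measurable
  fin_cases i
  · exact continuous_fst
  · exact continuous_fst.comp continuous_snd
  · exact continuous_snd.comp continuous_snd

private theorem CHN_coord (i : Fin 3) : Measurable fun x : E => x i :=
  (PiLp.continuous_apply 2 (fun _ : Fin 3 => ℝ) i).measurable

private def CHN_C (l : ℝ) : Set ℝ := {c : ℝ | 0 < c ∧ c * l < 1}

private theorem CHN_C_meas (l : ℝ) : MeasurableSet (CHN_C l) := by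
  have h1 : MeasurableSet {c : ℝ | 0 < c} := measurableSet_Ioi
  have h2 : MeasurableSet {c : ℝ | c * l < 1} := measurableSet_lt (measurable_id.mul_const _) measurable_const
  exact h1.inter h2

private theorem CHN_int {l : ℝ} (hl : 0 < l) :
    ∫⁻ c in CHN_C l, ENNReal.ofReal (c ^ 2) = ENNReal.ofReal (1 / (3 * l ^ 3)) := by
  have hs : CHN_C l = Ioo 0 (1 / l) := by
    ext c
    change (0 < c ∧ c * l < 1) ↔ (0 < c ∧ c < 1 / l)
    rw [lt_div_iff₀ hl]
  have h0 : (0 : ℝ) ≤ 1 / l := by positivity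
  rw [hs, ← ofReal_integral_eq_lintegral_ofReal, ← integral_Ioc_eq_integral_Ioo,
    ← intervalIntegral.integral_of_le h0, integral_pow]
  · congr 1
    have h3 : l ≠ 0 := hl.ne'
    rw [div_pow, one_pow]
    norm_num
    ring
  · exact ((continuous_pow 2).integrableOn_Icc (a := (0 : ℝ)) (b := 1 / l)).mono_set Ioo_subset_Icc_self
  · exact Filter.Eventually.of_forall fun c => sq_nonneg c

private theorem CHN_gen {G : E → ENNReal} (hG : Measurable G) {c : ℝ} (hc : 0 < c) :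
    (∫⁻ a : ℝ, ∫⁻ b : ℝ, G (pt a b c)) = ∫⁻ z : ℝ × ℝ, ENNReal.ofReal (c ^ 2) * G (c • MGE.P z) := by
  have hp : Measurable fun p : ℝ × ℝ => pt p.1 p.2 c :=
    CHN_pt.comp (measurable_fst.prodMk (measurable_snd.prodMk measurable_const))
  have hm : Measurable fun p : ℝ × ℝ => G (pt p.1 p.2 c) := hG.comp hp
  have hm1 : ∀ a : ℝ, Measurable fun b : ℝ => G (pt a b c) := by
    intro a
    have h7 : Measurable fun b : ℝ => ((a, b) : ℝ × ℝ) := measurable_const.prodMk measurable_id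
    exact hm.comp h7
  have s1 : ∀ a : ℝ, (∫⁻ b : ℝ, G (pt a b c)) =
      ENNReal.ofReal c * ∫⁻ Y : ℝ, G (pt a (c * Y) c) := by
    intro a
    exact CHN_scale (g := fun b => G (pt a b c)) (hm1 a) hc
  have hm2 : Measurable fun p : ℝ × ℝ => G (pt p.1 (c * p.2) c) := by
    have h7 : Measurable fun p : ℝ × ℝ => ((p.1, c * p.2) : ℝ × ℝ) :=
      measurable_fst.prodMk (measurable_snd.const_mul c)
    exact hm.comp h7
  have hm4 : Measurable fun a : ℝ => ∫⁻ Y : ℝ, G (pt a (c * Y) c) := hm2.lintegral_prod_right'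
  have s2 : (∫⁻ a : ℝ, ∫⁻ b : ℝ, G (pt a b c)) =
      ENNReal.ofReal c * (ENNReal.ofReal c * ∫⁻ X : ℝ, ∫⁻ Y : ℝ, G (pt (c * X) (c * Y) c)) := by
    simp only [s1]
    rw [lintegral_const_mul _ hm4, CHN_scale hm4 hc]
  have hm3 : Measurable fun p : ℝ × ℝ => G (pt (c * p.1) (c * p.2) c) := by
    have h7 : Measurable fun p : ℝ × ℝ => ((c * p.1, p.2) : ℝ × ℝ) :=
      (measurable_fst.const_mul c).prodMk measurable_snd
    exact hm2.comp h7
  have s3 : (∫⁻ X : ℝ, ∫⁻ Y : ℝ, G (pt (c * X) (c * Y) c)) =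
      ∫⁻ z : ℝ × ℝ, G (pt (c * z.1) (c * z.2) c) := by
    rw [Measure.volume_eq_prod, lintegral_prod _ hm3.aemeasurable]
  rw [s2, s3, ← mul_assoc, ← ENNReal.ofReal_mul hc.le, ← lintegral_const_mul _ hm3]
  refine lintegral_congr fun z => ?_
  have hz : pt (c * z.1) (c * z.2) c = c • MGE.P z := by
    rw [MGE.P, smul_pt, mul_one]
  rw [hz, sq]

/-! the linear map -/

private noncomputable def CHN_M : Matrix (Fin 3) (Fin 3) ℝ :=
  !![1 / 2, 0, 1 / 2; -1 / 2, -1, 1 / 2; -cc, 0, cc]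

private noncomputable def CHN_L : E →ₗ[ℝ] E := Matrix.toEuclideanLin CHN_M

private theorem CHN_det : LinearMap.det CHN_L = -cc := by
  rw [CHN_L, Matrix.toEuclideanLin_eq_toLin, LinearMap.det_toLin, CHN_M, Matrix.det_fin_three]
  simp
  ring

private theorem CHN_L0 (y : E) : CHN_L y 0 = y 0 / 2 + y 2 / 2 := by
  simp [CHN_L, CHN_M, Matrix.toEuclideanLin_apply, dotProduct, Fin.sum_univ_three]
  ring

private theorem CHN_L1 (y : E) : CHN_L y 1 = -(y 0 / 2) - y 1 + y 2 / 2 := by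
  simp [CHN_L, CHN_M, Matrix.toEuclideanLin_apply, dotProduct, Fin.sum_univ_three]
  ring

private theorem CHN_L2 (y : E) : CHN_L y 2 = cc * (y 2 - y 0) := by
  simp [CHN_L, CHN_M, Matrix.toEuclideanLin_apply, dotProduct, Fin.sum_univ_three]
  ring

private theorem CHN_W0 (a : E) : Wp 0 1 2 3 a 0 = a 0 + a 1 / 2 + a 2 / 2 := by
  simp [Wp, vv, pt]
  ring

private theorem CHN_W1 (a : E) : Wp 0 1 2 3 a 1 = (a 2 - a 1) / 2 := by
  simp [Wp, vv, pt]
  ring

private theorem CHN_W2 (a : E) : Wp 0 1 2 3 a 2 = cc * (a 1 + a 2) := by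
  simp [Wp, vv, pt]
  ring

private theorem CHN_P (z : ℝ × ℝ) : CHN_L (MGE.P z) = Wp 0 1 2 3 (bp z.1 z.2) := by
  ext i
  fin_cases i
  · change CHN_L (MGE.P z) 0 = Wp 0 1 2 3 (bp z.1 z.2) 0
    rw [CHN_L0, CHN_W0, MGE.P, bp, pt0, pt2, pt0, pt1, pt2]
    ring
  · change CHN_L (MGE.P z) 1 = Wp 0 1 2 3 (bp z.1 z.2) 1
    rw [CHN_L1, CHN_W1, MGE.P, bp, pt0, pt1, pt2, pt1, pt2]
    ring
  · change CHN_L (MGE.P z) 2 = Wp 0 1 2 3 (bp z.1 z.2) 2
    rw [CHN_L2, CHN_W2, MGE.P, bp, pt0, pt2, pt1, pt2]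
    ring

private theorem CHN_cont : Continuous CHN_L := LinearMap.continuous_of_finiteDimensional CHN_L

private theorem CHN_change {G : E → ENNReal} (hG : Measurable G) :
    ∫⁻ x : E, G x = ENNReal.ofReal cc * ∫⁻ y : E, G (CHN_L y) := by
  have hc := cc_pos
  have hd : LinearMap.det CHN_L ≠ 0 := by
    rw [CHN_det]
    exact neg_ne_zero.2 hc.ne'
  have h1 := Measure.map_linearMap_addHaar_eq_smul_addHaar (μ := (volume : Measure E)) hd
  have h2 : ∫⁻ y : E, G (CHN_L y) = ∫⁻ x : E, G x ∂(Measure.map CHN_L volume) :=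
    (lintegral_map hG CHN_cont.measurable).symm
  rw [h2, h1, lintegral_smul_measure, smul_eq_mul, ← mul_assoc, ← ENNReal.ofReal_mul hc.le, CHN_det,
    inv_neg, abs_neg, abs_of_pos (inv_pos.2 hc), mul_inv_cancel₀ hc.ne', ENNReal.ofReal_one, one_mul]

private theorem CHN_NC (x : E) : x ∈ NC ↔
    0 ≤ x 0 - x 2 / (2 * cc) ∧ 0 ≤ x 2 / (2 * cc) - x 1 ∧ 0 ≤ x 2 / (2 * cc) + x 1 := by
  have hc := cc_pos
  constructor
  · rintro ⟨a, h0, h1, h2, rfl⟩
    have e : cc * (a 1 + a 2) / (2 * cc) = (a 1 + a 2) / 2 := by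
      field_simp
    rw [CHN_W0, CHN_W1, CHN_W2, e]
    refine ⟨?_, ?_, ?_⟩
    · linarith
    · linarith
    · linarith
  · rintro ⟨h0, h1, h2⟩
    refine ⟨pt (x 0 - x 2 / (2 * cc)) (x 2 / (2 * cc) - x 1) (x 2 / (2 * cc) + x 1), ?_, ?_, ?_, ?_⟩
    · rw [pt0]; exact h0
    · rw [pt1]; exact h1
    · rw [pt2]; exact h2
    · ext i
      fin_cases i
      · change x 0 = Wp 0 1 2 3 _ 0
        rw [CHN_W0, pt0, pt1, pt2]
        ring
      · change x 1 = Wp 0 1 2 3 _ 1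
        rw [CHN_W1, pt1, pt2]
        ring
      · change x 2 = Wp 0 1 2 3 _ 2
        rw [CHN_W2, pt1, pt2]
        field_simp
        ring

theorem measurableSet_NC : MeasurableSet NC := by
  have h : NC = {x : E | 0 ≤ x 0 - x 2 / (2 * cc)} ∩
      ({x : E | 0 ≤ x 2 / (2 * cc) - x 1} ∩ {x : E | 0 ≤ x 2 / (2 * cc) + x 1}) := by
    ext x
    exact CHN_NC x
  rw [h]
  have h0 := CHN_coord 0
  have h1 := CHN_coord 1
  have h2 := (CHN_coord 2).div_const (2 * cc)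
  exact (measurableSet_le measurable_const (h0.sub h2)).inter
    ((measurableSet_le measurable_const (h2.sub h1)).inter (measurableSet_le measurable_const (h2.add h1)))

private theorem CHN_LNC (y : E) : CHN_L y ∈ NC ↔ 0 ≤ y 0 ∧ 0 ≤ y 1 ∧ 0 ≤ y 2 - y 0 - y 1 := by
  have hc := cc_pos
  have e : cc * (y 2 - y 0) / (2 * cc) = (y 2 - y 0) / 2 := by
    field_simp
  rw [CHN_NC, CHN_L0, CHN_L1, CHN_L2, e]
  constructor
  · rintro ⟨h0, h1, h2⟩
    refine ⟨by linarith, by linarith, by linarith⟩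
  · rintro ⟨h0, h1, h2⟩
    refine ⟨by linarith, by linarith, by linarith⟩

/-- the triangle -/
private def CHN_A : Set (ℝ × ℝ) := {z : ℝ × ℝ | 0 ≤ z.1 ∧ 0 ≤ z.2 ∧ z.1 + z.2 ≤ 1}

private theorem CHN_A_meas : MeasurableSet CHN_A := by
  have h1 : MeasurableSet {z : ℝ × ℝ | 0 ≤ z.1} := measurableSet_le measurable_const measurable_fst
  have h2 : MeasurableSet {z : ℝ × ℝ | 0 ≤ z.2} := measurableSet_le measurable_const measurable_snd
  have h3 : MeasurableSet {z : ℝ × ℝ | z.1 + z.2 ≤ 1} :=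
    measurableSet_le (measurable_fst.add measurable_snd) measurable_const
  exact h1.inter (h2.inter h3)

private noncomputable def CHN_l (z : ℝ × ℝ) : ℝ := nW (bp z.1 z.2)

private theorem CHN_l_eq (z : ℝ × ℝ) : ‖CHN_L (MGE.P z)‖ = CHN_l z := by
  rw [CHN_P, norm_Wp (by decide), CHN_l]

private theorem CHN_l_pos (z : ℝ × ℝ) : 0 < CHN_l z := by
  refine nW_pos fun h => ?_
  have h0 : bp z.1 z.2 0 = (0 : E) 0 := by rw [h]
  have h1 : bp z.1 z.2 1 = (0 : E) 1 := by rw [h]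
  have h2 : bp z.1 z.2 2 = (0 : E) 2 := by rw [h]
  rw [bp, pt0] at h0
  rw [bp, pt1] at h1
  rw [bp, pt2] at h2
  simp at h0 h1 h2
  linarith

private theorem CHN_l_cont : Continuous CHN_l := by
  have h : CHN_l = fun z => ‖CHN_L (MGE.P z)‖ := by
    funext z
    exact (CHN_l_eq z).symm
  rw [h]
  exact (CHN_cont.comp continuous_P).norm

private def CHN_T : Set (ℝ × (ℝ × ℝ)) := {p | 0 < p.1 ∧ p.2 ∈ CHN_A ∧ p.1 * CHN_l p.2 < 1}

private theorem CHN_T_iff {c : ℝ} {z : ℝ × ℝ} :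
    (c, z) ∈ CHN_T ↔ 0 < c ∧ z ∈ CHN_A ∧ c * CHN_l z < 1 := Iff.rfl

private theorem CHN_T_meas : MeasurableSet CHN_T := by
  have h1 : MeasurableSet {p : ℝ × (ℝ × ℝ) | 0 < p.1} := measurableSet_lt measurable_const measurable_fst
  have h2 : MeasurableSet {p : ℝ × (ℝ × ℝ) | p.2 ∈ CHN_A} := measurable_snd CHN_A_meas
  have h4 : Measurable fun p : ℝ × (ℝ × ℝ) => p.1 * CHN_l p.2 :=
    measurable_fst.mul (CHN_l_cont.measurable.comp measurable_snd)
  have h3 : MeasurableSet {p : ℝ × (ℝ × ℝ) | p.1 * CHN_l p.2 < 1} := measurableSet_lt h4 measurable_const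
  exact h1.inter (h2.inter h3)

private noncomputable def CHN_H (F : E → ENNReal) : ℝ × (ℝ × ℝ) → ENNReal :=
  CHN_T.indicator fun p => ENNReal.ofReal (p.1 ^ 2) * F (CHN_L (MGE.P p.2))

private theorem CHN_H_meas {F : E → ENNReal} (hF : Measurable F) : Measurable (CHN_H F) := by
  have hP : Measurable fun p : ℝ × (ℝ × ℝ) => ENNReal.ofReal (p.1 ^ 2) * F (CHN_L (MGE.P p.2)) := by
    have h1 : Measurable fun p : ℝ × (ℝ × ℝ) => CHN_L (MGE.P p.2) :=
      (CHN_cont.comp continuous_P).measurable.comp measurable_snd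
    exact ((measurable_fst.pow_const 2).ennreal_ofReal).mul (hF.comp h1)
  exact hP.indicator CHN_T_meas

private theorem CHN_H_in {F : E → ENNReal} {c : ℝ} {z : ℝ × ℝ} (h : (c, z) ∈ CHN_T) :
    CHN_H F (c, z) = ENNReal.ofReal (c ^ 2) * F (CHN_L (MGE.P z)) := indicator_of_mem h _

private theorem CHN_H_out {F : E → ENNReal} {c : ℝ} {z : ℝ × ℝ} (h : (c, z) ∉ CHN_T) :
    CHN_H F (c, z) = 0 := indicator_of_notMem h _

private noncomputable def CHN_G (F : E → ENNReal) : E → ENNReal := (ball (0 : E) 1 ∩ NC).indicator F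

private theorem CHN_S_iff {c : ℝ} (hc : 0 < c) (z : ℝ × ℝ) :
    CHN_L (c • MGE.P z) ∈ ball (0 : E) 1 ∩ NC ↔ (c, z) ∈ CHN_T := by
  have h1 : CHN_L (c • MGE.P z) ∈ ball (0 : E) 1 ↔ c * CHN_l z < 1 := by
    rw [mem_ball_zero_iff, map_smul, norm_smul, CHN_l_eq, Real.norm_of_nonneg hc.le]
  have e0 : (c • MGE.P z) 0 = c * z.1 := by rw [MGE.P, smul_pt, pt0]
  have e1 : (c • MGE.P z) 1 = c * z.2 := by rw [MGE.P, smul_pt, pt1]
  have e2 : (c • MGE.P z) 2 = c := by rw [MGE.P, smul_pt, pt2, mul_one]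
  have h2 : CHN_L (c • MGE.P z) ∈ NC ↔ z ∈ CHN_A := by
    rw [CHN_LNC, e0, e1, e2]
    change _ ↔ (0 ≤ z.1 ∧ 0 ≤ z.2 ∧ z.1 + z.2 ≤ 1)
    constructor
    · rintro ⟨a, b, d⟩
      refine ⟨nonneg_of_mul_nonneg_right a hc, nonneg_of_mul_nonneg_right b hc, ?_⟩
      have h3 : c * (z.1 + z.2) ≤ c * 1 := by linarith
      exact le_of_mul_le_mul_left h3 hc
    · rintro ⟨a, b, d⟩
      refine ⟨mul_nonneg hc.le a, mul_nonneg hc.le b, ?_⟩
      have h3 : c * (z.1 + z.2) ≤ c * 1 := mul_le_mul_of_nonneg_left d hc.le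
      linarith
  rw [mem_inter_iff, h1, h2, CHN_T_iff]
  constructor
  · rintro ⟨a, b⟩
    exact ⟨hc, b, a⟩
  · rintro ⟨_, b, d⟩
    exact ⟨d, b⟩

private theorem CHN_key {F : E → ENNReal} (hF : Measurable F)
    (hh : ∀ t : ℝ, 0 < t → ∀ x : E, x ≠ 0 → F (t • x) = F x)
    {c : ℝ} (hc0 : c ≠ 0) : (∫⁻ a : ℝ, ∫⁻ b : ℝ, CHN_G F (CHN_L (pt a b c))) =
      ∫⁻ z : ℝ × ℝ, CHN_H F (c, z) := by
  rcases lt_or_gt_of_ne hc0 with hc | hc
  · have e1 : ∀ a b : ℝ, CHN_G F (CHN_L (pt a b c)) = 0 := by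
      intro a b
      refine indicator_of_notMem (fun h => ?_) _
      have h2 : CHN_L (pt a b c) ∈ NC := h.2
      rw [CHN_LNC, pt0, pt1, pt2] at h2
      obtain ⟨h3, h4, h5⟩ := h2
      linarith
    have e2 : ∀ z : ℝ × ℝ, CHN_H F (c, z) = 0 := fun z =>
      CHN_H_out fun h => absurd (CHN_T_iff.1 h).1 (not_lt.2 hc.le)
    simp only [e1, e2, lintegral_zero]
  · have hf : Measurable fun y : E => CHN_G F (CHN_L y) := by
      have h1 : Measurable (CHN_G F) := hF.indicator (measurableSet_ball.inter measurableSet_NC)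
      exact h1.comp CHN_cont.measurable
    rw [CHN_gen (G := fun y : E => CHN_G F (CHN_L y)) hf hc]
    refine lintegral_congr fun z => ?_
    by_cases hin : (c, z) ∈ CHN_T
    · have h5 : CHN_G F (CHN_L (c • MGE.P z)) = F (CHN_L (c • MGE.P z)) := indicator_of_mem ((CHN_S_iff hc z).2 hin) _
      have h6 : CHN_L (MGE.P z) ≠ 0 := by
        rw [← norm_ne_zero_iff, CHN_l_eq]
        exact (CHN_l_pos z).ne'
      rw [h5, CHN_H_in hin, map_smul, hh c hc _ h6]
    · have h5 : CHN_G F (CHN_L (c • MGE.P z)) = 0 := indicator_of_notMem (fun h => hin ((CHN_S_iff hc z).1 h)) _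
      rw [h5, CHN_H_out hin, mul_zero]

theorem chart_NC (F : E → ENNReal) (hF : Measurable F)
    (hh : ∀ t : ℝ, 0 < t → ∀ x : E, x ≠ 0 → F (t • x) = F x) :
    ∫⁻ x in ball (0 : E) 1 ∩ NC, F x =
      ∫⁻ z in {z : ℝ × ℝ | 0 ≤ z.1 ∧ 0 ≤ z.2 ∧ z.1 + z.2 ≤ 1},
        F (Wp 0 1 2 3 (bp z.1 z.2)) * ENNReal.ofReal (1 / (3 * (√2 * nW (bp z.1 z.2) ^ 3))) := by
  have hcc := cc_pos
  have hS : MeasurableSet (ball (0 : E) 1 ∩ NC) := measurableSet_ball.inter measurableSet_NC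
  have hf : Measurable (CHN_G F) := hF.indicator hS
  have hfL : Measurable fun y : E => CHN_G F (CHN_L y) := hf.comp CHN_cont.measurable
  have h0 : ∫⁻ x in ball (0 : E) 1 ∩ NC, F x = ∫⁻ x, CHN_G F x := (lintegral_indicator hS F).symm
  have hae : ∀ᵐ c : ℝ, c ≠ 0 := by
    have h1 : (volume : Measure ℝ) {(0 : ℝ)} = 0 := measure_singleton 0
    filter_upwards [compl_mem_ae_iff.2 h1] with c hc
    exact hc
  have h2 : (∫⁻ c : ℝ, ∫⁻ a : ℝ, ∫⁻ b : ℝ, CHN_G F (CHN_L (pt a b c))) =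
      ∫⁻ c : ℝ, ∫⁻ z : ℝ × ℝ, CHN_H F (c, z) := by
    refine lintegral_congr_ae ?_
    filter_upwards [hae] with c hc
    exact CHN_key hF hh hc
  rw [h0, CHN_change hf, lint_triple _ hfL, h2,
    lintegral_lintegral_swap (f := fun c z => CHN_H F (c, z)) (CHN_H_meas hF).aemeasurable,
    ← lintegral_const_mul _ (CHN_H_meas hF).lintegral_prod_left']
  change _ = ∫⁻ z in CHN_A, _
  rw [← lintegral_indicator CHN_A_meas]
  refine lintegral_congr fun z => ?_
  by_cases hz : z ∈ CHN_A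
  · have h1 : ∀ c : ℝ, CHN_H F (c, z) = (CHN_C (CHN_l z)).indicator
        (fun c => ENNReal.ofReal (c ^ 2) * F (CHN_L (MGE.P z))) c := by
      intro c
      by_cases hc : c ∈ CHN_C (CHN_l z)
      · have hc' : 0 < c ∧ c * CHN_l z < 1 := hc
        rw [indicator_of_mem hc, CHN_H_in (CHN_T_iff.2 ⟨hc'.1, hz, hc'.2⟩)]
      · rw [indicator_of_notMem hc, CHN_H_out]
        intro h
        have h' := CHN_T_iff.1 h
        exact hc ⟨h'.1, h'.2.2⟩
    have h3 : Measurable fun c : ℝ => ENNReal.ofReal (c ^ 2) := (measurable_id.pow_const 2).ennreal_ofReal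
    have hl := CHN_l_pos z
    have h4 : cc * (1 / (3 * CHN_l z ^ 3)) = 1 / (3 * (√2 * nW (bp z.1 z.2) ^ 3)) := by
      have h5 : cc = 1 / √2 := rfl
      have h6 : nW (bp z.1 z.2) = CHN_l z := rfl
      rw [h5, h6]
      have h7 : CHN_l z ≠ 0 := hl.ne'
      field_simp
    simp only [h1]
    rw [indicator_of_mem hz, lintegral_indicator (CHN_C_meas _), lintegral_mul_const _ h3,
      CHN_int hl, CHN_P, ← mul_assoc, ← ENNReal.ofReal_mul hcc.le, h4, mul_comm]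
  · rw [indicator_of_notMem hz]
    have e2 : ∀ c : ℝ, CHN_H F (c, z) = 0 := fun c => CHN_H_out fun h => hz (CHN_T_iff.1 h).2.1
    simp only [e2, lintegral_zero, mul_zero]

end Pool.Agent.MGF
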