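import Pool.Agent.MGF.Defs2
import Pool.Agent.MGE.VV
import Pool.Agent.MGE.FRF
import Pool.Agent.MGE.COVR
import Pool.Agent.MGF.WPF
/-!
COV2 (150 lines). Covering of space by squares and triangles.
PROOF. As in MGE.COVR: a_i = <x, vv i>, choose k such that y = fr k x (or its negative; then argue for -x) has s = b_0 + b_1 > 0 maximal, y 0 = p + q, y 1 = p - q, y 2 = √2 s, |p|, |q| ≤ s and |p+q| ≤ s or |p-q| ≤ s. If
both hold, |y 0| ≤ cc y 2 and |y 1| ≤ cc y 2: y ∈ Cn SqR. If |p-q| ≤ s and p+q > s: y = Wp 0 1 2 3 (p+q-s, s-(p-q), s+(p-q)) ∈ NC, i.e. y lies in the cone N_0; if p+q < -s: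
y = Wp 1 0 2 3 (-(p+q)-s, s-(p-q), s+(p-q)), cone N_1; if |p+q| ≤ s and p - q > s: -y = Wp 3 2 0 1 (..), if p-q < -s: -y = Wp 2 3 0 1 (..), all coefficients ≥ 0.
The fr k and gr i permute the vertices, ψ (Wp i j k l a) = Wp (σ i) (σ j) (σ k) (σ l) a, NC and the cones do not depend on the order of j,k,l; so ±x lies in some cone N_i, i.e.
gr i (±x) ∈ NC (gr i is an involution exchanging vv 0 and vv i).
-/
set_option autoImplicit false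

open MeasureTheory Set Metric Pool.Agent.MEIS Pool.Agent.MSQ Pool.Agent.MGE

namespace Pool.Agent.MGF

private theorem cov2_rf (i j : Fin 4) (x y : E) : inner ℝ (rf i j x) y = (inner ℝ x (rf i j y) : ℝ) := by
  have h : rf i j (rf i j x) = x := Submodule.reflection_reflection _ x
  rw [← (rf i j).inner_map_map (rf i j x) y, h]

private theorem cov2_NC {y : E} (h1 : inner ℝ y (vv 1) ≤ (0 : ℝ)) (h2 : inner ℝ y (vv 2) ≤ (0 : ℝ))
    (h3 : inner ℝ y (vv 3) ≤ (0 : ℝ)) : y ∈ NC := by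
  rw [inner_vv1] at h1
  rw [inner_vv2] at h2
  rw [inner_vv3] at h3
  have hc := cc_sq
  refine ⟨pt (y 0 - y 2 * cc) (-(y 1) + y 2 * cc) (y 1 + y 2 * cc), ?_, ?_, ?_, ?_⟩
  · rw [pt0]; linarith
  · rw [pt1]; linarith
  · rw [pt2]; linarith
  · unfold Wp
    rw [pt0, pt1, pt2]
    ext m
    fin_cases m
    · show y 0 = (y 0 - y 2 * cc) * (1 / 2 - (-1 / 2)) + (-(y 1) + y 2 * cc) * (1 / 2 - 0) +
        (y 1 + y 2 * cc) * (1 / 2 - 0)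
      ring
    · show y 1 = (y 0 - y 2 * cc) * (0 - 0) + (-(y 1) + y 2 * cc) * (0 - 1 / 2) +
        (y 1 + y 2 * cc) * (0 - (-1 / 2))
      ring
    · show y 2 = (y 0 - y 2 * cc) * (cc / 2 - cc / 2) + (-(y 1) + y 2 * cc) * (cc / 2 - (-cc / 2)) +
        (y 1 + y 2 * cc) * (cc / 2 - (-cc / 2))
      linear_combination (-2 * y 2) * hc

private theorem cov2_NC' {y : E} (h1 : 0 ≤ (inner ℝ y (vv 1) : ℝ)) (h2 : 0 ≤ (inner ℝ y (vv 2) : ℝ))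
    (h3 : 0 ≤ (inner ℝ y (vv 3) : ℝ)) : -y ∈ NC :=
  cov2_NC (by rw [inner_neg_left]; linarith) (by rw [inner_neg_left]; linarith)
    (by rw [inner_neg_left]; linarith)

private theorem cov2_sqrt : √2 * cc = 1 := by
  unfold cc
  rw [mul_one_div, div_self (by positivity)]

private theorem cov2_Sq {y : E} (h0 : 0 < (inner ℝ y (vv 0) : ℝ)) (h1 : 0 < (inner ℝ y (vv 1) : ℝ))
    (h2 : inner ℝ y (vv 2) ≤ (0 : ℝ)) (h3 : inner ℝ y (vv 3) ≤ (0 : ℝ)) : y ∈ Cn SqR := by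
  rw [inner_vv0] at h0
  rw [inner_vv1] at h1
  rw [inner_vv2] at h2
  rw [inner_vv3] at h3
  have hcc := cc_pos
  have h4 : 0 < y 2 * cc := by linarith
  have hy2 : 0 < y 2 := (pos_iff_pos_of_mul_pos h4).2 hcc
  refine ⟨hy2, ?_, ?_⟩
  · show |y 0 / y 2| ≤ cc
    rw [abs_div, abs_of_pos hy2, div_le_iff₀ hy2, abs_le]
    constructor <;> linarith
  · show |y 1 / y 2| ≤ cc
    rw [abs_div, abs_of_pos hy2, div_le_iff₀ hy2, abs_le]
    constructor <;> linarith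

private theorem cov2_Sq' {y : E} (h0 : inner ℝ y (vv 0) < (0 : ℝ)) (h1 : inner ℝ y (vv 1) < (0 : ℝ))
    (h2 : 0 ≤ (inner ℝ y (vv 2) : ℝ)) (h3 : 0 ≤ (inner ℝ y (vv 3) : ℝ)) : -y ∈ Cn SqR :=
  cov2_Sq (by rw [inner_neg_left]; linarith) (by rw [inner_neg_left]; linarith)
    (by rw [inner_neg_left]; linarith) (by rw [inner_neg_left]; linarith)

theorem cover2 {x : E} (hx : x ≠ 0) :
    (∃ k : Fin 3, fr k x ∈ Cn SqR ∨ -(fr k x) ∈ Cn SqR) ∨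
      ∃ i : Fin 4, gr i x ∈ NC ∨ -(gr i x) ∈ NC := by
  obtain ⟨a, ha⟩ : ∃ a, a = (inner ℝ x (vv 0) : ℝ) := ⟨_, rfl⟩
  obtain ⟨b, hb⟩ : ∃ b, b = (inner ℝ x (vv 1) : ℝ) := ⟨_, rfl⟩
  obtain ⟨c, hc⟩ : ∃ c, c = (inner ℝ x (vv 2) : ℝ) := ⟨_, rfl⟩
  obtain ⟨d, hd⟩ : ∃ d, d = (inner ℝ x (vv 3) : ℝ) := ⟨_, rfl⟩
  have hsum : a + b + c + d = 0 := by
    rw [ha, hb, hc, hd, inner_vv0, inner_vv1, inner_vv2, inner_vv3]
    ring
  have f10 : fr 1 (vv 0) = vv 0 := rf_other (by decide) (by decide) (by decide)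
  have f11 : fr 1 (vv 1) = vv 2 := rf_left (by decide)
  have f12 : fr 1 (vv 2) = vv 1 := rf_right (by decide)
  have f13 : fr 1 (vv 3) = vv 3 := rf_other (by decide) (by decide) (by decide)
  have f20 : fr 2 (vv 0) = vv 0 := rf_other (by decide) (by decide) (by decide)
  have f21 : fr 2 (vv 1) = vv 3 := rf_left (by decide)
  have f23 : fr 2 (vv 3) = vv 1 := rf_right (by decide)
  have f22 : fr 2 (vv 2) = vv 2 := rf_other (by decide) (by decide) (by decide)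
  have g01 : rf 0 1 (vv 1) = vv 0 := rf_right (by decide)
  have g02 : rf 0 1 (vv 2) = vv 2 := rf_other (by decide) (by decide) (by decide)
  have g03 : rf 0 1 (vv 3) = vv 3 := rf_other (by decide) (by decide) (by decide)
  have g11 : rf 0 2 (vv 1) = vv 1 := rf_other (by decide) (by decide) (by decide)
  have g12 : rf 0 2 (vv 2) = vv 0 := rf_right (by decide)
  have g13 : rf 0 2 (vv 3) = vv 3 := rf_other (by decide) (by decide) (by decide)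
  have g21 : rf 0 3 (vv 1) = vv 1 := rf_other (by decide) (by decide) (by decide)
  have g22 : rf 0 3 (vv 2) = vv 2 := rf_other (by decide) (by decide) (by decide)
  have g23 : rf 0 3 (vv 3) = vv 0 := rf_right (by decide)
  -- triangles
  have t0 : b ≤ 0 → c ≤ 0 → d ≤ 0 → gr 0 x ∈ NC := fun h1 h2 h3 =>
    cov2_NC (y := x) (by rw [← hb]; exact h1) (by rw [← hc]; exact h2) (by rw [← hd]; exact h3)
  have t0' : 0 ≤ b → 0 ≤ c → 0 ≤ d → -(gr 0 x) ∈ NC := fun h1 h2 h3 =>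
    cov2_NC' (y := x) (by rw [← hb]; exact h1) (by rw [← hc]; exact h2) (by rw [← hd]; exact h3)
  have t1 : a ≤ 0 → c ≤ 0 → d ≤ 0 → gr 1 x ∈ NC := fun h1 h2 h3 =>
    cov2_NC (y := rf 0 1 x) (by rw [cov2_rf, g01, ← ha]; exact h1)
      (by rw [cov2_rf, g02, ← hc]; exact h2) (by rw [cov2_rf, g03, ← hd]; exact h3)
  have t1' : 0 ≤ a → 0 ≤ c → 0 ≤ d → -(gr 1 x) ∈ NC := fun h1 h2 h3 =>
    cov2_NC' (y := rf 0 1 x) (by rw [cov2_rf, g01, ← ha]; exact h1)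
      (by rw [cov2_rf, g02, ← hc]; exact h2) (by rw [cov2_rf, g03, ← hd]; exact h3)
  have t2 : a ≤ 0 → b ≤ 0 → d ≤ 0 → gr 2 x ∈ NC := fun h1 h2 h3 =>
    cov2_NC (y := rf 0 2 x) (by rw [cov2_rf, g11, ← hb]; exact h2)
      (by rw [cov2_rf, g12, ← ha]; exact h1) (by rw [cov2_rf, g13, ← hd]; exact h3)
  have t2' : 0 ≤ a → 0 ≤ b → 0 ≤ d → -(gr 2 x) ∈ NC := fun h1 h2 h3 =>
    cov2_NC' (y := rf 0 2 x) (by rw [cov2_rf, g11, ← hb]; exact h2)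
      (by rw [cov2_rf, g12, ← ha]; exact h1) (by rw [cov2_rf, g13, ← hd]; exact h3)
  have t3 : a ≤ 0 → b ≤ 0 → c ≤ 0 → gr 3 x ∈ NC := fun h1 h2 h3 =>
    cov2_NC (y := rf 0 3 x) (by rw [cov2_rf, g21, ← hb]; exact h2)
      (by rw [cov2_rf, g22, ← hc]; exact h3) (by rw [cov2_rf, g23, ← ha]; exact h1)
  have t3' : 0 ≤ a → 0 ≤ b → 0 ≤ c → -(gr 3 x) ∈ NC := fun h1 h2 h3 =>
    cov2_NC' (y := rf 0 3 x) (by rw [cov2_rf, g21, ← hb]; exact h2)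
      (by rw [cov2_rf, g22, ← hc]; exact h3) (by rw [cov2_rf, g23, ← ha]; exact h1)
  -- squares
  have s0 : 0 < a → 0 < b → c ≤ 0 → d ≤ 0 → fr 0 x ∈ Cn SqR := fun h0 h1 h2 h3 =>
    cov2_Sq (y := x) (by rw [← ha]; exact h0) (by rw [← hb]; exact h1) (by rw [← hc]; exact h2)
      (by rw [← hd]; exact h3)
  have s0' : a < 0 → b < 0 → 0 ≤ c → 0 ≤ d → -(fr 0 x) ∈ Cn SqR := fun h0 h1 h2 h3 =>
    cov2_Sq' (y := x) (by rw [← ha]; exact h0) (by rw [← hb]; exact h1) (by rw [← hc]; exact h2)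
      (by rw [← hd]; exact h3)
  have s1 : 0 < a → 0 < c → b ≤ 0 → d ≤ 0 → fr 1 x ∈ Cn SqR := fun h0 h1 h2 h3 =>
    cov2_Sq (by rw [fr_inner, f10, ← ha]; exact h0) (by rw [fr_inner, f11, ← hc]; exact h1)
      (by rw [fr_inner, f12, ← hb]; exact h2) (by rw [fr_inner, f13, ← hd]; exact h3)
  have s1' : a < 0 → c < 0 → 0 ≤ b → 0 ≤ d → -(fr 1 x) ∈ Cn SqR := fun h0 h1 h2 h3 =>
    cov2_Sq' (by rw [fr_inner, f10, ← ha]; exact h0) (by rw [fr_inner, f11, ← hc]; exact h1)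
      (by rw [fr_inner, f12, ← hb]; exact h2) (by rw [fr_inner, f13, ← hd]; exact h3)
  have s2 : 0 < a → 0 < d → b ≤ 0 → c ≤ 0 → fr 2 x ∈ Cn SqR := fun h0 h1 h2 h3 =>
    cov2_Sq (by rw [fr_inner, f20, ← ha]; exact h0) (by rw [fr_inner, f21, ← hd]; exact h1)
      (by rw [fr_inner, f22, ← hc]; exact h3) (by rw [fr_inner, f23, ← hb]; exact h2)
  have s2' : a < 0 → d < 0 → 0 ≤ b → 0 ≤ c → -(fr 2 x) ∈ Cn SqR := fun h0 h1 h2 h3 =>
    cov2_Sq' (by rw [fr_inner, f20, ← ha]; exact h0) (by rw [fr_inner, f21, ← hd]; exact h1)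
      (by rw [fr_inner, f22, ← hc]; exact h3) (by rw [fr_inner, f23, ← hb]; exact h2)
  rcases le_or_gt a 0 with ha1 | ha1 <;> rcases le_or_gt b 0 with hb1 | hb1 <;>
    rcases le_or_gt c 0 with hc1 | hc1 <;> rcases le_or_gt d 0 with hd1 | hd1
  · exact Or.inr ⟨3, Or.inl (t3 ha1 hb1 hc1)⟩
  · exact Or.inr ⟨3, Or.inl (t3 ha1 hb1 hc1)⟩
  · exact Or.inr ⟨2, Or.inl (t2 ha1 hb1 hd1)⟩
  · rcases ha1.eq_or_lt with ha2 | ha2
    · exact Or.inr ⟨1, Or.inr (t1' ha2.ge hc1.le hd1.le)⟩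
    · rcases hb1.eq_or_lt with hb2 | hb2
      · exact Or.inr ⟨0, Or.inr (t0' hb2.ge hc1.le hd1.le)⟩
      · exact Or.inl ⟨0, Or.inr (s0' ha2 hb2 hc1.le hd1.le)⟩
  · exact Or.inr ⟨1, Or.inl (t1 ha1 hc1 hd1)⟩
  · rcases ha1.eq_or_lt with ha2 | ha2
    · exact Or.inr ⟨2, Or.inr (t2' ha2.ge hb1.le hd1.le)⟩
    · rcases hc1.eq_or_lt with hc2 | hc2
      · exact Or.inr ⟨0, Or.inr (t0' hb1.le hc2.ge hd1.le)⟩
      · exact Or.inl ⟨1, Or.inr (s1' ha2 hc2 hb1.le hd1.le)⟩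
  · rcases ha1.eq_or_lt with ha2 | ha2
    · exact Or.inr ⟨3, Or.inr (t3' ha2.ge hb1.le hc1.le)⟩
    · rcases hd1.eq_or_lt with hd2 | hd2
      · exact Or.inr ⟨0, Or.inr (t0' hb1.le hc1.le hd2.ge)⟩
      · exact Or.inl ⟨2, Or.inr (s2' ha2 hd2 hb1.le hc1.le)⟩
  · exact Or.inr ⟨0, Or.inr (t0' hb1.le hc1.le hd1.le)⟩
  · exact Or.inr ⟨0, Or.inl (t0 hb1 hc1 hd1)⟩
  · exact Or.inl ⟨2, Or.inl (s2 ha1 hd1 hb1 hc1)⟩
  · exact Or.inl ⟨1, Or.inl (s1 ha1 hc1 hb1 hd1)⟩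
  · exact Or.inr ⟨1, Or.inr (t1' ha1.le hc1.le hd1.le)⟩
  · exact Or.inl ⟨0, Or.inl (s0 ha1 hb1 hc1 hd1)⟩
  · exact Or.inr ⟨2, Or.inr (t2' ha1.le hb1.le hd1.le)⟩
  · exact Or.inr ⟨3, Or.inr (t3' ha1.le hb1.le hc1.le)⟩
  · exact absurd hsum (by linarith)

end Pool.Agent.MGF
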