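import Pool.Agent.MGF.Defs2
import Pool.Agent.MEIS.POL
import Pool.Agent.MEIS.SIA
import Pool.Agent.MGE.VV
import Pool.Agent.MGE.FRF
import Pool.Agent.MGE.CHI
import Pool.Agent.MGE.INV
import Pool.Agent.MGE.EDN
import Pool.Agent.MGE.PTI
import Pool.Agent.MGE.SIC
import Pool.Agent.MGF.WPF
import Pool.Agent.MGF.JTG
import Pool.Agent.MGF.CHN
import Pool.Agent.MGF.COV2
import Pool.Agent.MGF.FRG
/-!
SI2 (170 lines). Sphere integral bounded by squares and triangles.
PROOF. Exactly as MGE.SIC (copy its proof): (1/3) SI (ed G) = lintegral over the ball, covered by the sets fr k⁻¹ (±Cn SqR), gr i⁻¹ (±NC); evenness of ed G (ed_even), invariance of volume under the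
isometries; chart_lint for SqR and chart_NC for NC, applied to x ↦ ofReal (ed G (fr k x)) = ofReal (ed (G∘fr k) x) (ed_comp, fr k involution). Convert: ∫ over SqR of ed (G∘fr k) (P z)/lf z³ = EE (jG (G∘fr k)) (dn_eq; SqR = Icc ×ˢ Icc,
setIntegral_prod, dn = integrand of EE) and ∫ over the triangle of ed/(√2 nW³) = NN (iterated integral).
-/
set_option autoImplicit false

open MeasureTheory Set Metric Pool.Agent.MEIS Pool.Agent.MSQ Pool.Agent.MGE

namespace Pool.Agent.MGF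

private theorem si2_Cn {A : Set (ℝ × ℝ)} (hA : MeasurableSet A) : MeasurableSet (Cn A) := by
  have c : ∀ i : Fin 3, Measurable fun x : E => x i := fun i => by fun_prop
  have h1 : MeasurableSet {x : E | 0 < x 2} := measurableSet_lt measurable_const (c 2)
  have h2 : Measurable fun x : E => (x 0 / x 2, x 1 / x 2) :=
    ((c 0).div (c 2)).prodMk ((c 1).div (c 2))
  exact h1.inter (h2 hA)

private theorem si2_SqR : SqR = Icc (-cc) cc ×ˢ Icc (-cc) cc := by
  ext z
  change (|z.1| ≤ cc ∧ |z.2| ≤ cc) ↔ (z.1 ∈ Icc (-cc) cc ∧ z.2 ∈ Icc (-cc) cc)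
  rw [abs_le, abs_le, mem_Icc, mem_Icc]

private theorem si2_SqR_meas : MeasurableSet SqR := by
  rw [si2_SqR]
  exact measurableSet_Icc.prod measurableSet_Icc

private theorem si2_SqR_compact : IsCompact SqR := by
  rw [si2_SqR]
  exact isCompact_Icc.prod isCompact_Icc

private def si2_T : Set (ℝ × ℝ) := {z : ℝ × ℝ | 0 ≤ z.1 ∧ 0 ≤ z.2 ∧ z.1 + z.2 ≤ 1}

private theorem si2_T_closed : IsClosed si2_T := by
  have h1 : IsClosed {z : ℝ × ℝ | 0 ≤ z.1} := isClosed_le continuous_const continuous_fst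
  have h2 : IsClosed {z : ℝ × ℝ | 0 ≤ z.2} := isClosed_le continuous_const continuous_snd
  have h3 : IsClosed {z : ℝ × ℝ | z.1 + z.2 ≤ 1} :=
    isClosed_le (continuous_fst.add continuous_snd) continuous_const
  exact h1.inter (h2.inter h3)

private theorem si2_T_compact : IsCompact si2_T := by
  refine (isCompact_Icc.prod (isCompact_Icc (a := (0 : ℝ)) (b := 1)) : IsCompact
    (Icc (0 : ℝ) 1 ×ˢ Icc (0 : ℝ) 1)).of_isClosed_subset si2_T_closed ?_
  rintro z ⟨h1, h2, h3⟩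
  exact ⟨⟨h1, by linarith⟩, ⟨h2, by linarith⟩⟩

private theorem si2_int_sq {g : ℝ × ℝ → ℝ} (hg : Continuous g) :
    ∫ z in SqR, g z = ∫ X in (-cc)..cc, ∫ Y in (-cc)..cc, g (X, Y) := by
  have hc := cc_pos
  have hle : -cc ≤ cc := by linarith
  have hi : IntegrableOn g (Icc (-cc) cc ×ˢ Icc (-cc) cc) (volume.prod volume) :=
    hg.continuousOn.integrableOn_compact (isCompact_Icc.prod isCompact_Icc)
  rw [si2_SqR, Measure.volume_eq_prod, setIntegral_prod _ hi, intervalIntegral.integral_of_le hle,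
    ← integral_Icc_eq_integral_Ioc]
  refine setIntegral_congr_fun measurableSet_Icc fun X _ => ?_
  show ∫ Y in Icc (-cc) cc, g (X, Y) = _
  rw [intervalIntegral.integral_of_le hle, ← integral_Icc_eq_integral_Ioc]

private theorem si2_int_tri {g : ℝ × ℝ → ℝ} (hg : Continuous g) :
    ∫ z in si2_T, g z = ∫ x in (0 : ℝ)..1, ∫ y in (0 : ℝ)..(1 - x), g (x, y) := by
  have hi : IntegrableOn g si2_T volume := hg.continuousOn.integrableOn_compact si2_T_compact
  have hi2 : Integrable (si2_T.indicator g) (volume.prod volume) := by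
    rw [← Measure.volume_eq_prod]
    exact (integrable_indicator_iff si2_T_closed.measurableSet).2 hi
  rw [← integral_indicator si2_T_closed.measurableSet, Measure.volume_eq_prod, integral_prod _ hi2,
    intervalIntegral.integral_of_le zero_le_one, ← integral_Icc_eq_integral_Ioc,
    ← integral_indicator measurableSet_Icc]
  refine integral_congr_ae (Filter.Eventually.of_forall fun x => ?_)
  by_cases hx : x ∈ Icc (0 : ℝ) 1
  · have h1 : ∀ y : ℝ, si2_T.indicator g (x, y) = (Icc (0 : ℝ) (1 - x)).indicator (fun y => g (x, y)) y := by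
      intro y
      by_cases hy : y ∈ Icc (0 : ℝ) (1 - x)
      · rw [indicator_of_mem hy, indicator_of_mem]
        exact ⟨hx.1, hy.1, by have := hy.2; show x + y ≤ 1; linarith⟩
      · rw [indicator_of_notMem hy, indicator_of_notMem]
        rintro ⟨_, h2, h3⟩
        exact hy ⟨h2, by have h3' : x + y ≤ 1 := h3; linarith⟩
    show ∫ y, si2_T.indicator g (x, y) = (Icc (0 : ℝ) 1).indicator _ x
    simp only [h1]
    rw [indicator_of_mem hx, integral_indicator measurableSet_Icc,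
      intervalIntegral.integral_of_le (by linarith [hx.2]), ← integral_Icc_eq_integral_Ioc]
  · have h1 : ∀ y : ℝ, si2_T.indicator g (x, y) = 0 := by
      intro y
      refine indicator_of_notMem ?_ _
      rintro ⟨h2, h3, h4⟩
      have h2' : 0 ≤ x := h2
      have h3' : 0 ≤ y := h3
      have h4' : x + y ≤ 1 := h4
      exact hx ⟨h2', by linarith⟩
    show ∫ y, si2_T.indicator g (x, y) = (Icc (0 : ℝ) 1).indicator _ x
    simp only [h1]
    rw [indicator_of_notMem hx, integral_zero]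

open Classical in
private noncomputable def si2_g (f : E → ℝ) : E → ℝ := ({0}ᶜ : Set E).piecewise f (fun _ => 0)

private theorem si2_g_ne {f : E → ℝ} {x : E} (hx : x ≠ 0) : si2_g f x = f x := by
  classical
  unfold si2_g
  exact Set.piecewise_eq_of_mem _ _ _ hx

private theorem si2_g_zero {f : E → ℝ} : si2_g f 0 = 0 := by
  classical
  unfold si2_g
  exact Set.piecewise_eq_of_notMem _ _ _ (by simp)

private theorem si2_g_meas {f : E → ℝ} (hs : Sm 0 f) : Measurable (si2_g f) := by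
  classical
  have h : ContinuousOn f ({0}ᶜ : Set E) := hs.continuousOn
  unfold si2_g
  exact h.measurable_piecewise continuousOn_const (measurableSet_singleton _).compl

private theorem si2_pull {f : E → ℝ} (hs : Sm 0 f) (he : ∀ x, f (-x) = f x) {S : Set E}
    (hS : MeasurableSet S) (ψ φ : E ≃ₗᵢ[ℝ] E) (hψ : ∀ x, ψ (ψ x) = x)
    (hφ : (∀ x, φ x = ψ x) ∨ (∀ x, φ x = -(ψ x))) :
    ∫⁻ x in ball (0 : E) 1 ∩ φ ⁻¹' S, ENNReal.ofReal (si2_g f x) =
      ∫⁻ y in ball (0 : E) 1 ∩ S, ENNReal.ofReal (si2_g f (ψ y)) := by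
  have hm : Measurable fun x : E => ENNReal.ofReal (si2_g f (ψ x)) :=
    ENNReal.measurable_ofReal.comp ((si2_g_meas hs).comp ψ.continuous.measurable)
  have hmS : MeasurableSet (ball (0 : E) 1 ∩ S) := measurableSet_ball.inter hS
  rw [← (LinearIsometryEquiv.measurePreserving φ).setLIntegral_comp_preimage hmS hm]
  have hset : φ ⁻¹' (ball (0 : E) 1 ∩ S) = ball (0 : E) 1 ∩ φ ⁻¹' S := by
    ext x
    simp
  rw [hset]
  refine lintegral_congr fun x => ?_
  rcases hφ with hφ | hφ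
  · rw [hφ, hψ]
  · rw [hφ, map_neg, hψ]
    congr 1
    by_cases hx : x = 0
    · subst hx; rw [neg_zero]
    · rw [si2_g_ne hx, si2_g_ne (neg_ne_zero.2 hx), he]

private theorem si2_ne (ψ : E ≃ₗᵢ[ℝ] E) {x : E} (hx : x ≠ 0) : ψ x ≠ 0 := fun h =>
  hx ((map_eq_zero_iff ψ ψ.injective).1 h)

private theorem si2_cont_lf : Continuous lf := by
  unfold lf
  fun_prop

private theorem si2_contf {f : E → ℝ} (hs : Sm 0 f) (ψ : E ≃ₗᵢ[ℝ] E) {q : ℝ × ℝ → E} (hq : Continuous q)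
    (hq0 : ∀ z, q z ≠ 0) : Continuous fun z : ℝ × ℝ => f (ψ (q z)) := by
  have h : ContinuousOn f ({0}ᶜ : Set E) := hs.continuousOn
  exact h.comp_continuous (ψ.continuous.comp hq) fun z => si2_ne ψ (hq0 z)

private theorem si2_cq : Continuous fun z : ℝ × ℝ => Wp 0 1 2 3 (bp z.1 z.2) := by
  unfold Wp
  have h0 : Continuous fun z : ℝ × ℝ => bp z.1 z.2 0 := continuous_fst
  have h1 : Continuous fun z : ℝ × ℝ => bp z.1 z.2 1 := continuous_snd
  have h2 : Continuous fun z : ℝ × ℝ => bp z.1 z.2 2 := by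
    show Continuous fun z : ℝ × ℝ => 1 - z.1 - z.2
    fun_prop
  exact ((h0.smul continuous_const).add (h1.smul continuous_const)).add (h2.smul continuous_const)

private theorem si2_q0 (z : ℝ × ℝ) : Wp 0 1 2 3 (bp z.1 z.2) ≠ 0 := Wp_ne (by decide) (bp_ne _ _)

private theorem si2_cnW : Continuous fun z : ℝ × ℝ => nW (bp z.1 z.2) := by
  have h : (fun z : ℝ × ℝ => nW (bp z.1 z.2)) = fun z => ‖Wp 0 1 2 3 (bp z.1 z.2)‖ := by
    funext z
    rw [norm_Wp (by decide)]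
  rw [h]
  exact si2_cq.norm

private theorem si2_nW (z : ℝ × ℝ) : 0 < nW (bp z.1 z.2) := nW_pos (bp_ne _ _)

private theorem si2_c1 {f : E → ℝ} (hs : Sm 0 f) (ψ : E ≃ₗᵢ[ℝ] E) :
    Continuous fun z : ℝ × ℝ => f (ψ (P z)) / lf z ^ 3 :=
  (si2_contf hs ψ continuous_P P_ne).div (si2_cont_lf.pow 3) fun z => (pow_pos (lf_pos z) 3).ne'

private theorem si2_c2 {f : E → ℝ} (hs : Sm 0 f) (ψ : E ≃ₗᵢ[ℝ] E) :
    Continuous fun z : ℝ × ℝ => f (ψ (Wp 0 1 2 3 (bp z.1 z.2))) / (√2 * nW (bp z.1 z.2) ^ 3) := by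
  refine (si2_contf hs ψ si2_cq si2_q0).div (continuous_const.mul (si2_cnW.pow 3)) fun z => ?_
  have := si2_nW z
  positivity

private theorem si2_homF {f : E → ℝ} (hh : Hom 0 f) (ψ : E ≃ₗᵢ[ℝ] E) :
    ∀ t : ℝ, 0 < t → ∀ x : E, x ≠ 0 →
      ENNReal.ofReal (si2_g f (ψ (t • x))) = ENNReal.ofReal (si2_g f (ψ x)) := by
  intro t ht x hx
  have hx1 : ψ x ≠ 0 := si2_ne ψ hx
  have hx2 : ψ (t • x) ≠ 0 := si2_ne ψ (smul_ne_zero ht.ne' hx)
  rw [si2_g_ne hx1, si2_g_ne hx2, map_smul, hh t ht _ hx1, zpow_zero, one_mul]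

private theorem si2_chart {f : E → ℝ} (hs : Sm 0 f) (hh : Hom 0 f) (h0 : ∀ x, x ≠ 0 → 0 ≤ f x)
    (ψ : E ≃ₗᵢ[ℝ] E) :
    ∫⁻ y in ball (0 : E) 1 ∩ Cn SqR, ENNReal.ofReal (si2_g f (ψ y)) =
      ENNReal.ofReal (∫ z in SqR, f (ψ (P z)) / lf z ^ 3 / 3) := by
  have hm : Measurable fun x : E => ENNReal.ofReal (si2_g f (ψ x)) :=
    ENNReal.measurable_ofReal.comp ((si2_g_meas hs).comp ψ.continuous.measurable)
  rw [chart_lint (fun x : E => ENNReal.ofReal (si2_g f (ψ x))) hm (si2_homF hh ψ) SqR si2_SqR_meas]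
  have hc : Continuous fun z : ℝ × ℝ => f (ψ (P z)) / lf z ^ 3 / 3 := (si2_c1 hs ψ).div_const 3
  have hi : Integrable (fun z : ℝ × ℝ => f (ψ (P z)) / lf z ^ 3 / 3) (volume.restrict SqR) :=
    hc.continuousOn.integrableOn_compact si2_SqR_compact
  rw [ofReal_integral_eq_lintegral_ofReal hi]
  · refine lintegral_congr fun z => ?_
    have hl := pow_pos (lf_pos z) 3
    rw [si2_g_ne (si2_ne ψ (P_ne z)), ← ENNReal.ofReal_mul (h0 _ (si2_ne ψ (P_ne z)))]
    congr 1
    field_simp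
  · refine Filter.Eventually.of_forall fun z => ?_
    have hl := pow_pos (lf_pos z) 3
    have := h0 _ (si2_ne ψ (P_ne z))
    show (0 : ℝ) ≤ f (ψ (P z)) / lf z ^ 3 / 3
    positivity

private theorem si2_tri {f : E → ℝ} (hs : Sm 0 f) (hh : Hom 0 f) (h0 : ∀ x, x ≠ 0 → 0 ≤ f x)
    (ψ : E ≃ₗᵢ[ℝ] E) :
    ∫⁻ y in ball (0 : E) 1 ∩ NC, ENNReal.ofReal (si2_g f (ψ y)) =
      ENNReal.ofReal (∫ z in si2_T, f (ψ (Wp 0 1 2 3 (bp z.1 z.2))) / (√2 * nW (bp z.1 z.2) ^ 3) / 3) := by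
  have hm : Measurable fun x : E => ENNReal.ofReal (si2_g f (ψ x)) :=
    ENNReal.measurable_ofReal.comp ((si2_g_meas hs).comp ψ.continuous.measurable)
  rw [chart_NC (fun x : E => ENNReal.ofReal (si2_g f (ψ x))) hm (si2_homF hh ψ)]
  have hc := (si2_c2 hs ψ).div_const 3
  have hi : Integrable (fun z : ℝ × ℝ => f (ψ (Wp 0 1 2 3 (bp z.1 z.2))) / (√2 * nW (bp z.1 z.2) ^ 3) / 3)
      (volume.restrict si2_T) :=
    hc.continuousOn.integrableOn_compact si2_T_compact
  rw [ofReal_integral_eq_lintegral_ofReal hi]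
  · refine lintegral_congr fun z => ?_
    have hl := si2_nW z
    rw [si2_g_ne (si2_ne ψ (si2_q0 z)), ← ENNReal.ofReal_mul (h0 _ (si2_ne ψ (si2_q0 z)))]
    congr 1
    field_simp
  · refine Filter.Eventually.of_forall fun z => ?_
    have hl := si2_nW z
    have := h0 _ (si2_ne ψ (si2_q0 z))
    show (0 : ℝ) ≤ f (ψ (Wp 0 1 2 3 (bp z.1 z.2))) / (√2 * nW (bp z.1 z.2) ^ 3) / 3
    positivity

private theorem si2_EE {G : E → ℝ} {R τ : ℝ} (h : SB G R τ) (ψ : E ≃ₗᵢ[ℝ] E) :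
    ∫ z in SqR, ed G (ψ (P z)) / lf z ^ 3 / 3 = EE (jG (fun x => G (ψ x))) / 3 := by
  rw [integral_div, si2_int_sq (si2_c1 (ed_sm h) ψ)]
  congr 1
  unfold EE
  refine intervalIntegral.integral_congr fun X _ => ?_
  refine intervalIntegral.integral_congr fun Y _ => ?_
  have h1 := dn_eq (SB_comp h ψ) (X, Y)
  rw [ed_comp h ψ (P_ne _)] at h1
  exact h1.symm

private theorem si2_NN {G : E → ℝ} {R τ : ℝ} (h : SB G R τ) (ψ : E ≃ₗᵢ[ℝ] E) :
    ∫ z in si2_T, ed G (ψ (Wp 0 1 2 3 (bp z.1 z.2))) / (√2 * nW (bp z.1 z.2) ^ 3) / 3 =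
      NN (fun x => G (ψ x)) / 3 := by
  rw [integral_div, si2_int_tri (si2_c2 (ed_sm h) ψ)]
  congr 1
  unfold NN
  refine intervalIntegral.integral_congr fun x _ => ?_
  refine intervalIntegral.integral_congr fun y _ => ?_
  show _ = dN _ x y
  unfold dN
  rw [ed_comp h ψ (si2_q0 (x, y))]

theorem si_split {G : E → ℝ} {R τ : ℝ} (h : SB G R τ) (hτ : 0 ≤ τ) :
    SI (ed G) ≤ 2 * (∑ k : Fin 3, EE (jG (fun x => G (fr k x))) +
      ∑ i : Fin 4, NN (fun x => G (gr i x))) := by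
  have hs := ed_sm h
  have hh := ed_hom h
  have h0 : ∀ x, x ≠ 0 → 0 ≤ ed G x := fun x hx => ed_nonneg h hτ hx
  have he := ed_even h
  have hpos1 : ∀ k : Fin 3, 0 ≤ ∫ z in SqR, ed G (fr k (P z)) / lf z ^ 3 / 3 := by
    intro k
    refine integral_nonneg fun z => ?_
    have hl := pow_pos (lf_pos z) 3
    have := h0 _ (si2_ne (fr k) (P_ne z))
    show (0 : ℝ) ≤ ed G (fr k (P z)) / lf z ^ 3 / 3
    positivity
  have hpos2 : ∀ i : Fin 4, 0 ≤ ∫ z in si2_T,
      ed G (gr i (Wp 0 1 2 3 (bp z.1 z.2))) / (√2 * nW (bp z.1 z.2) ^ 3) / 3 := by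
    intro i
    refine integral_nonneg fun z => ?_
    have hl := si2_nW z
    have := h0 _ (si2_ne (gr i) (si2_q0 z))
    show (0 : ℝ) ≤ ed G (gr i (Wp 0 1 2 3 (bp z.1 z.2))) / (√2 * nW (bp z.1 z.2) ^ 3) / 3
    positivity
  have g0nn : ∀ x, 0 ≤ si2_g (ed G) x := by
    intro x
    by_cases hx : x = 0
    · subst hx; rw [si2_g_zero]
    · rw [si2_g_ne hx]; exact h0 x hx
  have hp : (1 / 3) * SI (ed G) = ∫ x in ball (0 : E) 1 \ {0}, ed G x := (polar_ball hh).symm
  have hms : MeasurableSet (ball (0 : E) 1 \ {0}) := measurableSet_ball.diff (measurableSet_singleton _)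
  have h1 : ∫ x in ball (0 : E) 1 \ {0}, ed G x =
      (∫⁻ x in ball (0 : E) 1 \ {0}, ENNReal.ofReal (si2_g (ed G) x)).toReal := by
    rw [← integral_eq_lintegral_of_nonneg_ae (Filter.Eventually.of_forall g0nn)
      (si2_g_meas hs).aestronglyMeasurable]
    refine setIntegral_congr_fun hms fun x hx => ?_
    exact (si2_g_ne (fun h => hx.2 (by simpa using h))).symm
  have hle : ∫⁻ x in ball (0 : E) 1 \ {0}, ENNReal.ofReal (si2_g (ed G) x) ≤
      ENNReal.ofReal (∑ k : Fin 3, 2 * (EE (jG (fun x => G (fr k x))) / 3) +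
        ∑ i : Fin 4, 2 * (NN (fun x => G (gr i x)) / 3)) := by
    let φ : Fin 3 → (E ≃ₗᵢ[ℝ] E) := fun k => (fr k).trans (LinearIsometryEquiv.neg ℝ)
    have hφ : ∀ k x, φ k x = -(fr k x) := fun k x => rfl
    let χ : Fin 4 → (E ≃ₗᵢ[ℝ] E) := fun i => (gr i).trans (LinearIsometryEquiv.neg ℝ)
    have hχ : ∀ i x, χ i x = -(gr i x) := fun i x => rfl
    have hsub : ball (0 : E) 1 \ {0} ⊆
        (⋃ k : Fin 3, ((ball (0 : E) 1 ∩ (fr k) ⁻¹' Cn SqR) ∪ (ball (0 : E) 1 ∩ (φ k) ⁻¹' Cn SqR))) ∪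
        (⋃ i : Fin 4, ((ball (0 : E) 1 ∩ (gr i) ⁻¹' NC) ∪ (ball (0 : E) 1 ∩ (χ i) ⁻¹' NC))) := by
      intro x hx
      rcases cover2 (x := x) (fun h => hx.2 (by simpa using h)) with ⟨k, hk⟩ | ⟨i, hi⟩
      · refine Or.inl (mem_iUnion.2 ⟨k, ?_⟩)
        rcases hk with hk | hk
        · exact Or.inl ⟨hx.1, hk⟩
        · refine Or.inr ⟨hx.1, ?_⟩
          rw [mem_preimage, hφ]
          exact hk
      · refine Or.inr (mem_iUnion.2 ⟨i, ?_⟩)
        rcases hi with hi | hi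
        · exact Or.inl ⟨hx.1, hi⟩
        · refine Or.inr ⟨hx.1, ?_⟩
          rw [mem_preimage, hχ]
          exact hi
    refine (lintegral_mono_set hsub).trans ?_
    refine (lintegral_union_le _ _ _).trans ?_
    have hE : ∀ k : Fin 3, 0 ≤ EE (jG (fun x => G (fr k x))) / 3 := fun k => by
      rw [← si2_EE h (fr k)]; exact hpos1 k
    have hN : ∀ i : Fin 4, 0 ≤ NN (fun x => G (gr i x)) / 3 := fun i => by
      rw [← si2_NN h (gr i)]; exact hpos2 i
    rw [ENNReal.ofReal_add (Finset.sum_nonneg fun k _ => mul_nonneg zero_le_two (hE k))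
      (Finset.sum_nonneg fun i _ => mul_nonneg zero_le_two (hN i))]
    refine add_le_add ?_ ?_
    · refine (lintegral_iUnion_le _ _).trans ?_
      rw [tsum_fintype, ENNReal.ofReal_sum_of_nonneg (fun k _ => mul_nonneg zero_le_two (hE k))]
      refine Finset.sum_le_sum fun k _ => ?_
      refine (lintegral_union_le _ _ _).trans ?_
      rw [si2_pull hs he (si2_Cn si2_SqR_meas) (fr k) (fr k) (fr_fr k) (Or.inl fun x => rfl),
        si2_pull hs he (si2_Cn si2_SqR_meas) (fr k) (φ k) (fr_fr k) (Or.inr (hφ k)),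
        si2_chart hs hh h0 (fr k), si2_EE h (fr k), two_mul, ENNReal.ofReal_add (hE k) (hE k)]
    · refine (lintegral_iUnion_le _ _).trans ?_
      rw [tsum_fintype, ENNReal.ofReal_sum_of_nonneg (fun i _ => mul_nonneg zero_le_two (hN i))]
      refine Finset.sum_le_sum fun i _ => ?_
      refine (lintegral_union_le _ _ _).trans ?_
      rw [si2_pull hs he measurableSet_NC (gr i) (gr i) (gr_gr i) (Or.inl fun x => rfl),
        si2_pull hs he measurableSet_NC (gr i) (χ i) (gr_gr i) (Or.inr (hχ i)),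
        si2_tri hs hh h0 (gr i), si2_NN h (gr i), two_mul, ENNReal.ofReal_add (hN i) (hN i)]
  have hE : ∀ k : Fin 3, 0 ≤ EE (jG (fun x => G (fr k x))) / 3 := fun k => by
    rw [← si2_EE h (fr k)]; exact hpos1 k
  have hN : ∀ i : Fin 4, 0 ≤ NN (fun x => G (gr i x)) / 3 := fun i => by
    rw [← si2_NN h (gr i)]; exact hpos2 i
  have h2 : (1 / 3) * SI (ed G) ≤ ∑ k : Fin 3, 2 * (EE (jG (fun x => G (fr k x))) / 3) +
        ∑ i : Fin 4, 2 * (NN (fun x => G (gr i x)) / 3) := by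
    rw [hp, h1]
    exact ENNReal.toReal_le_of_le_ofReal (add_nonneg
      (Finset.sum_nonneg fun k _ => mul_nonneg zero_le_two (hE k))
      (Finset.sum_nonneg fun i _ => mul_nonneg zero_le_two (hN i))) hle
  have h3 : ∑ k : Fin 3, 2 * (EE (jG (fun x => G (fr k x))) / 3) =
      (2 / 3) * ∑ k : Fin 3, EE (jG (fun x => G (fr k x))) := by
    rw [Finset.mul_sum]
    refine Finset.sum_congr rfl fun k _ => ?_
    ring
  have h4 : ∑ i : Fin 4, 2 * (NN (fun x => G (gr i x)) / 3) =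
      (2 / 3) * ∑ i : Fin 4, NN (fun x => G (gr i x)) := by
    rw [Finset.mul_sum]
    refine Finset.sum_congr rfl fun i _ => ?_
    ring
  rw [h3, h4] at h2
  linarith

end Pool.Agent.MGF
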