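import Pool.Agent.MGF.Defs2
import Pool.Agent.MGE.GVO
import Pool.Agent.MGF.ISM
import Pool.Agent.MGF.FRG
import Pool.Agent.MGF.SYM
import Pool.Agent.MGF.CLQ
import Pool.Agent.MGF.CLN
import Pool.Agent.MGF.SI2

/-!
TOT (130 lines). Sum of all cells.
PROOF. si_split. For k = 0, 1, 2 cell_sq for G ∘ fr k (FG_comp, bv_comp, Tf_comp with σ of FRG), for i = 0..3 cell_tri0 for G ∘ gr i, and cell_tri1 for the index with be ≤ bv. The twelve side terms: squares give the ordered pairs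
(0,1),(1,0),(3,2),(2,3); (0,2),(2,0),(3,1),(1,3); (0,3),(3,0),(1,2),(2,1); triangles (i,j) for each i all three j. Tf G i j k l and Tf G i j l k have equal side terms
(sF0_sw, sP0_sw). Everything cancels and SI ≤ 2 (3 Es + (3/2) KS + (3/2) KN - Kp/2) ≤ 6 Es by c.tot.
-/

set_option autoImplicit false

open MeasureTheory Set Metric Pool.Agent.MEIS Pool.Agent.MSQ Pool.Agent.MGE

namespace Pool.Agent.MGF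

private theorem tot_sq {F : ℝ → ℝ → ℝ → ℝ → ℝ} {KN Kp KS be bb : ℝ} (c : Cell F KN Kp KS be bb)
    {G : E → ℝ} {R τ : ℝ} (h : FG G R τ) (hb : ∀ i, bv G i ≤ bb) (ψ : E ≃ₗᵢ[ℝ] E)
    {σ : Fin 4 → Fin 4} (hσ : ∀ i, ψ (vv i) = vv (σ i)) :
    EE (jG (fun x => G (ψ x))) ≤ Es + (sF0 F (Tf G (σ 0) (σ 1) (σ 2) (σ 3)) +
        sF0 F (Tf G (σ 1) (σ 0) (σ 2) (σ 3)) + sF0 F (Tf G (σ 3) (σ 2) (σ 0) (σ 1)) +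
        sF0 F (Tf G (σ 2) (σ 3) (σ 0) (σ 1))) / 2 + KS / 2 -
      √2 * (sP0 (Tf G (σ 0) (σ 1) (σ 2) (σ 3)) + sP0 (Tf G (σ 1) (σ 0) (σ 2) (σ 3)) +
        sP0 (Tf G (σ 3) (σ 2) (σ 0) (σ 1)) + sP0 (Tf G (σ 2) (σ 3) (σ 0) (σ 1))) := by
  have h1 := cell_sq c (FG_comp h ψ σ hσ) (fun i => by rw [bv_comp G ψ σ hσ]; exact hb _)
  simp only [Tf_comp G ψ σ hσ] at h1
  exact h1

private theorem tot_t0 {F : ℝ → ℝ → ℝ → ℝ → ℝ} {KN Kp KS be bb : ℝ} (c : Cell F KN Kp KS be bb)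
    {G : E → ℝ} {R τ : ℝ} (h : FG G R τ) (hb : ∀ i, bv G i ≤ bb) (ψ : E ≃ₗᵢ[ℝ] E)
    {σ : Fin 4 → Fin 4} (hσ : ∀ i, ψ (vv i) = vv (σ i)) :
    NN (fun x => G (ψ x)) ≤ -(sF0 F (Tf G (σ 0) (σ 1) (σ 2) (σ 3)) +
        sF0 F (Tf G (σ 0) (σ 2) (σ 1) (σ 3)) + sF0 F (Tf G (σ 0) (σ 3) (σ 1) (σ 2))) / 2 + KN / 2 +
      √2 * (sP0 (Tf G (σ 0) (σ 1) (σ 2) (σ 3)) + sP0 (Tf G (σ 0) (σ 2) (σ 1) (σ 3)) +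
        sP0 (Tf G (σ 0) (σ 3) (σ 1) (σ 2))) := by
  have h1 := cell_tri0 c (FG_comp h ψ σ hσ) (by rw [bv_comp G ψ σ hσ]; exact hb _)
  simp only [Tf_comp G ψ σ hσ] at h1
  exact h1

private theorem tot_t1 {F : ℝ → ℝ → ℝ → ℝ → ℝ} {KN Kp KS be bb : ℝ} (c : Cell F KN Kp KS be bb)
    {G : E → ℝ} {R τ : ℝ} (h : FG G R τ) (hb : ∀ i, bv G i ≤ bb) (ψ : E ≃ₗᵢ[ℝ] E)
    {σ : Fin 4 → Fin 4} (hσ : ∀ i, ψ (vv i) = vv (σ i)) (hb' : be ≤ bv G (σ 0)) :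
    NN (fun x => G (ψ x)) ≤ -(sF0 F (Tf G (σ 0) (σ 1) (σ 2) (σ 3)) +
        sF0 F (Tf G (σ 0) (σ 2) (σ 1) (σ 3)) + sF0 F (Tf G (σ 0) (σ 3) (σ 1) (σ 2))) / 2 + -Kp / 2 +
      √2 * (sP0 (Tf G (σ 0) (σ 1) (σ 2) (σ 3)) + sP0 (Tf G (σ 0) (σ 2) (σ 1) (σ 3)) +
        sP0 (Tf G (σ 0) (σ 3) (σ 1) (σ 2))) := by
  have h1 := cell_tri1 c (FG_comp h ψ σ hσ) (by rw [bv_comp G ψ σ hσ]; exact hb _)
    (by rw [bv_comp G ψ σ hσ]; exact hb')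
  simp only [Tf_comp G ψ σ hσ] at h1
  exact h1.trans_eq (by ring)

private theorem tot_alg {SS e KN KS Kp r q0 q1 q2 n0 n1 n2 n3 c0 c1 c2 c3 : ℝ}
    {f01 f10 f32 f23 f02 f20 f31 f13 f03 f30 f12 f21 : ℝ}
    {p01 p10 p32 p23 p02 p20 p31 p13 p03 p30 p12 p21 : ℝ}
    (hs : SS ≤ 2 * (q0 + q1 + q2 + (n0 + n1 + n2 + n3)))
    (hc : 3 * KN + 3 * KS ≤ Kp) (hK : c0 + c1 + c2 + c3 ≤ 3 * KN - Kp)
    (h0 : q0 ≤ e + (f01 + f10 + f32 + f23) / 2 + KS / 2 -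
      r * (p01 + p10 + p32 + p23))
    (h1 : q1 ≤ e + (f02 + f20 + f31 + f13) / 2 + KS / 2 -
      r * (p02 + p20 + p31 + p13))
    (h2 : q2 ≤ e + (f03 + f30 + f12 + f21) / 2 + KS / 2 -
      r * (p03 + p30 + p12 + p21))
    (t0 : n0 ≤ -(f01 + f02 + f03) / 2 + c0 / 2 + r * (p01 + p02 + p03))
    (t1 : n1 ≤ -(f10 + f12 + f13) / 2 + c1 / 2 + r * (p10 + p12 + p13))
    (t2 : n2 ≤ -(f21 + f20 + f23) / 2 + c2 / 2 + r * (p21 + p20 + p23))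
    (t3 : n3 ≤ -(f31 + f32 + f30) / 2 + c3 / 2 + r * (p31 + p32 + p30)) :
    SS ≤ 6 * e := by
  linarith

theorem total {F : ℝ → ℝ → ℝ → ℝ → ℝ} {KN Kp KS be bb : ℝ} (c : Cell F KN Kp KS be bb)
    {G : E → ℝ} {R τ : ℝ} (h : FG G R τ) (hb : ∀ i, bv G i ≤ bb) (he : ∃ i, be ≤ bv G i) (h0 : 0 ≤ KN) :
    SI (ed G) ≤ 6 * Es := by
  have hs := si_split h.sb h.tau.le
  rw [Fin.sum_univ_three, Fin.sum_univ_four] at hs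
  have hc := c.tot
  have hF := c.sym
  have hG : Sm 3 G := h.sb.sm
  have q0 : EE (jG (fun x => G (fr 0 x))) ≤ Es + (sF0 F (Tf G 0 1 2 3) + sF0 F (Tf G 1 0 2 3) +
      sF0 F (Tf G 3 2 0 1) + sF0 F (Tf G 2 3 0 1)) / 2 + KS / 2 -
      √2 * (sP0 (Tf G 0 1 2 3) + sP0 (Tf G 1 0 2 3) + sP0 (Tf G 3 2 0 1) + sP0 (Tf G 2 3 0 1)) :=
    tot_sq c h hb (fr 0) (σ := ![0, 1, 2, 3]) fr0_vv
  have q1 : EE (jG (fun x => G (fr 1 x))) ≤ Es + (sF0 F (Tf G 0 2 1 3) + sF0 F (Tf G 2 0 1 3) +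
      sF0 F (Tf G 3 1 0 2) + sF0 F (Tf G 1 3 0 2)) / 2 + KS / 2 -
      √2 * (sP0 (Tf G 0 2 1 3) + sP0 (Tf G 2 0 1 3) + sP0 (Tf G 3 1 0 2) + sP0 (Tf G 1 3 0 2)) :=
    tot_sq c h hb (fr 1) (σ := ![0, 2, 1, 3]) fr1_vv
  have q2 : EE (jG (fun x => G (fr 2 x))) ≤ Es + (sF0 F (Tf G 0 3 2 1) + sF0 F (Tf G 3 0 2 1) +
      sF0 F (Tf G 1 2 0 3) + sF0 F (Tf G 2 1 0 3)) / 2 + KS / 2 -
      √2 * (sP0 (Tf G 0 3 2 1) + sP0 (Tf G 3 0 2 1) + sP0 (Tf G 1 2 0 3) + sP0 (Tf G 2 1 0 3)) :=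
    tot_sq c h hb (fr 2) (σ := ![0, 3, 2, 1]) fr2_vv
  have a0 : NN (fun x => G (gr 0 x)) ≤ -(sF0 F (Tf G 0 1 2 3) + sF0 F (Tf G 0 2 1 3) +
      sF0 F (Tf G 0 3 1 2)) / 2 + KN / 2 +
      √2 * (sP0 (Tf G 0 1 2 3) + sP0 (Tf G 0 2 1 3) + sP0 (Tf G 0 3 1 2)) :=
    tot_t0 c h hb (gr 0) (σ := ![0, 1, 2, 3]) gr0_vv
  have a1 : NN (fun x => G (gr 1 x)) ≤ -(sF0 F (Tf G 1 0 2 3) + sF0 F (Tf G 1 2 0 3) +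
      sF0 F (Tf G 1 3 0 2)) / 2 + KN / 2 +
      √2 * (sP0 (Tf G 1 0 2 3) + sP0 (Tf G 1 2 0 3) + sP0 (Tf G 1 3 0 2)) :=
    tot_t0 c h hb (gr 1) (σ := ![1, 0, 2, 3]) gr1_vv
  have a2 : NN (fun x => G (gr 2 x)) ≤ -(sF0 F (Tf G 2 1 0 3) + sF0 F (Tf G 2 0 1 3) +
      sF0 F (Tf G 2 3 1 0)) / 2 + KN / 2 +
      √2 * (sP0 (Tf G 2 1 0 3) + sP0 (Tf G 2 0 1 3) + sP0 (Tf G 2 3 1 0)) :=
    tot_t0 c h hb (gr 2) (σ := ![2, 1, 0, 3]) gr2_vv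
  have a3 : NN (fun x => G (gr 3 x)) ≤ -(sF0 F (Tf G 3 1 2 0) + sF0 F (Tf G 3 2 1 0) +
      sF0 F (Tf G 3 0 1 2)) / 2 + KN / 2 +
      √2 * (sP0 (Tf G 3 1 2 0) + sP0 (Tf G 3 2 1 0) + sP0 (Tf G 3 0 1 2)) :=
    tot_t0 c h hb (gr 3) (σ := ![3, 1, 2, 0]) gr3_vv
  rw [sF0_sw hF G 0 3 2 1, sF0_sw hF G 3 0 2 1, sP0_sw hG (i := 0) (j := 3) (k := 2) (l := 1) (by decide),
    sP0_sw hG (i := 3) (j := 0) (k := 2) (l := 1) (by decide)] at q2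
  rw [sF0_sw hF G 2 3 1 0, sP0_sw hG (i := 2) (j := 3) (k := 1) (l := 0) (by decide)] at a2
  rw [sF0_sw hF G 3 1 2 0, sP0_sw hG (i := 3) (j := 1) (k := 2) (l := 0) (by decide),
    sF0_sw hF G 3 2 1 0, sP0_sw hG (i := 3) (j := 2) (k := 1) (l := 0) (by decide)] at a3
  obtain ⟨i, hi⟩ := he
  have hcase : i = 0 ∨ i = 1 ∨ i = 2 ∨ i = 3 := by
    fin_cases i <;> simp
  rcases hcase with rfl | rfl | rfl | rfl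
  · have b0 : NN (fun x => G (gr 0 x)) ≤ -(sF0 F (Tf G 0 1 2 3) + sF0 F (Tf G 0 2 1 3) +
        sF0 F (Tf G 0 3 1 2)) / 2 + -Kp / 2 +
        √2 * (sP0 (Tf G 0 1 2 3) + sP0 (Tf G 0 2 1 3) + sP0 (Tf G 0 3 1 2)) :=
      tot_t1 c h hb (gr 0) (σ := ![0, 1, 2, 3]) gr0_vv hi
    exact tot_alg hs hc (by linarith) q0 q1 q2 b0 a1 a2 a3
  · have b1 : NN (fun x => G (gr 1 x)) ≤ -(sF0 F (Tf G 1 0 2 3) + sF0 F (Tf G 1 2 0 3) +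
        sF0 F (Tf G 1 3 0 2)) / 2 + -Kp / 2 +
        √2 * (sP0 (Tf G 1 0 2 3) + sP0 (Tf G 1 2 0 3) + sP0 (Tf G 1 3 0 2)) :=
      tot_t1 c h hb (gr 1) (σ := ![1, 0, 2, 3]) gr1_vv hi
    exact tot_alg hs hc (by linarith) q0 q1 q2 a0 b1 a2 a3
  · have b2 : NN (fun x => G (gr 2 x)) ≤ -(sF0 F (Tf G 2 1 0 3) + sF0 F (Tf G 2 0 1 3) +
        sF0 F (Tf G 2 3 1 0)) / 2 + -Kp / 2 +
        √2 * (sP0 (Tf G 2 1 0 3) + sP0 (Tf G 2 0 1 3) + sP0 (Tf G 2 3 1 0)) :=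
      tot_t1 c h hb (gr 2) (σ := ![2, 1, 0, 3]) gr2_vv hi
    rw [sF0_sw hF G 2 3 1 0, sP0_sw hG (i := 2) (j := 3) (k := 1) (l := 0) (by decide)] at b2
    exact tot_alg hs hc (by linarith) q0 q1 q2 a0 a1 b2 a3
  · have b3 : NN (fun x => G (gr 3 x)) ≤ -(sF0 F (Tf G 3 1 2 0) + sF0 F (Tf G 3 2 1 0) +
        sF0 F (Tf G 3 0 1 2)) / 2 + -Kp / 2 +
        √2 * (sP0 (Tf G 3 1 2 0) + sP0 (Tf G 3 2 1 0) + sP0 (Tf G 3 0 1 2)) :=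
      tot_t1 c h hb (gr 3) (σ := ![3, 1, 2, 0]) gr3_vv hi
    rw [sF0_sw hF G 3 1 2 0, sP0_sw hG (i := 3) (j := 1) (k := 2) (l := 0) (by decide),
      sF0_sw hF G 3 2 1 0, sP0_sw hG (i := 3) (j := 2) (k := 1) (l := 0) (by decide)] at b3
    exact tot_alg hs hc (by linarith) q0 q1 q2 a0 a1 a2 b3

end Pool.Agent.MGF
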