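import Pool.Agent.MGF.Defs2
import Pool.Agent.MGF.JTG
/-!
JMP (110 lines). Matching on the curve 3Y² = 1 + X² between core and slivers.
PROOF. g = gG X > 0, 3 g² = 1 + X². η = cJ - sJ 1 at (X, g): value and first derivatives vanish: with l = lf (X,g), l² = 1+X²+g² = 4 g², l = 2 g; √(1+X²) = √3 g, so
cJ.f = (3/2) g - c/2 = l - g/2 - c/2; cJ.fX = X/(2g) = lJ.fX; cJ.fY = 0 = g/l - 1/2. So A and A_X, A_Y agree for both reference jets, and f's second derivatives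
differ by -η_XX, -η_XY, -η_YY, η_YY = -l_YY, η_XY = -l_XY, η_XX = cJ.fXX - l_XX, with η_XX + g' η_XY = 0, η_XY + g' η_YY = 0, g' = X/(3g):
l_XY = -Xg/l³, l_YY = (1+X²)/l³, so l_XY + g' l_YY = (-Xg + X·3g²/(3g))/l³ = 0; l_XX = (1+g²)/l³, cJ.fXX = (√3/2)/(√3 g)³ = 1/(6g³), and l³ = 8g³:
(1+g²)/(8g³) - (X/(3g))·... : 1/(6g³) - (1+g²)/(8g³) + (X²/3)/(8g³) = (8 - 6 - 6g² + 2X²)/(48 g³) = 0 as 2X² = 6g² - 2. Then the two claims are linear identities in η_XX, η_XY, η_YY.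
-/
set_option autoImplicit false

open MeasureTheory Set Metric Pool.Agent.MEIS Pool.Agent.MSQ Pool.Agent.MGE

namespace Pool.Agent.MGF


private theorem jmp_alg (L LX LY A AX AY a1 b1 c1 a2 b2 c2 k : ℝ) (h1 : b1 - b2 = -k * (c1 - c2))
    (h2 : a1 - a2 = -k * (b1 - b2)) :
    (L * (AY * a1 - AX * b1) - A * (LY * a1 - LX * b1)) -
      (L * (AY * a2 - AX * b2) - A * (LY * a2 - LX * b2)) =
    k * ((L * (AX * c1 - AY * b1) - A * (LX * c1 - LY * b1)) -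
      (L * (AX * c2 - AY * b2) - A * (LX * c2 - LY * b2))) := by
  linear_combination (L * AY - A * LY) * h2 - (L * AX - A * LX) * h1

private theorem jmp_pos (X : ℝ) : 0 < gG X := Real.sqrt_pos.2 (by positivity)

private theorem jmp_sq (X : ℝ) : 3 * gG X ^ 2 = 1 + X ^ 2 := by
  unfold gG
  rw [Real.sq_sqrt (by positivity)]; ring

private theorem jmp_lf (X : ℝ) : lf (X, gG X) = 2 * gG X := by
  unfold lf
  have h := jmp_sq X
  rw [show (1 + (X, gG X).1 ^ 2 + (X, gG X).2 ^ 2 : ℝ) = (2 * gG X) ^ 2 by simp only; linear_combination -h]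
  exact Real.sqrt_sq (by linarith [jmp_pos X])

private theorem jmp_lf' (X : ℝ) : lf (X, -gG X) = 2 * gG X := by
  unfold lf
  have h := jmp_sq X
  rw [show (1 + (X, -gG X).1 ^ 2 + (X, -gG X).2 ^ 2 : ℝ) = (2 * gG X) ^ 2 by simp only; linear_combination -h]
  exact Real.sqrt_sq (by linarith [jmp_pos X])

private theorem jmp_w (X : ℝ) : √(1 + X ^ 2) = √3 * gG X := by
  rw [← jmp_sq X, Real.sqrt_mul (by norm_num), Real.sqrt_sq (jmp_pos X).le]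

private theorem jmp_s3 : √3 * √3 = (3 : ℝ) := Real.mul_self_sqrt (by norm_num)

private theorem jmp_cf (X Y : ℝ) : cJ.f (X, Y) = 3 / 2 * gG X - cc / 2 := by
  show √3 / 2 * √(1 + X ^ 2) - cc / 2 = _
  rw [jmp_w]
  linear_combination (gG X / 2) * jmp_s3

private theorem jmp_cX (X Y : ℝ) : cJ.fX (X, Y) = X / (2 * gG X) := by
  show √3 / 2 * X / √(1 + X ^ 2) = _
  rw [jmp_w]
  have h3 : (√3 : ℝ) ≠ 0 := by positivity
  have hg := (jmp_pos X).ne'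
  field_simp

private theorem jmp_cXX (X Y : ℝ) : cJ.fXX (X, Y) = 1 / (6 * gG X ^ 3) := by
  show √3 / 2 / √(1 + X ^ 2) ^ 3 = _
  rw [jmp_w]
  have h3 : (√3 : ℝ) ≠ 0 := by positivity
  have hg := (jmp_pos X).ne'
  rw [div_div, div_eq_div_iff (by positivity) (by positivity)]
  rw [mul_pow, show (√3 : ℝ) ^ 3 = √3 * (√3 * √3) by ring, jmp_s3]
  ring

private theorem jmp_id1 (X : ℝ) : (1 + gG X ^ 2) / (2 * gG X) ^ 3 - 1 / (6 * gG X ^ 3) =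
    X / (3 * gG X) * (X / (8 * gG X ^ 2)) := by
  have hg := (jmp_pos X).ne'
  have h := jmp_sq X
  field_simp
  linear_combination 48 * h

private theorem jmp_id2 (X : ℝ) : (1 + X ^ 2) / (2 * gG X) ^ 3 = 3 / (8 * gG X) := by
  have hg := (jmp_pos X).ne'
  have h := jmp_sq X
  rw [← h]
  field_simp
  ring

private theorem jmp_id3 (X : ℝ) : X * gG X / (2 * gG X) ^ 3 = X / (8 * gG X ^ 2) := by
  have hg := (jmp_pos X).ne'
  field_simp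
  ring

private theorem jmp_id4 (X : ℝ) : X / (3 * gG X) * (3 / (8 * gG X)) = X / (8 * gG X ^ 2) := by
  have hg := (jmp_pos X).ne'
  field_simp

theorem jump_up (J : Jet) (X : ℝ) :
    VY lJ (jA cJ J) (jf cJ J) (X, gG X) - VY lJ (jA (sJ 1) J) (jf (sJ 1) J) (X, gG X) =
      X / (3 * gG X) * (VX lJ (jA cJ J) (jf cJ J) (X, gG X) -
        VX lJ (jA (sJ 1) J) (jf (sJ 1) J) (X, gG X)) := by
  have hg := (jmp_pos X).ne'
  have e1 : (sJ 1).f (X, gG X) = cJ.f (X, gG X) := by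
    rw [jmp_cf]
    show lf (X, gG X) - 1 * gG X / 2 - cc / 2 = _
    rw [jmp_lf]; ring
  have e2 : (sJ 1).fX (X, gG X) = cJ.fX (X, gG X) := by
    rw [jmp_cX]
    show X / lf (X, gG X) = _
    rw [jmp_lf]
  have e3 : (sJ 1).fY (X, gG X) = cJ.fY (X, gG X) := by
    show gG X / lf (X, gG X) - 1 / 2 = 0
    rw [jmp_lf]; field_simp; ring
  have c1 : (sJ 1).fXX (X, gG X) - cJ.fXX (X, gG X) = X / (3 * gG X) * (X / (8 * gG X ^ 2)) := by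
    rw [jmp_cXX, ← jmp_id1]
    show (1 + gG X ^ 2) / lf (X, gG X) ^ 3 - _ = _
    rw [jmp_lf]
  have c2 : (sJ 1).fXY (X, gG X) - cJ.fXY (X, gG X) = -(X / (8 * gG X ^ 2)) := by
    show -(X * gG X) / lf (X, gG X) ^ 3 - 0 = _
    rw [jmp_lf, ← jmp_id3]; ring
  have c3 : (sJ 1).fYY (X, gG X) - cJ.fYY (X, gG X) = 3 / (8 * gG X) := by
    show (1 + X ^ 2) / lf (X, gG X) ^ 3 - 0 = _
    rw [jmp_lf, ← jmp_id2]; ring
  have key := jmp_alg (lJ.f (X, gG X)) (lJ.fX (X, gG X)) (lJ.fY (X, gG X))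
    (cJ.f (X, gG X) - J.f (X, gG X)) (cJ.fX (X, gG X) - J.fX (X, gG X)) (cJ.fY (X, gG X) - J.fY (X, gG X))
    (lJ.fXX (X, gG X) - cJ.fXX (X, gG X) - J.fXX (X, gG X))
    (lJ.fXY (X, gG X) - cJ.fXY (X, gG X) - J.fXY (X, gG X))
    (lJ.fYY (X, gG X) - cJ.fYY (X, gG X) - J.fYY (X, gG X))
    (lJ.fXX (X, gG X) - (sJ 1).fXX (X, gG X) - J.fXX (X, gG X))
    (lJ.fXY (X, gG X) - (sJ 1).fXY (X, gG X) - J.fXY (X, gG X))
    (lJ.fYY (X, gG X) - (sJ 1).fYY (X, gG X) - J.fYY (X, gG X)) (X / (3 * gG X))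
    (by linear_combination c2 + X / (3 * gG X) * c3 + jmp_id4 X)
    (by linear_combination c1 + X / (3 * gG X) * c2)
  show lJ.f (X, gG X) * ((cJ.fY (X, gG X) - J.fY (X, gG X)) * (lJ.fXX (X, gG X) - cJ.fXX (X, gG X) - J.fXX (X, gG X)) -
      (cJ.fX (X, gG X) - J.fX (X, gG X)) * (lJ.fXY (X, gG X) - cJ.fXY (X, gG X) - J.fXY (X, gG X))) -
      (cJ.f (X, gG X) - J.f (X, gG X)) * (lJ.fY (X, gG X) * (lJ.fXX (X, gG X) - cJ.fXX (X, gG X) - J.fXX (X, gG X)) -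
        lJ.fX (X, gG X) * (lJ.fXY (X, gG X) - cJ.fXY (X, gG X) - J.fXY (X, gG X))) -
    (lJ.f (X, gG X) * (((sJ 1).fY (X, gG X) - J.fY (X, gG X)) * (lJ.fXX (X, gG X) - (sJ 1).fXX (X, gG X) - J.fXX (X, gG X)) -
      ((sJ 1).fX (X, gG X) - J.fX (X, gG X)) * (lJ.fXY (X, gG X) - (sJ 1).fXY (X, gG X) - J.fXY (X, gG X))) -
      ((sJ 1).f (X, gG X) - J.f (X, gG X)) * (lJ.fY (X, gG X) * (lJ.fXX (X, gG X) - (sJ 1).fXX (X, gG X) - J.fXX (X, gG X)) -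
        lJ.fX (X, gG X) * (lJ.fXY (X, gG X) - (sJ 1).fXY (X, gG X) - J.fXY (X, gG X)))) =
    X / (3 * gG X) * (lJ.f (X, gG X) * ((cJ.fX (X, gG X) - J.fX (X, gG X)) * (lJ.fYY (X, gG X) - cJ.fYY (X, gG X) - J.fYY (X, gG X)) -
      (cJ.fY (X, gG X) - J.fY (X, gG X)) * (lJ.fXY (X, gG X) - cJ.fXY (X, gG X) - J.fXY (X, gG X))) -
      (cJ.f (X, gG X) - J.f (X, gG X)) * (lJ.fX (X, gG X) * (lJ.fYY (X, gG X) - cJ.fYY (X, gG X) - J.fYY (X, gG X)) -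
        lJ.fY (X, gG X) * (lJ.fXY (X, gG X) - cJ.fXY (X, gG X) - J.fXY (X, gG X))) -
    (lJ.f (X, gG X) * (((sJ 1).fX (X, gG X) - J.fX (X, gG X)) * (lJ.fYY (X, gG X) - (sJ 1).fYY (X, gG X) - J.fYY (X, gG X)) -
      ((sJ 1).fY (X, gG X) - J.fY (X, gG X)) * (lJ.fXY (X, gG X) - (sJ 1).fXY (X, gG X) - J.fXY (X, gG X))) -
      ((sJ 1).f (X, gG X) - J.f (X, gG X)) * (lJ.fX (X, gG X) * (lJ.fYY (X, gG X) - (sJ 1).fYY (X, gG X) - J.fYY (X, gG X)) -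
        lJ.fY (X, gG X) * (lJ.fXY (X, gG X) - (sJ 1).fXY (X, gG X) - J.fXY (X, gG X)))))
  rw [e1, e2, e3]
  exact key
theorem jump_dn (J : Jet) (X : ℝ) :
    VY lJ (jA cJ J) (jf cJ J) (X, -gG X) - VY lJ (jA (sJ (-1)) J) (jf (sJ (-1)) J) (X, -gG X) =
      -(X / (3 * gG X)) * (VX lJ (jA cJ J) (jf cJ J) (X, -gG X) -
        VX lJ (jA (sJ (-1)) J) (jf (sJ (-1)) J) (X, -gG X)) := by
  have hg := (jmp_pos X).ne'
  have e1 : (sJ (-1)).f (X, -gG X) = cJ.f (X, -gG X) := by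
    rw [jmp_cf]
    show lf (X, -gG X) - (-1) * -gG X / 2 - cc / 2 = _
    rw [jmp_lf']; ring
  have e2 : (sJ (-1)).fX (X, -gG X) = cJ.fX (X, -gG X) := by
    rw [jmp_cX]
    show X / lf (X, -gG X) = _
    rw [jmp_lf']
  have e3 : (sJ (-1)).fY (X, -gG X) = cJ.fY (X, -gG X) := by
    show -gG X / lf (X, -gG X) - (-1) / 2 = 0
    rw [jmp_lf']; field_simp; ring
  have c1 : (sJ (-1)).fXX (X, -gG X) - cJ.fXX (X, -gG X) = X / (3 * gG X) * (X / (8 * gG X ^ 2)) := by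
    rw [jmp_cXX, ← jmp_id1]
    show (1 + (-gG X) ^ 2) / lf (X, -gG X) ^ 3 - _ = _
    rw [jmp_lf', neg_sq]
  have c2 : (sJ (-1)).fXY (X, -gG X) - cJ.fXY (X, -gG X) = X / (8 * gG X ^ 2) := by
    show -(X * -gG X) / lf (X, -gG X) ^ 3 - 0 = _
    rw [jmp_lf', ← jmp_id3]; ring
  have c3 : (sJ (-1)).fYY (X, -gG X) - cJ.fYY (X, -gG X) = 3 / (8 * gG X) := by
    show (1 + X ^ 2) / lf (X, -gG X) ^ 3 - 0 = _
    rw [jmp_lf', ← jmp_id2]; ring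
  have key := jmp_alg (lJ.f (X, -gG X)) (lJ.fX (X, -gG X)) (lJ.fY (X, -gG X))
    (cJ.f (X, -gG X) - J.f (X, -gG X)) (cJ.fX (X, -gG X) - J.fX (X, -gG X)) (cJ.fY (X, -gG X) - J.fY (X, -gG X))
    (lJ.fXX (X, -gG X) - cJ.fXX (X, -gG X) - J.fXX (X, -gG X))
    (lJ.fXY (X, -gG X) - cJ.fXY (X, -gG X) - J.fXY (X, -gG X))
    (lJ.fYY (X, -gG X) - cJ.fYY (X, -gG X) - J.fYY (X, -gG X))
    (lJ.fXX (X, -gG X) - (sJ (-1)).fXX (X, -gG X) - J.fXX (X, -gG X))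
    (lJ.fXY (X, -gG X) - (sJ (-1)).fXY (X, -gG X) - J.fXY (X, -gG X))
    (lJ.fYY (X, -gG X) - (sJ (-1)).fYY (X, -gG X) - J.fYY (X, -gG X)) (-(X / (3 * gG X)))
    (by linear_combination c2 - X / (3 * gG X) * c3 - jmp_id4 X)
    (by linear_combination c1 - X / (3 * gG X) * c2)
  show lJ.f (X, -gG X) * ((cJ.fY (X, -gG X) - J.fY (X, -gG X)) * (lJ.fXX (X, -gG X) - cJ.fXX (X, -gG X) - J.fXX (X, -gG X)) -
      (cJ.fX (X, -gG X) - J.fX (X, -gG X)) * (lJ.fXY (X, -gG X) - cJ.fXY (X, -gG X) - J.fXY (X, -gG X))) -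
      (cJ.f (X, -gG X) - J.f (X, -gG X)) * (lJ.fY (X, -gG X) * (lJ.fXX (X, -gG X) - cJ.fXX (X, -gG X) - J.fXX (X, -gG X)) -
        lJ.fX (X, -gG X) * (lJ.fXY (X, -gG X) - cJ.fXY (X, -gG X) - J.fXY (X, -gG X))) -
    (lJ.f (X, -gG X) * (((sJ (-1)).fY (X, -gG X) - J.fY (X, -gG X)) * (lJ.fXX (X, -gG X) - (sJ (-1)).fXX (X, -gG X) - J.fXX (X, -gG X)) -
      ((sJ (-1)).fX (X, -gG X) - J.fX (X, -gG X)) * (lJ.fXY (X, -gG X) - (sJ (-1)).fXY (X, -gG X) - J.fXY (X, -gG X))) -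
      ((sJ (-1)).f (X, -gG X) - J.f (X, -gG X)) * (lJ.fY (X, -gG X) * (lJ.fXX (X, -gG X) - (sJ (-1)).fXX (X, -gG X) - J.fXX (X, -gG X)) -
        lJ.fX (X, -gG X) * (lJ.fXY (X, -gG X) - (sJ (-1)).fXY (X, -gG X) - J.fXY (X, -gG X)))) =
    -(X / (3 * gG X)) * (lJ.f (X, -gG X) * ((cJ.fX (X, -gG X) - J.fX (X, -gG X)) * (lJ.fYY (X, -gG X) - cJ.fYY (X, -gG X) - J.fYY (X, -gG X)) -
      (cJ.fY (X, -gG X) - J.fY (X, -gG X)) * (lJ.fXY (X, -gG X) - cJ.fXY (X, -gG X) - J.fXY (X, -gG X))) -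
      (cJ.f (X, -gG X) - J.f (X, -gG X)) * (lJ.fX (X, -gG X) * (lJ.fYY (X, -gG X) - cJ.fYY (X, -gG X) - J.fYY (X, -gG X)) -
        lJ.fY (X, -gG X) * (lJ.fXY (X, -gG X) - cJ.fXY (X, -gG X) - J.fXY (X, -gG X))) -
    (lJ.f (X, -gG X) * (((sJ (-1)).fX (X, -gG X) - J.fX (X, -gG X)) * (lJ.fYY (X, -gG X) - (sJ (-1)).fYY (X, -gG X) - J.fYY (X, -gG X)) -
      ((sJ (-1)).fY (X, -gG X) - J.fY (X, -gG X)) * (lJ.fXY (X, -gG X) - (sJ (-1)).fXY (X, -gG X) - J.fXY (X, -gG X))) -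
      ((sJ (-1)).f (X, -gG X) - J.f (X, -gG X)) * (lJ.fX (X, -gG X) * (lJ.fYY (X, -gG X) - (sJ (-1)).fYY (X, -gG X) - J.fYY (X, -gG X)) -
        lJ.fY (X, -gG X) * (lJ.fXY (X, -gG X) - (sJ (-1)).fXY (X, -gG X) - J.fXY (X, -gG X)))))
  rw [e1, e2, e3]
  exact key
theorem gG_deriv (X : ℝ) : HasDerivAt gG (X / (3 * gG X)) X := by
  have h := jmp_sq X
  have hg := (jmp_pos X).ne'
  have h1 : HasDerivAt (fun x : ℝ => (1 + x ^ 2) / 3) (2 * X / 3) X := by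
    have := ((hasDerivAt_pow 2 X).const_add 1).div_const 3
    simpa using this
  have h2 := h1.sqrt (by positivity)
  have h3 : 2 * X / 3 / (2 * √((1 + X ^ 2) / 3)) = X / (3 * gG X) := by
    show 2 * X / 3 / (2 * gG X) = X / (3 * gG X)
    field_simp
  rw [← h3]
  exact h2
theorem gG_cc : gG cc = cc := by
  unfold gG
  rw [cc_sq, show ((1 : ℝ) + 1 / 2) / 3 = cc ^ 2 by rw [cc_sq]; norm_num]
  exact Real.sqrt_sq cc_pos.le
theorem gG_mcc : gG (-cc) = cc := by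
  have h : gG (-cc) = gG cc := by unfold gG; rw [neg_sq]
  rw [h, gG_cc]
theorem gG_pos (X : ℝ) : 0 < gG X := jmp_pos X
theorem gG_le {X : ℝ} (h : |X| ≤ cc) : gG X ≤ cc := by
  rw [← gG_cc]
  unfold gG
  apply Real.sqrt_le_sqrt
  have h2 : X ^ 2 ≤ cc ^ 2 := by
    rw [← sq_abs X]
    exact pow_le_pow_left₀ (abs_nonneg X) h 2
  linarith

end Pool.Agent.MGF
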