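import Pool.Agent.MGF.Defs2
/-!
LEI (120 lines). Leibniz rule with moving end points.
PROOF. Substitute Y = a(X) + s (b(X) - a(X)): ∫_{a X}^{b X} g (X,Y) dY = (b X - a X) ∫_0^1 g (X, a X + s (b X - a X)) ds. The integrand is differentiable in X? only g_X is
given, so use instead: for fixed X, Φ(X, y) = ∫_0^y g (X, Y) dY has first derivatives ∫_0^y gX (X, Y) dY (hasDerivAt_integral_of_dominated_loc_of_deriv_le or
intervalIntegral parametric version; gX continuous) and g (X, y), both jointly continuous, so Φ is C¹ (HasFDerivAt from continuous partials: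
hasStrictFDerivAt_of_partial... or HasFDerivAt.of_partial / hasFDerivAt_of_partial_snd_continuousAt); chain rule for X ↦ Φ (X, b X) - Φ (X, a X), then FTC
(integral_eq_sub_of_hasDerivAt; the derivative is continuous on [p,q]). (If the first derivative lemma is awkward: prove the statement for the difference quotient in
two steps Φ(X',b X') - Φ(X,b X) = [Φ(X',b X') - Φ(X, b X')] + [Φ(X,b X') - Φ(X,b X)] with the mean value theorem.)
-/
set_option autoImplicit false

open MeasureTheory Set Metric Pool.Agent.MEIS Pool.Agent.MSQ Pool.Agent.MGE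

namespace Pool.Agent.MGF

private theorem lei_cont {g : ℝ × ℝ → ℝ} (hg : Continuous g) :
    Continuous fun z : ℝ × ℝ => ∫ Y in (0 : ℝ)..z.2, g (z.1, Y) :=
  intervalIntegral.continuous_parametric_intervalIntegral_of_continuous
    (f := fun (z : ℝ × ℝ) (Y : ℝ) => g (z.1, Y)) (by
      exact hg.comp ((continuous_fst.comp continuous_fst).prodMk continuous_snd)) continuous_snd

private theorem lei_slice {g : ℝ × ℝ → ℝ} (hg : Continuous g) (X : ℝ) :
    Continuous fun Y : ℝ => g (X, Y) :=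
  hg.comp (continuous_const.prodMk continuous_id)

private theorem lei_x {g gX : ℝ × ℝ → ℝ} (hg : Continuous g) (hgX : Continuous gX)
    (hd : ∀ X Y, HasDerivAt (fun t => g (t, Y)) (gX (X, Y)) X) (X y : ℝ) :
    HasDerivAt (fun x => ∫ Y in (0 : ℝ)..y, g (x, Y)) (∫ Y in (0 : ℝ)..y, gX (X, Y)) X := by
  obtain ⟨M, hM⟩ := ((isCompact_closedBall X 1).prod (isCompact_uIcc (a := (0 : ℝ)) (b := y))).exists_bound_of_continuousOn
    hgX.continuousOn
  refine (intervalIntegral.hasDerivAt_integral_of_dominated_loc_of_deriv_le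
    (F := fun x Y => g (x, Y)) (F' := fun x Y => gX (x, Y)) (bound := fun _ => M)
    (closedBall_mem_nhds X one_pos) ?_ ?_ ?_ ?_ ?_ ?_).2
  · exact Filter.Eventually.of_forall fun x => (lei_slice hg x).aestronglyMeasurable
  · exact (lei_slice hg X).intervalIntegrable _ _
  · exact (lei_slice hgX X).aestronglyMeasurable
  · refine Filter.Eventually.of_forall fun t ht x hx => ?_
    exact hM (x, t) ⟨hx, uIoc_subset_uIcc ht⟩
  · exact intervalIntegrable_const
  · exact Filter.Eventually.of_forall fun t _ x _ => hd x t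

private theorem lei_y {g : ℝ × ℝ → ℝ} (hg : Continuous g) (X y : ℝ) :
    HasDerivAt (fun y => ∫ Y in (0 : ℝ)..y, g (X, Y)) (g (X, y)) y :=
  intervalIntegral.integral_hasDerivAt_right ((lei_slice hg X).intervalIntegrable _ _)
    ((lei_slice hg X).stronglyMeasurableAtFilter _ _) (lei_slice hg X).continuousAt

private theorem lei_strict {g gX : ℝ × ℝ → ℝ} (hg : Continuous g) (hgX : Continuous gX)
    (hd : ∀ X Y, HasDerivAt (fun t => g (t, Y)) (gX (X, Y)) X) (u : ℝ × ℝ) :
    HasFDerivAt (fun z : ℝ × ℝ => ∫ Y in (0 : ℝ)..z.2, g (z.1, Y))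
      (((ContinuousLinearMap.toSpanSingleton ℝ (∫ Y in (0 : ℝ)..u.2, gX (u.1, Y)))).coprod
        (ContinuousLinearMap.toSpanSingleton ℝ (g (u.1, u.2)))) u := by
  have h := hasStrictFDerivAt_uncurry_coprod (𝕜 := ℝ) (u := u)
    (f := fun x y => ∫ Y in (0 : ℝ)..y, g (x, Y))
    (f₁ := fun x y => ContinuousLinearMap.toSpanSingleton ℝ (∫ Y in (0 : ℝ)..y, gX (x, Y)))
    (f₂ := fun x y => ContinuousLinearMap.toSpanSingleton ℝ (g (x, y)))
    (Filter.Eventually.of_forall fun v => (lei_x hg hgX hd v.1 v.2).hasFDerivAt)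
    (Filter.Eventually.of_forall fun v => (lei_y hg v.1 v.2).hasFDerivAt)
    ?_ ?_
  · exact h.hasFDerivAt
  · exact (ContinuousLinearMap.continuous
      (ContinuousLinearMap.toSpanSingletonCLE (𝕜 := ℝ) (E := ℝ) : ℝ →L[ℝ] (ℝ →L[ℝ] ℝ))).comp (lei_cont hgX) |>.continuousAt
  · exact (ContinuousLinearMap.continuous
      (ContinuousLinearMap.toSpanSingletonCLE (𝕜 := ℝ) (E := ℝ) : ℝ →L[ℝ] (ℝ →L[ℝ] ℝ))).comp hg |>.continuousAt

private theorem lei_along {g gX : ℝ × ℝ → ℝ} (hg : Continuous g) (hgX : Continuous gX)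
    (hd : ∀ X Y, HasDerivAt (fun t => g (t, Y)) (gX (X, Y)) X) {b : ℝ → ℝ} {b' X : ℝ}
    (hb : HasDerivAt b b' X) :
    HasDerivAt (fun x => ∫ Y in (0 : ℝ)..b x, g (x, Y))
      ((∫ Y in (0 : ℝ)..b X, gX (X, Y)) + b' * g (X, b X)) X := by
  have h1 : HasDerivAt (fun x : ℝ => (x, b x)) ((1 : ℝ), b') X := (hasDerivAt_id X).prodMk hb
  have h2 := (lei_strict hg hgX hd (X, b X)).comp_hasDerivAt X h1
  refine h2.congr_deriv ?_
  simp

private theorem lei_split {g : ℝ × ℝ → ℝ} (hg : Continuous g) (X a b : ℝ) :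
    ∫ Y in a..b, g (X, Y) = (∫ Y in (0 : ℝ)..b, g (X, Y)) - ∫ Y in (0 : ℝ)..a, g (X, Y) :=
  (intervalIntegral.integral_interval_sub_left ((lei_slice hg X).intervalIntegrable _ _)
    ((lei_slice hg X).intervalIntegrable _ _)).symm

private theorem lei_contOn {g : ℝ × ℝ → ℝ} (hg : Continuous g) {b : ℝ → ℝ} {s : Set ℝ}
    (hb : ContinuousOn b s) : ContinuousOn (fun x => ∫ Y in (0 : ℝ)..b x, g (x, Y)) s :=
  (lei_cont hg).comp_continuousOn (continuousOn_id.prodMk hb)

theorem leib {g gX : ℝ × ℝ → ℝ} (hg : Continuous g) (hgX : Continuous gX)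
    (hd : ∀ X Y, HasDerivAt (fun t => g (t, Y)) (gX (X, Y)) X) {a b a' b' : ℝ → ℝ} {p q : ℝ} (hpq : p ≤ q)
    (ha : ∀ X ∈ Icc p q, HasDerivAt a (a' X) X) (hb : ∀ X ∈ Icc p q, HasDerivAt b (b' X) X)
    (ha' : ContinuousOn a' (Icc p q)) (hb' : ContinuousOn b' (Icc p q)) :
    ∫ X in p..q, ((∫ Y in (a X)..(b X), gX (X, Y)) + b' X * g (X, b X) - a' X * g (X, a X)) =
      (∫ Y in (a q)..(b q), g (q, Y)) - ∫ Y in (a p)..(b p), g (p, Y) := by
  have hac : ContinuousOn a (Icc p q) := fun X hX => (ha X hX).continuousAt.continuousWithinAt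
  have hbc : ContinuousOn b (Icc p q) := fun X hX => (hb X hX).continuousAt.continuousWithinAt
  have hgb : ContinuousOn (fun X => g (X, b X)) (Icc p q) :=
    hg.comp_continuousOn (continuousOn_id.prodMk hbc)
  have hga : ContinuousOn (fun X => g (X, a X)) (Icc p q) :=
    hg.comp_continuousOn (continuousOn_id.prodMk hac)
  have hder : ∀ X ∈ uIcc p q, HasDerivAt (fun x => ∫ Y in (a x)..(b x), g (x, Y))
      ((∫ Y in (a X)..(b X), gX (X, Y)) + b' X * g (X, b X) - a' X * g (X, a X)) X := by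
    intro X hX
    rw [uIcc_of_le hpq] at hX
    have h1 := (lei_along hg hgX hd (hb X hX)).sub (lei_along hg hgX hd (ha X hX))
    have e : (fun x => ∫ Y in (a x)..(b x), g (x, Y)) =
        fun x => (∫ Y in (0 : ℝ)..b x, g (x, Y)) - ∫ Y in (0 : ℝ)..a x, g (x, Y) :=
      funext fun x => lei_split hg x (a x) (b x)
    rw [e]
    refine h1.congr_deriv ?_
    rw [lei_split hgX X (a X) (b X)]
    ring
  have hcont : ContinuousOn (fun X => (∫ Y in (a X)..(b X), gX (X, Y)) + b' X * g (X, b X) -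
      a' X * g (X, a X)) (uIcc p q) := by
    rw [uIcc_of_le hpq]
    have e : (fun X => (∫ Y in (a X)..(b X), gX (X, Y)) + b' X * g (X, b X) - a' X * g (X, a X)) =
        fun X => ((∫ Y in (0 : ℝ)..b X, gX (X, Y)) - ∫ Y in (0 : ℝ)..a X, gX (X, Y)) +
          b' X * g (X, b X) - a' X * g (X, a X) :=
      funext fun X => by rw [lei_split hgX X (a X) (b X)]
    rw [e]
    exact (((lei_contOn hgX hbc).sub (lei_contOn hgX hac)).add (hb'.mul hgb)).sub (ha'.mul hga)
  exact intervalIntegral.integral_eq_sub_of_hasDerivAt hder hcont.intervalIntegrable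

end Pool.Agent.MGF
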