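import Pool.Agent.MGF.Defs2
import Pool.Agent.MGE.VV
/-!
PWQ (90 lines). Pointwise identities of the square.
PROOF. dn J z = lf z * mxd J (Jsub lJ J) z (unfold, ring). J = K - A with A = jA K J, lJ - J = (lJ - K) + A; bilinearity and symmetry of mxd: mxd J (lJ - J) =
mxd K (lJ - K) - mxd A (lJ - K - K + A) and lJ - K - K + A = lJ - K - J = f. (ring after unfolding.) Core: mxd cJ (lJ - cJ) = cJ.fXX lJ.fYY/2, l³: lJ.fYY = (1+X²)/l³.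
Slivers: the second derivatives of lJ - sJ s vanish. jm J z = 2 A mxd lJ f in both regions (unfold jm, Hs, HsXX, split_ifs).
-/
set_option autoImplicit false

open MeasureTheory Set Metric Pool.Agent.MEIS Pool.Agent.MSQ Pool.Agent.MGE

namespace Pool.Agent.MGF

private theorem key (s l u v : ℝ) (hs : 0 < s) (hl : 0 < l) (hu : s ^ 2 = u) (hv : l ^ 2 = v) :
    l * (√3 / 2 / s ^ 3 * (u / l ^ 3)) / 2 = √3 / 4 / (s * v) := by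
  subst hu
  subst hv
  field_simp
  ring

theorem dn_core (J : Jet) (z : ℝ × ℝ) :
    dn J z = √3 / 4 / (√(1 + z.1 ^ 2) * (1 + z.1 ^ 2 + z.2 ^ 2)) -
      lf z * mxd (jA cJ J) (jf cJ J) z := by
  have hl2 : lf z ^ 2 = 1 + z.1 ^ 2 + z.2 ^ 2 := by
    unfold lf
    exact Real.sq_sqrt (by positivity)
  have hs : 0 < √(1 + z.1 ^ 2) := Real.sqrt_pos.2 (by positivity)
  have hs2 : √(1 + z.1 ^ 2) ^ 2 = 1 + z.1 ^ 2 := Real.sq_sqrt (by positivity)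
  rw [← key _ _ _ _ hs (lf_pos z) hs2 hl2]
  simp only [dn, mxd, jA, jf, Jsub, cJ, lJ]
  ring
theorem dn_sliv (s : ℝ) (J : Jet) (z : ℝ × ℝ) :
    dn J z = -(lf z * mxd (jA (sJ s) J) (jf (sJ s) J) z) := by
  simp only [dn, mxd, jA, jf, Jsub, sJ]
  ring
theorem jm_core (J : Jet) {z : ℝ × ℝ} (hz : 3 * z.2 ^ 2 ≤ 1 + z.1 ^ 2) :
    jm J z = 2 * ((jA cJ J).f z * mxd lJ (jf cJ J) z) := by
  simp only [jm, Hs, HsXX, HsXY, HsYY, if_pos hz, mxd, jA, jf, Jsub, cJ]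
  ring
theorem jm_up (J : Jet) {z : ℝ × ℝ} (hz : 1 + z.1 ^ 2 < 3 * z.2 ^ 2) (h : 0 ≤ z.2) :
    jm J z = 2 * ((jA (sJ 1) J).f z * mxd lJ (jf (sJ 1) J) z) := by
  have hz' : ¬ 3 * z.2 ^ 2 ≤ 1 + z.1 ^ 2 := not_le.2 hz
  simp only [jm, Hs, HsXX, HsXY, HsYY, if_neg hz', mxd, jA, jf, Jsub, sJ, abs_of_nonneg h]
  ring
theorem jm_dn (J : Jet) {z : ℝ × ℝ} (hz : 1 + z.1 ^ 2 < 3 * z.2 ^ 2) (h : z.2 ≤ 0) :
    jm J z = 2 * ((jA (sJ (-1)) J).f z * mxd lJ (jf (sJ (-1)) J) z) := by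
  have hz' : ¬ 3 * z.2 ^ 2 ≤ 1 + z.1 ^ 2 := not_le.2 hz
  simp only [jm, Hs, HsXX, HsXY, HsYY, if_neg hz', mxd, jA, jf, Jsub, sJ, abs_of_nonpos h]
  ring

end Pool.Agent.MGF
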