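import Pool.Agent.MGF.Defs2
import Pool.Agent.MSQ.Cst
/-!
REF (70 lines). The reference integral.
PROOF. Inner integral: ∫_{-g}^{g} dY/(s² + Y²) = (2/s) arctan(g/s) with s = √(1+X²), g/s = 1/√3, arctan (1/√3) = π/6 (see the private lemmas of MSQ.Cst: Cst_int, Cst_acos,
Cst_pi6; copy them). So the inner integral is (√3/4)(1/s)(2/s)(π/6) = √3 π/12/(1+X²). Outer: ∫_{-c}^{c} dX/(1+X²) = 2 arctan c = arccos (1/3). Es = π arccos(1/3)/(4√3) = √3 π arccos(1/3)/12.
-/
set_option autoImplicit false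

open MeasureTheory Set Metric Pool.Agent.MEIS Pool.Agent.MSQ Pool.Agent.MGE

namespace Pool.Agent.MGF

private theorem REF_acos : Real.arccos (1 / 3) = 2 * Real.arctan (1 / √2) := by
  have hs : √2 ^ 2 = (2:ℝ) := Real.sq_sqrt (by norm_num)
  have h1 : Real.cos (2 * Real.arctan (1 / √2)) = 1 / 3 := by
    rw [Real.cos_two_mul, Real.cos_sq_arctan, div_pow, hs]
    norm_num
  rw [← h1, Real.arccos_cos]
  · have : 0 ≤ Real.arctan (1 / √2) := Real.arctan_nonneg.mpr (by positivity)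
    linarith
  · have := Real.arctan_lt_pi_div_two (1 / √2)
    linarith

private theorem REF_pi6 : Real.arctan (1 / √3) = Real.pi / 6 := by
  rw [← Real.tan_pi_div_six, Real.arctan_tan]
  · linarith [Real.pi_pos]
  · linarith [Real.pi_pos]

private theorem REF_inner (X : ℝ) :
    ∫ Y in (-gG X)..(gG X), √3 / 4 / (√(1 + X ^ 2) * (1 + X ^ 2 + Y ^ 2)) =
      √3 * Real.pi / 12 * (1 / (1 + X ^ 2)) := by
  have hp : 0 < 1 + X ^ 2 := by positivity
  set s := √(1 + X ^ 2) with hs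
  have hs0 : 0 < s := Real.sqrt_pos.mpr hp
  have hsq : s ^ 2 = 1 + X ^ 2 := Real.sq_sqrt hp.le
  have h3 : 0 < √3 := Real.sqrt_pos.mpr (by norm_num)
  have hg : gG X / s = 1 / √3 := by
    unfold gG
    rw [Real.sqrt_div hp.le, ← hs]
    field_simp
  have hd : ∀ Y ∈ Set.uIcc (-gG X) (gG X),
      HasDerivAt (fun Y => √3 / 4 / s ^ 2 * Real.arctan (Y / s))
        (√3 / 4 / (s * (1 + X ^ 2 + Y ^ 2))) Y := by
    intro Y _
    have h1 : HasDerivAt (fun y : ℝ => y / s) (1 / s) Y := (hasDerivAt_id Y).div_const _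
    have h2 := (h1.arctan).const_mul (√3 / 4 / s ^ 2)
    have e : √3 / 4 / s ^ 2 * (1 / (1 + (Y / s) ^ 2) * (1 / s)) = √3 / 4 / (s * (1 + X ^ 2 + Y ^ 2)) := by
      rw [← hsq]
      have hp : 0 < s ^ 2 + Y ^ 2 := by positivity
      have hp' : 0 < 1 + (Y / s) ^ 2 := by positivity
      field_simp
    rw [e] at h2
    exact h2
  have hcont : Continuous fun Y : ℝ => √3 / 4 / (s * (1 + X ^ 2 + Y ^ 2)) := by
    apply Continuous.div continuous_const (by fun_prop)
    intro y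
    have hp : 0 < s * (1 + X ^ 2 + y ^ 2) := by positivity
    exact hp.ne'
  rw [intervalIntegral.integral_eq_sub_of_hasDerivAt hd (hcont.intervalIntegrable _ _)]
  rw [neg_div, Real.arctan_neg, hg, REF_pi6, hsq]
  ring

theorem ref_int :
    ∫ X in (-cc)..cc, ∫ Y in (-gG X)..(gG X), √3 / 4 / (√(1 + X ^ 2) * (1 + X ^ 2 + Y ^ 2)) = Es := by
  simp only [REF_inner]
  rw [intervalIntegral.integral_const_mul, integral_one_div_one_add_sq, Real.arctan_neg]
  have h3 : √3 ^ 2 = (3:ℝ) := Real.sq_sqrt (by norm_num)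
  have hs3 : 0 < √3 := Real.sqrt_pos.mpr (by norm_num)
  unfold Es cc
  rw [REF_acos]
  field_simp
  rw [h3]
  ring

end Pool.Agent.MGF
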