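import Pool.Agent.MGF.Defs2
import Pool.Agent.MSQ.JGood
import Pool.Agent.MGF.JTG
import Pool.Agent.MGF.DIVV
import Pool.Agent.MGF.LEI
import Pool.Agent.MGF.JMP
import Pool.Agent.MGF.REF
import Pool.Agent.MGF.PWQ
/-!
IQ (160 lines). The identity of the square.
PROOF. Split ∫ Y in -c..c = ∫ -c..-g + ∫ -g..g + ∫ g..c, g = gG X ≤ c for |X| ≤ c. On each part dn J = ref - (1/2) jm J - (1/4)·2·... : by dn_core and div_V (l = lJ, a = jA K J, f = jf K J):
lf mxd a f = a.f mxd lJ f + (vx + vy)/2, so dn J = ref - jm J/2 - (vx + vy)/2 (ref = 0 in the slivers; jm by jm_core, jm_up, jm_dn, valid off the end points, so the interval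
integrals agree: intervalIntegral.integral_congr_ae or _of_Ioo / integral_congr on Ioo). ∫ vy dY: FTC on each part. ∫∫ vx: leib on each part with (a,b) = (-g,g), (g,c), (-c,-g), g' = X/(3g) (gG_deriv,
continuous). At X = ±c the slivers have zero width (gG_cc, gG_mcc). Sum of the boundary terms on Y = ±g is zero by jump_up, jump_dn. ref_int. Integrability in X: all
inner integrals are continuous functions of X (intervalIntegral with continuous end points) or use that EE and JM are iterated integrals of bounded piecewise continuous functions;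
the X-integrals of the three parts are integrals of continuous functions.
-/
set_option autoImplicit false

open MeasureTheory Set Metric Pool.Agent.MEIS Pool.Agent.MSQ Pool.Agent.MGE

namespace Pool.Agent.MGF

private theorem IQ_cont {f : ℝ × ℝ → ℝ} (hf : Continuous f) {a b : ℝ → ℝ} (ha : Continuous a)
    (hb : Continuous b) : Continuous fun X => ∫ Y in (a X)..(b X), f (X, Y) := by
  have hf' : Continuous (Function.uncurry fun X Y => f (X, Y)) := by
    simpa [Function.uncurry_def] using hf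
  have h1 := intervalIntegral.continuous_parametric_intervalIntegral_of_continuous (μ := volume)
    (a₀ := 0) hf' hb
  have h2 := intervalIntegral.continuous_parametric_intervalIntegral_of_continuous (μ := volume)
    (a₀ := 0) hf' ha
  refine (h1.sub h2).congr fun X => ?_
  have hc : Continuous fun Y => f (X, Y) := by fun_prop
  exact intervalIntegral.integral_interval_sub_left (hc.intervalIntegrable _ _)
    (hc.intervalIntegrable _ _)

private theorem IQ_congr {f g : ℝ → ℝ} {a b : ℝ} (hab : a ≤ b) (h : ∀ x ∈ Ioo a b, f x = g x) :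
    (∫ x in a..b, f x) = ∫ x in a..b, g x := by
  rw [intervalIntegral.integral_of_le hab, intervalIntegral.integral_of_le hab,
    integral_Ioc_eq_integral_Ioo, integral_Ioc_eq_integral_Ioo]
  exact setIntegral_congr_fun measurableSet_Ioo h

private theorem IQ_int {f g : ℝ → ℝ} {a b : ℝ} (hab : a ≤ b) (h : ∀ x ∈ Ioo a b, f x = g x)
    (hg : Continuous g) : IntervalIntegrable f volume a b := by
  have h1 : IntervalIntegrable g volume a b := hg.intervalIntegrable _ _
  rw [intervalIntegrable_iff_integrableOn_Ioo_of_le hab] at h1 ⊢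
  exact h1.congr_fun (fun x hx => (h x hx).symm) measurableSet_Ioo

private theorem IQ_D1c {F FX FY : ℝ × ℝ → ℝ} (h : D1 F FX FY) : Continuous F :=
  continuous_iff_continuousAt.2 fun z => (h z).continuousAt

private theorem IQ_mxd {a b : Jet} (ha : a.Good) (hb : b.Good) : Continuous (mxd a b) := by
  have h1 := IQ_D1c ha.dXX
  have h2 := IQ_D1c ha.dXY
  have h3 := IQ_D1c ha.dYY
  have h4 := IQ_D1c hb.dXX
  have h5 := IQ_D1c hb.dXY
  have h6 := IQ_D1c hb.dYY
  exact (((h1.mul h6).add (h3.mul h4)).sub ((continuous_const.mul h2).mul h5)).div_const 2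

private theorem IQ_dn {J : Jet} (hJ : J.Good) : Continuous (dn J) := by
  have h1 := IQ_D1c hJ.dXX
  have h2 := IQ_D1c hJ.dXY
  have h3 := IQ_D1c hJ.dYY
  have h4 := IQ_D1c good_lJ.dXX
  have h5 := IQ_D1c good_lJ.dXY
  have h6 := IQ_D1c good_lJ.dYY
  have h7 := IQ_D1c good_lJ.d
  exact (h7.mul (((h1.mul (h6.sub h3)).add (h3.mul (h4.sub h1))).sub
    ((continuous_const.mul h2).mul (h5.sub h2)))).div_const 2

/-- one strip of one of the three parts -/
private theorem IQ_part {J a f : Jet} (ha : a.Good) (hf : f.Good) {ref vx vy : ℝ × ℝ → ℝ}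
    (hr : Continuous ref) (hdn : ∀ z, dn J z = ref z - lf z * mxd a f z)
    (hvx : Continuous vx) (hvy : Continuous vy)
    (hd : ∀ X Y, HasDerivAt (fun t => VY lJ a f (X, t)) (vy (X, Y)) Y)
    (hs : ∀ z, vx z + vy z = 2 * (lJ.f z * mxd a f z - a.f z * mxd lJ f z))
    {X α β : ℝ} (hab : α ≤ β)
    (hjm : ∀ Y ∈ Ioo α β, jm J (X, Y) = 2 * (a.f (X, Y) * mxd lJ f (X, Y))) :
    (∫ Y in α..β, dn J (X, Y)) = (∫ Y in α..β, ref (X, Y)) - (∫ Y in α..β, jm J (X, Y)) / 2 -
      ((∫ Y in α..β, vx (X, Y)) + (VY lJ a f (X, β) - VY lJ a f (X, α))) / 2 := by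
  have c1 : Continuous fun Y => ref (X, Y) := by fun_prop
  have c2 : Continuous fun Y => vx (X, Y) := by fun_prop
  have c3 : Continuous fun Y => vy (X, Y) := by fun_prop
  have c5 : Continuous fun z => a.f z * mxd lJ f z := (IQ_D1c ha.d).mul (IQ_mxd good_lJ hf)
  have c4 : Continuous fun Y => a.f (X, Y) * mxd lJ f (X, Y) :=
    c5.comp (by fun_prop : Continuous fun Y : ℝ => (X, Y))
  have e1 : (∫ Y in α..β, jm J (X, Y)) = 2 * ∫ Y in α..β, a.f (X, Y) * mxd lJ f (X, Y) := by
    rw [IQ_congr hab hjm, intervalIntegral.integral_const_mul]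
  have e2 : (∫ Y in α..β, vy (X, Y)) = VY lJ a f (X, β) - VY lJ a f (X, α) :=
    intervalIntegral.integral_eq_sub_of_hasDerivAt (fun Y _ => hd X Y) (c3.intervalIntegrable _ _)
  have e3 : (∫ Y in α..β, dn J (X, Y)) = ∫ Y in α..β, (ref (X, Y) -
      a.f (X, Y) * mxd lJ f (X, Y) - (vx (X, Y) + vy (X, Y)) / 2) := by
    refine intervalIntegral.integral_congr fun Y _ => ?_
    show dn J (X, Y) = ref (X, Y) - a.f (X, Y) * mxd lJ f (X, Y) - (vx (X, Y) + vy (X, Y)) / 2
    rw [hdn, hs]
    show _ = ref (X, Y) - a.f (X, Y) * mxd lJ f (X, Y) -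
      2 * (lf (X, Y) * mxd a f (X, Y) - a.f (X, Y) * mxd lJ f (X, Y)) / 2
    ring
  rw [e3, e1, ← e2, intervalIntegral.integral_sub, intervalIntegral.integral_sub,
    intervalIntegral.integral_div, intervalIntegral.integral_add]
  · ring
  · exact c2.intervalIntegrable _ _
  · exact c3.intervalIntegrable _ _
  · exact c1.intervalIntegrable _ _
  · exact c4.intervalIntegrable _ _
  · exact (c1.sub c4).intervalIntegrable _ _
  · exact ((c2.add c3).div_const 2).intervalIntegrable _ _

private theorem IQ_gc : Continuous gG := by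
  unfold gG
  fun_prop

private theorem IQ_gsq (X : ℝ) : 3 * gG X ^ 2 = 1 + X ^ 2 := by
  unfold gG
  rw [Real.sq_sqrt (by positivity)]
  ring

private theorem IQ_refc :
    Continuous fun z : ℝ × ℝ => √3 / 4 / (√(1 + z.1 ^ 2) * (1 + z.1 ^ 2 + z.2 ^ 2)) := by
  refine Continuous.div continuous_const (by fun_prop) fun z => ?_
  have : 0 < √(1 + z.1 ^ 2) := Real.sqrt_pos.2 (by positivity)
  positivity

private theorem IQ_core {X Y : ℝ} (h : Y ∈ Icc (-gG X) (gG X)) : 3 * Y ^ 2 ≤ 1 + X ^ 2 := by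
  have h1 := IQ_gsq X
  have h2 : Y ^ 2 ≤ gG X ^ 2 := sq_le_sq' h.1 h.2
  linarith

private theorem IQ_up {X Y : ℝ} (h : gG X < Y) : 1 + X ^ 2 < 3 * Y ^ 2 := by
  have h1 := IQ_gsq X
  have h0 := gG_pos X
  have h2 : gG X ^ 2 < Y ^ 2 := by
    apply pow_lt_pow_left₀ h h0.le
    norm_num
  linarith

private theorem IQ_dw {X Y : ℝ} (h : Y < -gG X) : 1 + X ^ 2 < 3 * Y ^ 2 := by
  have := IQ_up (X := X) (Y := -Y) (by linarith)
  rwa [neg_sq] at this

private theorem IQ_cc : 0 < cc := by
  unfold cc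
  positivity

theorem id_sq {J : Jet} (hJ : J.Good) :
    EE J = Es - JM J / 2 -
      ((∫ Y in (-cc)..cc, VX lJ (jA cJ J) (jf cJ J) (cc, Y)) -
        (∫ Y in (-cc)..cc, VX lJ (jA cJ J) (jf cJ J) (-cc, Y)) +
        (∫ X in (-cc)..cc, VY lJ (jA (sJ 1) J) (jf (sJ 1) J) (X, cc)) -
        ∫ X in (-cc)..cc, VY lJ (jA (sJ (-1)) J) (jf (sJ (-1)) J) (X, -cc)) / 2 := by
  have hc := IQ_cc
  have hgc := IQ_gc
  have gaC : (jA cJ J).Good := good_sub good_cJ hJ
  have gfC : (jf cJ J).Good := good_sub (good_sub good_lJ good_cJ) hJ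
  have gaU : (jA (sJ 1) J).Good := good_sub (good_sJ 1) hJ
  have gfU : (jf (sJ 1) J).Good := good_sub (good_sub good_lJ (good_sJ 1)) hJ
  have gaD : (jA (sJ (-1)) J).Good := good_sub (good_sJ (-1)) hJ
  have gfD : (jf (sJ (-1)) J).Good := good_sub (good_sub good_lJ (good_sJ (-1))) hJ
  obtain ⟨xC, yC, cxC, cyC, cXC, cYC, dxC, dyC, sC⟩ := div_V good_lJ gaC gfC
  obtain ⟨xU, yU, cxU, cyU, cXU, cYU, dxU, dyU, sU⟩ := div_V good_lJ gaU gfU
  obtain ⟨xD, yD, cxD, cyD, cXD, cYD, dxD, dyD, sD⟩ := div_V good_lJ gaD gfD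
  have mC : Continuous fun z => 2 * ((jA cJ J).f z * mxd lJ (jf cJ J) z) :=
    continuous_const.mul ((IQ_D1c gaC.d).mul (IQ_mxd good_lJ gfC))
  have mU : Continuous fun z => 2 * ((jA (sJ 1) J).f z * mxd lJ (jf (sJ 1) J) z) :=
    continuous_const.mul ((IQ_D1c gaU.d).mul (IQ_mxd good_lJ gfU))
  have mD : Continuous fun z => 2 * ((jA (sJ (-1)) J).f z * mxd lJ (jf (sJ (-1)) J) z) :=
    continuous_const.mul ((IQ_D1c gaD.d).mul (IQ_mxd good_lJ gfD))
  -- pointwise values of jm
  have jC : ∀ X : ℝ, ∀ Y ∈ Ioo (-gG X) (gG X), jm J (X, Y) =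
      2 * ((jA cJ J).f (X, Y) * mxd lJ (jf cJ J) (X, Y)) := fun X Y hY =>
    jm_core J (z := (X, Y)) (IQ_core ⟨hY.1.le, hY.2.le⟩)
  have jU : ∀ X : ℝ, ∀ Y ∈ Ioo (gG X) cc, jm J (X, Y) =
      2 * ((jA (sJ 1) J).f (X, Y) * mxd lJ (jf (sJ 1) J) (X, Y)) := fun X Y hY =>
    jm_up J (z := (X, Y)) (IQ_up hY.1) ((gG_pos X).le.trans hY.1.le)
  have jD : ∀ X : ℝ, ∀ Y ∈ Ioo (-cc) (-gG X), jm J (X, Y) =
      2 * ((jA (sJ (-1)) J).f (X, Y) * mxd lJ (jf (sJ (-1)) J) (X, Y)) := fun X Y hY =>
    jm_dn J (z := (X, Y)) (IQ_dw hY.2) (by have := gG_pos X; linarith [hY.2])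
  -- the identity for one X
  have key : ∀ X ∈ Icc (-cc) cc, (∫ Y in (-cc)..cc, dn J (X, Y)) =
      (∫ Y in (-gG X)..(gG X), √3 / 4 / (√(1 + X ^ 2) * (1 + X ^ 2 + Y ^ 2))) -
      (∫ Y in (-cc)..cc, jm J (X, Y)) / 2 -
      (((∫ Y in (-gG X)..(gG X), xC (X, Y)) +
          X / (3 * gG X) * VX lJ (jA cJ J) (jf cJ J) (X, gG X) -
          -(X / (3 * gG X)) * VX lJ (jA cJ J) (jf cJ J) (X, -gG X)) +
        ((∫ Y in (gG X)..cc, xU (X, Y)) + 0 * VX lJ (jA (sJ 1) J) (jf (sJ 1) J) (X, cc) -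
          X / (3 * gG X) * VX lJ (jA (sJ 1) J) (jf (sJ 1) J) (X, gG X)) +
        ((∫ Y in (-cc)..(-gG X), xD (X, Y)) +
          -(X / (3 * gG X)) * VX lJ (jA (sJ (-1)) J) (jf (sJ (-1)) J) (X, -gG X) -
          0 * VX lJ (jA (sJ (-1)) J) (jf (sJ (-1)) J) (X, -cc)) +
        (VY lJ (jA (sJ 1) J) (jf (sJ 1) J) (X, cc) -
          VY lJ (jA (sJ (-1)) J) (jf (sJ (-1)) J) (X, -cc))) / 2 := by
    intro X hX
    have hg0 := gG_pos X
    have hg1 : gG X ≤ cc := gG_le (abs_le.2 ⟨hX.1, hX.2⟩)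
    have cdn : Continuous fun Y => dn J (X, Y) := (IQ_dn hJ).comp (by fun_prop)
    have i1 : (∫ Y in (-cc)..cc, dn J (X, Y)) = (∫ Y in (-cc)..(-gG X), dn J (X, Y)) +
        (∫ Y in (-gG X)..(gG X), dn J (X, Y)) + ∫ Y in (gG X)..cc, dn J (X, Y) := by
      rw [intervalIntegral.integral_add_adjacent_intervals (cdn.intervalIntegrable _ _)
        (cdn.intervalIntegrable _ _), intervalIntegral.integral_add_adjacent_intervals
        (cdn.intervalIntegrable _ _) (cdn.intervalIntegrable _ _)]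
    have k1 : IntervalIntegrable (fun Y => jm J (X, Y)) volume (-cc) (-gG X) :=
      IQ_int (by linarith) (jD X) (mD.comp (by fun_prop : Continuous fun Y : ℝ => (X, Y)))
    have k2 : IntervalIntegrable (fun Y => jm J (X, Y)) volume (-gG X) (gG X) :=
      IQ_int (by linarith) (jC X) (mC.comp (by fun_prop : Continuous fun Y : ℝ => (X, Y)))
    have k3 : IntervalIntegrable (fun Y => jm J (X, Y)) volume (gG X) cc :=
      IQ_int (by linarith) (jU X) (mU.comp (by fun_prop : Continuous fun Y : ℝ => (X, Y)))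
    have i2 : (∫ Y in (-cc)..cc, jm J (X, Y)) = (∫ Y in (-cc)..(-gG X), jm J (X, Y)) +
        (∫ Y in (-gG X)..(gG X), jm J (X, Y)) + ∫ Y in (gG X)..cc, jm J (X, Y) := by
      rw [intervalIntegral.integral_add_adjacent_intervals k1 k2,
        intervalIntegral.integral_add_adjacent_intervals (k1.trans k2) k3]
    have pC := IQ_part (J := J) gaC gfC IQ_refc (fun z => dn_core J z) cxC cyC dyC sC
      (X := X) (α := -gG X) (β := gG X) (by linarith) (jC X)
    have pU := IQ_part (J := J) gaU gfU (ref := fun _ => 0) continuous_const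
      (fun z => by rw [dn_sliv 1 J z]; ring) cxU cyU dyU sU
      (X := X) (α := gG X) (β := cc) (by linarith) (jU X)
    have pD := IQ_part (J := J) gaD gfD (ref := fun _ => 0) continuous_const
      (fun z => by rw [dn_sliv (-1) J z]; ring) cxD cyD dyD sD
      (X := X) (α := -cc) (β := -gG X) (by linarith) (jD X)
    have q1 := jump_up J X
    have q2 := jump_dn J X
    rw [i1, i2, pC, pU, pD]
    simp only [intervalIntegral.integral_zero]
    linear_combination (-1 / 2) * q1 + (1 / 2) * q2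
  -- continuity in X
  have cM : ContinuousOn (fun X => ∫ Y in (-cc)..cc, jm J (X, Y)) (Icc (-cc) cc) := by
    have c1 := IQ_cont mD (continuous_const (y := -cc)) hgc.neg
    have c2 := IQ_cont mC hgc.neg hgc
    have c3 := IQ_cont mU hgc (continuous_const (y := cc))
    refine ((c1.add c2).add c3).continuousOn.congr fun X hX => ?_
    have hg0 := gG_pos X
    have hg1 : gG X ≤ cc := gG_le (abs_le.2 ⟨hX.1, hX.2⟩)
    have k1 : IntervalIntegrable (fun Y => jm J (X, Y)) volume (-cc) (-gG X) :=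
      IQ_int (by linarith) (jD X) (mD.comp (by fun_prop : Continuous fun Y : ℝ => (X, Y)))
    have k2 : IntervalIntegrable (fun Y => jm J (X, Y)) volume (-gG X) (gG X) :=
      IQ_int (by linarith) (jC X) (mC.comp (by fun_prop : Continuous fun Y : ℝ => (X, Y)))
    have k3 : IntervalIntegrable (fun Y => jm J (X, Y)) volume (gG X) cc :=
      IQ_int (by linarith) (jU X) (mU.comp (by fun_prop : Continuous fun Y : ℝ => (X, Y)))
    show (∫ Y in (-cc)..cc, jm J (X, Y)) = _
    rw [← intervalIntegral.integral_add_adjacent_intervals (k1.trans k2) k3,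
      ← intervalIntegral.integral_add_adjacent_intervals k1 k2]
    rw [IQ_congr (by linarith) (jD X), IQ_congr (by linarith) (jC X), IQ_congr (by linarith) (jU X)]
    rfl
  have hg' : Continuous fun X => X / (3 * gG X) :=
    continuous_id.div (continuous_const.mul hgc) fun X => by have := gG_pos X; positivity
  have cLC : Continuous fun X => (∫ Y in (-gG X)..(gG X), xC (X, Y)) +
      X / (3 * gG X) * VX lJ (jA cJ J) (jf cJ J) (X, gG X) -
      -(X / (3 * gG X)) * VX lJ (jA cJ J) (jf cJ J) (X, -gG X) :=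
    ((IQ_cont cxC hgc.neg hgc).add (hg'.mul (cXC.comp (continuous_id.prodMk hgc)))).sub
      (hg'.neg.mul (cXC.comp (continuous_id.prodMk hgc.neg)))
  have cLU : Continuous fun X => (∫ Y in (gG X)..cc, xU (X, Y)) +
      0 * VX lJ (jA (sJ 1) J) (jf (sJ 1) J) (X, cc) -
      X / (3 * gG X) * VX lJ (jA (sJ 1) J) (jf (sJ 1) J) (X, gG X) :=
    ((IQ_cont cxU hgc continuous_const).add (continuous_const.mul
      (cXU.comp (continuous_id.prodMk continuous_const)))).sub
      (hg'.mul (cXU.comp (continuous_id.prodMk hgc)))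
  have cLD : Continuous fun X => (∫ Y in (-cc)..(-gG X), xD (X, Y)) +
      -(X / (3 * gG X)) * VX lJ (jA (sJ (-1)) J) (jf (sJ (-1)) J) (X, -gG X) -
      0 * VX lJ (jA (sJ (-1)) J) (jf (sJ (-1)) J) (X, -cc) :=
    ((IQ_cont cxD continuous_const hgc.neg).add (hg'.neg.mul
      (cXD.comp (continuous_id.prodMk hgc.neg)))).sub
      (continuous_const.mul (cXD.comp (continuous_id.prodMk continuous_const)))
  have cR : Continuous fun X => ∫ Y in (-gG X)..(gG X), √3 / 4 / (√(1 + X ^ 2) * (1 + X ^ 2 + Y ^ 2)) :=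
    IQ_cont IQ_refc hgc.neg hgc
  have cYU' : Continuous fun X : ℝ => VY lJ (jA (sJ 1) J) (jf (sJ 1) J) (X, cc) :=
    cYU.comp (continuous_id.prodMk continuous_const)
  have cYD' : Continuous fun X : ℝ => VY lJ (jA (sJ (-1)) J) (jf (sJ (-1)) J) (X, -cc) :=
    cYD.comp (continuous_id.prodMk continuous_const)
  -- Leibniz
  have hcc : -cc ≤ cc := by linarith
  have LC := leib cXC cxC dxC hcc (a := fun X => -gG X) (b := gG)
    (a' := fun X => -(X / (3 * gG X))) (b' := fun X => X / (3 * gG X))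
    (fun X _ => (gG_deriv X).neg) (fun X _ => gG_deriv X) hg'.neg.continuousOn hg'.continuousOn
  have LU := leib cXU cxU dxU hcc (a := gG) (b := fun _ => cc)
    (a' := fun X => X / (3 * gG X)) (b' := fun _ => 0)
    (fun X _ => gG_deriv X) (fun X _ => hasDerivAt_const X cc) hg'.continuousOn
    continuous_const.continuousOn
  have LD := leib cXD cxD dxD hcc (a := fun _ => -cc) (b := fun X => -gG X)
    (a' := fun _ => 0) (b' := fun X => -(X / (3 * gG X)))
    (fun X _ => hasDerivAt_const X (-cc)) (fun X _ => (gG_deriv X).neg)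
    continuous_const.continuousOn hg'.neg.continuousOn
  simp only [gG_cc, gG_mcc, intervalIntegral.integral_same, sub_zero] at LC LU LD
  have hE : EE J = ∫ X in (-cc)..cc, ∫ Y in (-cc)..cc, dn J (X, Y) := rfl
  have hM : JM J = ∫ X in (-cc)..cc, ∫ Y in (-cc)..cc, jm J (X, Y) := rfl
  have iM : IntervalIntegrable (fun X => ∫ Y in (-cc)..cc, jm J (X, Y)) volume (-cc) cc :=
    ContinuousOn.intervalIntegrable (by rwa [uIcc_of_le hcc])
  have iR := cR.intervalIntegrable (μ := volume) (-cc) cc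
  have iC := cLC.intervalIntegrable (μ := volume) (-cc) cc
  have iU := cLU.intervalIntegrable (μ := volume) (-cc) cc
  have iD := cLD.intervalIntegrable (μ := volume) (-cc) cc
  have iYU := cYU'.intervalIntegrable (μ := volume) (-cc) cc
  have iYD := cYD'.intervalIntegrable (μ := volume) (-cc) cc
  rw [hE, intervalIntegral.integral_congr (g := _) (fun X hX => key X (by rwa [uIcc_of_le hcc] at hX))]
  rw [intervalIntegral.integral_sub (iR.sub (iM.div_const 2))
      ((((iC.add iU).add iD).add (iYU.sub iYD)).div_const 2),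
    intervalIntegral.integral_sub iR (iM.div_const 2), intervalIntegral.integral_div,
    intervalIntegral.integral_div, intervalIntegral.integral_add ((iC.add iU).add iD) (iYU.sub iYD),
    intervalIntegral.integral_add (iC.add iU) iD, intervalIntegral.integral_add iC iU,
    intervalIntegral.integral_sub iYU iYD, LC, LU, LD, ref_int, hM]
  ring

end Pool.Agent.MGF
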