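import Pool.Agent.MGF.Defs3
import Pool.Agent.MGE.VV
import Pool.Agent.MGF.WPF
import Pool.Agent.MGF.TRH
/-!
SQL. Individual loads of the four sides (as SQH).
-/
set_option autoImplicit false

open MeasureTheory Set Metric Pool.Agent.MEIS Pool.Agent.MSQ Pool.Agent.MGE

namespace Pool.Agent.MGF

private theorem sqh_v0 : vv 0 = pt (1 / 2) 0 (cc / 2) := rfl
private theorem sqh_v1 : vv 1 = pt (-1 / 2) 0 (cc / 2) := rfl
private theorem sqh_v2 : vv 2 = pt 0 (1 / 2) (-cc / 2) := rfl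
private theorem sqh_v3 : vv 3 = pt 0 (-1 / 2) (-cc / 2) := rfl

private theorem sqh_comb (a b c : E) (t u v : ℝ) (i : Fin 3) :
    (t • a + u • b + v • c) i = t * a i + u * b i + v * c i := rfl

private theorem sqh_sub (a b : E) (i : Fin 3) : (a - b) i = a i - b i := rfl

private theorem sqh_ext {x y : E} (h0 : x 0 = y 0) (h1 : x 1 = y 1) (h2 : x 2 = y 2) : x = y := by
  ext i
  fin_cases i
  · exact h0
  · exact h1
  · exact h2

private theorem sqh_W1 (X Y : ℝ) : Wp 0 1 2 3 (pt (X - cc) (cc - Y) (cc + Y)) = P (X, Y) := by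
  have hc := cc_sq
  unfold Wp
  apply sqh_ext
  · rw [sqh_comb, sqh_sub, sqh_sub, sqh_sub, sqh_v0, sqh_v1, sqh_v2, sqh_v3]
    simp only [pt0, pt1, pt2, MGE.P]
    ring
  · rw [sqh_comb, sqh_sub, sqh_sub, sqh_sub, sqh_v0, sqh_v1, sqh_v2, sqh_v3]
    simp only [pt0, pt1, pt2, MGE.P]
    ring
  · rw [sqh_comb, sqh_sub, sqh_sub, sqh_sub, sqh_v0, sqh_v1, sqh_v2, sqh_v3]
    simp only [pt0, pt1, pt2, MGE.P]
    linear_combination 2 * hc

private theorem sqh_W2 (X Y : ℝ) : Wp 1 0 2 3 (pt (-X - cc) (cc - Y) (cc + Y)) = P (X, Y) := by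
  have hc := cc_sq
  unfold Wp
  apply sqh_ext
  · rw [sqh_comb, sqh_sub, sqh_sub, sqh_sub, sqh_v0, sqh_v1, sqh_v2, sqh_v3]
    simp only [pt0, pt1, pt2, MGE.P]
    ring
  · rw [sqh_comb, sqh_sub, sqh_sub, sqh_sub, sqh_v0, sqh_v1, sqh_v2, sqh_v3]
    simp only [pt0, pt1, pt2, MGE.P]
    ring
  · rw [sqh_comb, sqh_sub, sqh_sub, sqh_sub, sqh_v0, sqh_v1, sqh_v2, sqh_v3]
    simp only [pt0, pt1, pt2, MGE.P]
    linear_combination 2 * hc

private theorem sqh_W3 (X Y : ℝ) : Wp 3 2 0 1 (pt (Y - cc) (cc + X) (cc - X)) = -P (X, Y) := by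
  have hc := cc_sq
  unfold Wp MGE.P
  rw [neg_pt]
  apply sqh_ext
  · rw [sqh_comb, sqh_sub, sqh_sub, sqh_sub, sqh_v0, sqh_v1, sqh_v2, sqh_v3]
    simp only [pt0, pt1, pt2]
    ring
  · rw [sqh_comb, sqh_sub, sqh_sub, sqh_sub, sqh_v0, sqh_v1, sqh_v2, sqh_v3]
    simp only [pt0, pt1, pt2]
    ring
  · rw [sqh_comb, sqh_sub, sqh_sub, sqh_sub, sqh_v0, sqh_v1, sqh_v2, sqh_v3]
    simp only [pt0, pt1, pt2]
    linear_combination (-2) * hc

private theorem sqh_W4 (X Y : ℝ) : Wp 2 3 0 1 (pt (-Y - cc) (cc + X) (cc - X)) = -P (X, Y) := by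
  have hc := cc_sq
  unfold Wp MGE.P
  rw [neg_pt]
  apply sqh_ext
  · rw [sqh_comb, sqh_sub, sqh_sub, sqh_sub, sqh_v0, sqh_v1, sqh_v2, sqh_v3]
    simp only [pt0, pt1, pt2]
    ring
  · rw [sqh_comb, sqh_sub, sqh_sub, sqh_sub, sqh_v0, sqh_v1, sqh_v2, sqh_v3]
    simp only [pt0, pt1, pt2]
    ring
  · rw [sqh_comb, sqh_sub, sqh_sub, sqh_sub, sqh_v0, sqh_v1, sqh_v2, sqh_v3]
    simp only [pt0, pt1, pt2]
    linear_combination (-2) * hc

/-- one side: value through the defect, for a point `Q` written in barycentric coordinates -/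
private theorem sqh_val {G : E → ℝ} {i j k l : Fin 4} (hd : Dis i j k l) {x y z : ℝ} {Q : E}
    (hQ : Wp i j k l (pt x y z) = Q) : G Q = (x + y + z) / 2 - Tf G i j k l (pt x y z) := by
  rw [Tf_eq hd, hQ]
  simp only [pt0, pt1, pt2]
  ring

private theorem sqh_cor {G : E → ℝ} {R τ : ℝ} (h : FG G R τ) {i j k l : Fin 4} (hd : Dis i j k l)
    {y z : ℝ} (hyz : (y = 0 ∧ z = 2 * cc) ∨ (y = 2 * cc ∧ z = 0)) : Tf G i j k l (pt 0 y z) = 0 := by
  have hT := trHyp h hd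
  have hc := cc_pos
  rcases hyz with ⟨rfl, rfl⟩ | ⟨rfl, rfl⟩
  · have e : pt 0 0 (2 * cc) = (2 * cc) • pt 0 0 1 := by rw [smul_pt]; simp
    have hne : pt 0 0 1 ≠ 0 := by
      intro h0
      have h2 : (pt 0 0 1) 2 = (0 : E) 2 := by rw [h0]
      rw [pt2] at h2
      simp at h2
    rw [e, hT.hom (2 * cc) (by positivity) _ hne, hT.v2, mul_zero]
  · have e : pt 0 (2 * cc) 0 = (2 * cc) • pt 0 1 0 := by rw [smul_pt]; simp
    have hne : pt 0 1 0 ≠ 0 := by
      intro h0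
      have h2 : (pt 0 1 0) 1 = (0 : E) 1 := by rw [h0]
      rw [pt1] at h2
      simp at h2
    rw [e, hT.hom (2 * cc) (by positivity) _ hne, hT.v1, mul_zero]

private theorem sqh_nn {G : E → ℝ} {R τ : ℝ} (h : FG G R τ) {i j k l : Fin 4} (hd : Dis i j k l)
    {x y z : ℝ} (hx : 0 ≤ x) (hy : 0 ≤ y) (hz : 0 ≤ z) : 0 ≤ Tf G i j k l (pt x y z) :=
  (trHyp h hd).nonneg _ (by rw [pt0]; exact hx) (by rw [pt1]; exact hy) (by rw [pt2]; exact hz)

private theorem sql_le {G : E → ℝ} {R τ : ℝ} (h : FG G R τ)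
    {i j k l : Fin 4} (hd : Dis i j k l) {y z m : ℝ} (hy : 0 ≤ y) (hz : 0 ≤ z) (hym : y ≤ m)
    (hzm : z ≤ m) : Tf G i j k l (pt 0 y z) ≤ bv G i * m := by
  have hm : 0 ≤ m := hy.trans hym
  have h1 := Tf_le h hd (a := pt 0 y z) (m := m) (by rw [pt0]) (by rw [pt1]; exact hy)
    (by rw [pt2]; exact hz) (by rw [pt0]; exact hm) (by rw [pt1]; exact hym) (by rw [pt2]; exact hzm)
  linarith [mul_comm (bv G i) m]

private theorem sqh_d1 : Dis 0 1 2 3 := by decide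
private theorem sqh_d2 : Dis 1 0 2 3 := by decide
private theorem sqh_d3 : Dis 3 2 0 1 := by decide
private theorem sqh_d4 : Dis 2 3 0 1 := by decide

private theorem sqh_wid {G : E → ℝ} {R τ : ℝ} (h : FG G R τ) (X Y : ℝ) :
    lf (X, Y) - G (P (X, Y)) = G (-P (X, Y)) := by
  have := h.sb.wid (P (X, Y))
  rw [norm_P] at this
  linarith

theorem sqL {G : E → ℝ} {R τ : ℝ} (h : FG G R τ) : SqL (jG G) (bv G 0) (bv G 1) (bv G 3) (bv G 2) := by
  have hc := cc_pos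
  refine ⟨?_, ?_, ?_, ?_⟩
  · intro Y hY
    obtain ⟨y1, y2⟩ := abs_le.1 hY
    have ya := le_abs_self Y
    have yb := neg_le_abs Y
    show cc - G (P (cc, Y)) ≤ _
    rw [sqh_val (G := G) sqh_d1 (sqh_W1 cc Y), sub_self]
    have := sql_le h sqh_d1 (y := cc - Y) (z := cc + Y) (m := cc + |Y|) (by linarith) (by linarith)
      (by linarith) (by linarith)
    linarith
  · intro Y hY
    obtain ⟨y1, y2⟩ := abs_le.1 hY
    have ya := le_abs_self Y
    have yb := neg_le_abs Y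
    show cc - G (P (-cc, Y)) ≤ _
    rw [sqh_val (G := G) sqh_d2 (sqh_W2 (-cc) Y), neg_neg, sub_self]
    have := sql_le h sqh_d2 (y := cc - Y) (z := cc + Y) (m := cc + |Y|) (by linarith) (by linarith)
      (by linarith) (by linarith)
    linarith
  · intro X hX
    obtain ⟨x1, x2⟩ := abs_le.1 hX
    have xa := le_abs_self X
    have xb := neg_le_abs X
    show cc - (lf (X, cc) - G (P (X, cc))) ≤ _
    rw [sqh_wid h, sqh_val (G := G) sqh_d3 (sqh_W3 X cc), sub_self]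
    have := sql_le h sqh_d3 (y := cc + X) (z := cc - X) (m := cc + |X|) (by linarith) (by linarith)
      (by linarith) (by linarith)
    linarith
  · intro X hX
    obtain ⟨x1, x2⟩ := abs_le.1 hX
    have xa := le_abs_self X
    have xb := neg_le_abs X
    show cc - (lf (X, -cc) - G (P (X, -cc))) ≤ _
    rw [sqh_wid h, sqh_val (G := G) sqh_d4 (sqh_W4 X (-cc)), neg_neg, sub_self]
    have := sql_le h sqh_d4 (y := cc + X) (z := cc - X) (m := cc + |X|) (by linarith) (by linarith)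
      (by linarith) (by linarith)
    linarith

end Pool.Agent.MGF
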