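import Pool.Agent.MGF.Defs3
import Pool.Agent.MGE.JGD
import Pool.Agent.MGF.TRH
import Pool.Agent.MGF.SQH
import Pool.Agent.MGF.SQL
import Pool.Agent.MGF.SDF
import Pool.Agent.MGF.SDX
import Pool.Agent.MGF.SDY
import Pool.Agent.MGF.IQ
import Pool.Agent.MGF.IN
import Pool.Agent.MGF.SYM
/-!
CLQ2. The inequalities of one square and one triangle for an asymmetric cell.
-/
set_option autoImplicit false

open MeasureTheory Set Metric Pool.Agent.MEIS Pool.Agent.MSQ Pool.Agent.MGE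

namespace Pool.Agent.MGF

theorem cell2_sq {Fb Fs : ℝ → ℝ → ℝ → ℝ → ℝ} {KN Kp KS be bb bs : ℝ} (c : Cell2 Fb Fs KN Kp KS be bb bs)
    {G : E → ℝ} {R τ : ℝ} (h : FG G R τ) (h0 : be ≤ bv G 0) (h0' : bv G 0 ≤ bb)
    (hm : ∀ i, bv G i ≤ bv G 0) (hs : ∀ i, i ≠ 0 → bv G i ≤ bs)
    (ht : bv G 0 + bv G 1 + bv G 2 + bv G 3 ≤ 143 / 1000) :
    EE (jG G) ≤ Es + (sF0 Fb (Tf G 0 1 2 3) + sF0 Fs (Tf G 1 0 2 3) + sF0 Fs (Tf G 3 2 0 1) +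
        sF0 Fs (Tf G 2 3 0 1)) / 2 + KS / 2 -
      √2 * (sP0 (Tf G 0 1 2 3) + sP0 (Tf G 1 0 2 3) + sP0 (Tf G 3 2 0 1) + sP0 (Tf G 2 3 0 1)) := by
  have h1 := c.sq (jG G) (bv G 0) (bv G 1) (bv G 3) (bv G 2) (sqHyp h (bv_nonneg h 0) hm) (sqL h) h0 h0'
    (bv_nonneg h 1) (bv_nonneg h 3) (bv_nonneg h 2) (hs 1 (by decide)) (hs 3 (by decide))
    (hs 2 (by decide)) (by linarith)
  rw [side_Xp h c.symb, side_Xm h c.syms, side_Yp h c.syms, side_Ym h c.syms] at h1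
  have h2 := id_sq (jG_good h.sb.sm)
  have f1 := flux_Xp h
  have f2 := flux_Xm h
  have f3 := flux_Yp h
  have f4 := flux_Ym h
  linarith

theorem cell2_tri0 {Fb Fs : ℝ → ℝ → ℝ → ℝ → ℝ} {KN Kp KS be bb bs : ℝ} (c : Cell2 Fb Fs KN Kp KS be bb bs)
    {G : E → ℝ} {R τ : ℝ} (h : FG G R τ) (hb : bv G 0 ≤ bs) :
    NN G ≤ -(sF0 Fs (Tf G 0 1 2 3) + sF0 Fs (Tf G 0 2 1 3) + sF0 Fs (Tf G 0 3 1 2)) / 2 + KN / 2 +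
      √2 * (sP0 (Tf G 0 1 2 3) + sP0 (Tf G 0 2 1 3) + sP0 (Tf G 0 3 1 2)) := by
  have hd : Dis 0 1 2 3 := by decide
  have h1 := c.tri0 _ _ (trHyp h hd) hb
  have h2 := id_tri h
  rw [sP1_eq h.sb.sm hd, sP2_eq h.sb.sm hd] at h2
  rw [sF1_eq, sF2_eq] at h1
  rw [h2]
  linarith

theorem cell2_tri1 {Fb Fs : ℝ → ℝ → ℝ → ℝ → ℝ} {KN Kp KS be bb bs : ℝ} (c : Cell2 Fb Fs KN Kp KS be bb bs)
    {G : E → ℝ} {R τ : ℝ} (h : FG G R τ) (hb : bv G 0 ≤ bb) (hb' : be ≤ bv G 0) :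
    NN G ≤ -(sF0 Fb (Tf G 0 1 2 3) + sF0 Fb (Tf G 0 2 1 3) + sF0 Fb (Tf G 0 3 1 2)) / 2 - Kp / 2 +
      √2 * (sP0 (Tf G 0 1 2 3) + sP0 (Tf G 0 2 1 3) + sP0 (Tf G 0 3 1 2)) := by
  have hd : Dis 0 1 2 3 := by decide
  have h1 := c.tri1 _ _ (trHyp h hd) hb' hb
  have h2 := id_tri h
  rw [sP1_eq h.sb.sm hd, sP2_eq h.sb.sm hd] at h2
  rw [sF1_eq, sF2_eq] at h1
  rw [h2]
  linarith

end Pool.Agent.MGF
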