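import Pool.Agent.MGF.Defs3
import Pool.Agent.MGE.GVO
import Pool.Agent.MGF.ISM
import Pool.Agent.MGF.FRG
import Pool.Agent.MGF.SYM
import Pool.Agent.MGF.CLQ2
import Pool.Agent.MGF.SI2
/-!
TOT2. Sum of all cells, asymmetric case (vertex 0 has the largest central defect).
-/

set_option autoImplicit false

open MeasureTheory Set Metric Pool.Agent.MEIS Pool.Agent.MSQ Pool.Agent.MGE

namespace Pool.Agent.MGF

private theorem tot2_alg {SS e KN KS Kp r q0 q1 q2 n0 n1 n2 n3 : ℝ}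
    {f01 f10 f32 f23 f02 f20 f31 f13 f03 f30 f12 f21 : ℝ}
    {p01 p10 p32 p23 p02 p20 p31 p13 p03 p30 p12 p21 : ℝ}
    (hs : SS ≤ 2 * (q0 + q1 + q2 + (n0 + n1 + n2 + n3)))
    (hc : 3 * KN + 3 * KS ≤ Kp)
    (h0 : q0 ≤ e + (f01 + f10 + f32 + f23) / 2 + KS / 2 -
      r * (p01 + p10 + p32 + p23))
    (h1 : q1 ≤ e + (f02 + f20 + f31 + f13) / 2 + KS / 2 -
      r * (p02 + p20 + p31 + p13))
    (h2 : q2 ≤ e + (f03 + f30 + f12 + f21) / 2 + KS / 2 -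
      r * (p03 + p30 + p12 + p21))
    (t0 : n0 ≤ -(f01 + f02 + f03) / 2 - Kp / 2 + r * (p01 + p02 + p03))
    (t1 : n1 ≤ -(f10 + f12 + f13) / 2 + KN / 2 + r * (p10 + p12 + p13))
    (t2 : n2 ≤ -(f21 + f20 + f23) / 2 + KN / 2 + r * (p21 + p20 + p23))
    (t3 : n3 ≤ -(f31 + f32 + f30) / 2 + KN / 2 + r * (p31 + p32 + p30)) :
    SS ≤ 6 * e := by
  linarith

private theorem tot2_hs {G : E → ℝ} {bs : ℝ} (hs : ∀ i, i ≠ 0 → bv G i ≤ bs) (ψ : E ≃ₗᵢ[ℝ] E)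
    {σ : Fin 4 → Fin 4} (hσ : ∀ i, ψ (vv i) = vv (σ i)) (h0 : ∀ i, i ≠ 0 → σ i ≠ 0) :
    ∀ i, i ≠ 0 → bv (fun x => G (ψ x)) i ≤ bs := fun i hi => by
  rw [bv_comp G ψ σ hσ]
  exact hs _ (h0 i hi)

theorem total2 {Fb Fs : ℝ → ℝ → ℝ → ℝ → ℝ} {KN Kp KS be bb bs : ℝ} (c : Cell2 Fb Fs KN Kp KS be bb bs)
    {G : E → ℝ} {R τ : ℝ} (h : FG G R τ) (h0 : be ≤ bv G 0) (h0' : bv G 0 ≤ bb)
    (hm : ∀ i, bv G i ≤ bv G 0) (hb : ∀ i, i ≠ 0 → bv G i ≤ bs)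
    (ht : bv G 0 + bv G 1 + bv G 2 + bv G 3 ≤ 143 / 1000) :
    SI (ed G) ≤ 6 * Es := by
  have hs := si_split h.sb h.tau.le
  rw [Fin.sum_univ_three, Fin.sum_univ_four] at hs
  have hc := c.tot
  have hFb := c.symb
  have hFs := c.syms
  have hG : Sm 3 G := h.sb.sm
  have q0 : EE (jG (fun x => G (fr 0 x))) ≤ Es + (sF0 Fb (Tf G 0 1 2 3) + sF0 Fs (Tf G 1 0 2 3) +
      sF0 Fs (Tf G 3 2 0 1) + sF0 Fs (Tf G 2 3 0 1)) / 2 + KS / 2 -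
      √2 * (sP0 (Tf G 0 1 2 3) + sP0 (Tf G 1 0 2 3) + sP0 (Tf G 3 2 0 1) + sP0 (Tf G 2 3 0 1)) := by
    have h1 := cell2_sq c (FG_comp h (fr 0) ![0, 1, 2, 3] fr0_vv)
      (by rw [bv_comp G (fr 0) _ fr0_vv]; exact h0) (by rw [bv_comp G (fr 0) _ fr0_vv]; exact h0')
      (fun i => by rw [bv_comp G (fr 0) _ fr0_vv, bv_comp G (fr 0) _ fr0_vv]; exact hm _)
      (tot2_hs hb (fr 0) fr0_vv (by decide))
      (by rw [bv_comp G (fr 0) _ fr0_vv, bv_comp G (fr 0) _ fr0_vv, bv_comp G (fr 0) _ fr0_vv,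
        bv_comp G (fr 0) _ fr0_vv]; exact ht)
    simp only [Tf_comp G (fr 0) _ fr0_vv] at h1
    exact h1
  have q1 : EE (jG (fun x => G (fr 1 x))) ≤ Es + (sF0 Fb (Tf G 0 2 1 3) + sF0 Fs (Tf G 2 0 1 3) +
      sF0 Fs (Tf G 3 1 0 2) + sF0 Fs (Tf G 1 3 0 2)) / 2 + KS / 2 -
      √2 * (sP0 (Tf G 0 2 1 3) + sP0 (Tf G 2 0 1 3) + sP0 (Tf G 3 1 0 2) + sP0 (Tf G 1 3 0 2)) := by
    have ht' : bv G 0 + bv G 2 + bv G 1 + bv G 3 ≤ 143 / 1000 := by linarith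
    have h1 := cell2_sq c (FG_comp h (fr 1) ![0, 2, 1, 3] fr1_vv)
      (by rw [bv_comp G (fr 1) _ fr1_vv]; exact h0) (by rw [bv_comp G (fr 1) _ fr1_vv]; exact h0')
      (fun i => by rw [bv_comp G (fr 1) _ fr1_vv, bv_comp G (fr 1) _ fr1_vv]; exact hm _)
      (tot2_hs hb (fr 1) fr1_vv (by decide))
      (by rw [bv_comp G (fr 1) _ fr1_vv, bv_comp G (fr 1) _ fr1_vv, bv_comp G (fr 1) _ fr1_vv,
        bv_comp G (fr 1) _ fr1_vv]; exact ht')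
    simp only [Tf_comp G (fr 1) _ fr1_vv] at h1
    exact h1
  have q2 : EE (jG (fun x => G (fr 2 x))) ≤ Es + (sF0 Fb (Tf G 0 3 2 1) + sF0 Fs (Tf G 3 0 2 1) +
      sF0 Fs (Tf G 1 2 0 3) + sF0 Fs (Tf G 2 1 0 3)) / 2 + KS / 2 -
      √2 * (sP0 (Tf G 0 3 2 1) + sP0 (Tf G 3 0 2 1) + sP0 (Tf G 1 2 0 3) + sP0 (Tf G 2 1 0 3)) := by
    have ht' : bv G 0 + bv G 3 + bv G 2 + bv G 1 ≤ 143 / 1000 := by linarith
    have h1 := cell2_sq c (FG_comp h (fr 2) ![0, 3, 2, 1] fr2_vv)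
      (by rw [bv_comp G (fr 2) _ fr2_vv]; exact h0) (by rw [bv_comp G (fr 2) _ fr2_vv]; exact h0')
      (fun i => by rw [bv_comp G (fr 2) _ fr2_vv, bv_comp G (fr 2) _ fr2_vv]; exact hm _)
      (tot2_hs hb (fr 2) fr2_vv (by decide))
      (by rw [bv_comp G (fr 2) _ fr2_vv, bv_comp G (fr 2) _ fr2_vv, bv_comp G (fr 2) _ fr2_vv,
        bv_comp G (fr 2) _ fr2_vv]; exact ht')
    simp only [Tf_comp G (fr 2) _ fr2_vv] at h1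
    exact h1
  have a0 : NN (fun x => G (gr 0 x)) ≤ -(sF0 Fb (Tf G 0 1 2 3) + sF0 Fb (Tf G 0 2 1 3) +
      sF0 Fb (Tf G 0 3 1 2)) / 2 - Kp / 2 +
      √2 * (sP0 (Tf G 0 1 2 3) + sP0 (Tf G 0 2 1 3) + sP0 (Tf G 0 3 1 2)) := by
    have h1 := cell2_tri1 c (FG_comp h (gr 0) ![0, 1, 2, 3] gr0_vv)
      (by rw [bv_comp G (gr 0) _ gr0_vv]; exact h0') (by rw [bv_comp G (gr 0) _ gr0_vv]; exact h0)
    simp only [Tf_comp G (gr 0) _ gr0_vv] at h1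
    exact h1
  have a1 : NN (fun x => G (gr 1 x)) ≤ -(sF0 Fs (Tf G 1 0 2 3) + sF0 Fs (Tf G 1 2 0 3) +
      sF0 Fs (Tf G 1 3 0 2)) / 2 + KN / 2 +
      √2 * (sP0 (Tf G 1 0 2 3) + sP0 (Tf G 1 2 0 3) + sP0 (Tf G 1 3 0 2)) := by
    have h1 := cell2_tri0 c (FG_comp h (gr 1) ![1, 0, 2, 3] gr1_vv)
      (by rw [bv_comp G (gr 1) _ gr1_vv]; exact hb 1 (by decide))
    simp only [Tf_comp G (gr 1) _ gr1_vv] at h1
    exact h1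
  have a2 : NN (fun x => G (gr 2 x)) ≤ -(sF0 Fs (Tf G 2 1 0 3) + sF0 Fs (Tf G 2 0 1 3) +
      sF0 Fs (Tf G 2 3 1 0)) / 2 + KN / 2 +
      √2 * (sP0 (Tf G 2 1 0 3) + sP0 (Tf G 2 0 1 3) + sP0 (Tf G 2 3 1 0)) := by
    have h1 := cell2_tri0 c (FG_comp h (gr 2) ![2, 1, 0, 3] gr2_vv)
      (by rw [bv_comp G (gr 2) _ gr2_vv]; exact hb 2 (by decide))
    simp only [Tf_comp G (gr 2) _ gr2_vv] at h1
    exact h1
  have a3 : NN (fun x => G (gr 3 x)) ≤ -(sF0 Fs (Tf G 3 1 2 0) + sF0 Fs (Tf G 3 2 1 0) +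
      sF0 Fs (Tf G 3 0 1 2)) / 2 + KN / 2 +
      √2 * (sP0 (Tf G 3 1 2 0) + sP0 (Tf G 3 2 1 0) + sP0 (Tf G 3 0 1 2)) := by
    have h1 := cell2_tri0 c (FG_comp h (gr 3) ![3, 1, 2, 0] gr3_vv)
      (by rw [bv_comp G (gr 3) _ gr3_vv]; exact hb 3 (by decide))
    simp only [Tf_comp G (gr 3) _ gr3_vv] at h1
    exact h1
  rw [sF0_sw hFb G 0 3 2 1, sF0_sw hFs G 3 0 2 1, sP0_sw hG (i := 0) (j := 3) (k := 2) (l := 1) (by decide),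
    sP0_sw hG (i := 3) (j := 0) (k := 2) (l := 1) (by decide)] at q2
  rw [sF0_sw hFs G 2 3 1 0, sP0_sw hG (i := 2) (j := 3) (k := 1) (l := 0) (by decide)] at a2
  rw [sF0_sw hFs G 3 1 2 0, sP0_sw hG (i := 3) (j := 1) (k := 2) (l := 0) (by decide),
    sF0_sw hFs G 3 2 1 0, sP0_sw hG (i := 3) (j := 2) (k := 1) (l := 0) (by decide)] at a3
  exact tot2_alg hs hc q0 q1 q2 a0 a1 a2 a3

end Pool.Agent.MGF
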