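import Pool.Agent.MGF.Defs3
import Pool.Agent.MEIS.FIN
import Pool.Agent.MEIS.MOL
import Pool.Agent.MEIS.SCA
import Pool.Agent.MEIS.SUP
import Pool.Agent.MEIS.HBA
import Pool.Agent.MEIS.SHB
import Pool.Agent.MEIS.TRN
import Pool.Agent.MEIS.JUN
import Pool.Agent.FRX.HEL
import Pool.Agent.FRX.LAM
import Pool.Agent.MGE.VV
import Pool.Agent.MGE.GVO
import Pool.Agent.MGE.ISO
import Pool.Agent.MGF.TRH
import Pool.Agent.MGF.BCW
import Pool.Agent.MGF.FRS2
import Pool.Agent.MGF.FRG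
import Pool.Agent.MGF.ISM
import Pool.Agent.MGF.TOT
import Pool.Agent.MGF.TOT2
/-!
FIN3. The full theorem from symmetric and asymmetric cell certificates.
-/
set_option autoImplicit false

open MeasureTheory Set Metric Pool.Agent.MEIS Pool.Agent.MSQ Pool.Agent.MGE

namespace Pool.Agent.MGF

/-- a cell certificate is available for largest central defect `m` -/
def HasCell (m : ℝ) : Prop :=
  (∃ (F : ℝ → ℝ → ℝ → ℝ → ℝ) (KN Kp KS be bb : ℝ),
      Cell F KN Kp KS be bb ∧ 0 ≤ KN ∧ be ≤ m ∧ m ≤ bb) ∨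
  (∃ (Fb Fs : ℝ → ℝ → ℝ → ℝ → ℝ) (KN Kp KS be bb bs : ℝ),
      Cell2 Fb Fs KN Kp KS be bb bs ∧ be ≤ m ∧ m ≤ bb ∧ (m ≤ bs ∨ 143 / 1000 - m ≤ bs))

private theorem fin3_body {G : E → ℝ} (φ : E ≃ₗᵢ[ℝ] E) :
    Body (fun x => G (φ x)) = φ.symm '' Body G := by
  ext y
  constructor
  · intro hy
    refine ⟨φ y, fun x => ?_, φ.symm_apply_apply _⟩
    have h1 := hy (φ.symm x)
    have h2 : (inner ℝ x (φ y) : ℝ) = inner ℝ (φ.symm x) y := by
      rw [← φ.inner_map_map (φ.symm x) y, φ.apply_symm_apply]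
    have h3 : (inner ℝ (φ.symm x) y : ℝ) ≤ G (φ (φ.symm x)) := h1
    rw [φ.apply_symm_apply] at h3
    rw [h2]
    exact h3
  · rintro ⟨w, hw, rfl⟩
    intro x
    show (inner ℝ x (φ.symm w) : ℝ) ≤ G (φ x)
    have h1 := hw (φ x)
    have h2 : (inner ℝ (φ x) w : ℝ) = inner ℝ x (φ.symm w) := by
      rw [← φ.inner_map_map x (φ.symm w), φ.apply_symm_apply]
    rw [h2] at h1
    exact h1

private theorem fin3_gr (i : Fin 4) : ∃ (ψ : E ≃ₗᵢ[ℝ] E) (σ : Fin 4 → Fin 4), (∀ j, ψ (vv j) = vv (σ j)) ∧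
    σ 0 = i := by
  fin_cases i
  · exact ⟨gr 0, ![0, 1, 2, 3], gr0_vv, rfl⟩
  · exact ⟨gr 1, ![1, 0, 2, 3], gr1_vv, rfl⟩
  · exact ⟨gr 2, ![2, 1, 0, 3], gr2_vv, rfl⟩
  · exact ⟨gr 3, ![3, 1, 2, 0], gr3_vv, rfl⟩

private theorem fin3_val : 2 * Real.pi / 3 - 1 / 2 * (6 * Es) =
    (2 / 3 - √3 / 4 * Real.arccos (1 / 3)) * Real.pi := by
  have h3 : (√3 : ℝ) ≠ 0 := by positivity
  have h9 : (√3 : ℝ) ^ 2 = 3 := Real.sq_sqrt (by norm_num)
  unfold Es
  have e : Real.pi * Real.arccos (1 / 3) / (4 * √3) = Real.pi * Real.arccos (1 / 3) * √3 / 12 := by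
    rw [div_eq_div_iff (by positivity) (by norm_num)]
    have : Real.pi * Real.arccos (1 / 3) * √3 * (4 * √3) =
      Real.pi * Real.arccos (1 / 3) * 4 * (√3) ^ 2 := by ring
    rw [this, h9]
    ring
  rw [e]
  ring

theorem smooth_all3
    (hc : ∀ m : ℝ, 0 ≤ m → m ≤ 143 / 1000 → HasCell m)
    {G : E → ℝ} {R τ : ℝ} (h : SB G R τ) (hτ : 0 < τ) (hR : R < 1) :
    ENNReal.ofReal ((2 / 3 - √3 / 4 * Real.arccos (1 / 3)) * Real.pi) ≤ volume (Body G) := by
  have hCW : CW (Body G) := CW_Body h hτ.le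
  by_cases hs : ∃ c : E, Body G ⊆ closedBall c (6027 / 10000)
  · obtain ⟨c, hc'⟩ := hs
    exact main_small hCW hc'
  · obtain ⟨p, hp, l, hl0, hl1, hl⟩ := FRX.four_points (by norm_num) hs
    have hD : FRX.Dd p ≤ 2078 / 10000 := by
      have hd : ∀ i j : Fin 4, 0 ≤ 1 - ‖p i - p j‖ ^ 2 := by
        intro i j
        have h1 := CW_dist hCW (hp i) (hp j)
        have h2 := norm_nonneg (p i - p j)
        nlinarith
      have := FRX.lam_bound hl0 hl1 (d := fun i j => 1 - ‖p i - p j‖ ^ 2) hd (by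
        simpa using hl)
      exact this
    obtain ⟨G', hG', hb', hv⟩ := to_frame2 h hτ hp hD
    have hn : ∀ j, 0 ≤ bv G' j := fun j => bv_nonneg hG' j
    obtain ⟨i, -, hi⟩ := Finset.exists_max_image Finset.univ (fun i : Fin 4 => bv G' i)
      ⟨0, Finset.mem_univ 0⟩
    have him : bv G' i ≤ 143 / 1000 :=
      (Finset.single_le_sum (fun k _ => hn k) (Finset.mem_univ i)).trans hb'
    rcases hc (bv G' i) (hn i) him with ⟨F, KN, Kp, KS, be, bb, hcell, hKN, hbe, hbb⟩ |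
      ⟨Fb, Fs, KN, Kp, KS, be, bb, bs, hcell, hbe, hbb, hbs⟩
    · have ht := total hcell hG' (fun j => (hi j (Finset.mem_univ j)).trans hbb) ⟨i, hbe⟩ hKN
      rw [← hv, ← fin3_val]
      refine le_trans (ENNReal.ofReal_le_ofReal ?_) (volume_ge_ed hG'.sb hG'.tau hG'.R1)
      linarith
    · obtain ⟨ψ, σ, hσ, hi0⟩ := fin3_gr i
      have hG2 : FG (fun x => G' (ψ x)) (98 / 100) τ := FG_comp hG' ψ σ hσ
      have e0 : bv (fun x => G' (ψ x)) 0 = bv G' i := by rw [bv_comp G' ψ σ hσ, hi0]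
      have hm2 : ∀ j, bv (fun x => G' (ψ x)) j ≤ bv (fun x => G' (ψ x)) 0 := fun j => by
        rw [e0, bv_comp G' ψ σ hσ]
        exact hi _ (Finset.mem_univ _)
      have hinj : Function.Injective σ := fun a b hab => by
        have h1 : ψ (vv a) = ψ (vv b) := by rw [hσ, hσ, hab]
        have h2 := ψ.injective h1
        by_contra hne
        have h3 := vv_sub_inner hne
        rw [h2, sub_self, inner_zero_left] at h3
        norm_num at h3
      have hsum : ∑ j, bv (fun x => G' (ψ x)) j = ∑ j, bv G' j := by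
        have h1 : ∀ j, bv (fun x => G' (ψ x)) j = bv G' (σ j) := fun j => bv_comp G' ψ σ hσ j
        simp only [h1]
        exact (Equiv.ofBijective σ (Finite.injective_iff_bijective.1 hinj)).sum_comp (fun j => bv G' j)
      have ht4 : bv (fun x => G' (ψ x)) 0 + bv (fun x => G' (ψ x)) 1 + bv (fun x => G' (ψ x)) 2 +
          bv (fun x => G' (ψ x)) 3 ≤ 143 / 1000 := by
        have h1 := hsum.trans_le hb'
        rwa [Fin.sum_univ_four] at h1
      have hn2 : ∀ j, 0 ≤ bv (fun x => G' (ψ x)) j := fun j => bv_nonneg hG2 j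
      have hs2 : ∀ j, j ≠ 0 → bv (fun x => G' (ψ x)) j ≤ bs := by
        intro j hj
        rcases hbs with hbs | hbs
        · exact ((hm2 j).trans_eq e0).trans hbs
        · rw [← e0] at hbs
          have g0 := hn2 0
          have g1 := hn2 1
          have g2 := hn2 2
          have g3 := hn2 3
          have hj' : j = 1 ∨ j = 2 ∨ j = 3 := by
            fin_cases j <;> simp at hj ⊢
          rcases hj' with rfl | rfl | rfl <;> linarith
      have ht := total2 hcell hG2 (by rw [e0]; exact hbe) (by rw [e0]; exact hbb) hm2 hs2 ht4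
      have hv2 : volume (Body (fun x => G' (ψ x))) = volume (Body G') := by
        rw [fin3_body, volume_iso _ (CW_Body hG'.sb hG'.tau.le).cpt.measurableSet]
      rw [← hv, ← hv2, ← fin3_val]
      refine le_trans (ENNReal.ofReal_le_ofReal ?_) (volume_ge_ed hG2.sb hG2.tau hG2.R1)
      linarith

/-- Meissner's conjecture from the cell certificates -/
theorem full3
    (hc : ∀ m : ℝ, 0 ≤ m → m ≤ 143 / 1000 → HasCell m)
    {C : Set E} (h : CW C) :
    ENNReal.ofReal ((2 / 3 - √3 / 4 * Real.arccos (1 / 3)) * Real.pi) ≤ volume C := by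
  obtain ⟨c, hcb⟩ := jung (C := C) (fun x hx y hy => CW_dist h hx hy)
  rw [← volume_translate C c]
  have hT : CW ((fun x => x - c) '' C) := CW_translate h c
  have h38 : √(3 / 8 : ℝ) ≤ 4 / 5 := by
    rw [Real.sqrt_le_left (by norm_num)]
    norm_num
  have hb : (fun x => x - c) '' C ⊆ closedBall (0 : E) (4 / 5) := by
    rintro _ ⟨x, hx, rfl⟩
    have h1 := hcb hx
    rw [mem_closedBall, dist_eq_norm] at h1
    rw [mem_closedBall_zero_iff]
    exact h1.trans h38
  generalize (fun x => x - c) '' C = D at hT hb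
  have hS : SH (supp D) (4 / 5) := supp_SH hT hb
  have hB : Body (supp D) = D := body_supp hT
  rw [← hB]
  have hev : ∀ᶠ ε : ℝ in nhdsWithin 0 (Ioi 0),
      ENNReal.ofReal ((2 / 3 - √3 / 4 * Real.arccos (1 / 3)) * Real.pi) ≤
        ENNReal.ofReal ((1 + 5 * ε) ^ 3) * volume (Body (supp D)) := by
    filter_upwards [Ioo_mem_nhdsGT (show (0 : ℝ) < 1 / 64 by norm_num)] with ε hε
    obtain ⟨G, τ, hτ, hG, hGH⟩ := exists_smooth hS (by norm_num) hε.1
    refine le_trans (smooth_all3 hc hG hτ (by linarith [hε.2])) ?_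
    apply volume_body_scale
    · have := hε.1
      positivity
    · intro x
      have h1 := hGH x
      have h2 := SH_lower hS x
      have h3 := hε.1
      nlinarith
  have hr : Filter.Tendsto (fun ε : ℝ =>
      ENNReal.ofReal ((1 + 5 * ε) ^ 3) * volume (Body (supp D)))
      (nhdsWithin 0 (Ioi 0)) (nhds (volume (Body (supp D)))) := by
    have hc : Continuous (fun ε : ℝ => ENNReal.ofReal ((1 + 5 * ε) ^ 3)) :=
      ENNReal.continuous_ofReal.comp (by fun_prop)
    have h0 := (hc.tendsto 0).mono_left (nhdsWithin_le_nhds (s := Ioi (0 : ℝ)))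
    have h1 : ENNReal.ofReal ((1 + 5 * 0) ^ 3) = 1 := by simp
    rw [h1] at h0
    have h2 := ENNReal.Tendsto.mul_const (b := volume (Body (supp D))) h0 (Or.inl one_ne_zero)
    simpa using h2
  exact le_of_tendsto_of_tendsto tendsto_const_nhds hr hev

end Pool.Agent.MGF
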