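import Pool.Agent.MGE.Defs
/-!
MGF: geometry of the full Meissner conjecture (MP_f10237_gt). Definitions.

Frame: `G` smooth support function of a body of width one with `G (vv i - vv j) = 1/2`.
`D_i = <.,vv i> - G` on the cone over the triangle `N_i` with vertices `vv i - vv j`.
-/
set_option autoImplicit false

open MeasureTheory Set Metric Pool.Agent.MEIS Pool.Agent.MSQ Pool.Agent.MGE

namespace Pool.Agent.MGF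

noncomputable section

/-! ### barycentric coordinates -/

/-- norm of `a 0 w1 + a 1 w2 + a 2 w3` for unit vectors with mutual inner products `1/2` -/
def nW (a : E) : ℝ := √(a 0 ^ 2 + a 1 ^ 2 + a 2 ^ 2 + a 0 * a 1 + a 0 * a 2 + a 1 * a 2)

/-- the point with barycentric coordinates `a` in the cone at vertex `i`, edges to `j, k, l` -/
def Wp (i j k l : Fin 4) (a : E) : E :=
  a 0 • (vv i - vv j) + a 1 • (vv i - vv k) + a 2 • (vv i - vv l)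

/-- the defect `D_i` in barycentric coordinates -/
def Tf (G : E → ℝ) (i j k l : Fin 4) (a : E) : ℝ :=
  inner ℝ (Wp i j k l a) (vv i) - G (Wp i j k l a)

/-- Laplacian in barycentric coordinates -/
def Lp (T : E → ℝ) (a : E) : ℝ :=
  3 / 2 * (pd 0 (pd 0 T) a + pd 1 (pd 1 T) a + pd 2 (pd 2 T) a) -
    (pd 0 (pd 1 T) a + pd 0 (pd 2 T) a + pd 1 (pd 2 T) a)

/-- point of the plane `a 0 + a 1 + a 2 = 1` -/
def bp (x y : ℝ) : E := pt x y (1 - x - y)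

/-- the functional of a triangle -/
def CN (T : E → ℝ) : ℝ :=
  1 / √2 * ∫ x in (0 : ℝ)..1, ∫ y in (0 : ℝ)..(1 - x),
    (2 * T (bp x y) / nW (bp x y) ^ 4 + T (bp x y) * Lp T (bp x y) / nW (bp x y) ^ 3)

/-- first order side functional on the side `a 0 = 0`; `F t e1 e2 e3` -/
def sF0 (F : ℝ → ℝ → ℝ → ℝ → ℝ) (T : E → ℝ) : ℝ :=
  ∫ t in (-1 : ℝ)..1, F t (pd 1 T (pt 0 ((1 + t) / 2) ((1 - t) / 2)))
    (pd 2 T (pt 0 ((1 + t) / 2) ((1 - t) / 2))) (pd 0 T (pt 0 ((1 + t) / 2) ((1 - t) / 2)))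
/-- the same on the side `a 1 = 0` -/
def sF1 (F : ℝ → ℝ → ℝ → ℝ → ℝ) (T : E → ℝ) : ℝ :=
  ∫ t in (-1 : ℝ)..1, F t (pd 0 T (pt ((1 + t) / 2) 0 ((1 - t) / 2)))
    (pd 2 T (pt ((1 + t) / 2) 0 ((1 - t) / 2))) (pd 1 T (pt ((1 + t) / 2) 0 ((1 - t) / 2)))
/-- the same on the side `a 2 = 0` -/
def sF2 (F : ℝ → ℝ → ℝ → ℝ → ℝ) (T : E → ℝ) : ℝ :=
  ∫ t in (-1 : ℝ)..1, F t (pd 0 T (pt ((1 + t) / 2) ((1 - t) / 2) 0))
    (pd 1 T (pt ((1 + t) / 2) ((1 - t) / 2) 0)) (pd 2 T (pt ((1 + t) / 2) ((1 - t) / 2) 0))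

/-- hypotheses on the defect of a triangle; `b` is its value at `(1,1,1)` -/
structure TrHyp (T : E → ℝ) (b : ℝ) : Prop where
  sm : Sm 3 T
  hom : Hom 1 T
  conc : ∀ a : E, a ≠ 0 → ∀ v : E, ∑ i, ∑ j, v i * v j * pd i (pd j T) a ≤ 0
  curv : ∀ a : E, a ≠ 0 → ∀ v : E,
    0 ≤ ∑ i, ∑ j, v i * v j * (pd i (pd j T) a + pd i (pd j nW) a)
  nonneg : ∀ a : E, 0 ≤ a 0 → 0 ≤ a 1 → 0 ≤ a 2 → 0 ≤ T a
  v0 : T (pt 1 0 0) = 0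
  v1 : T (pt 0 1 0) = 0
  v2 : T (pt 0 0 1) = 0
  cen : T (pt 1 1 1) = b

/-! ### squares -/

/-- the reference function in the square -/
def Hs (z : ℝ × ℝ) : ℝ :=
  if 3 * z.2 ^ 2 ≤ 1 + z.1 ^ 2 then √3 / 2 * √(1 + z.1 ^ 2) - cc / 2
  else lf z - |z.2| / 2 - cc / 2
def HsXX (z : ℝ × ℝ) : ℝ :=
  if 3 * z.2 ^ 2 ≤ 1 + z.1 ^ 2 then √3 / 2 / √(1 + z.1 ^ 2) ^ 3 else lJ.fXX z
def HsXY (z : ℝ × ℝ) : ℝ := if 3 * z.2 ^ 2 ≤ 1 + z.1 ^ 2 then 0 else lJ.fXY z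
def HsYY (z : ℝ × ℝ) : ℝ := if 3 * z.2 ^ 2 ≤ 1 + z.1 ^ 2 then 0 else lJ.fYY z

/-- the density `2 A [l, l - H* - H]`, `A = H* - H` -/
def jm (J : Jet) (z : ℝ × ℝ) : ℝ :=
  (Hs z - J.f z) *
    (lJ.fXX z * (lJ.fYY z - HsYY z - J.fYY z) + lJ.fYY z * (lJ.fXX z - HsXX z - J.fXX z) -
      2 * lJ.fXY z * (lJ.fXY z - HsXY z - J.fXY z))

/-- the functional of a square -/
def JM (J : Jet) : ℝ := ∫ X in (-cc)..cc, ∫ Y in (-cc)..cc, jm J (X, Y)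

/-- the four side functionals of a square, `t = Y/c` resp. `t = X/c`, with
`(1+t) e1 + (1-t) e2 = √2 D`, `e1 - e2 = D_t`-derivative along the side, `e3` = outward derivative -/
def sXp (F : ℝ → ℝ → ℝ → ℝ → ℝ) (J : Jet) : ℝ :=
  ∫ t in (-1 : ℝ)..1,
    F t (√2 * (cc - J.f (cc, cc * t)) / 2 + (1 - t) / 2 * (-J.fY (cc, cc * t)))
      (√2 * (cc - J.f (cc, cc * t)) / 2 - (1 + t) / 2 * (-J.fY (cc, cc * t)))
      (1 / 2 - J.fX (cc, cc * t))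
def sXm (F : ℝ → ℝ → ℝ → ℝ → ℝ) (J : Jet) : ℝ :=
  ∫ t in (-1 : ℝ)..1,
    F t (√2 * (cc - J.f (-cc, cc * t)) / 2 + (1 - t) / 2 * (-J.fY (-cc, cc * t)))
      (√2 * (cc - J.f (-cc, cc * t)) / 2 - (1 + t) / 2 * (-J.fY (-cc, cc * t)))
      (1 / 2 + J.fX (-cc, cc * t))
def sYp (F : ℝ → ℝ → ℝ → ℝ → ℝ) (J : Jet) : ℝ :=
  ∫ t in (-1 : ℝ)..1,
    F t (√2 * (cc - (lf (cc * t, cc) - J.f (cc * t, cc))) / 2 +
        (1 - t) / 2 * (-(lJ.fX (cc * t, cc) - J.fX (cc * t, cc))))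
      (√2 * (cc - (lf (cc * t, cc) - J.f (cc * t, cc))) / 2 -
        (1 + t) / 2 * (-(lJ.fX (cc * t, cc) - J.fX (cc * t, cc))))
      (1 / 2 - (lJ.fY (cc * t, cc) - J.fY (cc * t, cc)))
def sYm (F : ℝ → ℝ → ℝ → ℝ → ℝ) (J : Jet) : ℝ :=
  ∫ t in (-1 : ℝ)..1,
    F t (√2 * (cc - (lf (cc * t, -cc) - J.f (cc * t, -cc))) / 2 +
        (1 - t) / 2 * (-(lJ.fX (cc * t, -cc) - J.fX (cc * t, -cc))))
      (√2 * (cc - (lf (cc * t, -cc) - J.f (cc * t, -cc))) / 2 -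
        (1 + t) / 2 * (-(lJ.fX (cc * t, -cc) - J.fX (cc * t, -cc))))
      (1 / 2 + (lJ.fY (cc * t, -cc) - J.fY (cc * t, -cc)))

/-- hypotheses on the jet of a square; `b` bounds the four central defects -/
structure SqHyp (J : Jet) (b : ℝ) : Prop where
  good : J.Good
  b0 : 0 ≤ b
  hXX : ∀ z, 0 ≤ J.fXX z
  hYY : ∀ z, 0 ≤ J.fYY z
  hdet : ∀ z, J.fXY z ^ 2 ≤ J.fXX z * J.fYY z
  lXX : ∀ z, J.fXX z ≤ lJ.fXX z
  lYY : ∀ z, J.fYY z ≤ lJ.fYY z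
  ldet : ∀ z, (lJ.fXY z - J.fXY z) ^ 2 ≤ (lJ.fXX z - J.fXX z) * (lJ.fYY z - J.fYY z)
  slX : ∀ z, |J.fX z| ≤ 1 / 2
  slY : ∀ z, |lJ.fY z - J.fY z| ≤ 1 / 2
  armX : ∀ X Y : ℝ, cc ≤ |X| → |Y| ≤ cc → J.f (X, Y) ≤ |X| / 2 + cc / 2
  armY : ∀ X Y : ℝ, |X| ≤ cc → cc ≤ |Y| → lf (X, Y) - J.f (X, Y) ≤ |Y| / 2 + cc / 2
  cor : ∀ X Y : ℝ, |X| = cc → |Y| = cc → J.f (X, Y) = cc
  ldX : ∀ X Y : ℝ, |X| = cc → |Y| ≤ cc → cc - J.f (X, Y) ≤ b * (cc + |Y|)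
  ldY : ∀ X Y : ℝ, |X| ≤ cc → |Y| = cc → cc - (lf (X, Y) - J.f (X, Y)) ≤ b * (cc + |X|)

/-- symmetry of a side functional under reversing the side -/
def Fsym (F : ℝ → ℝ → ℝ → ℝ → ℝ) : Prop := ∀ t e1 e2 e3, F (-t) e2 e1 e3 = F t e1 e2 e3

/-- A cell certificate: all central defects are at most `bb` and one of them is at least `be`. -/
structure Cell (F : ℝ → ℝ → ℝ → ℝ → ℝ) (KN Kp KS be bb : ℝ) : Prop where
  sym : Fsym F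
  cont : Continuous fun z : ℝ × ℝ × ℝ × ℝ => F z.1 z.2.1 z.2.2.1 z.2.2.2
  tri0 : ∀ (T : E → ℝ) (b : ℝ), TrHyp T b → b ≤ bb → sF0 F T + sF1 F T + sF2 F T - KN ≤ CN T
  tri1 : ∀ (T : E → ℝ) (b : ℝ), TrHyp T b → be ≤ b → b ≤ bb →
    sF0 F T + sF1 F T + sF2 F T + Kp ≤ CN T
  sq : ∀ J : Jet, SqHyp J bb → 1 / 2 ≤ J.f (0, 0) →
    -(sXp F J + sXm F J + sYp F J + sYm F J) - KS ≤ JM J
  tot : 3 * KN + 3 * KS ≤ Kp

end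

end Pool.Agent.MGF
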