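import Pool.Agent.MGF.Defs
/-!
MGF: further definitions for the geometry of the full Meissner conjecture: frame hypothesis, flux fields,
side fluxes, jets of the reference functions and of functions in barycentric coordinates.
-/
set_option autoImplicit false

open MeasureTheory Set Metric Pool.Agent.MEIS Pool.Agent.MSQ Pool.Agent.MGE

namespace Pool.Agent.MGF

noncomputable section

/-- smooth body in frame position -/
structure FG (G : E → ℝ) (R τ : ℝ) : Prop where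
  sb : SB G R τ
  tau : 0 < τ
  R1 : R < 1
  fr : ∀ i j : Fin 4, i ≠ j → G (vv i - vv j) = 1 / 2

/-- central defect at vertex `i` -/
def bv (G : E → ℝ) (i : Fin 4) : ℝ := 3 / 2 - 4 * G (vv i)

/-- symmetries sending the triangle `N_0` to `N_i` -/
def gr : Fin 4 → (E ≃ₗᵢ[ℝ] E) := ![LinearIsometryEquiv.refl ℝ E, rf 0 1, rf 0 2, rf 0 3]

/-- the symmetry `(x,y,z) ↦ (-y,-x,-z)` of the tetrahedron, exchanging the two kinds of sides of a square -/
def swE (x : E) : E := pt (-(x 1)) (-(x 0)) (-(x 2))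

/-- closed cone over the triangle `N_0` -/
def NC : Set E := {x | ∃ a : E, 0 ≤ a 0 ∧ 0 ≤ a 1 ∧ 0 ≤ a 2 ∧ x = Wp 0 1 2 3 a}

/-- the square -/
def SqR : Set (ℝ × ℝ) := {z | |z.1| ≤ cc ∧ |z.2| ≤ cc}

/-! ### jets -/

/-- difference of jets -/
def Jsub (J K : Jet) : Jet where
  f := fun z => J.f z - K.f z
  fX := fun z => J.fX z - K.fX z
  fY := fun z => J.fY z - K.fY z
  fXX := fun z => J.fXX z - K.fXX z
  fXY := fun z => J.fXY z - K.fXY z
  fYY := fun z => J.fYY z - K.fYY z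
  fXXX := fun z => J.fXXX z - K.fXXX z
  fXXY := fun z => J.fXXY z - K.fXXY z
  fXYY := fun z => J.fXYY z - K.fXYY z
  fYYY := fun z => J.fYYY z - K.fYYY z

/-- reference function in the core: `√3/2 √(1+X²) - c/2` -/
def cJ : Jet where
  f := fun z => √3 / 2 * √(1 + z.1 ^ 2) - cc / 2
  fX := fun z => √3 / 2 * z.1 / √(1 + z.1 ^ 2)
  fY := fun _ => 0
  fXX := fun z => √3 / 2 / √(1 + z.1 ^ 2) ^ 3
  fXY := fun _ => 0
  fYY := fun _ => 0
  fXXX := fun z => -(3 * (√3 / 2)) * z.1 / √(1 + z.1 ^ 2) ^ 5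
  fXXY := fun _ => 0
  fXYY := fun _ => 0
  fYYY := fun _ => 0

/-- reference function in the slivers: `l - s Y/2 - c/2`, `s = 1` above, `s = -1` below -/
def sJ (s : ℝ) : Jet where
  f := fun z => lf z - s * z.2 / 2 - cc / 2
  fX := lJ.fX
  fY := fun z => lJ.fY z - s / 2
  fXX := lJ.fXX
  fXY := lJ.fXY
  fYY := lJ.fYY
  fXXX := lJ.fXXX
  fXXY := lJ.fXXY
  fXYY := lJ.fXYY
  fYYY := lJ.fYYY

/-- `A = H* - H` and `f = l - H* - H` for a reference jet `K` -/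
def jA (K J : Jet) : Jet := Jsub K J
def jf (K J : Jet) : Jet := Jsub (Jsub lJ K) J

/-- mixed discriminant -/
def mxd (a b : Jet) (z : ℝ × ℝ) : ℝ :=
  (a.fXX z * b.fYY z + a.fYY z * b.fXX z - 2 * a.fXY z * b.fXY z) / 2

/-- flux field of `2 l [a,f] - 2 a [l,f]` -/
def VX (l a f : Jet) (z : ℝ × ℝ) : ℝ :=
  l.f z * (a.fX z * f.fYY z - a.fY z * f.fXY z) - a.f z * (l.fX z * f.fYY z - l.fY z * f.fXY z)
def VY (l a f : Jet) (z : ℝ × ℝ) : ℝ :=
  l.f z * (a.fY z * f.fXX z - a.fX z * f.fXY z) - a.f z * (l.fY z * f.fXX z - l.fX z * f.fXY z)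

/-- the curve between core and sliver -/
def gG (X : ℝ) : ℝ := √((1 + X ^ 2) / 3)

/-! ### jets in the plane `a 0 + a 1 + a 2 = 1` -/

/-- derivative along `e_i - e_2` -/
def dd (i : Fin 3) (T : E → ℝ) (a : E) : ℝ := pd i T a - pd 2 T a

def jT (T : E → ℝ) : Jet where
  f := fun z => T (bp z.1 z.2)
  fX := fun z => dd 0 T (bp z.1 z.2)
  fY := fun z => dd 1 T (bp z.1 z.2)
  fXX := fun z => dd 0 (dd 0 T) (bp z.1 z.2)
  fXY := fun z => dd 0 (dd 1 T) (bp z.1 z.2)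
  fYY := fun z => dd 1 (dd 1 T) (bp z.1 z.2)
  fXXX := fun z => dd 0 (dd 0 (dd 0 T)) (bp z.1 z.2)
  fXXY := fun z => dd 0 (dd 0 (dd 1 T)) (bp z.1 z.2)
  fXYY := fun z => dd 0 (dd 1 (dd 1 T)) (bp z.1 z.2)
  fYYY := fun z => dd 1 (dd 1 (dd 1 T)) (bp z.1 z.2)

/-- `l + T` -/
def lT (T : E → ℝ) : E → ℝ := fun a => nW a + T a

/-- flux density at the point `a` of the side `a u = 0`, other coordinates `v, w` -/
def fx (T : E → ℝ) (u v w : Fin 3) (a : E) : ℝ :=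
  nW a * (pd u T a * ((pd v (pd v (lT T)) a + pd w (pd w (lT T)) a - 2 * pd v (pd w (lT T)) a) / 4) -
      (pd v T a - pd w T a) / 2 * ((pd u (pd v (lT T)) a - pd u (pd w (lT T)) a) / 2)) -
    T a * (pd u nW a * ((pd v (pd v (lT T)) a + pd w (pd w (lT T)) a - 2 * pd v (pd w (lT T)) a) / 4) -
      (pd v nW a - pd w nW a) / 2 * ((pd u (pd v (lT T)) a - pd u (pd w (lT T)) a) / 2))

/-- flux through the side `a 0 = 0`, `a 1 = 0`, `a 2 = 0` -/
def sP0 (T : E → ℝ) : ℝ := ∫ t in (-1 : ℝ)..1, fx T 0 1 2 (pt 0 ((1 + t) / 2) ((1 - t) / 2))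
def sP1 (T : E → ℝ) : ℝ := ∫ t in (-1 : ℝ)..1, fx T 1 0 2 (pt ((1 + t) / 2) 0 ((1 - t) / 2))
def sP2 (T : E → ℝ) : ℝ := ∫ t in (-1 : ℝ)..1, fx T 2 0 1 (pt ((1 + t) / 2) ((1 - t) / 2) 0)

/-- density of a triangle in barycentric coordinates -/
def dN (G : E → ℝ) (x y : ℝ) : ℝ :=
  ed G (Wp 0 1 2 3 (bp x y)) / (√2 * nW (bp x y) ^ 3)

/-- integral over one triangle -/
def NN (G : E → ℝ) : ℝ := ∫ x in (0 : ℝ)..1, ∫ y in (0 : ℝ)..(1 - x), dN G x y

end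

end Pool.Agent.MGF
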