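import Pool.Agent.MGF.Defs2
import Pool.Agent.MEIS.FIN
import Pool.Agent.MEIS.MOL
import Pool.Agent.MEIS.SCA
import Pool.Agent.MEIS.SUP
import Pool.Agent.MEIS.HBA
import Pool.Agent.MEIS.SHB
import Pool.Agent.MEIS.TRN
import Pool.Agent.MEIS.JUN
import Pool.Agent.FRX.HEL
import Pool.Agent.FRX.LAM
import Pool.Agent.MGE.VV
import Pool.Agent.MGE.GVO
import Pool.Agent.MGF.TRH
import Pool.Agent.MGF.BCW
import Pool.Agent.MGF.FRS
import Pool.Agent.MGF.TOT
/-!
FIN2 (150 lines). The full theorem from the cell certificates.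
PROOF. smooth_all: C = Body G is CW (CW_Body). If C ⊆ closedBall c (6027/10000) for some c: main_small (MEIS.FIN). Otherwise four_points (FRX.HEL) gives p, l with (.6027)² ≤ ∑ l l ‖p - p‖²; with d_ij = 1 - ‖p i - p j‖² ≥ 0
(CW_dist) lam_bound gives Dd p ≤ .2078. to_frame: G', all bv ≤ .143; m = the largest bv G' i ≥ 0 (bv_nonneg); hc m gives a cell; total; volume_ge_ed (MGE.GVO): volume (Body G') ≥ 2π/3 - (1/2) 6 Es.
full: as MGE.LIM. C is contained in a ball of radius √(3/8) < 4/5 after translation (jung, CW_dist), H = supp C, SH H; exists_smooth gives SB G (R+δ) τ with G ≤ H + δ‖.‖ ≤ (1 + 5δ) H, so V* ≤ volume (Body G) ≤ (1+5δ)³ volume C; δ → 0.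
-/
set_option autoImplicit false

open MeasureTheory Set Metric Pool.Agent.MEIS Pool.Agent.MSQ Pool.Agent.MGE

namespace Pool.Agent.MGF

private theorem fin_val : 2 * Real.pi / 3 - 1 / 2 * (6 * Es) =
    (2 / 3 - √3 / 4 * Real.arccos (1 / 3)) * Real.pi := by
  have h3 : (√3 : ℝ) ≠ 0 := by positivity
  have h9 : (√3 : ℝ) ^ 2 = 3 := Real.sq_sqrt (by norm_num)
  unfold Es
  have e : Real.pi * Real.arccos (1 / 3) / (4 * √3) = Real.pi * Real.arccos (1 / 3) * √3 / 12 := by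
    rw [div_eq_div_iff (by positivity) (by norm_num)]
    have : Real.pi * Real.arccos (1 / 3) * √3 * (4 * √3) =
      Real.pi * Real.arccos (1 / 3) * 4 * (√3) ^ 2 := by ring
    rw [this, h9]
    ring
  rw [e]
  ring

theorem smooth_all
    (hc : ∀ m : ℝ, 0 ≤ m → m ≤ 143 / 1000 → ∃ (F : ℝ → ℝ → ℝ → ℝ → ℝ) (KN Kp KS be bb : ℝ),
      Cell F KN Kp KS be bb ∧ 0 ≤ KN ∧ be ≤ m ∧ m ≤ bb)
    {G : E → ℝ} {R τ : ℝ} (h : SB G R τ) (hτ : 0 < τ) (hR : R < 1) :
    ENNReal.ofReal ((2 / 3 - √3 / 4 * Real.arccos (1 / 3)) * Real.pi) ≤ volume (Body G) := by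
  have hCW : CW (Body G) := CW_Body h hτ.le
  by_cases hs : ∃ c : E, Body G ⊆ closedBall c (6027 / 10000)
  · obtain ⟨c, hc'⟩ := hs
    exact main_small hCW hc'
  · obtain ⟨p, hp, l, hl0, hl1, hl⟩ := FRX.four_points (by norm_num) hs
    have hD : FRX.Dd p ≤ 2078 / 10000 := by
      have hd : ∀ i j : Fin 4, 0 ≤ 1 - ‖p i - p j‖ ^ 2 := by
        intro i j
        have h1 := CW_dist hCW (hp i) (hp j)
        have h2 := norm_nonneg (p i - p j)
        nlinarith
      have := FRX.lam_bound hl0 hl1 (d := fun i j => 1 - ‖p i - p j‖ ^ 2) hd (by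
        simpa using hl)
      exact this
    obtain ⟨G', hG', hb', hv⟩ := to_frame h hτ hp hD
    obtain ⟨i, -, hi⟩ := Finset.exists_max_image Finset.univ (fun i : Fin 4 => bv G' i)
      ⟨0, Finset.mem_univ 0⟩
    obtain ⟨F, KN, Kp, KS, be, bb, hcell, hKN, hbe, hbb⟩ := hc (bv G' i) (bv_nonneg hG' i) (hb' i)
    have ht := total hcell hG' (fun j => (hi j (Finset.mem_univ j)).trans hbb) ⟨i, hbe⟩ hKN
    rw [← hv, ← fin_val]
    refine le_trans (ENNReal.ofReal_le_ofReal ?_) (volume_ge_ed hG'.sb hG'.tau hG'.R1)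
    linarith

/-- Meissner's conjecture from the cell certificates -/
theorem full
    (hc : ∀ m : ℝ, 0 ≤ m → m ≤ 143 / 1000 → ∃ (F : ℝ → ℝ → ℝ → ℝ → ℝ) (KN Kp KS be bb : ℝ),
      Cell F KN Kp KS be bb ∧ 0 ≤ KN ∧ be ≤ m ∧ m ≤ bb)
    {C : Set E} (h : CW C) :
    ENNReal.ofReal ((2 / 3 - √3 / 4 * Real.arccos (1 / 3)) * Real.pi) ≤ volume C := by
  obtain ⟨c, hcb⟩ := jung (C := C) (fun x hx y hy => CW_dist h hx hy)
  rw [← volume_translate C c]
  have hT : CW ((fun x => x - c) '' C) := CW_translate h c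
  have h38 : √(3 / 8 : ℝ) ≤ 4 / 5 := by
    rw [Real.sqrt_le_left (by norm_num)]
    norm_num
  have hb : (fun x => x - c) '' C ⊆ closedBall (0 : E) (4 / 5) := by
    rintro _ ⟨x, hx, rfl⟩
    have h1 := hcb hx
    rw [mem_closedBall, dist_eq_norm] at h1
    rw [mem_closedBall_zero_iff]
    exact h1.trans h38
  generalize (fun x => x - c) '' C = D at hT hb
  have hS : SH (supp D) (4 / 5) := supp_SH hT hb
  have hB : Body (supp D) = D := body_supp hT
  rw [← hB]
  have hev : ∀ᶠ ε : ℝ in nhdsWithin 0 (Ioi 0),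
      ENNReal.ofReal ((2 / 3 - √3 / 4 * Real.arccos (1 / 3)) * Real.pi) ≤
        ENNReal.ofReal ((1 + 5 * ε) ^ 3) * volume (Body (supp D)) := by
    filter_upwards [Ioo_mem_nhdsGT (show (0 : ℝ) < 1 / 64 by norm_num)] with ε hε
    obtain ⟨G, τ, hτ, hG, hGH⟩ := exists_smooth hS (by norm_num) hε.1
    refine le_trans (smooth_all hc hG hτ (by linarith [hε.2])) ?_
    apply volume_body_scale
    · have := hε.1
      positivity
    · intro x
      have h1 := hGH x
      have h2 := SH_lower hS x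
      have h3 := hε.1
      nlinarith
  have hr : Filter.Tendsto (fun ε : ℝ =>
      ENNReal.ofReal ((1 + 5 * ε) ^ 3) * volume (Body (supp D)))
      (nhdsWithin 0 (Ioi 0)) (nhds (volume (Body (supp D)))) := by
    have hc : Continuous (fun ε : ℝ => ENNReal.ofReal ((1 + 5 * ε) ^ 3)) :=
      ENNReal.continuous_ofReal.comp (by fun_prop)
    have h0 := (hc.tendsto 0).mono_left (nhdsWithin_le_nhds (s := Ioi (0 : ℝ)))
    have h1 : ENNReal.ofReal ((1 + 5 * 0) ^ 3) = 1 := by simp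
    rw [h1] at h0
    have h2 := ENNReal.Tendsto.mul_const (b := volume (Body (supp D))) h0 (Or.inl one_ne_zero)
    simpa using h2
  exact le_of_tendsto_of_tendsto tendsto_const_nhds hr hev

end Pool.Agent.MGF
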